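import Pool.Agent.Helper23.HDT.Defs

/-! # Gluing residue classes

PLAN. Write `q ρ = (p-1-ρ)/s+1` (the number of `i < p` with `i % s = ρ`), `ρ' = (p-1-ρ) % s` (the
class of the mirror images `p - 1 - i`). For `ρ < s ≤ p`: `p - 1 - ρ = s (q ρ - 1) + ρ'`, `ρ'' = ρ`,
`q ρ' = q ρ` (`p - 1 - ρ' = s (q - 1) + ρ`). For `i < p`: `i = ρ + s a`, `a = i / s < q ρ`; conversely
every `(ρ, a)` with `ρ < s`, `a < q ρ` gives `i = ρ + s a < p`.
`Adj`: symmetry: `i % s = j % s` is symmetric and `P ρ` symmetric; `j % s = (i % s)'` iff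
`i % s = (j % s)'`, and `N ρ' = N ρ`. 0/1: if both conditions hold then `ρ = ρ'` and `N ρ = 0`.
Sums over `j < p`: group by classes: `∑_{j<p} [j % s = σ] φ (j / s) = ∑_{a' < q σ} φ a'`
(`Finset.sum_nbij'` with `j ↦ j / s`, `a' ↦ σ + s a'`).
Regularity: `hsum` (for `ρ ≠ ρ'` the two parts are in different classes; if `ρ = ρ'` they are in the
same class and `N = 0`). Moments: with `m ρ = 2 ρ + s (q ρ - 1) - (p - 1)` (integers),
`2 (ρ + s a) + 1 - p = s (2 a + 1 - q) + m ρ` and `m ρ' = - m ρ`. So the sum is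
`s ∑ (P + N)(a, a') (2 a' + 1 - q) + m ρ ∑ (P - N)(a, a') = s D (2 a + 1 - q) + m ρ D` if `ρ ≠ ρ'`
(`hdiff`); if `ρ = ρ'` then `m ρ = 0` and `N = 0`. -/

namespace HDT

open Finset

/-- the glued matrix -/
def glue (p s : ℕ) (P N : ℕ → ℕ → ℕ → ℤ) (i j : ℕ) : ℤ :=
  if i < p ∧ j < p then
    (if i % s = j % s then P (i % s) (i / s) (j / s) else 0) +
      (if j % s = (p - 1 - i % s) % s then N (i % s) (i / s) (j / s) else 0)
  else 0

private theorem cls_eq {p s ρ : ℕ} (hsp : s ≤ p) (hρ : ρ < s) :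
    p - 1 = ρ + (p - 1 - ρ) % s + s * ((p - 1 - ρ) / s) := by
  have h := Nat.mod_add_div (p - 1 - ρ) s
  omega

private theorem cls_mod {p s ρ : ℕ} (hsp : s ≤ p) (hρ : ρ < s) :
    (p - 1 - (p - 1 - ρ) % s) % s = ρ := by
  have h := cls_eq hsp hρ
  have h1 : p - 1 - (p - 1 - ρ) % s = ρ + s * ((p - 1 - ρ) / s) := by omega
  rw [h1, Nat.add_mul_mod_self_left, Nat.mod_eq_of_lt hρ]

private theorem cls_div {p s ρ : ℕ} (hsp : s ≤ p) (hρ : ρ < s) :
    (p - 1 - (p - 1 - ρ) % s) / s = (p - 1 - ρ) / s := by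
  have h := cls_eq hsp hρ
  have h1 : p - 1 - (p - 1 - ρ) % s = ρ + s * ((p - 1 - ρ) / s) := by omega
  have hs : 0 < s := by omega
  rw [h1, Nat.add_mul_div_left _ _ hs, Nat.div_eq_of_lt hρ, zero_add]

private theorem cls_lt {p s i : ℕ} (hs : 1 ≤ s) (hi : i < p) :
    i / s < (p - 1 - i % s) / s + 1 := by
  have h := Nat.mod_add_div i s
  have h1 : s * (i / s) ≤ p - 1 - i % s := by omega
  have h2 : i / s ≤ (p - 1 - i % s) / s := by
    rw [Nat.le_div_iff_mul_le (by omega), mul_comm]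
    exact h1
  omega

private theorem cls_mem {p s σ a : ℕ} (hsp : s ≤ p) (hσ : σ < s)
    (ha : a < (p - 1 - σ) / s + 1) : σ + s * a < p := by
  have h1 : s * a ≤ s * ((p - 1 - σ) / s) := Nat.mul_le_mul_left _ (by omega)
  have h2 := Nat.mul_div_le (p - 1 - σ) s
  omega

private theorem cls_sum {p s σ : ℕ} (hs : 1 ≤ s) (hsp : s ≤ p) (hσ : σ < s) (φ : ℕ → ℤ) :
    ∑ j ∈ range p, (if j % s = σ then φ j else 0) =
      ∑ a ∈ range ((p - 1 - σ) / s + 1), φ (σ + s * a) := by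
  rw [← Finset.sum_filter]
  refine Finset.sum_nbij' (fun j => j / s) (fun a => σ + s * a) ?_ ?_ ?_ ?_ ?_
  · intro j hj
    rw [Finset.mem_filter, Finset.mem_range] at hj
    rw [Finset.mem_range, ← hj.2]
    exact cls_lt hs hj.1
  · intro a ha
    rw [Finset.mem_range] at ha
    rw [Finset.mem_filter, Finset.mem_range]
    refine ⟨cls_mem hsp hσ ha, ?_⟩
    rw [Nat.add_mul_mod_self_left, Nat.mod_eq_of_lt hσ]
  · intro j hj
    rw [Finset.mem_filter] at hj
    have h := Nat.mod_add_div j s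
    rw [← hj.2]
    exact h
  · intro a _
    show (σ + s * a) / s = a
    rw [Nat.add_mul_div_left _ _ (by omega), Nat.div_eq_of_lt hσ, zero_add]
  · intro j hj
    rw [Finset.mem_filter] at hj
    show φ j = φ (σ + s * (j / s))
    have h := Nat.mod_add_div j s
    rw [← hj.2, h]

private theorem glue_sum {p s : ℕ} (hs : 1 ≤ s) (hsp : s ≤ p) (P N : ℕ → ℕ → ℕ → ℤ) {i : ℕ}
    (hi : i < p) (φ : ℕ → ℤ) :
    ∑ j ∈ range p, glue p s P N i j * φ j =
      ∑ a ∈ range ((p - 1 - i % s) / s + 1), (P (i % s) (i / s) a * φ (i % s + s * a) +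
        N (i % s) (i / s) a * φ ((p - 1 - i % s) % s + s * a)) := by
  have hρ : i % s < s := Nat.mod_lt _ (by omega)
  have hρ' : (p - 1 - i % s) % s < s := Nat.mod_lt _ (by omega)
  have h1 : ∀ j ∈ range p, glue p s P N i j * φ j =
      (if j % s = i % s then P (i % s) (i / s) (j / s) * φ j else 0) +
      (if j % s = (p - 1 - i % s) % s then N (i % s) (i / s) (j / s) * φ j else 0) := by
    intro j hj
    rw [Finset.mem_range] at hj
    unfold glue
    rw [if_pos ⟨hi, hj⟩, add_mul, ite_mul, ite_mul, zero_mul]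
    congr 1
    by_cases h : i % s = j % s
    · rw [if_pos h, if_pos h.symm]
    · rw [if_neg h, if_neg (fun h2 => h h2.symm)]
  rw [Finset.sum_congr rfl h1, Finset.sum_add_distrib,
    cls_sum hs hsp hρ (fun j => P (i % s) (i / s) (j / s) * φ j),
    cls_sum hs hsp hρ' (fun j => N (i % s) (i / s) (j / s) * φ j), cls_div hsp hρ,
    ← Finset.sum_add_distrib]
  refine Finset.sum_congr rfl fun a _ => ?_
  show P (i % s) (i / s) ((i % s + s * a) / s) * φ (i % s + s * a) +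
    N (i % s) (i / s) (((p - 1 - i % s) % s + s * a) / s) * φ ((p - 1 - i % s) % s + s * a) = _
  rw [Nat.add_mul_div_left _ _ (by omega), Nat.div_eq_of_lt hρ, zero_add,
    Nat.add_mul_div_left _ _ (by omega), Nat.div_eq_of_lt hρ', zero_add]

theorem classRed {p s : ℕ} (hs : 1 ≤ s) (hsp : s ≤ p) (r : ℕ) (D : ℤ) (P N : ℕ → ℕ → ℕ → ℤ)
    (hP : ∀ ρ < s, Adj ((p - 1 - ρ) / s + 1) (P ρ))
    (hN : ∀ ρ < s, Adj ((p - 1 - ρ) / s + 1) (N ρ))
    (hPr : ∀ ρ < s, P ((p - 1 - ρ) % s) = P ρ) (hNr : ∀ ρ < s, N ((p - 1 - ρ) % s) = N ρ)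
    (hself : ∀ ρ < s, (p - 1 - ρ) % s = ρ → N ρ = fun _ _ => 0)
    (hsum : ∀ ρ < s, ∀ a < (p - 1 - ρ) / s + 1,
      ∑ a' ∈ range ((p - 1 - ρ) / s + 1), (P ρ a a' + N ρ a a') = r)
    (hmom : ∀ ρ < s, ∀ a < (p - 1 - ρ) / s + 1,
      ∑ a' ∈ range ((p - 1 - ρ) / s + 1), (P ρ a a' + N ρ a a') *
        (2 * (a' : ℤ) + 1 - ((p - 1 - ρ) / s + 1 : ℕ)) =
        D * (2 * (a : ℤ) + 1 - ((p - 1 - ρ) / s + 1 : ℕ)))
    (hdiff : ∀ ρ < s, (p - 1 - ρ) % s ≠ ρ → ∀ a < (p - 1 - ρ) / s + 1,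
      ∑ a' ∈ range ((p - 1 - ρ) / s + 1), (P ρ a a' - N ρ a a') = D) :
    Adj p (glue p s P N) ∧ Exact p (glue p s P N) r D := by
  have hm : ∀ i : ℕ, i % s < s := fun i => Nat.mod_lt _ (by omega)
  refine ⟨⟨?_, ?_, ?_, ?_⟩, ?_⟩
  · intro i j
    unfold glue
    by_cases h : i < p ∧ j < p
    · rw [if_pos h, if_pos (show j < p ∧ i < p from ⟨h.2, h.1⟩)]
      congr 1
      · by_cases h1 : i % s = j % s
        · rw [if_pos h1, if_pos h1.symm, ← h1]
          exact (hP _ (hm i)).1 _ _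
        · rw [if_neg h1, if_neg fun h2 => h1 h2.symm]
      · by_cases h1 : j % s = (p - 1 - i % s) % s
        · have h2 : i % s = (p - 1 - j % s) % s := by
            rw [h1, cls_mod hsp (hm i)]
          rw [if_pos h1, if_pos h2]
          have h3 : N (j % s) = N (i % s) := by
            rw [h1, hNr _ (hm i)]
          rw [h3]
          exact (hN _ (hm i)).1 _ _
        · have h2 : ¬ i % s = (p - 1 - j % s) % s := by
            intro h2
            apply h1
            rw [h2, cls_mod hsp (hm j)]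
          rw [if_neg h1, if_neg h2]
    · rw [if_neg h, if_neg (show ¬ (j < p ∧ i < p) from fun h2 => h ⟨h2.2, h2.1⟩)]
  · intro i
    unfold glue
    rw [(hP _ (hm i)).2.1, (hN _ (hm i)).2.1]
    simp
  · intro i j
    unfold glue
    by_cases h : i < p ∧ j < p
    · rw [if_pos h]
      by_cases h1 : i % s = j % s
      · rw [if_pos h1]
        by_cases h2 : j % s = (p - 1 - i % s) % s
        · have h3 : N (i % s) = fun _ _ => 0 := hself _ (hm i) (by rw [← h2, h1])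
          rw [if_pos h2, h3, add_zero]
          exact (hP _ (hm i)).2.2.1 _ _
        · rw [if_neg h2, add_zero]
          exact (hP _ (hm i)).2.2.1 _ _
      · rw [if_neg h1, zero_add]
        by_cases h2 : j % s = (p - 1 - i % s) % s
        · rw [if_pos h2]
          exact (hN _ (hm i)).2.2.1 _ _
        · rw [if_neg h2]
          exact Or.inl rfl
    · rw [if_neg h]
      exact Or.inl rfl
  · intro i j hi
    unfold glue
    rw [if_neg fun h => absurd h.1 (by omega)]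
  · intro i hi
    have hρ := hm i
    obtain ⟨ρ, hρd⟩ : ∃ ρ, ρ = i % s := ⟨_, rfl⟩
    obtain ⟨a, had⟩ : ∃ a, a = i / s := ⟨_, rfl⟩
    have hia : i = ρ + s * a := by
      rw [hρd, had, Nat.mod_add_div]
    have hlt := cls_lt hs hi
    have hg := glue_sum hs hsp P N hi
    rw [← hρd, ← had] at hlt hg
    rw [← hρd] at hρ
    have hcl := cls_eq hsp hρ
    constructor
    · have h1 := hg fun _ => 1
      simp only [mul_one] at h1
      rw [h1]
      exact hsum ρ hρ a hlt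
    · rw [hg fun j => 2 * (j : ℤ) + 1 - p]
      obtain ⟨ρ', hρ'd⟩ : ∃ ρ', ρ' = (p - 1 - ρ) % s := ⟨_, rfl⟩
      obtain ⟨q, hqd⟩ : ∃ q, q = (p - 1 - ρ) / s := ⟨_, rfl⟩
      have hmo := hmom ρ hρ a hlt
      have hdi := hdiff ρ hρ
      rw [← hρ'd, ← hqd] at hcl
      rw [← hρ'd] at hdi
      rw [← hqd] at hmo hdi hlt
      rw [← hρ'd, ← hqd]
      have hp : (p : ℤ) = ρ + ρ' + s * q + 1 := by
        have h2 : p = ρ + ρ' + s * q + 1 := by omega
        rw [h2]
        push_cast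
        ring
      have h3 : ∀ b ∈ range (q + 1), P ρ a b * (2 * ((ρ + s * b : ℕ) : ℤ) + 1 - p) +
          N ρ a b * (2 * ((ρ' + s * b : ℕ) : ℤ) + 1 - p) =
          s * ((P ρ a b + N ρ a b) * (2 * (b : ℤ) + 1 - (q + 1 : ℕ))) +
            ((ρ : ℤ) - ρ') * (P ρ a b - N ρ a b) := by
        intro b _
        rw [hp]
        push_cast
        ring
      rw [Finset.sum_congr rfl h3, Finset.sum_add_distrib, ← Finset.mul_sum, ← Finset.mul_sum, hmo]
      by_cases h4 : ρ' = ρ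
      · rw [h4, sub_self, zero_mul, add_zero, hia, hp, h4]
        push_cast
        ring
      · rw [hdi h4 a hlt, hia, hp]
        push_cast
        ring

end HDT
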