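import Pool.Agent.Helper23.HDT.Defs

/-! # The pattern property is robust under few changes per row; monotonicity

PLAN. `Pat.chg`: let `i, e, l` be given, `B` from `hP`, and for every `k : Fin 4` the set `S k` from
`hc (i k)`. Put `B' = B.filter (fun b => ∀ k, b ∉ S k ∧ b + l ∉ S k)`. For `b ∈ B'` the entries at
`b` and `b + l` are unchanged. `B \ B'` is contained in the union over `k` of
`S k ∪ (S k).image (· - l)` (if `b + l ∈ S k` then `b = (b + l) - l`), of size at most `4 * 2 * ξ`.
`Chg.trans`: union of the two sets. `Chg.deg`, `Chg.wt`: the difference of the row sums is a sum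
over `S ∩ range n` of numbers of absolute value at most 1 (resp. at most `n`); entries are 0 or 1. -/

namespace HDT

open Finset

theorem Pat.mono {n L L' β β' : ℕ} {A : ℕ → ℕ → ℤ} {F : ℕ → ℕ → Prop} (hP : Pat n L β A F)
    (hL : L' ≤ L) (hβ : β' ≤ β) : Pat n L' β' A F := by
  intro i e l hi hn he h1 h2
  obtain ⟨B, hB, hB'⟩ := hP i e l hi hn he h1 (by omega)
  exact ⟨B, by omega, hB'⟩

theorem Pat.chg {n L β ξ : ℕ} {A A' : ℕ → ℕ → ℤ} {F : ℕ → ℕ → Prop} (hP : Pat n L β A F)
    (hc : Chg n ξ A A') : Pat n L (β - 8 * ξ) A' F := by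
  classical
  intro i e l hi hn he h1 h2
  obtain ⟨B, hB, hB'⟩ := hP i e l hi hn he h1 h2
  have hS : ∀ k : Fin 4, ∃ S : Finset ℕ, S.card ≤ ξ ∧ ∀ j, A' (i k) j ≠ A (i k) j → j ∈ S :=
    fun k => hc (i k) (hn k)
  choose S hS1 hS2 using hS
  refine ⟨B.filter (fun b => ∀ k, b ∉ S k ∧ b + l ∉ S k), ?_, ?_⟩
  · have hsub : B ⊆ B.filter (fun b => ∀ k, b ∉ S k ∧ b + l ∉ S k) ∪
        (Finset.univ : Finset (Fin 4)).biUnion (fun k => S k ∪ (S k).image (fun x => x - l)) := by
      intro b hb
      by_cases h : ∀ k, b ∉ S k ∧ b + l ∉ S k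
      · exact Finset.mem_union_left _ (Finset.mem_filter.2 ⟨hb, h⟩)
      · push Not at h
        obtain ⟨k, hk⟩ := h
        apply Finset.mem_union_right
        rw [Finset.mem_biUnion]
        refine ⟨k, Finset.mem_univ _, ?_⟩
        by_cases hbk : b ∈ S k
        · exact Finset.mem_union_left _ hbk
        · exact Finset.mem_union_right _ (Finset.mem_image.2 ⟨b + l, hk hbk, Nat.add_sub_cancel _ _⟩)
    have hc1 := Finset.card_le_card hsub
    have hc2 := Finset.card_union_le (B.filter (fun b => ∀ k, b ∉ S k ∧ b + l ∉ S k))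
      ((Finset.univ : Finset (Fin 4)).biUnion (fun k => S k ∪ (S k).image (fun x => x - l)))
    have hc3 : ((Finset.univ : Finset (Fin 4)).biUnion
        (fun k => S k ∪ (S k).image (fun x => x - l))).card ≤ 4 * (2 * ξ) := by
      refine Finset.card_biUnion_le_card_mul (Finset.univ : Finset (Fin 4)) _ _ fun k _ => ?_
      have h5 := Finset.card_union_le (S k) ((S k).image (fun x => x - l))
      have h6 : ((S k).image (fun x => x - l)).card ≤ (S k).card := Finset.card_image_le
      have h7 := hS1 k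
      omega
    omega
  · intro b hb
    rw [Finset.mem_filter] at hb
    obtain ⟨h3, h4⟩ := hB' b hb.1
    refine ⟨h3, fun k => ?_⟩
    obtain ⟨g1, g2, g3, g4, g5, g6⟩ := h4 k
    have e1 : A' (i k) b = A (i k) b := by
      by_contra h
      exact (hb.2 k).1 (hS2 k b h)
    have e2 : A' (i k) (b + l) = A (i k) (b + l) := by
      by_contra h
      exact (hb.2 k).2 (hS2 k (b + l) h)
    exact ⟨g1, g2, g3, g4, e1.trans g5, e2.trans g6⟩

theorem Chg.trans {n ξ ξ' : ℕ} {A A' A'' : ℕ → ℕ → ℤ} (h : Chg n ξ A A') (h' : Chg n ξ' A' A'') :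
    Chg n (ξ + ξ') A A'' := by
  classical
  intro i hi
  obtain ⟨S, hS, hS'⟩ := h i hi
  obtain ⟨T, hT, hT'⟩ := h' i hi
  refine ⟨S ∪ T, ?_, ?_⟩
  · have := Finset.card_union_le S T
    omega
  · intro j hj
    rw [Finset.mem_union]
    by_cases h1 : A' i j = A i j
    · right
      apply hT'
      rw [h1]
      exact hj
    · left
      exact hS' j h1

theorem Chg.wt_le {n ξ : ℕ} {A A' : ℕ → ℕ → ℤ} (hA : Adj n A) (hA' : Adj n A')
    (h : Chg n ξ A A') {i : ℕ} (hi : i < n) : |wt n A' i - wt n A i| ≤ (n : ℤ) * ξ := by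
  classical
  obtain ⟨S, hS, hS'⟩ := h i hi
  have h1 : wt n A' i - wt n A i = ∑ j ∈ (range n).filter (fun j => j ∈ S),
      (A' i j - A i j) * (j : ℤ) := by
    unfold wt
    rw [← Finset.sum_sub_distrib, Finset.sum_filter]
    apply Finset.sum_congr rfl
    intro j _
    by_cases hj : j ∈ S
    · rw [if_pos hj]
      ring
    · rw [if_neg hj]
      have h2 : A' i j = A i j := by
        by_contra h3
        exact hj (hS' j h3)
      rw [h2, sub_self]
  rw [h1]
  have h2 : ∀ j ∈ (range n).filter (fun j => j ∈ S), |(A' i j - A i j) * (j : ℤ)| ≤ (n : ℤ) := by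
    intro j hj
    have hj' := Finset.mem_range.1 (Finset.mem_filter.1 hj).1
    have h3 : |A' i j - A i j| ≤ 1 := by
      rcases hA.2.2.1 i j with h4 | h4 <;> rcases hA'.2.2.1 i j with h5 | h5 <;>
        rw [h4, h5] <;> norm_num
    rw [abs_mul, Nat.abs_cast]
    have h4 : (0 : ℤ) ≤ (j : ℤ) := Int.natCast_nonneg j
    have h5 : (j : ℤ) ≤ n := by exact_mod_cast hj'.le
    calc |A' i j - A i j| * (j : ℤ) ≤ 1 * (j : ℤ) := mul_le_mul_of_nonneg_right h3 h4
      _ = j := one_mul _
      _ ≤ n := h5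
  calc |∑ j ∈ (range n).filter (fun j => j ∈ S), (A' i j - A i j) * (j : ℤ)|
      ≤ ∑ j ∈ (range n).filter (fun j => j ∈ S), |(A' i j - A i j) * (j : ℤ)| :=
        Finset.abs_sum_le_sum_abs _ _
    _ ≤ ((range n).filter (fun j => j ∈ S)).card • (n : ℤ) := Finset.sum_le_card_nsmul _ _ _ h2
    _ ≤ (n : ℤ) * ξ := by
      rw [nsmul_eq_mul, mul_comm]
      apply mul_le_mul_of_nonneg_left _ (Int.natCast_nonneg n)
      have h6 : ((range n).filter (fun j => j ∈ S)).card ≤ S.card := by
        apply Finset.card_le_card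
        intro j hj
        exact (Finset.mem_filter.1 hj).2
      exact_mod_cast h6.trans hS

end HDT
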