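import Pool.Agent.Helper23.HDT.Defs

/-! # Simultaneous trades with disjoint sets of entries

PLAN. `A' i j = A i j + ∑_{k<N} (u k i * w k j + w k i * u k j)`. For a pair `(i, j)` and `k < N`
the summand is nonzero only if (`i ∈ R k` and `j ∈ C k`) or (`i ∈ C k` and `j ∈ R k`) (use `hu`,
`hw`); by `hent` at most one `k < N` has a nonzero summand (case distinction: the four combinations
of the two alternatives for `k ≠ k'` all contradict `hent`), and since `R k`, `C k` are disjoint only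
one of the two products is nonzero. Hence for every `(i, j)` either `A' i j = A i j`, or there is
`k < N` with `i ∈ R k, j ∈ C k` and `A' i j = A i j + u k i * w k j`, or there is `k < N` with
`i ∈ C k, j ∈ R k` and `A' i j = A j i + u k j * w k i`. With `hpat` this gives the 0/1 property and
`F i j → A' i j = A i j` (F symmetric). Symmetry: `A` symmetric and the sum is symmetric. Diagonal:
`u k i * w k i = 0` by disjointness. Support: `R k, C k ⊆ range n`, so for `n ≤ i` all terms are 0.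
`Chg`: for `i < n` take `S = (⋃_{k<N, i ∈ R k} C k) ∪ (⋃_{k<N, i ∈ C k} R k)`:
`#S ≤ 2 n₁ + 4 γ` by `Finset.card_biUnion_le`. Row sums: sum over `j`, exchange the sums. -/

namespace HDT

open Finset

private theorem trade_cases {N : ℕ} (u w : ℕ → ℕ → ℤ) (R C : ℕ → Finset ℕ)
    (hdis : ∀ k < N, Disjoint (R k) (C k))
    (hu : ∀ k < N, ∀ i, i ∉ R k → u k i = 0) (hw : ∀ k < N, ∀ i, i ∉ C k → w k i = 0)
    (hent : ∀ k < N, ∀ k' < N, k ≠ k' → ∀ i ∈ R k, ∀ c ∈ C k, ∀ i' ∈ R k', ∀ c' ∈ C k',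
      ¬ ((i = i' ∧ c = c') ∨ (i = c' ∧ c = i'))) (i j : ℕ) :
    (∑ k ∈ range N, (u k i * w k j + w k i * u k j) = 0) ∨
    (∃ k < N, i ∈ R k ∧ j ∈ C k ∧
      ∑ k ∈ range N, (u k i * w k j + w k i * u k j) = u k i * w k j) ∨
    (∃ k < N, i ∈ C k ∧ j ∈ R k ∧
      ∑ k ∈ range N, (u k i * w k j + w k i * u k j) = u k j * w k i) := by
  have hzero : ∀ k < N, ¬ ((i ∈ R k ∧ j ∈ C k) ∨ (i ∈ C k ∧ j ∈ R k)) →
      u k i * w k j + w k i * u k j = 0 := by
    intro k hk h
    have h1 : u k i * w k j = 0 := by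
      by_cases h2 : i ∈ R k
      · by_cases h3 : j ∈ C k
        · exact absurd (Or.inl ⟨h2, h3⟩) h
        · rw [hw k hk j h3, mul_zero]
      · rw [hu k hk i h2, zero_mul]
    have h2 : w k i * u k j = 0 := by
      by_cases h2 : i ∈ C k
      · by_cases h3 : j ∈ R k
        · exact absurd (Or.inr ⟨h2, h3⟩) h
        · rw [hu k hk j h3, mul_zero]
      · rw [hw k hk i h2, zero_mul]
    rw [h1, h2, add_zero]
  by_cases hex : ∃ k < N, (i ∈ R k ∧ j ∈ C k) ∨ (i ∈ C k ∧ j ∈ R k)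
  · obtain ⟨k, hk, hact⟩ := hex
    have huniq : ∀ k' < N, k' ≠ k → ¬ ((i ∈ R k' ∧ j ∈ C k') ∨ (i ∈ C k' ∧ j ∈ R k')) := by
      intro k' hk' hne hact'
      rcases hact with ⟨h1, h2⟩ | ⟨h1, h2⟩ <;> rcases hact' with ⟨h3, h4⟩ | ⟨h3, h4⟩
      · exact hent k hk k' hk' (Ne.symm hne) i h1 j h2 i h3 j h4 (Or.inl ⟨rfl, rfl⟩)
      · exact hent k hk k' hk' (Ne.symm hne) i h1 j h2 j h4 i h3 (Or.inr ⟨rfl, rfl⟩)
      · exact hent k hk k' hk' (Ne.symm hne) j h2 i h1 i h3 j h4 (Or.inr ⟨rfl, rfl⟩)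
      · exact hent k hk k' hk' (Ne.symm hne) j h2 i h1 j h4 i h3 (Or.inl ⟨rfl, rfl⟩)
    have hsum : ∑ k ∈ range N, (u k i * w k j + w k i * u k j) =
        u k i * w k j + w k i * u k j := by
      apply Finset.sum_eq_single k
      · intro k' hk' hne
        exact hzero k' (mem_range.1 hk') (huniq k' (mem_range.1 hk') hne)
      · intro h
        exact absurd (mem_range.2 hk) h
    rcases hact with ⟨h1, h2⟩ | ⟨h1, h2⟩
    · right; left
      refine ⟨k, hk, h1, h2, ?_⟩
      rw [hsum, hw k hk i (Finset.disjoint_left.1 (hdis k hk) h1), zero_mul, add_zero]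
    · right; right
      refine ⟨k, hk, h1, h2, ?_⟩
      rw [hsum, hu k hk i (fun h => Finset.disjoint_left.1 (hdis k hk) h h1), zero_mul, zero_add,
        mul_comm]
  · left
    apply Finset.sum_eq_zero
    intro k hk
    exact hzero k (mem_range.1 hk) (fun h => hex ⟨k, mem_range.1 hk, h⟩)

theorem tradeFam {n N n₁ γ : ℕ} {A : ℕ → ℕ → ℤ} {F : ℕ → ℕ → Prop} (hA : Adj n A)
    (hF : ∀ i j, F i j → F j i) (u w : ℕ → ℕ → ℤ) (R C : ℕ → Finset ℕ)
    (hRn : ∀ k < N, R k ⊆ range n) (hCn : ∀ k < N, C k ⊆ range n)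
    (hRc : ∀ k < N, (R k).card ≤ 4) (hCc : ∀ k < N, (C k).card ≤ 2)
    (hdis : ∀ k < N, Disjoint (R k) (C k))
    (hu : ∀ k < N, ∀ i, i ∉ R k → u k i = 0) (hw : ∀ k < N, ∀ i, i ∉ C k → w k i = 0)
    (hpat : ∀ k < N, ∀ i ∈ R k, ∀ c ∈ C k, ¬ F i c ∧
      (A i c + u k i * w k c = 0 ∨ A i c + u k i * w k c = 1))
    (hRu : ∀ x < n, ((range N).filter (fun k => x ∈ R k)).card ≤ n₁)
    (hCu : ∀ x < n, ((range N).filter (fun k => x ∈ C k)).card ≤ γ)
    (hent : ∀ k < N, ∀ k' < N, k ≠ k' → ∀ i ∈ R k, ∀ c ∈ C k, ∀ i' ∈ R k', ∀ c' ∈ C k',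
      ¬ ((i = i' ∧ c = c') ∨ (i = c' ∧ c = i'))) :
    ∃ A' : ℕ → ℕ → ℤ, Adj n A' ∧ (∀ i j, F i j → A' i j = A i j) ∧ Chg n (2 * n₁ + 4 * γ) A A' ∧
      (∀ i, deg n A' i = deg n A i + ∑ k ∈ range N,
        (u k i * ∑ j ∈ range n, w k j + w k i * ∑ j ∈ range n, u k j)) ∧
      (∀ i, wt n A' i = wt n A i + ∑ k ∈ range N,
        (u k i * ∑ j ∈ range n, w k j * (j : ℤ) + w k i * ∑ j ∈ range n, u k j * (j : ℤ))) := by
  classical
  obtain ⟨hA1, hA2, hA3, hA4⟩ := hA
  have hc := trade_cases u w R C hdis hu hw hent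
  refine ⟨fun i j => A i j + ∑ k ∈ range N, (u k i * w k j + w k i * u k j),
    ⟨?_, ?_, ?_, ?_⟩, ?_, ?_, ?_, ?_⟩
  · intro i j
    show A i j + _ = A j i + _
    rw [hA1 i j]
    congr 1
    apply Finset.sum_congr rfl
    intro k _
    ring
  · intro i
    show A i i + _ = 0
    rw [hA2 i, zero_add]
    apply Finset.sum_eq_zero
    intro k hk
    have hk' := mem_range.1 hk
    by_cases h : i ∈ R k
    · rw [hw k hk' i (Finset.disjoint_left.1 (hdis k hk') h), mul_zero, zero_mul, add_zero]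
    · rw [hu k hk' i h, mul_zero, zero_mul, add_zero]
  · intro i j
    show A i j + _ = 0 ∨ A i j + _ = 1
    rcases hc i j with h | ⟨k, hk, h1, h2, h⟩ | ⟨k, hk, h1, h2, h⟩
    · rw [h, add_zero]
      exact hA3 i j
    · rw [h]
      exact (hpat k hk i h1 j h2).2
    · rw [h, hA1 i j]
      exact (hpat k hk j h2 i h1).2
  · intro i j hi
    show A i j + _ = 0
    rw [hA4 i j hi]
    rcases hc i j with h | ⟨k, hk, h1, h2, h⟩ | ⟨k, hk, h1, h2, h⟩
    · rw [h, add_zero]
    · exact absurd (mem_range.1 (hRn k hk h1)) (by omega)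
    · exact absurd (mem_range.1 (hCn k hk h1)) (by omega)
  · intro i j hij
    show A i j + _ = A i j
    rcases hc i j with h | ⟨k, hk, h1, h2, h⟩ | ⟨k, hk, h1, h2, h⟩
    · rw [h, add_zero]
    · exact absurd hij (hpat k hk i h1 j h2).1
    · exact absurd (hF i j hij) (hpat k hk j h2 i h1).1
  · intro i hi
    refine ⟨((range N).filter (fun k => i ∈ R k)).biUnion C ∪
      ((range N).filter (fun k => i ∈ C k)).biUnion R, ?_, ?_⟩
    · refine (Finset.card_union_le _ _).trans (Nat.add_le_add ?_ ?_)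
      · refine Finset.card_biUnion_le.trans ?_
        refine (Finset.sum_le_card_nsmul _ _ 2 ?_).trans ?_
        · intro k hk
          exact hCc k (mem_range.1 (Finset.mem_filter.1 hk).1)
        · rw [smul_eq_mul, mul_comm]
          exact Nat.mul_le_mul_left 2 (hRu i hi)
      · refine Finset.card_biUnion_le.trans ?_
        refine (Finset.sum_le_card_nsmul _ _ 4 ?_).trans ?_
        · intro k hk
          exact hRc k (mem_range.1 (Finset.mem_filter.1 hk).1)
        · rw [smul_eq_mul, mul_comm]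
          exact Nat.mul_le_mul_left 4 (hCu i hi)
    · intro j hj
      rw [Finset.mem_union, Finset.mem_biUnion, Finset.mem_biUnion]
      rcases hc i j with h | ⟨k, hk, h1, h2, h⟩ | ⟨k, hk, h1, h2, h⟩
      · exfalso
        apply hj
        show A i j + _ = A i j
        rw [h, add_zero]
      · left
        exact ⟨k, Finset.mem_filter.2 ⟨mem_range.2 hk, h1⟩, h2⟩
      · right
        exact ⟨k, Finset.mem_filter.2 ⟨mem_range.2 hk, h1⟩, h2⟩
  · intro i
    unfold deg
    rw [Finset.sum_add_distrib, Finset.sum_comm]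
    congr 1
    apply Finset.sum_congr rfl
    intro k _
    rw [Finset.sum_add_distrib, ← Finset.mul_sum, ← Finset.mul_sum]
  · intro i
    unfold wt
    have h1 : ∀ j ∈ range n, (A i j + ∑ k ∈ range N, (u k i * w k j + w k i * u k j)) * (j : ℤ) =
        A i j * (j : ℤ) + ∑ k ∈ range N, (u k i * (w k j * (j : ℤ)) + w k i * (u k j * (j : ℤ))) := by
      intro j _
      rw [add_mul, Finset.sum_mul]
      congr 1
      apply Finset.sum_congr rfl
      intro k _
      ring
    rw [Finset.sum_congr rfl h1, Finset.sum_add_distrib, Finset.sum_comm]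
    congr 1
    apply Finset.sum_congr rfl
    intro k _
    rw [Finset.sum_add_distrib, ← Finset.mul_sum, ← Finset.mul_sum]

end HDT
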