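import Pool.Agent.Helper23.HDT.Defs

/-! # Decomposition of an integer vector with sum zero into differences of unit vectors

PLAN. Induction on `m = ∑_{i<n} (c i).natAbs` (strong induction or induction on a bound).
If all `c i = 0` for `i < n` take `M = 0`. Otherwise, since the sum is zero, there are `x, y < n`
with `0 < c x` and `c y < 0`. Apply the induction hypothesis to
`c' = Function.update (Function.update c x (c x - 1)) y (c y + 1)` (sum zero, smaller norm), get
`M', a', b'`, and put `M = M' + 1`, `a k = if k < M' then a' k else x`, `b k = if k < M' then b' k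
else y`. Positivity of `c (a k)`: `c' i > 0` implies `c i > 0` (for `i = y`: `c' y = c y + 1 ≤ 0`);
in the same way `c' i < 0 → c i < 0`. Counts: `range (M'+1)` filter = filter over `range M'` plus
the last element; `max (c i) 0 = max (c' i) 0 + (if i = x then 1 else 0)` for `i < n`. -/

namespace HDT

open Finset

private theorem units_cnt (M x i : ℕ) (a : ℕ → ℕ) :
    ((range (M + 1)).filter (fun k => (if k < M then a k else x) = i)).card =
      ((range M).filter (fun k => a k = i)).card + (if i = x then 1 else 0) := by
  rw [card_filter, card_filter, sum_range_succ]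
  have h1 : ∑ k ∈ range M, (if (if k < M then a k else x) = i then 1 else 0) =
      ∑ k ∈ range M, (if a k = i then 1 else 0) := by
    refine sum_congr rfl fun k hk => ?_
    rw [if_pos (mem_range.1 hk)]
  rw [h1, if_neg (lt_irrefl M)]
  congr 1
  by_cases h : i = x
  · rw [if_pos h, if_pos h.symm]
  · rw [if_neg h, if_neg (fun e => h e.symm)]

private theorem units_aux (n : ℕ) : ∀ (N : ℕ) (c : ℕ → ℤ),
    ∑ i ∈ range n, (c i).natAbs ≤ N → ∑ i ∈ range n, c i = 0 →
    ∃ (M : ℕ) (a b : ℕ → ℕ), (∀ k < M, a k < n ∧ b k < n ∧ 0 < c (a k) ∧ c (b k) < 0) ∧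
      (∀ i < n, (((range M).filter (fun k => a k = i)).card : ℤ) = max (c i) 0) ∧
      (∀ i < n, (((range M).filter (fun k => b k = i)).card : ℤ) = max (-(c i)) 0) := by
  intro N
  induction N with
  | zero =>
    intro c hN _
    have h0 : ∀ i < n, c i = 0 := by
      intro i hi
      have h1 : (c i).natAbs ≤ ∑ i ∈ range n, (c i).natAbs :=
        single_le_sum (f := fun i => (c i).natAbs) (fun _ _ => Nat.zero_le _) (mem_range.2 hi)
      omega
    refine ⟨0, fun _ => 0, fun _ => 0, fun k hk => absurd hk (Nat.not_lt_zero k), ?_, ?_⟩
    · intro i hi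
      rw [h0 i hi]
      simp
    · intro i hi
      rw [h0 i hi]
      simp
  | succ N ih =>
    intro c hN hc
    by_cases hz : ∀ i ∈ range n, c i = 0
    · refine ih c ?_ hc
      have : ∑ i ∈ range n, (c i).natAbs = 0 := by
        refine sum_eq_zero fun i hi => ?_
        rw [hz i hi]
        rfl
      omega
    · have hz' : ∃ i ∈ range n, c i ≠ 0 := by
        by_contra h
        exact hz fun i hi => by_contra fun h' => h ⟨i, hi, h'⟩
      obtain ⟨x, hx, hcx⟩ := exists_pos_of_sum_zero_of_exists_nonzero c hc hz'
      have hz'' : ∃ i ∈ range n, -c i ≠ 0 := by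
        obtain ⟨i, hi, h⟩ := hz'
        exact ⟨i, hi, neg_ne_zero.2 h⟩
      obtain ⟨y, hy, hcy⟩ := exists_pos_of_sum_zero_of_exists_nonzero (fun i => -c i)
        (by rw [sum_neg_distrib, hc, neg_zero]) hz''
      have hcy' : c y < 0 := neg_pos.1 hcy
      have hxy : x ≠ y := fun e => by
        rw [e] at hcx
        exact absurd hcx (not_lt.2 hcy'.le)
      obtain ⟨c', hc'⟩ : ∃ c' : ℕ → ℤ, ∀ i, c' i =
          c i - (if i = x then 1 else 0) + (if i = y then 1 else 0) := ⟨_, fun _ => rfl⟩
      have hcx' : c' x = c x - 1 := by
        rw [hc', if_pos rfl, if_neg hxy, add_zero]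
      have hcy2 : c' y = c y + 1 := by
        rw [hc', if_pos rfl, if_neg hxy.symm, sub_zero]
      have hco : ∀ i, i ≠ x → i ≠ y → c' i = c i := by
        intro i h1 h2
        rw [hc', if_neg h1, if_neg h2, sub_zero, add_zero]
      have hsum : ∑ i ∈ range n, c' i = 0 := by
        rw [sum_congr rfl fun i _ => hc' i, sum_add_distrib, sum_sub_distrib, hc,
          sum_ite_eq', sum_ite_eq', if_pos hx, if_pos hy]
        norm_num
      have hnorm : ∑ i ∈ range n, (c' i).natAbs + 2 = ∑ i ∈ range n, (c i).natAbs := by
        have h1 : ∀ i ∈ range n, (c i).natAbs =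
            (c' i).natAbs + (if i = x then 1 else 0) + (if i = y then 1 else 0) := by
          intro i _
          by_cases h2 : i = x
          · rw [h2, if_pos rfl, if_neg hxy, hcx']
            omega
          · by_cases h3 : i = y
            · rw [h3, if_pos rfl, if_neg hxy.symm, hcy2]
              omega
            · rw [if_neg h2, if_neg h3, hco i h2 h3, add_zero, add_zero]
        rw [sum_congr rfl h1, sum_add_distrib, sum_add_distrib, sum_ite_eq', sum_ite_eq',
          if_pos hx, if_pos hy]
      obtain ⟨M, a, b, h1, h2, h3⟩ := ih c' (by omega) hsum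
      have hpos : ∀ i, 0 < c' i → 0 < c i := by
        intro i hi
        by_cases h4 : i = x
        · rw [h4]
          exact hcx
        · by_cases h5 : i = y
          · rw [h5, hcy2] at hi
            omega
          · rw [← hco i h4 h5]
            exact hi
      have hneg : ∀ i, c' i < 0 → c i < 0 := by
        intro i hi
        by_cases h4 : i = x
        · rw [h4, hcx'] at hi
          omega
        · by_cases h5 : i = y
          · rw [h5]
            exact hcy'
          · rw [← hco i h4 h5]
            exact hi
      refine ⟨M + 1, fun k => if k < M then a k else x, fun k => if k < M then b k else y,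
        ?_, ?_, ?_⟩
      · intro k hk
        by_cases hk' : k < M
        · simp only [if_pos hk']
          obtain ⟨g1, g2, g3, g4⟩ := h1 k hk'
          exact ⟨g1, g2, hpos _ g3, hneg _ g4⟩
        · simp only [if_neg hk']
          exact ⟨mem_range.1 hx, mem_range.1 hy, hcx, hcy'⟩
      · intro i hi
        rw [units_cnt, Nat.cast_add, h2 i hi]
        by_cases h4 : i = x
        · rw [if_pos h4, h4, hcx', max_eq_left (by omega), max_eq_left hcx.le]
          push_cast
          ring
        · rw [if_neg h4]
          by_cases h5 : i = y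
          · rw [h5, hcy2, max_eq_right (by omega), max_eq_right hcy'.le]
            simp
          · rw [hco i h4 h5]
            simp
      · intro i hi
        rw [units_cnt, Nat.cast_add, h3 i hi]
        by_cases h5 : i = y
        · rw [if_pos h5, h5, hcy2, max_eq_left (by omega), max_eq_left (by omega)]
          push_cast
          ring
        · rw [if_neg h5]
          by_cases h4 : i = x
          · rw [h4, hcx', max_eq_right (by omega), max_eq_right (by omega)]
            simp
          · rw [hco i h4 h5]
            simp

theorem units (n : ℕ) (c : ℕ → ℤ) (hc : ∑ i ∈ range n, c i = 0) :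
    ∃ (M : ℕ) (a b : ℕ → ℕ), (∀ k < M, a k < n ∧ b k < n ∧ 0 < c (a k) ∧ c (b k) < 0) ∧
      (∀ i < n, (((range M).filter (fun k => a k = i)).card : ℤ) = max (c i) 0) ∧
      (∀ i < n, (((range M).filter (fun k => b k = i)).card : ℤ) = max (-(c i)) 0) :=
  units_aux n _ c le_rfl hc

end HDT
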