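import Pool.Agent.Helper23.HDT.Greedy
import Pool.Agent.Helper23.HDT.Units
import Pool.Agent.Helper23.HDT.Trade
import Pool.Agent.Helper23.HDT.PatChg

/-! # Correcting the degrees -/

namespace HDT

open Finset

private theorem degFix_mono {n ξ ξ' : ℕ} {A A' : ℕ → ℕ → ℤ} (h : Chg n ξ A A') (hle : ξ ≤ ξ') :
    Chg n ξ' A A' := by
  intro i hi
  obtain ⟨S, hS, hS'⟩ := h i hi
  exact ⟨S, hS.trans hle, hS'⟩

/-- columns with a prescribed pattern in two rows -/
private theorem degFix_cand {n β : ℕ} {A : ℕ → ℕ → ℤ} {F : ℕ → ℕ → Prop} (hP : Pat n 1 β A F)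
    (hn : 4 ≤ n) {x y : ℕ} (hx : x < n) (hy : y < n) (hxy : x ≠ y) {ex ey : ℤ}
    (hex : ex = 0 ∨ ex = 1) (hey : ey = 0 ∨ ey = 1) :
    ∃ B : Finset ℕ, β ≤ B.card ∧ ∀ b ∈ B, b < n ∧ x ≠ b ∧ y ≠ b ∧ ¬ F x b ∧ ¬ F y b ∧
      A x b = ex ∧ A y b = ey := by
  have h1 : 2 ≤ ((range n) \ {x, y}).card := by
    have h2 := Finset.le_card_sdiff ({x, y} : Finset ℕ) (range n)
    have h3 : ({x, y} : Finset ℕ).card ≤ 2 := Finset.card_le_two
    rw [card_range] at h2
    omega
  obtain ⟨z, hz, z', hz', hne⟩ := Finset.one_lt_card.1 (show 1 < ((range n) \ {x, y}).card by omega)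
  simp only [mem_sdiff, mem_range, mem_insert, mem_singleton, not_or] at hz hz'
  obtain ⟨B, hB, hB'⟩ := hP ![x, y, z, z'] ![ex, ey, 0, 0] 1 (by
      intro p q hpq
      fin_cases p <;> fin_cases q <;> simp_all) (by
      intro k
      fin_cases k
      · exact hx
      · exact hy
      · exact hz.1
      · exact hz'.1) (by
      intro k
      fin_cases k
      · exact hex
      · exact hey
      · exact Or.inl rfl
      · exact Or.inl rfl) le_rfl le_rfl
  refine ⟨B, hB, fun b hb => ?_⟩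
  obtain ⟨h2, h3⟩ := hB' b hb
  have h4 := h3 0
  have h5 := h3 1
  simp only [Matrix.cons_val_zero, Matrix.cons_val_one] at h4 h5
  exact ⟨by omega, h4.1, h5.1, h4.2.2.1, h5.2.2.1, h4.2.2.2.2.1, h5.2.2.2.2.1⟩

/-- one round: all requests `k` get a column `b k` in which the rows of `R k` are changed by `u k` -/
private theorem degFix_round {n h β N n₁ : ℕ} (hh : 10 ^ 6 ≤ h) (hn : h ^ 100 ≤ n)
    {A : ℕ → ℕ → ℤ} {F : ℕ → ℕ → Prop} (hA : Adj n A) (hF : ∀ i j, F i j → F j i)
    (hβ : n ≤ β * h ^ 2) (hN : N ≤ n * n₁) (h1 : 1 ≤ n₁) (hn₁ : n₁ ≤ h ^ 95)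
    (R : ℕ → Finset ℕ) (u : ℕ → ℕ → ℤ) (hRn : ∀ k < N, R k ⊆ range n)
    (hRc : ∀ k < N, (R k).card ≤ 4) (hu : ∀ k < N, ∀ i, i ∉ R k → u k i = 0)
    (hRu : ∀ x < n, ((range N).filter (fun k => x ∈ R k)).card ≤ n₁)
    (hcand : ∀ k < N, ∃ B : Finset ℕ, β ≤ B.card ∧ ∀ b ∈ B, b < n ∧ ∀ i ∈ R k, i ≠ b ∧ ¬ F i b ∧
      (A i b + u k i = 0 ∨ A i b + u k i = 1)) :
    ∃ (A' : ℕ → ℕ → ℤ) (b : ℕ → ℕ), (∀ k < N, b k < n) ∧
      (∀ x < n, ((range N).filter (fun k => b k = x)).card ≤ 32 * h ^ 2 * n₁) ∧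
      Adj n A' ∧ (∀ i j, F i j → A' i j = A i j) ∧
      Chg n (2 * n₁ + 4 * (32 * h ^ 2 * n₁)) A A' ∧
      ∀ i, deg n A' i = deg n A i + ∑ k ∈ range N,
        (u k i + (if b k = i then 1 else 0) * ∑ j ∈ range n, u k j) := by
  classical
  have hcand' : ∀ k, ∃ B : Finset ℕ, k < N → (β ≤ B.card ∧ ∀ b ∈ B, b < n ∧ ∀ i ∈ R k, i ≠ b ∧
      ¬ F i b ∧ (A i b + u k i = 0 ∨ A i b + u k i = 1)) := by
    intro k
    by_cases hk : k < N
    · obtain ⟨B, hB⟩ := hcand k hk
      exact ⟨B, fun _ => hB⟩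
    · exact ⟨∅, fun hk' => absurd hk' hk⟩
  choose cand hc using hcand'
  obtain ⟨b, hb1, hb2, hb3⟩ := greedyH (β := β) hh hn hβ hN h1 hn₁ R (fun _ b => {b}) cand hRn hRc
    (fun k hk b hb => ⟨by
      rw [singleton_subset_iff, mem_range]
      exact ((hc k hk).2 b hb).1, by rw [card_singleton]; omega⟩)
    (fun k hk x => by
      have h2 : (cand k).filter (fun b => x ∈ ({b} : Finset ℕ)) ⊆ {x} := by
        intro z hz
        rw [mem_filter, mem_singleton] at hz
        rw [mem_singleton]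
        exact hz.2.symm
      refine (card_le_card h2).trans ?_
      rw [card_singleton]
      omega) hRu (fun k hk => (hc k hk).1)
  have hb2' : ∀ x < n, ((range N).filter (fun k => x ∈ ({b k} : Finset ℕ))).card ≤
      32 * h ^ 2 * n₁ := hb2
  have hsw : ∀ k < N, ∑ j ∈ range n, (if b k = j then (1 : ℤ) else 0) = 1 := by
    intro k hk
    rw [sum_ite_eq (range n) (b k) (fun _ => (1 : ℤ)),
      if_pos (mem_range.2 ((hc k hk).2 _ (hb1 k hk)).1)]
  obtain ⟨A', hA', hFA, hch, hdeg, -⟩ := tradeFam (N := N) (n₁ := n₁) (γ := 32 * h ^ 2 * n₁)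
    hA hF u (fun k j => if b k = j then 1 else 0) R (fun k => {b k}) hRn
    (fun k hk => by
      rw [singleton_subset_iff, mem_range]
      exact ((hc k hk).2 _ (hb1 k hk)).1) hRc
    (fun k _ => by rw [card_singleton]; omega)
    (fun k hk => by
      rw [disjoint_singleton_right]
      intro hmem
      exact (((hc k hk).2 _ (hb1 k hk)).2 _ hmem).1 rfl)
    hu
    (fun k _ i hi => by
      rw [mem_singleton] at hi
      exact if_neg fun e => hi e.symm)
    (fun k hk i hi c hcc => by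
      rw [mem_singleton] at hcc
      subst hcc
      obtain ⟨-, h3, h4⟩ := ((hc k hk).2 _ (hb1 k hk)).2 i hi
      refine ⟨h3, ?_⟩
      simpa using h4)
    hRu hb2' hb3
  refine ⟨A', b, fun k hk => ((hc k hk).2 _ (hb1 k hk)).1, ?_, hA', hFA, hch, ?_⟩
  · intro x hx
    refine le_trans (card_le_card ?_) (hb2' x hx)
    intro k hk
    rw [mem_filter] at hk ⊢
    exact ⟨hk.1, mem_singleton.2 hk.2.symm⟩
  · intro i
    rw [hdeg i]
    congr 1
    refine sum_congr rfl fun k hk => ?_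
    rw [hsw k (mem_range.1 hk), mul_one]

/-- the first step: the sum of the deviations becomes zero -/
private theorem degFix_step1 {n h β : ℕ} (hh : 10 ^ 6 ≤ h) (hn : h ^ 100 ≤ n) {A : ℕ → ℕ → ℤ}
    {F : ℕ → ℕ → Prop} (hA : Adj n A) (hF : ∀ i j, F i j → F j i) (hβ : n ≤ β * h ^ 2)
    (hP : Pat n 1 β A F) (r : ℤ) (hd : ∀ i < n, |r - deg n A i| ≤ (h : ℤ) ^ 53)
    (hev : Even (∑ i ∈ range n, (r - deg n A i))) :
    ∃ A' : ℕ → ℕ → ℤ, Adj n A' ∧ (∀ i j, F i j → A' i j = A i j) ∧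
      (∀ i < n, |r - deg n A' i| ≤ (h : ℤ) ^ 53 + h ^ 53 + 32 * h ^ 2 * h ^ 53) ∧
      ∑ i ∈ range n, (r - deg n A' i) = 0 ∧
      Chg n (2 * h ^ 53 + 4 * (32 * h ^ 2 * h ^ 53)) A A' := by
  classical
  have hn4 : 4 ≤ n := by
    have h1 : 1 ≤ h ^ 99 := Nat.one_le_pow _ _ (by omega)
    have h2 : h ^ 100 = h * h ^ 99 := by ring
    nlinarith
  have hnpos : 0 < n := by omega
  obtain ⟨M', hM'⟩ := hev
  obtain ⟨σ, hσ, hσM⟩ : ∃ σ : ℤ, (σ = 1 ∨ σ = -1) ∧ σ * (M'.natAbs : ℤ) = M' := by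
    rcases le_total 0 M' with h0 | h0
    · exact ⟨1, Or.inl rfl, by rw [one_mul, Int.natAbs_of_nonneg h0]⟩
    · exact ⟨-1, Or.inr rfl, by rw [Int.ofNat_natAbs_of_nonpos h0]; ring⟩
  set M := M'.natAbs with hM
  -- the number of requests
  have hMle : 2 * (M : ℤ) ≤ n * (h : ℤ) ^ 53 := by
    have h1 : |∑ i ∈ range n, (r - deg n A i)| ≤ ∑ i ∈ range n, |r - deg n A i| :=
      abs_sum_le_sum_abs _ _
    have h2 : ∑ i ∈ range n, |r - deg n A i| ≤ ∑ i ∈ range n, (h : ℤ) ^ 53 :=
      sum_le_sum fun i hi => hd i (mem_range.1 hi)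
    rw [sum_const, card_range, nsmul_eq_mul] at h2
    have h3 : |M' + M'| = 2 * (M : ℤ) := by
      rw [hM, Int.natCast_natAbs, ← two_mul, abs_mul]
      norm_num
    rw [← h3, ← hM']
    exact h1.trans h2
  have hMle' : 2 * M ≤ n * h ^ 53 := by exact_mod_cast hMle
  have hh53 : 4 ≤ h ^ 53 := by
    have h1 : 1 ≤ h ^ 52 := Nat.one_le_pow _ _ (by omega)
    have h2 : h ^ 53 = h * h ^ 52 := by ring
    nlinarith
  have hcnt : ∀ x, ((range M).filter (fun k => k % n = x)).card ≤ h ^ 53 := by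
    intro x
    have h1 : ((range M).filter (fun k => k % n = x)).card ≤ (range (M / n + 1)).card := by
      refine card_le_card_of_injOn (fun k => k / n) ?_ ?_
      · intro k hk
        have h2 := mem_filter.1 (mem_coe.1 hk)
        refine mem_coe.2 (mem_range.2 ?_)
        exact Nat.lt_succ_of_le (Nat.div_le_div_right (mem_range.1 h2.1).le)
      · intro k hk k' hk' he
        have h2 := (mem_filter.1 (mem_coe.1 hk)).2
        have h3 := (mem_filter.1 (mem_coe.1 hk')).2
        have h4 : k / n = k' / n := he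
        rw [← Nat.div_add_mod k n, ← Nat.div_add_mod k' n, h4, h2, h3]
    rw [card_range] at h1
    have h2 : M / n ≤ h ^ 53 / 2 := by
      rw [Nat.div_le_iff_le_mul_add_pred hnpos]
      have h3 := Nat.div_add_mod (h ^ 53) 2
      have h4 : h ^ 53 % 2 < 2 := Nat.mod_lt _ (by norm_num)
      have h5 : 2 * M ≤ n * (2 * (h ^ 53 / 2) + 1) := by
        refine hMle'.trans (Nat.mul_le_mul_left _ ?_)
        calc h ^ 53 = 2 * (h ^ 53 / 2) + h ^ 53 % 2 := h3.symm
          _ ≤ 2 * (h ^ 53 / 2) + 1 := Nat.add_le_add_left (Nat.lt_succ_iff.1 h4) _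
      have h6 : n * (2 * (h ^ 53 / 2) + 1) = 2 * (n * (h ^ 53 / 2)) + n := by ring
      rw [h6] at h5
      omega
    omega
  have hMN : M ≤ n * h ^ 53 := by omega
  have hn1 : h ^ 53 ≤ h ^ 95 := Nat.pow_le_pow_right (by omega) (by norm_num)
  have hex : ∃ y : ℕ → ℕ, ∀ x < n, y x < n ∧ x ≠ y x := by
    refine ⟨fun x => if x = 0 then 1 else 0, fun x hx => ?_⟩
    by_cases h0 : x = 0
    · have h1 : (if x = 0 then 1 else 0 : ℕ) = 1 := if_pos h0
      change (if x = 0 then 1 else 0 : ℕ) < n ∧ x ≠ (if x = 0 then 1 else 0 : ℕ)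
      rw [h1]
      omega
    · have h1 : (if x = 0 then 1 else 0 : ℕ) = 0 := if_neg h0
      change (if x = 0 then 1 else 0 : ℕ) < n ∧ x ≠ (if x = 0 then 1 else 0 : ℕ)
      rw [h1]
      omega
  obtain ⟨y, hy⟩ := hex
  obtain ⟨A', b, hb1, hb2, hA', hFA, hch, hdeg⟩ := degFix_round (N := M) (n₁ := h ^ 53) hh hn hA hF
    hβ hMN (by omega) hn1 (fun k => {k % n}) (fun k i => if k % n = i then σ else 0)
    (fun k _ => by
      rw [singleton_subset_iff, mem_range]
      exact Nat.mod_lt _ hnpos)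
    (fun k _ => by rw [card_singleton]; omega)
    (fun k _ i hi => by
      rw [mem_singleton] at hi
      exact if_neg fun e => hi e.symm)
    (fun x _ => by
      refine le_trans (card_le_card ?_) (hcnt x)
      intro k hk
      rw [mem_filter, mem_singleton] at hk
      rw [mem_filter]
      exact ⟨hk.1, hk.2.symm⟩)
    (fun k _ => by
      have hx : k % n < n := Nat.mod_lt _ hnpos
      have he : (1 - σ) / 2 = 0 ∨ (1 - σ) / 2 = 1 := by
        rcases hσ with h1 | h1 <;> rw [h1]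
        · left; norm_num
        · right; norm_num
      obtain ⟨B, hB, hB'⟩ := degFix_cand hP hn4 hx (hy _ hx).1 (hy _ hx).2 he (Or.inl rfl)
        (ey := 0)
      refine ⟨B, hB, fun c hc => ?_⟩
      obtain ⟨h1, h2, -, h3, -, h4, -⟩ := hB' c hc
      refine ⟨h1, fun i hi => ?_⟩
      rw [mem_singleton] at hi
      subst hi
      refine ⟨h2, h3, ?_⟩
      rw [h4, if_pos rfl]
      rcases hσ with h5 | h5 <;> rw [h5]
      · right; norm_num
      · left; norm_num)
  -- the new degrees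
  have hdeg' : ∀ i < n, deg n A' i = deg n A i +
      σ * ((((range M).filter (fun k => k % n = i)).card : ℤ) +
        (((range M).filter (fun k => b k = i)).card : ℤ)) := by
    intro i hi
    rw [hdeg i, card_filter, card_filter]
    push_cast
    rw [← sum_add_distrib, mul_sum]
    congr 1
    refine sum_congr rfl fun k _ => ?_
    have h1 : ∑ j ∈ range n, (if k % n = j then σ else 0) = σ := by
      rw [sum_ite_eq (range n) (k % n) (fun _ => σ), if_pos (mem_range.2 (Nat.mod_lt _ hnpos))]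
    rw [h1]
    by_cases h2 : k % n = i <;> by_cases h3 : b k = i <;> simp [h2, h3] <;> ring
  have hσabs : |σ| = 1 := by
    rcases hσ with h1 | h1 <;> rw [h1] <;> norm_num
  refine ⟨A', hA', hFA, ?_, ?_, hch⟩
  · intro i hi
    rw [hdeg' i hi]
    have h1 : r - (deg n A i + σ * ((((range M).filter (fun k => k % n = i)).card : ℤ) +
        (((range M).filter (fun k => b k = i)).card : ℤ))) = (r - deg n A i) -
        σ * ((((range M).filter (fun k => k % n = i)).card : ℤ) +
          (((range M).filter (fun k => b k = i)).card : ℤ)) := by ring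
    rw [h1]
    refine (abs_sub _ _).trans ?_
    rw [abs_mul, hσabs, one_mul]
    have h2 : (((range M).filter (fun k => k % n = i)).card : ℤ) ≤ (h : ℤ) ^ 53 := by
      exact_mod_cast hcnt i
    have h3 : (((range M).filter (fun k => b k = i)).card : ℤ) ≤ 32 * (h : ℤ) ^ 2 * h ^ 53 := by
      exact_mod_cast hb2 i hi
    have h4 : |(((range M).filter (fun k => k % n = i)).card : ℤ) +
        (((range M).filter (fun k => b k = i)).card : ℤ)| =
        (((range M).filter (fun k => k % n = i)).card : ℤ) +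
        (((range M).filter (fun k => b k = i)).card : ℤ) := abs_of_nonneg (by positivity)
    rw [h4]
    have h5 := hd i hi
    linarith
  · have h1 : ∑ i ∈ range n, (((range M).filter (fun k => k % n = i)).card : ℤ) = M := by
      have h2 : (range M).card = ∑ i ∈ range n, ((range M).filter (fun k => k % n = i)).card :=
        card_eq_sum_card_fiberwise fun k _ => mem_coe.2 (mem_range.2 (Nat.mod_lt _ hnpos))
      rw [card_range] at h2
      exact_mod_cast h2.symm
    have h1' : ∑ i ∈ range n, (((range M).filter (fun k => b k = i)).card : ℤ) = M := by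
      have h2 : (range M).card = ∑ i ∈ range n, ((range M).filter (fun k => b k = i)).card :=
        card_eq_sum_card_fiberwise fun k hk =>
          mem_coe.2 (mem_range.2 (hb1 k (mem_range.1 (mem_coe.1 hk))))
      rw [card_range] at h2
      exact_mod_cast h2.symm
    have h3 : ∑ i ∈ range n, (r - deg n A' i) = ∑ i ∈ range n, (r - deg n A i) -
        σ * (∑ i ∈ range n, (((range M).filter (fun k => k % n = i)).card : ℤ) +
          ∑ i ∈ range n, (((range M).filter (fun k => b k = i)).card : ℤ)) := by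
      rw [← sum_add_distrib, mul_sum, ← sum_sub_distrib]
      refine sum_congr rfl fun i hi => ?_
      rw [hdeg' i (mem_range.1 hi)]
      ring
    rw [h3, h1, h1', hM', mul_add, hσM]
    ring

theorem degFix {n h β : ℕ} (hh : 10 ^ 6 ≤ h) (hn : h ^ 100 ≤ n) {A : ℕ → ℕ → ℤ}
    {F : ℕ → ℕ → Prop} (hA : Adj n A) (hF : ∀ i j, F i j → F j i) (hβ : n ≤ β * (1000 * h))
    (hP : Pat n 1 β A F) (r : ℤ) (hd : ∀ i < n, |r - deg n A i| ≤ (h : ℤ) ^ 53)
    (hev : Even (∑ i ∈ range n, (r - deg n A i))) :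
    ∃ A' : ℕ → ℕ → ℤ, Adj n A' ∧ (∀ i j, F i j → A' i j = A i j) ∧
      (∀ i < n, deg n A' i = r) ∧ Chg n (h ^ 61) A A' := by
  classical
  have hn4 : 4 ≤ n := by
    have h1 : 1 ≤ h ^ 99 := Nat.one_le_pow _ _ (by omega)
    have h2 : h ^ 100 = h * h ^ 99 := by ring
    nlinarith
  have hβ1 : n ≤ β * h ^ 2 := by
    refine hβ.trans (Nat.mul_le_mul_left _ ?_)
    nlinarith
  obtain ⟨A₁, hA₁, hFA₁, hd₁, hs₁, hch₁⟩ := degFix_step1 hh hn hA hF hβ1 hP r hd hev
  -- sizes
  have hpow : ∀ a : ℕ, h ^ (a + 1) = h * h ^ a := fun a => by ring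
  have hch57 : 2 * h ^ 53 + 4 * (32 * h ^ 2 * h ^ 53) ≤ h ^ 57 := by
    have h1 : h ^ 57 = h * h * (h ^ 2 * h ^ 53) := by ring
    have h2 : h ^ 53 ≤ h ^ 2 * h ^ 53 := Nat.le_mul_of_pos_left _ (by positivity)
    have h3 : 130 ≤ h * h := by nlinarith
    have h4 : 130 * (h ^ 2 * h ^ 53) ≤ h * h * (h ^ 2 * h ^ 53) := Nat.mul_le_mul_right _ h3
    have h5 : 4 * (32 * h ^ 2 * h ^ 53) = 128 * (h ^ 2 * h ^ 53) := by ring
    omega
  have hd56 : ∀ i < n, |r - deg n A₁ i| ≤ (h : ℤ) ^ 56 := by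
    intro i hi
    refine (hd₁ i hi).trans ?_
    have h1 : h ^ 53 + h ^ 53 + 32 * h ^ 2 * h ^ 53 ≤ h ^ 56 := by
      have h1 : h ^ 56 = h * (h ^ 2 * h ^ 53) := by ring
      have h2 : h ^ 53 ≤ h ^ 2 * h ^ 53 := Nat.le_mul_of_pos_left _ (by positivity)
      have h4 : 34 * (h ^ 2 * h ^ 53) ≤ h * (h ^ 2 * h ^ 53) :=
        Nat.mul_le_mul_right _ (by omega)
      have h5 : 32 * h ^ 2 * h ^ 53 = 32 * (h ^ 2 * h ^ 53) := by ring
      omega
    exact_mod_cast h1
  have hP₁ := hP.chg (degFix_mono hch₁ hch57)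
  have hβ₂ : n ≤ (β - 8 * h ^ 57) * h ^ 2 := by
    have h1 : 8 * h ^ 57 * (2000 * h) ≤ n := by
      refine le_trans ?_ hn
      have h2 : h ^ 100 = h ^ 41 * (h * (h ^ 57 * h)) := by ring
      have h3 : 8 * h ^ 57 * (2000 * h) = 16000 * (h ^ 57 * h) := by ring
      rw [h2, h3]
      refine le_trans (Nat.mul_le_mul_right _ (show 16000 ≤ h by omega)) ?_
      exact Nat.le_mul_of_pos_left _ (by positivity)
    have h2 : 2 * n ≤ β * (2000 * h) := by
      have h3 : β * (2000 * h) = 2 * (β * (1000 * h)) := by ring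
      omega
    have h3 : n ≤ (β - 8 * h ^ 57) * (2000 * h) := by
      rw [Nat.sub_mul]
      omega
    refine h3.trans (Nat.mul_le_mul_left _ ?_)
    nlinarith
  obtain ⟨M, a, b, hab, ha, hb⟩ := units n (fun i => r - deg n A₁ i) hs₁
  have hne : ∀ k < M, a k ≠ b k := by
    intro k hk he
    obtain ⟨-, -, h1, h2⟩ := hab k hk
    rw [he] at h1
    exact lt_asymm h1 h2
  have hacnt : ∀ x < n, ((range M).filter (fun k => a k = x)).card +
      ((range M).filter (fun k => b k = x)).card ≤ h ^ 57 := by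
    intro x hx
    have h1 := ha x hx
    have h2 := hb x hx
    have h3 := hd56 x hx
    have h4 : (h : ℤ) ^ 56 ≤ (h : ℤ) ^ 57 := by
      exact_mod_cast Nat.pow_le_pow_right (by omega : 0 < h) (by norm_num : 56 ≤ 57)
    have h5 : max (r - deg n A₁ x) 0 + max (-(r - deg n A₁ x)) 0 = |r - deg n A₁ x| := by
      rcases le_total 0 (r - deg n A₁ x) with h6 | h6
      · rw [max_eq_left h6, max_eq_right (by linarith), abs_of_nonneg h6, add_zero]
      · rw [max_eq_right h6, max_eq_left (by linarith), abs_of_nonpos h6, zero_add]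
    have h6 : ((((range M).filter (fun k => a k = x)).card +
      ((range M).filter (fun k => b k = x)).card : ℕ) : ℤ) ≤ (h : ℤ) ^ 57 := by
      push_cast
      rw [h1, h2, h5]
      exact h3.trans h4
    exact_mod_cast h6
  have hMn : M ≤ n * h ^ 57 := by
    have h2 : (range M).card = ∑ i ∈ range n, ((range M).filter (fun k => a k = i)).card :=
      card_eq_sum_card_fiberwise fun k hk =>
        mem_coe.2 (mem_range.2 (hab k (mem_range.1 (mem_coe.1 hk))).1)
    rw [card_range] at h2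
    rw [h2]
    refine (sum_le_sum fun i hi => ?_).trans (le_of_eq (by
      rw [sum_const, card_range, smul_eq_mul] : ∑ i ∈ range n, h ^ 57 = n * h ^ 57))
    have h3 := hacnt i (mem_range.1 hi)
    omega
  have hn1 : h ^ 57 ≤ h ^ 95 := Nat.pow_le_pow_right (by omega) (by norm_num)
  obtain ⟨A', c, hc1, hc2, hA', hFA, hch, hdeg⟩ := degFix_round (N := M) (n₁ := h ^ 57) hh hn hA₁
    hF hβ₂ hMn (Nat.one_le_pow _ _ (by omega)) hn1 (fun k => {a k, b k})
    (fun k i => (if a k = i then 1 else 0) - (if b k = i then 1 else 0))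
    (fun k hk => by
      intro z hz
      rw [mem_insert, mem_singleton] at hz
      rw [mem_range]
      rcases hz with h1 | h1 <;> rw [h1]
      · exact (hab k hk).1
      · exact (hab k hk).2.1)
    (fun k _ => card_le_two.trans (by norm_num))
    (fun k _ i hi => by
      rw [mem_insert, mem_singleton, not_or] at hi
      rw [if_neg fun e => hi.1 e.symm, if_neg fun e => hi.2 e.symm, sub_zero])
    (fun x hx => by
      refine le_trans ?_ (hacnt x hx)
      refine le_trans (card_le_card ?_) (card_union_le _ _)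
      intro k hk
      rw [mem_filter, mem_insert, mem_singleton] at hk
      rw [mem_union, mem_filter, mem_filter]
      rcases hk.2 with h1 | h1
      · exact Or.inl ⟨hk.1, h1.symm⟩
      · exact Or.inr ⟨hk.1, h1.symm⟩)
    (fun k hk => by
      obtain ⟨B, hB, hB'⟩ := degFix_cand hP₁ hn4 (hab k hk).1 (hab k hk).2.1 (hne k hk)
        (Or.inl rfl) (Or.inr rfl) (ex := 0) (ey := 1)
      refine ⟨B, hB, fun x hx => ?_⟩
      obtain ⟨h1, h2, h2', h3, h3', h4, h4'⟩ := hB' x hx
      refine ⟨h1, fun i hi => ?_⟩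
      rw [mem_insert, mem_singleton] at hi
      rcases hi with h5 | h5 <;> rw [h5]
      · refine ⟨h2, h3, Or.inr ?_⟩
        rw [h4, if_pos rfl, if_neg (hne k hk).symm]
        norm_num
      · refine ⟨h2', h3', Or.inl ?_⟩
        rw [h4', if_pos rfl, if_neg (hne k hk)]
        norm_num)
  refine ⟨A', hA', fun i j hij => (hFA i j hij).trans (hFA₁ i j hij), ?_, ?_⟩
  · intro i hi
    have h1 : ∀ k ∈ range M, ((if a k = i then (1 : ℤ) else 0) - (if b k = i then 1 else 0)) +
        (if c k = i then 1 else 0) * ∑ j ∈ range n, ((if a k = j then (1 : ℤ) else 0) -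
          (if b k = j then 1 else 0)) = (if a k = i then (1 : ℤ) else 0) -
            (if b k = i then 1 else 0) := by
      intro k hk
      have h2 := hab k (mem_range.1 hk)
      rw [sum_sub_distrib, sum_ite_eq (range n) (a k) (fun _ => (1 : ℤ)),
        sum_ite_eq (range n) (b k) (fun _ => (1 : ℤ)), if_pos (mem_range.2 h2.1),
        if_pos (mem_range.2 h2.2.1)]
      ring
    rw [hdeg i, sum_congr rfl h1, sum_sub_distrib]
    have h2 := ha i hi
    have h3 := hb i hi
    rw [card_filter] at h2 h3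
    push_cast at h2 h3
    rw [h2, h3]
    rcases le_total 0 (r - deg n A₁ i) with h6 | h6
    · rw [max_eq_left h6, max_eq_right (by linarith)]
      ring
    · rw [max_eq_right h6, max_eq_left (by linarith)]
      ring
  · refine degFix_mono (hch₁.trans hch) ?_
    have h1 : 2 * h ^ 57 + 4 * (32 * h ^ 2 * h ^ 57) = 2 * h ^ 57 + 128 * (h ^ 2 * h ^ 57) := by
      ring
    have h2 : h ^ 61 = h * h * (h ^ 2 * h ^ 57) := by ring
    have h3 : h ^ 57 ≤ h ^ 2 * h ^ 57 := Nat.le_mul_of_pos_left _ (by positivity)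
    have h4 : 131 * (h ^ 2 * h ^ 57) ≤ h * h * (h ^ 2 * h ^ 57) :=
      Nat.mul_le_mul_right _ (by nlinarith)
    omega

end HDT
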