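import Pool.Agent.Helper23.HDT.Defs

/-! # Parity of the invariants

PLAN. `handshake`: for a symmetric matrix with zero diagonal `∑_i ∑_j A i j * f i j` with symmetric
`f` is `2 * ∑_{i<j}`, hence even (induction on `n`: going from `n` to `n + 1` adds
`2 * ∑_{j<n} A n j f n j + A n n f n n`, where `A n n = 0`; the symmetric sum over `range n` uses
only `A i j = A j i`).
`even_deg`: `f = 1`. `even_wt`: `∑_i i * wt i = ∑_i ∑_j A i j * (i * j)`.
`target`: `2 * g i = D * (2 i + 1 - n) + r * (n - 1)`: for the existence of `g` the right side must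
be even: `D * (2 i + 1 - n) + r (n - 1) ≡ (D + r) (n - 1) mod 2`: if `n` is odd, `n - 1` is even; if
`n` is even, `r + D` is even by `hpar`. Take `g i = D * i + ((r - D) * (n - 1)) / 2`. Sum: `2 ∑ g i =
D * ∑ (2 i + 1 - n) + r n (n - 1) = r n (n - 1) = 2 r ∑ i`. Even: with `c = (r - D)(n - 1)/2`,
`∑ i g i = D ∑ i² + c ∑ i`. Cases by `n mod 4` (write `n = 4 m + s` and use closed forms
`6 ∑ i² = (n-1) n (2 n - 1)`, `2 ∑ i = n (n - 1)`):
`n = 4m`: `∑ i² = 2m(4m-1)(8m-1)/3` even, `∑ i = 2m(4m-1)` even.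
`n = 4m+2`: `∑ i = (2m+1)(4m+1)` odd, `∑ i²` odd [`3 ∑ i² = (4m+1)(2m+1)(8m+3)`], `c = (r-D)/2 *
(4m+1) ≡ (r - D)/2`, and `D + (r - D)/2 = (r + D)/2` is even as `4 ∣ r + D`.
`n = 4m+1`: `r` even, `∑ i = 2m(4m+1)` even, `∑ i²` even: `3 ∑ i² = 2m(4m+1)(8m+1)`.
`n = 4m+3`: `r` even; `∑ i = (2m+1)(4m+3)` odd, `3 ∑ i² = (2m+1)(4m+3)(8m+5)` so `∑ i²` odd,
`c = (r - D)(2m+1) ≡ D`, so `D ∑ i² + c ∑ i ≡ 2 D ≡ 0`. -/

namespace HDT

open Finset

private theorem hdtHand (B : ℕ → ℕ → ℤ) (hs : ∀ i j, B i j = B j i) (h0 : ∀ i, B i i = 0) (n : ℕ) :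
    Even (∑ i ∈ range n, ∑ j ∈ range n, B i j) := by
  induction n with
  | zero => simp
  | succ n ih =>
    have h1 : ∑ i ∈ range (n + 1), ∑ j ∈ range (n + 1), B i j =
        (∑ i ∈ range n, ∑ j ∈ range n, B i j) + (∑ j ∈ range n, B n j + ∑ j ∈ range n, B n j) := by
      rw [sum_range_succ]
      have h2 : ∀ i ∈ range n, ∑ j ∈ range (n + 1), B i j = ∑ j ∈ range n, B i j + B n i := by
        intro i _
        rw [sum_range_succ, hs i n]
      rw [sum_congr rfl h2, sum_add_distrib, sum_range_succ, h0]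
      ring
    rw [h1]
    exact ih.add ⟨_, rfl⟩

theorem handshake {n : ℕ} {A : ℕ → ℕ → ℤ} (hA : Adj n A) (f : ℕ → ℕ → ℤ)
    (hf : ∀ i j, f i j = f j i) : Even (∑ i ∈ range n, ∑ j ∈ range n, A i j * f i j) := by
  refine hdtHand (fun i j => A i j * f i j) (fun i j => ?_) (fun i => ?_) n
  · show A i j * f i j = A j i * f j i
    rw [hA.1 i j, hf i j]
  · show A i i * f i i = 0
    rw [hA.2.1 i, zero_mul]

theorem even_deg {n : ℕ} {A : ℕ → ℕ → ℤ} (hA : Adj n A) : Even (∑ i ∈ range n, deg n A i) := by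
  have := handshake hA (fun _ _ => 1) (fun _ _ => rfl)
  simpa [deg] using this

theorem even_wt {n : ℕ} {A : ℕ → ℕ → ℤ} (hA : Adj n A) :
    Even (∑ i ∈ range n, (i : ℤ) * wt n A i) := by
  have := handshake hA (fun i j => (i : ℤ) * j) (fun i j => by ring)
  unfold wt
  convert this using 3 with i hi
  rw [Finset.mul_sum]
  exact Finset.sum_congr rfl (fun j _ => by ring)

/-- if all degrees are `r`, the sum of the weights is `r ∑ j` -/
theorem sum_wt {n : ℕ} {A : ℕ → ℕ → ℤ} (hA : Adj n A) {r : ℤ} (hr : ∀ i < n, deg n A i = r) :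
    ∑ i ∈ range n, wt n A i = r * ∑ i ∈ range n, (i : ℤ) := by
  unfold wt
  rw [Finset.sum_comm, Finset.mul_sum]
  refine Finset.sum_congr rfl (fun j hj => ?_)
  rw [← Finset.sum_mul, ← hr j (Finset.mem_range.1 hj)]
  unfold deg
  congr 1
  exact Finset.sum_congr rfl (fun i _ => hA.1 i j)

private theorem hdtOne (n : ℕ) : 2 * ∑ i ∈ range n, (i : ℤ) = n * ((n : ℤ) - 1) := by
  induction n with
  | zero => simp
  | succ n ih =>
    rw [sum_range_succ, mul_add, ih]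
    push_cast
    ring

private theorem hdtTwo (n : ℕ) : 6 * ∑ i ∈ range n, (i : ℤ) ^ 2 = ((n : ℤ) - 1) * n * (2 * n - 1) := by
  induction n with
  | zero => simp
  | succ n ih =>
    rw [sum_range_succ, mul_add, ih]
    push_cast
    ring

theorem target {n r : ℕ} {D : ℤ} (hpar : ParZ n r D) :
    ∃ g : ℕ → ℤ, (∀ i, 2 * g i = D * (2 * (i : ℤ) + 1 - n) + r * ((n : ℤ) - 1)) ∧
      (∑ i ∈ range n, g i = r * ∑ i ∈ range n, (i : ℤ)) ∧
      Even (∑ i ∈ range n, (i : ℤ) * g i) := by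
  obtain ⟨h1, h2, h3⟩ := hpar
  -- the constant
  have hev : Even (((r : ℤ) - D) * ((n : ℤ) - 1)) := by
    rcases Nat.even_or_odd n with hn | hn
    · have h4 : Even ((r : ℤ) - D) := by
        obtain ⟨t, ht⟩ := h2 hn
        exact ⟨t - D, by linarith⟩
      exact h4.mul_right _
    · have h4 : Even ((n : ℤ) - 1) := by
        obtain ⟨t, ht⟩ := hn
        exact ⟨t, by rw [ht]; push_cast; ring⟩
      exact h4.mul_left _
  obtain ⟨c, hc⟩ := hev
  have hs1 := hdtOne n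
  have hs2 := hdtTwo n
  set s1 : ℤ := ∑ i ∈ range n, (i : ℤ) with hs1d
  set s2 : ℤ := ∑ i ∈ range n, (i : ℤ) ^ 2 with hs2d
  refine ⟨fun i => D * i + c, fun i => ?_, ?_, ?_⟩
  · linear_combination - hc
  · rw [sum_add_distrib, ← mul_sum, sum_const, card_range, nsmul_eq_mul, ← hs1d]
    have h4 : 2 * (D * s1 + n * c) = 2 * (r * s1) := by
      linear_combination (D - r) * hs1 - (n : ℤ) * hc
    linarith
  · have h4 : ∑ i ∈ range n, (i : ℤ) * (D * i + c) = D * s2 + c * s1 := by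
      rw [hs1d, hs2d, mul_sum, mul_sum, ← sum_add_distrib]
      exact sum_congr rfl fun i _ => by ring
    rw [h4]
    have hn4 : n % 4 = 0 ∨ n % 4 = 1 ∨ n % 4 = 2 ∨ n % 4 = 3 := by omega
    rcases hn4 with h | h | h | h
    · obtain ⟨m, hm⟩ : ∃ m : ℕ, n = 4 * m := ⟨n / 4, by omega⟩
      have hm' : (n : ℤ) = 4 * m := by rw [hm]; push_cast; ring
      rw [hm'] at hs1 hs2
      have e1 : Even s1 := ⟨(m : ℤ) * (4 * m - 1), by linarith⟩
      have e2 : Even s2 := by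
        obtain ⟨k, hk⟩ : ∃ k : ℤ, 3 * s2 = 2 * k := ⟨(m : ℤ) * (4 * m - 1) * (8 * m - 1), by linarith⟩
        exact ⟨s2 / 2, by omega⟩
      exact (e2.mul_left D).add (e1.mul_left c)
    · obtain ⟨m, hm⟩ : ∃ m : ℕ, n = 4 * m + 1 := ⟨n / 4, by omega⟩
      have hm' : (n : ℤ) = 4 * m + 1 := by rw [hm]; push_cast; ring
      rw [hm'] at hs1 hs2
      have e1 : Even s1 := ⟨(m : ℤ) * (4 * m + 1), by linarith⟩
      have e2 : Even s2 := by
        obtain ⟨k, hk⟩ : ∃ k : ℤ, 3 * s2 = 2 * k := ⟨(m : ℤ) * (4 * m + 1) * (8 * m + 1), by linarith⟩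
        exact ⟨s2 / 2, by omega⟩
      exact (e2.mul_left D).add (e1.mul_left c)
    · obtain ⟨m, hm⟩ : ∃ m : ℕ, n = 4 * m + 2 := ⟨n / 4, by omega⟩
      have hm' : (n : ℤ) = 4 * m + 2 := by rw [hm]; push_cast; ring
      obtain ⟨t, ht⟩ := h3 h
      rw [hm'] at hs1 hs2 hc
      have hr : (r : ℤ) = 4 * t - D := by linarith
      rw [hr] at hc
      have hc' : c = (2 * t - D) * (4 * m + 1) := by linarith
      obtain ⟨v, hv⟩ : ∃ v : ℤ, s1 = 2 * v + 1 := ⟨4 * (m : ℤ) ^ 2 + 3 * m, by linarith⟩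
      obtain ⟨u, hu⟩ : ∃ u : ℤ, s2 = 2 * u + 1 := by
        obtain ⟨k, hk⟩ : ∃ k : ℤ, 3 * s2 = 2 * k + 1 :=
          ⟨32 * (m : ℤ) ^ 3 + 36 * (m : ℤ) ^ 2 + 13 * m + 1, by linarith⟩
        exact ⟨s2 / 2, by omega⟩
      rw [hc', hv, hu]
      exact ⟨D * u + t * (4 * m + 1) * (2 * v + 1) - D * (4 * m * v + 2 * m + v), by ring⟩
    · obtain ⟨m, hm⟩ : ∃ m : ℕ, n = 4 * m + 3 := ⟨n / 4, by omega⟩
      have hm' : (n : ℤ) = 4 * m + 3 := by rw [hm]; push_cast; ring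
      obtain ⟨t', ht'⟩ := h1 (Nat.odd_iff.2 (by omega))
      obtain ⟨t, ht⟩ : ∃ t : ℤ, (r : ℤ) = 2 * t := ⟨t', by rw [ht']; push_cast; ring⟩
      rw [hm'] at hs1 hs2 hc
      rw [ht] at hc
      have hc' : c = (2 * t - D) * (2 * m + 1) := by linarith
      obtain ⟨v, hv⟩ : ∃ v : ℤ, s1 = 2 * v + 1 := ⟨4 * (m : ℤ) ^ 2 + 5 * m + 1, by linarith⟩
      obtain ⟨u, hu⟩ : ∃ u : ℤ, s2 = 2 * u + 1 := by
        obtain ⟨k, hk⟩ : ∃ k : ℤ, 3 * s2 = 2 * k + 1 :=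
          ⟨32 * (m : ℤ) ^ 3 + 60 * (m : ℤ) ^ 2 + 37 * m + 7, by linarith⟩
        exact ⟨s2 / 2, by omega⟩
      rw [hc', hv, hu]
      exact ⟨D * u + t * (2 * m + 1) * (2 * v + 1) - D * (2 * m * v + m + v), by ring⟩

end HDT
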