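import Pool.Agent.Helper23.HDT.Greedy
import Pool.Agent.Helper23.HDT.Trade

/-! # Correcting the quadratic invariant

PLAN. `prodSum`: `m = Z / L²`, `R = Z % L²`, `k₁ = R / L < L`, `R' = R % L < L`:
`Z = m L L + k₁ L + 1 R'`; the two last products are left out if they are zero.
`qFix`: `L = n / 8 ≥ n / 9`, `∑ i (g i - wt i) = 2 σ Z`, `σ ∈ {1, -1}`, `Z ≥ 0`, `2 Z ≤ n^3 h^62`, so
`m = Z / L² ≤ 41 n h^62`. Requests `j < N`: `R j = {t j, t j + kk j}` with `t j = j % (n / 2)`,
`C j b = {b, b + ll j}`, `cand j` = the set `B` from `Pat` for the rows `t j, t j + kk j` and two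
dummy rows, shift `ll j ≤ L = n / 8`, with pattern `e = (1, 0)` if `τ = 1`, `(0, 1)` if `τ = -1`,
where `τ = -σ`. `u j = τ (e_{t} - e_{t+k})`, `w j = e_{b+l} - e_b`; check `hpat`: for `τ = 1` the
entries `(t, b+l), (t, b), (t+k, b+l), (t+k, b)` are `0, 1, 1, 0` and become `1, 0, 0, 1`.
Usage of rows: for `j < m` we have `kk j = L` constant, so an index `x` is in `R j` for at most
`2 (m / (n/2) + 1)` of them, plus 2 for the last two requests: at most `h^63 =: n₁`;
`N ≤ m + 2 ≤ n * n₁`. Apply `greedyH` (`hCb`: `x ∈ {b, b + l}` for at most two `b`), `tradeFam`.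
Degrees are unchanged (`∑ u = ∑ w = 0`). Change of the weights: `τ (l (e_t - e_{t+k})_i - k w_i)`,
since `∑ w j j = l`, `∑ u j j = - τ k`; hence `∑ i i wt` changes by `τ (-l k - k l)` for each request
and `∑ i (g i - wt' i) = 2 σ Z + 2 τ ∑ kk ll = 0`. `Chg`: `2 n₁ + 4 * 32 h² n₁ ≤ h^68`. -/

namespace HDT

open Finset

private theorem QFix_ext {L m N S k l : ℕ} (hk : 1 ≤ k) (hkL : k ≤ L) (hl : 1 ≤ l) (hlL : l ≤ L)
    (hmN : m ≤ N) (h : ∃ kk ll : ℕ → ℕ,
      (∀ j < N, 1 ≤ kk j ∧ kk j ≤ L ∧ 1 ≤ ll j ∧ ll j ≤ L) ∧ (∀ j < m, kk j = L) ∧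
      ∑ j ∈ range N, kk j * ll j = S) :
    ∃ kk ll : ℕ → ℕ, (∀ j < N + 1, 1 ≤ kk j ∧ kk j ≤ L ∧ 1 ≤ ll j ∧ ll j ≤ L) ∧
      (∀ j < m, kk j = L) ∧ ∑ j ∈ range (N + 1), kk j * ll j = S + k * l := by
  obtain ⟨kk, ll, h1, h2, h3⟩ := h
  refine ⟨Function.update kk N k, Function.update ll N l, ?_, ?_, ?_⟩
  · intro j hj
    by_cases hjN : j = N
    · subst hjN
      rw [Function.update_self, Function.update_self]
      exact ⟨hk, hkL, hl, hlL⟩
    · rw [Function.update_of_ne hjN, Function.update_of_ne hjN]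
      exact h1 j (by omega)
  · intro j hj
    rw [Function.update_of_ne (by omega)]
    exact h2 j hj
  · rw [Finset.sum_range_succ, Function.update_self, Function.update_self, ← h3]
    congr 1
    refine Finset.sum_congr rfl fun j hj => ?_
    have hjN : j ≠ N := (Finset.mem_range.1 hj).ne
    rw [Function.update_of_ne hjN, Function.update_of_ne hjN]

theorem prodSum (L Z : ℕ) (hL : 1 ≤ L) : ∃ (N : ℕ) (kk ll : ℕ → ℕ), N ≤ Z / L ^ 2 + 2 ∧
    (∀ j < N, 1 ≤ kk j ∧ kk j ≤ L ∧ 1 ≤ ll j ∧ ll j ≤ L) ∧ (∀ j < Z / L ^ 2, kk j = L) ∧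
    Z / L ^ 2 ≤ N ∧ ∑ j ∈ range N, kk j * ll j = Z := by
  set m := Z / L ^ 2 with hm
  have base : ∃ kk ll : ℕ → ℕ, (∀ j < m, 1 ≤ kk j ∧ kk j ≤ L ∧ 1 ≤ ll j ∧ ll j ≤ L) ∧
      (∀ j < m, kk j = L) ∧ ∑ j ∈ range m, kk j * ll j = m * L ^ 2 := by
    refine ⟨fun _ => L, fun _ => L, fun j _ => ⟨hL, le_rfl, hL, le_rfl⟩, fun _ _ => rfl, ?_⟩
    rw [Finset.sum_const, Finset.card_range, smul_eq_mul, pow_two]
  have e1 : Z = m * L ^ 2 + Z % L ^ 2 := by
    rw [hm, mul_comm]
    exact (Nat.div_add_mod Z (L ^ 2)).symm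
  have e2 : Z % L ^ 2 = Z % L ^ 2 / L * L + Z % L ^ 2 % L := by
    rw [mul_comm]
    exact (Nat.div_add_mod _ L).symm
  have hR : Z % L ^ 2 < L ^ 2 := Nat.mod_lt _ (by positivity)
  set R := Z % L ^ 2 with hRdef
  have hk : R / L < L := by
    rw [Nat.div_lt_iff_lt_mul hL]
    rw [pow_two] at hR
    exact hR
  have hR' : R % L < L := Nat.mod_lt _ hL
  rcases Nat.eq_zero_or_pos (R / L) with h1 | h1
  · rcases Nat.eq_zero_or_pos (R % L) with h2 | h2
    · obtain ⟨kk, ll, a1, a2, a3⟩ := base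
      refine ⟨m, kk, ll, by omega, a1, a2, le_rfl, ?_⟩
      rw [a3]
      rw [h1, h2] at e2
      omega
    · obtain ⟨kk, ll, a1, a2, a3⟩ := QFix_ext (k := 1) (l := R % L) le_rfl hL h2 hR'.le le_rfl base
      refine ⟨m + 1, kk, ll, by omega, a1, a2, by omega, ?_⟩
      rw [a3]
      rw [h1] at e2
      omega
  · rcases Nat.eq_zero_or_pos (R % L) with h2 | h2
    · obtain ⟨kk, ll, a1, a2, a3⟩ := QFix_ext (k := R / L) (l := L) h1 hk.le hL le_rfl le_rfl base
      refine ⟨m + 1, kk, ll, by omega, a1, a2, by omega, ?_⟩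
      rw [a3]
      rw [h2] at e2
      omega
    · obtain ⟨kk, ll, a1, a2, a3⟩ := QFix_ext (k := 1) (l := R % L) le_rfl hL h2 hR'.le
        (Nat.le_succ m) (QFix_ext (k := R / L) (l := L) h1 hk.le hL le_rfl le_rfl base)
      refine ⟨m + 1 + 1, kk, ll, by omega, a1, a2, by omega, ?_⟩
      rw [a3]
      omega

private theorem QFix_dl {n b : ℕ} (hb : b < n) (f : ℕ → ℤ) :
    ∑ j ∈ range n, dl b j * f j = f b := by
  unfold dl
  rw [Finset.sum_eq_single b]
  · rw [if_pos rfl, one_mul]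
  · intro j _ hj
    rw [if_neg (Ne.symm hj), zero_mul]
  · intro h
    exact absurd (Finset.mem_range.2 hb) h

private theorem QFix_dl1 {n b : ℕ} (hb : b < n) : ∑ j ∈ range n, dl b j = 1 := by
  have := QFix_dl hb (fun _ => 1)
  simpa using this

private theorem QFix_mod (N q a : ℕ) :
    ((range N).filter fun j => j % q = a).card ≤ N / q + 1 := by
  calc ((range N).filter fun j => j % q = a).card ≤ (range (N / q + 1)).card := by
        refine Finset.card_le_card_of_injOn (fun j => j / q) ?_ ?_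
        · intro j hj
          have h1 := (Finset.mem_filter.1 hj).1
          refine Finset.mem_coe.2 (Finset.mem_range.2 (Nat.lt_succ_of_le ?_))
          exact Nat.div_le_div_right (Finset.mem_range.1 h1).le
        · intro j hj j' hj' hjj
          have h1 := (Finset.mem_filter.1 hj).2
          have h2 := (Finset.mem_filter.1 hj').2
          have h3 := Nat.div_add_mod j q
          have h4 := Nat.div_add_mod j' q
          have h5 : j / q = j' / q := hjj
          rw [← h3, ← h4, h1, h2, h5]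
    _ = N / q + 1 := Finset.card_range _

theorem qFix {n h β : ℕ} (hh : 10 ^ 6 ≤ h) (hn : h ^ 100 ≤ n) {A : ℕ → ℕ → ℤ}
    {F : ℕ → ℕ → Prop} (hA : Adj n A) (hF : ∀ i j, F i j → F j i) (hβ : n ≤ β * (1000 * h))
    (hP : Pat n (n / 8) β A F) (g : ℕ → ℤ)
    (hQ : |∑ i ∈ range n, (i : ℤ) * (g i - wt n A i)| ≤ (n : ℤ) ^ 3 * (h : ℤ) ^ 62)
    (hev : Even (∑ i ∈ range n, (i : ℤ) * (g i - wt n A i))) :
    ∃ A' : ℕ → ℕ → ℤ, Adj n A' ∧ (∀ i j, F i j → A' i j = A i j) ∧
      (∀ i < n, deg n A' i = deg n A i) ∧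
      ∑ i ∈ range n, (i : ℤ) * (g i - wt n A' i) = 0 ∧ Chg n (h ^ 68) A A' := by
  classical
  have hh0 : 0 < h := by omega
  have hn6 : 10 ^ 6 ≤ n := by
    calc 10 ^ 6 ≤ h := hh
      _ = h ^ 1 := (pow_one h).symm
      _ ≤ h ^ 100 := Nat.pow_le_pow_right hh0 (by norm_num)
      _ ≤ n := hn
  obtain ⟨S, hS⟩ := hev
  obtain ⟨σ, Z, hσ, hSZ⟩ : ∃ (σ : ℤ) (Z : ℕ), (σ = 1 ∨ σ = -1) ∧ S = σ * Z := by
    rcases Int.eq_nat_or_neg S with ⟨Z, hZ | hZ⟩
    · exact ⟨1, Z, Or.inl rfl, by rw [hZ, one_mul]⟩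
    · exact ⟨-1, Z, Or.inr rfl, by rw [hZ]; ring⟩
  have hSum : ∑ i ∈ range n, (i : ℤ) * (g i - wt n A i) = 2 * σ * Z := by
    rw [hS, hSZ]
    ring
  have hZ2 : 2 * Z ≤ n ^ 3 * h ^ 62 := by
    rw [hSum] at hQ
    have h1 : |2 * σ * (Z : ℤ)| = 2 * Z := by
      rcases hσ with h | h
      · rw [h, mul_one, abs_of_nonneg (by positivity)]
      · rw [h, show (2 * (-1) * (Z : ℤ)) = -(2 * Z) by ring, abs_neg, abs_of_nonneg (by positivity)]
    rw [h1] at hQ
    exact_mod_cast hQ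
  set L := n / 8 with hLdef
  have hL1 : 1 ≤ L := by omega
  have hL9 : n ≤ 9 * L := by omega
  have hL8 : 8 * L ≤ n := by omega
  obtain ⟨N, kk, ll, hN, hkl, hkL, hmN, hsum⟩ := prodSum L Z hL1
  set m := Z / L ^ 2 with hmdef
  have hm : m ≤ 41 * (n * h ^ 62) := by
    have h1 : m * L ^ 2 ≤ Z := Nat.div_mul_le_self _ _
    have h2 : n ^ 2 ≤ 81 * L ^ 2 := by nlinarith
    have h3 : 2 * (m * n ^ 2) ≤ 81 * (n * h ^ 62) * n ^ 2 := by
      calc 2 * (m * n ^ 2) ≤ 2 * (m * (81 * L ^ 2)) := by gcongr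
        _ = 81 * (2 * (m * L ^ 2)) := by ring
        _ ≤ 81 * (2 * Z) := by gcongr
        _ ≤ 81 * (n ^ 3 * h ^ 62) := by gcongr
        _ = 81 * (n * h ^ 62) * n ^ 2 := by ring
    have h4 : 2 * m ≤ 81 * (n * h ^ 62) := by
      have hn2 : 0 < n ^ 2 := by positivity
      refine Nat.le_of_mul_le_mul_right ?_ hn2
      rw [mul_assoc]
      exact h3
    omega
  -- the bound for the number of requests
  have hp62 : 1 ≤ h ^ 62 := Nat.one_le_pow _ _ hh0
  have hp63 : h ^ 63 = h * h ^ 62 := by ring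
  have hN2 : N ≤ 42 * (n * h ^ 62) := by
    have : 2 ≤ n * h ^ 62 := by nlinarith
    omega
  have hNn : N ≤ n * h ^ 63 := by
    rw [hp63]
    calc N ≤ 42 * (n * h ^ 62) := hN2
      _ ≤ h * (n * h ^ 62) := Nat.mul_le_mul_right _ (by omega)
      _ = n * (h * h ^ 62) := by ring
  set q := n / 2 with hqdef
  have hq0 : 0 < q := by omega
  have hNq : N / q ≤ 126 * h ^ 62 := by
    have h1 : n ≤ 3 * q := by omega
    have h2 : N ≤ 126 * h ^ 62 * q := by
      calc N ≤ 42 * (n * h ^ 62) := hN2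
        _ ≤ 42 * (3 * q * h ^ 62) := by gcongr
        _ = 126 * h ^ 62 * q := by ring
    exact Nat.div_le_of_le_mul (by rw [mul_comm]; exact h2)
  let t : ℕ → ℕ := fun j => j % q
  have ht : ∀ j, t j < q := fun j => Nat.mod_lt _ hq0
  set τ : ℤ := -σ with hτdef
  have hτ : τ = 1 ∨ τ = -1 := by
    rcases hσ with h | h
    · right; rw [hτdef, h]
    · left; rw [hτdef, h]; norm_num
  let e1 : ℤ := if τ = 1 then 1 else 0
  have he1 : e1 = 0 ∨ e1 = 1 := by
    by_cases h : τ = 1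
    · right; exact if_pos h
    · left; exact if_neg h
  -- candidates
  have hcand : ∀ j, ∃ B : Finset ℕ, j < N → (β ≤ B.card ∧ ∀ b ∈ B, b + ll j < n ∧
      (t j ≠ b ∧ t j ≠ b + ll j ∧ ¬ F (t j) b ∧ ¬ F (t j) (b + ll j) ∧ A (t j) b = e1 ∧
        A (t j) (b + ll j) = 1 - e1) ∧
      (t j + kk j ≠ b ∧ t j + kk j ≠ b + ll j ∧ ¬ F (t j + kk j) b ∧
        ¬ F (t j + kk j) (b + ll j) ∧ A (t j + kk j) b = 1 - e1 ∧
        A (t j + kk j) (b + ll j) = e1)) := by
    intro j
    by_cases hj : j < N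
    · obtain ⟨hk1, hk2, hl1, hl2⟩ := hkl j hj
      have htj := ht j
      have hinj : Function.Injective (![t j, t j + kk j, n - 1, n - 2] : Fin 4 → ℕ) := by
        intro a b hab
        fin_cases a <;> fin_cases b <;> simp at hab ⊢ <;> omega
      have hlt : ∀ k, (![t j, t j + kk j, n - 1, n - 2] : Fin 4 → ℕ) k < n := by
        intro k
        fin_cases k <;> simp <;> omega
      have hee : ∀ k, (![e1, 1 - e1, 0, 0] : Fin 4 → ℤ) k = 0 ∨
          (![e1, 1 - e1, 0, 0] : Fin 4 → ℤ) k = 1 := by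
        intro k
        fin_cases k
        · exact he1
        · rcases he1 with h | h
          · right; show 1 - e1 = 1; rw [h]; norm_num
          · left; show 1 - e1 = 0; rw [h]; norm_num
        · exact Or.inl rfl
        · exact Or.inl rfl
      obtain ⟨B, hB1, hB2⟩ := hP _ _ (ll j) hinj hlt hee hl1 hl2
      refine ⟨B, fun _ => ⟨hB1, fun b hb => ?_⟩⟩
      obtain ⟨h1, h2⟩ := hB2 b hb
      refine ⟨h1, h2 0, ?_⟩
      obtain ⟨c1, c2, c3, c4, c5, c6⟩ := h2 1
      refine ⟨c1, c2, c3, c4, c5, ?_⟩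
      have c7 : A (t j + kk j) (b + ll j) = 1 - (1 - e1) := c6
      rw [c7]
      ring
    · exact ⟨∅, fun h => absurd h hj⟩
  choose cand hcand using hcand
  let R : ℕ → Finset ℕ := fun j => {t j, t j + kk j}
  let C : ℕ → ℕ → Finset ℕ := fun j b => {b, b + ll j}
  have hRn : ∀ k < N, R k ⊆ range n := by
    intro k hk x hx
    have h1 := ht k
    have h2 := (hkl k hk).2.1
    rcases Finset.mem_insert.1 hx with rfl | hx
    · exact Finset.mem_range.2 (by omega)
    · rw [Finset.mem_singleton.1 hx]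
      exact Finset.mem_range.2 (by omega)
  have hRc : ∀ k < N, (R k).card ≤ 4 := fun k _ => (Finset.card_le_two).trans (by norm_num)
  have hCn : ∀ k < N, ∀ b ∈ cand k, C k b ⊆ range n ∧ (C k b).card ≤ 2 := by
    intro k hk b hb
    refine ⟨?_, Finset.card_le_two⟩
    have h1 := ((hcand k hk).2 b hb).1
    intro x hx
    rcases Finset.mem_insert.1 hx with rfl | hx
    · exact Finset.mem_range.2 (by omega)
    · rw [Finset.mem_singleton.1 hx]
      exact Finset.mem_range.2 h1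
  have hCb : ∀ k < N, ∀ x, ((cand k).filter (fun b => x ∈ C k b)).card ≤ 2 := by
    intro k _ x
    refine le_trans (Finset.card_le_card (t := {x, x - ll k}) ?_) Finset.card_le_two
    intro b hb
    have h1 := (Finset.mem_filter.1 hb).2
    rcases Finset.mem_insert.1 h1 with h2 | h2
    · rw [h2]
      exact Finset.mem_insert_self _ _
    · have h3 := Finset.mem_singleton.1 h2
      refine Finset.mem_insert_of_mem (Finset.mem_singleton.2 ?_)
      omega
  have hRu : ∀ x < n, ((range N).filter (fun k => x ∈ R k)).card ≤ h ^ 63 := by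
    intro x _
    have hsub : (range N).filter (fun k => x ∈ R k) ⊆
        ((range N).filter (fun j => j % q = x)) ∪ (((range N).filter (fun j => j % q = x - L)) ∪
          (Finset.Ico m N)) := by
      intro j hj
      obtain ⟨hj1, hj2⟩ := Finset.mem_filter.1 hj
      rw [Finset.mem_union, Finset.mem_union]
      rcases Finset.mem_insert.1 hj2 with h2 | h2
      · exact Or.inl (Finset.mem_filter.2 ⟨hj1, h2.symm⟩)
      · have h3 : x = j % q + kk j := Finset.mem_singleton.1 h2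
        right
        by_cases hjm : j < m
        · left
          rw [hkL j hjm] at h3
          exact Finset.mem_filter.2 ⟨hj1, by omega⟩
        · right
          exact Finset.mem_Ico.2 ⟨by omega, Finset.mem_range.1 hj1⟩
    have h1 : ((range N).filter (fun k => x ∈ R k)).card ≤ (N / q + 1) + ((N / q + 1) + 2) := by
      refine (Finset.card_le_card hsub).trans ((Finset.card_union_le _ _).trans ?_)
      refine Nat.add_le_add (QFix_mod N q x) ((Finset.card_union_le _ _).trans ?_)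
      refine Nat.add_le_add (QFix_mod N q (x - L)) ?_
      rw [Nat.card_Ico]
      omega
    have h2 : 1000 * h ^ 62 ≤ h ^ 63 := by
      rw [hp63]
      exact Nat.mul_le_mul_right _ (by omega)
    omega
  have hβn : n ≤ β * h ^ 2 := by
    refine hβ.trans (Nat.mul_le_mul_left _ ?_)
    rw [pow_two]
    exact Nat.mul_le_mul_right _ (by omega)
  obtain ⟨b, hb1, hb2, hb3⟩ := greedyH hh hn hβn hNn (Nat.one_le_pow _ _ hh0)
    (Nat.pow_le_pow_right hh0 (by norm_num)) R C cand hRn hRc hCn hCb hRu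
    (fun k hk => (hcand k hk).1)
  -- the trades
  let u : ℕ → ℕ → ℤ := fun j i => τ * (dl (t j) i - dl (t j + kk j) i)
  let w : ℕ → ℕ → ℤ := fun j i => dl (b j + ll j) i - dl (b j) i
  have hne1 : ∀ k < N, t k ≠ t k + kk k := fun k hk => by
    have := (hkl k hk).1
    omega
  have hne2 : ∀ k < N, b k ≠ b k + ll k := fun k hk => by
    have := (hkl k hk).2.2.1
    omega
  have dl_self : ∀ x, dl x x = 1 := fun x => if_pos rfl
  have dl_ne : ∀ {x y : ℕ}, x ≠ y → dl x y = 0 := fun h => if_neg h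
  have hu : ∀ k < N, ∀ i, i ∉ R k → u k i = 0 := by
    intro k _ i hi
    have h1 : t k ≠ i := fun h => hi (h ▸ Finset.mem_insert_self _ _)
    have h2 : t k + kk k ≠ i := fun h =>
      hi (h ▸ Finset.mem_insert_of_mem (Finset.mem_singleton_self _))
    show τ * (dl (t k) i - dl (t k + kk k) i) = 0
    rw [dl_ne h1, dl_ne h2, sub_zero, mul_zero]
  have hw : ∀ k < N, ∀ i, i ∉ C k (b k) → w k i = 0 := by
    intro k _ i hi
    have h1 : b k ≠ i := fun h => hi (h ▸ Finset.mem_insert_self _ _)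
    have h2 : b k + ll k ≠ i := fun h =>
      hi (h ▸ Finset.mem_insert_of_mem (Finset.mem_singleton_self _))
    show dl (b k + ll k) i - dl (b k) i = 0
    rw [dl_ne h1, dl_ne h2, sub_zero]
  have hdis : ∀ k < N, Disjoint (R k) (C k (b k)) := by
    intro k hk
    obtain ⟨-, ⟨c1, c2, -⟩, ⟨d1, d2, -⟩⟩ := (hcand k hk).2 _ (hb1 k hk)
    rw [Finset.disjoint_left]
    intro x hx hx'
    rcases Finset.mem_insert.1 hx with rfl | hx
    · rcases Finset.mem_insert.1 hx' with h | h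
      · exact c1 h
      · exact c2 (Finset.mem_singleton.1 h)
    · rw [Finset.mem_singleton.1 hx] at hx'
      rcases Finset.mem_insert.1 hx' with h | h
      · exact d1 h
      · exact d2 (Finset.mem_singleton.1 h)
  have hpat : ∀ k < N, ∀ i ∈ R k, ∀ c ∈ C k (b k), ¬ F i c ∧
      (A i c + u k i * w k c = 0 ∨ A i c + u k i * w k c = 1) := by
    intro k hk i hi c hc
    obtain ⟨-, ⟨-, -, c3, c4, c5, c6⟩, ⟨-, -, d3, d4, d5, d6⟩⟩ := (hcand k hk).2 _ (hb1 k hk)
    have u1 : u k (t k) = τ := by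
      show τ * (dl (t k) (t k) - dl (t k + kk k) (t k)) = τ
      rw [dl_self, dl_ne (hne1 k hk).symm, sub_zero, mul_one]
    have u2 : u k (t k + kk k) = -τ := by
      show τ * (dl (t k) (t k + kk k) - dl (t k + kk k) (t k + kk k)) = -τ
      rw [dl_self, dl_ne (hne1 k hk)]
      ring
    have w1 : w k (b k) = -1 := by
      show dl (b k + ll k) (b k) - dl (b k) (b k) = -1
      rw [dl_self, dl_ne (hne2 k hk).symm]
      norm_num
    have w2 : w k (b k + ll k) = 1 := by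
      show dl (b k + ll k) (b k + ll k) - dl (b k) (b k + ll k) = 1
      rw [dl_self, dl_ne (hne2 k hk)]
      norm_num
    have hcase : (τ = 1 ∧ e1 = 1) ∨ (τ = -1 ∧ e1 = 0) := by
      rcases hτ with h | h
      · exact Or.inl ⟨h, if_pos h⟩
      · refine Or.inr ⟨h, if_neg ?_⟩
        rw [h]
        norm_num
    rcases Finset.mem_insert.1 hi with rfl | hi
    · rcases Finset.mem_insert.1 hc with rfl | hc
      · refine ⟨c3, ?_⟩
        rw [c5, u1, w1]
        rcases hcase with ⟨h1, h2⟩ | ⟨h1, h2⟩ <;> rw [h1, h2] <;> norm_num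
      · rw [Finset.mem_singleton.1 hc]
        refine ⟨c4, ?_⟩
        rw [c6, u1, w2]
        rcases hcase with ⟨h1, h2⟩ | ⟨h1, h2⟩ <;> rw [h1, h2] <;> norm_num
    · rw [Finset.mem_singleton.1 hi]
      rcases Finset.mem_insert.1 hc with rfl | hc
      · refine ⟨d3, ?_⟩
        rw [d5, u2, w1]
        rcases hcase with ⟨h1, h2⟩ | ⟨h1, h2⟩ <;> rw [h1, h2] <;> norm_num
      · rw [Finset.mem_singleton.1 hc]
        refine ⟨d4, ?_⟩
        rw [d6, u2, w2]
        rcases hcase with ⟨h1, h2⟩ | ⟨h1, h2⟩ <;> rw [h1, h2] <;> norm_num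
  obtain ⟨A', hA1, hA2, hA3, hA4, hA5⟩ := tradeFam hA hF u w R (fun k => C k (b k)) hRn
    (fun k hk => (hCn k hk _ (hb1 k hk)).1) hRc (fun k hk => (hCn k hk _ (hb1 k hk)).2) hdis hu hw
    hpat hRu hb2 hb3
  have htn : ∀ k < N, t k < n := fun k hk => Finset.mem_range.1 (hRn k hk (Finset.mem_insert_self _ _))
  have htkn : ∀ k < N, t k + kk k < n := fun k hk => Finset.mem_range.1
    (hRn k hk (Finset.mem_insert_of_mem (Finset.mem_singleton_self _)))
  have hbln : ∀ k < N, b k + ll k < n := fun k hk => ((hcand k hk).2 _ (hb1 k hk)).1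
  have hbn : ∀ k < N, b k < n := fun k hk => by
    have := hbln k hk
    omega
  have su0 : ∀ k < N, ∑ j ∈ range n, u k j = 0 := by
    intro k hk
    show ∑ j ∈ range n, τ * (dl (t k) j - dl (t k + kk k) j) = 0
    rw [← Finset.mul_sum, Finset.sum_sub_distrib, QFix_dl1 (htn k hk), QFix_dl1 (htkn k hk),
      sub_self, mul_zero]
  have sw0 : ∀ k < N, ∑ j ∈ range n, w k j = 0 := by
    intro k hk
    show ∑ j ∈ range n, (dl (b k + ll k) j - dl (b k) j) = 0
    rw [Finset.sum_sub_distrib, QFix_dl1 (hbln k hk), QFix_dl1 (hbn k hk), sub_self]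
  have su1 : ∀ k < N, ∑ j ∈ range n, u k j * (j : ℤ) = -τ * kk k := by
    intro k hk
    have e : ∀ j, u k j * (j : ℤ) = τ * (dl (t k) j * (j : ℤ)) - τ * (dl (t k + kk k) j * (j : ℤ)) := by
      intro j
      show τ * (dl (t k) j - dl (t k + kk k) j) * (j : ℤ) = _
      ring
    rw [Finset.sum_congr rfl fun j _ => e j, Finset.sum_sub_distrib, ← Finset.mul_sum,
      ← Finset.mul_sum, QFix_dl (htn k hk) (fun j => (j : ℤ)),
      QFix_dl (htkn k hk) (fun j => (j : ℤ))]
    push_cast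
    ring
  have sw1 : ∀ k < N, ∑ j ∈ range n, w k j * (j : ℤ) = ll k := by
    intro k hk
    have e : ∀ j, w k j * (j : ℤ) = dl (b k + ll k) j * (j : ℤ) - dl (b k) j * (j : ℤ) := by
      intro j
      show (dl (b k + ll k) j - dl (b k) j) * (j : ℤ) = _
      ring
    rw [Finset.sum_congr rfl fun j _ => e j, Finset.sum_sub_distrib,
      QFix_dl (hbln k hk) (fun j => (j : ℤ)), QFix_dl (hbn k hk) (fun j => (j : ℤ))]
    push_cast
    ring
  refine ⟨A', hA1, hA2, ?_, ?_, ?_⟩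
  · intro i _
    rw [hA4]
    rw [Finset.sum_eq_zero, add_zero]
    intro k hk
    have hk' := Finset.mem_range.1 hk
    rw [su0 k hk', sw0 k hk', mul_zero, mul_zero, add_zero]
  · have e1 : ∀ i : ℕ, (i : ℤ) * (g i - wt n A' i) = (i : ℤ) * (g i - wt n A i) -
        ∑ k ∈ range N, (ll k * (u k i * (i : ℤ)) - τ * kk k * (w k i * (i : ℤ))) := by
      intro i
      rw [hA5]
      have e2 : ∑ k ∈ range N, (u k i * ∑ j ∈ range n, w k j * (j : ℤ) +
          w k i * ∑ j ∈ range n, u k j * (j : ℤ)) =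
          ∑ k ∈ range N, (u k i * ll k + w k i * (-τ * kk k)) := by
        refine Finset.sum_congr rfl fun k hk => ?_
        rw [sw1 k (Finset.mem_range.1 hk), su1 k (Finset.mem_range.1 hk)]
      rw [e2]
      have e3 : ∑ k ∈ range N, (ll k * (u k i * (i : ℤ)) - τ * kk k * (w k i * (i : ℤ))) =
          (i : ℤ) * ∑ k ∈ range N, (u k i * ll k + w k i * (-τ * kk k)) := by
        rw [Finset.mul_sum]
        refine Finset.sum_congr rfl fun k _ => ?_
        ring
      rw [e3]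
      ring
    rw [Finset.sum_congr rfl fun i _ => e1 i, Finset.sum_sub_distrib, Finset.sum_comm, hSum]
    have e4 : ∀ k ∈ range N, ∑ i ∈ range n, (ll k * (u k i * (i : ℤ)) - τ * kk k * (w k i * (i : ℤ))) =
        -2 * τ * ((kk k * ll k : ℕ) : ℤ) := by
      intro k hk
      rw [Finset.sum_sub_distrib, ← Finset.mul_sum, ← Finset.mul_sum,
        su1 k (Finset.mem_range.1 hk), sw1 k (Finset.mem_range.1 hk)]
      push_cast
      ring
    rw [Finset.sum_congr rfl e4, ← Finset.mul_sum, ← Nat.cast_sum, hsum, hτdef]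
    ring
  · intro i hi
    obtain ⟨T, hT1, hT2⟩ := hA3 i hi
    refine ⟨T, hT1.trans ?_, hT2⟩
    have a1 : h ^ 65 = h ^ 2 * h ^ 63 := by ring
    have a2 : h ^ 63 ≤ h ^ 65 := Nat.pow_le_pow_right hh0 (by norm_num)
    have a3 : 130 * h ^ 65 ≤ h ^ 66 := by
      rw [show h ^ 66 = h * h ^ 65 by ring]
      exact Nat.mul_le_mul_right _ (by omega)
    have a4 : h ^ 66 ≤ h ^ 68 := Nat.pow_le_pow_right hh0 (by norm_num)
    have a5 : 2 * h ^ 63 + 4 * (32 * h ^ 2 * h ^ 63) = 2 * h ^ 63 + 128 * h ^ 65 := by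
      rw [a1]
      ring
    rw [a5]
    omega

end HDT
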