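import Pool.Agent.Helper23.HDT.Greedy
import Pool.Agent.Helper23.HDT.Trade

/-! # The final correction of the weights

PLAN. Take `N, t, t', k, l` from `hReq`. `R j = {t, t + k, t', t' + k}` (four different indices),
`C j b = {b, b + l}`, `cand j` = the set `B` from `Pat` for the rows `![t, t + k, t', t' + k]`,
pattern `![1, 0, 0, 1]`, shift `l ≤ n / 8`. `n₁ = h^95`; `4 N = ∑_{x<n} #{j : x ∈ R j} ≤ n n₁`.
`n ≤ β * 1000 h ≤ β h^2`. Apply `greedyH` (`hCb`: at most two `b` with `x ∈ {b, b + l}`), then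
`tradeFam` with `u j = e_t - e_{t+k} - e_{t'} + e_{t'+k}`, `w j = e_{b+l} - e_b`: at `b + l` the rows
have the entries `0, 1, 1, 0`, at `b` the entries `1, 0, 0, 1`, and `u w` is `+1, -1, -1, +1` at
`b + l` and the opposite at `b`. `∑ u = ∑ w = 0` (degrees unchanged),
`∑ u j * j = t - (t + k) - t' + (t' + k) = 0`, `∑ w j * j = l`: the weights change by
`∑_j l_j u_j i = g i - wt n A i`. -/

namespace HDT

open Finset

private theorem dl_sum {n x : ℕ} (hx : x < n) : ∑ j ∈ range n, dl x j = 1 := by
  unfold dl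
  rw [Finset.sum_ite_eq, if_pos (mem_range.2 hx)]

private theorem dl_sum_mul {n x : ℕ} (hx : x < n) : ∑ j ∈ range n, dl x j * (j : ℤ) = x := by
  have h1 : ∀ j ∈ range n, dl x j * (j : ℤ) = if x = j then (j : ℤ) else 0 := by
    intro j _
    unfold dl
    split_ifs <;> simp
  rw [Finset.sum_congr rfl h1, Finset.sum_ite_eq, if_pos (mem_range.2 hx)]

private theorem dl_self (x : ℕ) : dl x x = 1 := if_pos rfl

private theorem dl_ne {x i : ℕ} (h : x ≠ i) : dl x i = 0 := if_neg h

theorem wtFix {n h β : ℕ} (hh : 10 ^ 6 ≤ h) (hn : h ^ 100 ≤ n) {A : ℕ → ℕ → ℤ}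
    {F : ℕ → ℕ → Prop} (hA : Adj n A) (hF : ∀ i j, F i j → F j i) (hβ : n ≤ β * (1000 * h))
    (hP : Pat n (n / 8) β A F) (g : ℕ → ℤ)
    (hReq : Req n (n / 8) (h ^ 95) (fun i => g i - wt n A i)) :
    ∃ A' : ℕ → ℕ → ℤ, Adj n A' ∧ (∀ i j, F i j → A' i j = A i j) ∧
      (∀ i < n, deg n A' i = deg n A i) ∧ (∀ i < n, wt n A' i = g i) := by
  classical
  obtain ⟨N, t, t', k, l, h1, h2, h3⟩ := hReq
  have hB : ∀ j, ∃ B : Finset ℕ, j < N → (β ≤ B.card ∧ ∀ b ∈ B, b + l j < n ∧
      ∀ r : Fin 4, (![t j, t j + k j, t' j, t' j + k j] : Fin 4 → ℕ) r ≠ b ∧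
        (![t j, t j + k j, t' j, t' j + k j] : Fin 4 → ℕ) r ≠ b + l j ∧
        ¬ F ((![t j, t j + k j, t' j, t' j + k j] : Fin 4 → ℕ) r) b ∧
        ¬ F ((![t j, t j + k j, t' j, t' j + k j] : Fin 4 → ℕ) r) (b + l j) ∧
        A ((![t j, t j + k j, t' j, t' j + k j] : Fin 4 → ℕ) r) b =
          (![1, 0, 0, 1] : Fin 4 → ℤ) r ∧
        A ((![t j, t j + k j, t' j, t' j + k j] : Fin 4 → ℕ) r) (b + l j) =
          1 - (![1, 0, 0, 1] : Fin 4 → ℤ) r) := by
    intro j
    by_cases hj : j < N
    · obtain ⟨a1, a2, a3, a4, a5, a6, a7, a8⟩ := h1 j hj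
      obtain ⟨B, hB1, hB2⟩ := hP ![t j, t j + k j, t' j, t' j + k j] ![1, 0, 0, 1] (l j)
        (by
          intro x y hxy
          fin_cases x <;> fin_cases y <;> simp at hxy ⊢ <;> omega)
        (by
          intro x
          fin_cases x <;> simp <;> omega)
        (by
          intro x
          fin_cases x <;> simp)
        a7 a8
      exact ⟨B, fun _ => ⟨hB1, hB2⟩⟩
    · exact ⟨∅, fun h => absurd h hj⟩
  choose cand hcand using hB
  set R : ℕ → Finset ℕ := fun j => {t j, t j + k j, t' j, t' j + k j} with hR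
  set C : ℕ → ℕ → Finset ℕ := fun j b => {b, b + l j} with hC
  have hRmem : ∀ j x, x ∈ R j ↔ (x = t j ∨ x = t j + k j ∨ x = t' j ∨ x = t' j + k j) := by
    intro j x
    simp only [hR, mem_insert, mem_singleton]
  have hCmem : ∀ j b x, x ∈ C j b ↔ (x = b ∨ x = b + l j) := by
    intro j b x
    simp only [hC, mem_insert, mem_singleton]
  have hRn : ∀ j < N, R j ⊆ range n := by
    intro j hj x hx
    obtain ⟨a1, a2, a3, a4, a5, a6, a7, a8⟩ := h1 j hj
    rw [mem_range]
    rcases (hRmem j x).1 hx with h | h | h | h <;> omega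
  have hRc : ∀ j < N, (R j).card ≤ 4 := fun j _ => Finset.card_le_four
  have hCn : ∀ j < N, ∀ b ∈ cand j, C j b ⊆ range n ∧ (C j b).card ≤ 2 := by
    intro j hj b hb
    have hb1 := ((hcand j hj).2 b hb).1
    refine ⟨?_, Finset.card_le_two⟩
    intro x hx
    rw [mem_range]
    rcases (hCmem j b x).1 hx with h | h <;> omega
  have hCb : ∀ j < N, ∀ x, ((cand j).filter (fun b => x ∈ C j b)).card ≤ 2 := by
    intro j _ x
    have hsub : (cand j).filter (fun b => x ∈ C j b) ⊆ {x, x - l j} := by
      intro b hb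
      rw [mem_filter, hCmem] at hb
      rw [mem_insert, mem_singleton]
      rcases hb.2 with h | h
      · left; exact h.symm
      · right; omega
    exact (Finset.card_le_card hsub).trans Finset.card_le_two
  have hRu : ∀ x < n, ((range N).filter (fun j => x ∈ R j)).card ≤ h ^ 95 := by
    intro x hx
    have h4 := h3 x hx
    have h5 : (range N).filter (fun j => x ∈ R j) = (range N).filter
        (fun j => x = t j ∨ x = t j + k j ∨ x = t' j ∨ x = t' j + k j) :=
      Finset.filter_congr fun j _ => hRmem j x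
    rw [h5]
    exact h4
  have hh0 : 0 < h := by omega
  have hN : N ≤ n * h ^ 95 := by
    have h4 : ((range N).card) ≤ h ^ 95 * (range n).card := by
      apply Finset.card_le_mul_card_image_of_maps_to (f := t)
      · intro j hj
        have hj' := mem_range.1 hj
        exact hRn j hj' ((hRmem j (t j)).2 (Or.inl rfl))
      · intro x hx
        refine le_trans (Finset.card_le_card ?_) (hRu x (mem_range.1 hx))
        intro j hj
        rw [mem_filter] at hj ⊢
        exact ⟨hj.1, (hRmem j x).2 (Or.inl hj.2.symm)⟩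
    rw [card_range, card_range] at h4
    linarith
  have hβn : n ≤ β * h ^ 2 := by
    refine hβ.trans (Nat.mul_le_mul_left _ ?_)
    rw [sq]
    exact Nat.mul_le_mul_right _ (by omega)
  obtain ⟨b, hb1, hb2, hb3⟩ := greedyH hh hn hβn hN (Nat.one_le_pow _ _ hh0) le_rfl R C cand
    hRn hRc hCn hCb hRu (fun j hj => (hcand j hj).1)
  obtain ⟨A', hA', hAF, -, hdeg, hwt⟩ := tradeFam (N := N) (n₁ := h ^ 95)
    (γ := 32 * h ^ 2 * h ^ 95) hA hF
    (fun j i => dl (t j) i - dl (t j + k j) i - dl (t' j) i + dl (t' j + k j) i)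
    (fun j i => dl (b j + l j) i - dl (b j) i) R (fun j => C j (b j)) hRn
    (fun j hj => (hCn j hj (b j) (hb1 j hj)).1) hRc
    (fun j hj => (hCn j hj (b j) (hb1 j hj)).2)
    (by
      intro j hj
      rw [Finset.disjoint_left]
      intro x hx hx'
      have hq := ((hcand j hj).2 (b j) (hb1 j hj)).2
      have hxR := (hRmem j x).1 hx
      have hxC := (hCmem j (b j) x).1 hx'
      rcases hxR with h | h | h | h
      · obtain ⟨q1, q2, -⟩ := hq 0
        rcases hxC with h' | h'
        · exact q1 (h.symm.trans h')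
        · exact q2 (h.symm.trans h')
      · obtain ⟨q1, q2, -⟩ := hq 1
        rcases hxC with h' | h'
        · exact q1 (h.symm.trans h')
        · exact q2 (h.symm.trans h')
      · obtain ⟨q1, q2, -⟩ := hq 2
        rcases hxC with h' | h'
        · exact q1 (h.symm.trans h')
        · exact q2 (h.symm.trans h')
      · obtain ⟨q1, q2, -⟩ := hq 3
        rcases hxC with h' | h'
        · exact q1 (h.symm.trans h')
        · exact q2 (h.symm.trans h'))
    (by
      intro j _ i hi
      rw [hRmem] at hi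
      push Not at hi
      show dl (t j) i - dl (t j + k j) i - dl (t' j) i + dl (t' j + k j) i = 0
      rw [dl_ne (Ne.symm hi.1), dl_ne (Ne.symm hi.2.1), dl_ne (Ne.symm hi.2.2.1),
        dl_ne (Ne.symm hi.2.2.2)]
      ring)
    (by
      intro j _ i hi
      rw [hCmem] at hi
      push Not at hi
      show dl (b j + l j) i - dl (b j) i = 0
      rw [dl_ne (Ne.symm hi.1), dl_ne (Ne.symm hi.2)]
      ring)
    (by
      intro j hj i hi c hc
      obtain ⟨a1, a2, a3, a4, a5, a6, a7, a8⟩ := h1 j hj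
      have hq := ((hcand j hj).2 (b j) (hb1 j hj)).2
      have hiR := (hRmem j i).1 hi
      have hcC := (hCmem j (b j) c).1 hc
      have w1 : dl (b j + l j) (b j) - dl (b j) (b j) = -1 := by
        rw [dl_self, dl_ne (by omega)]; ring
      have w2 : dl (b j + l j) (b j + l j) - dl (b j) (b j + l j) = 1 := by
        rw [dl_self, dl_ne (by omega)]; ring
      have u0 : dl (t j) (t j) - dl (t j + k j) (t j) - dl (t' j) (t j) +
          dl (t' j + k j) (t j) = 1 := by
        rw [dl_self, dl_ne (by omega), dl_ne (by omega), dl_ne (by omega)]; ring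
      have u1 : dl (t j) (t j + k j) - dl (t j + k j) (t j + k j) - dl (t' j) (t j + k j) +
          dl (t' j + k j) (t j + k j) = -1 := by
        rw [dl_self, dl_ne (by omega), dl_ne (by omega), dl_ne (by omega)]; ring
      have u2 : dl (t j) (t' j) - dl (t j + k j) (t' j) - dl (t' j) (t' j) +
          dl (t' j + k j) (t' j) = -1 := by
        rw [dl_self, dl_ne (by omega), dl_ne (by omega), dl_ne (by omega)]; ring
      have u3 : dl (t j) (t' j + k j) - dl (t j + k j) (t' j + k j) - dl (t' j) (t' j + k j) +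
          dl (t' j + k j) (t' j + k j) = 1 := by
        rw [dl_self, dl_ne (by omega), dl_ne (by omega), dl_ne (by omega)]; ring
      show ¬ F i c ∧ (A i c + (dl (t j) i - dl (t j + k j) i - dl (t' j) i +
          dl (t' j + k j) i) * (dl (b j + l j) c - dl (b j) c) = 0 ∨
        A i c + (dl (t j) i - dl (t j + k j) i - dl (t' j) i +
          dl (t' j + k j) i) * (dl (b j + l j) c - dl (b j) c) = 1)
      rcases hiR with h | h | h | h
      · obtain ⟨-, -, q3, q4, q5, q6⟩ := hq 0
        have q5' : A (t j) (b j) = 1 := q5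
        have q6' : A (t j) (b j + l j) = 1 - 1 := q6
        rcases hcC with h' | h'
        · rw [h, h', w1, u0, q5']
          exact ⟨q3, Or.inl (by norm_num)⟩
        · rw [h, h', w2, u0, q6']
          exact ⟨q4, Or.inr (by norm_num)⟩
      · obtain ⟨-, -, q3, q4, q5, q6⟩ := hq 1
        have q5' : A (t j + k j) (b j) = 0 := q5
        have q6' : A (t j + k j) (b j + l j) = 1 - 0 := q6
        rcases hcC with h' | h'
        · rw [h, h', w1, u1, q5']
          exact ⟨q3, Or.inr (by norm_num)⟩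
        · rw [h, h', w2, u1, q6']
          exact ⟨q4, Or.inl (by norm_num)⟩
      · obtain ⟨-, -, q3, q4, q5, q6⟩ := hq 2
        have q5' : A (t' j) (b j) = 0 := q5
        have q6' : A (t' j) (b j + l j) = 1 - 0 := q6
        rcases hcC with h' | h'
        · rw [h, h', w1, u2, q5']
          exact ⟨q3, Or.inr (by norm_num)⟩
        · rw [h, h', w2, u2, q6']
          exact ⟨q4, Or.inl (by norm_num)⟩
      · obtain ⟨-, -, q3, q4, q5, q6⟩ := hq 3
        have q5' : A (t' j + k j) (b j) = 1 := q5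
        have q6' : A (t' j + k j) (b j + l j) = 1 - 1 := q6
        rcases hcC with h' | h'
        · rw [h, h', w1, u3, q5']
          exact ⟨q3, Or.inl (by norm_num)⟩
        · rw [h, h', w2, u3, q6']
          exact ⟨q4, Or.inr (by norm_num)⟩)
    hRu hb2 hb3
  have su : ∀ j < N, ∑ i ∈ range n, (dl (t j) i - dl (t j + k j) i - dl (t' j) i +
      dl (t' j + k j) i) = 0 := by
    intro j hj
    obtain ⟨a1, a2, a3, a4, a5, a6, a7, a8⟩ := h1 j hj
    rw [Finset.sum_add_distrib, Finset.sum_sub_distrib, Finset.sum_sub_distrib,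
      dl_sum (by omega), dl_sum (by omega), dl_sum (by omega), dl_sum (by omega)]
    ring
  have sw : ∀ j < N, ∑ i ∈ range n, (dl (b j + l j) i - dl (b j) i) = 0 := by
    intro j hj
    have hb4 := ((hcand j hj).2 (b j) (hb1 j hj)).1
    rw [Finset.sum_sub_distrib, dl_sum (by omega), dl_sum (by omega)]
    ring
  have suw : ∀ j < N, ∑ i ∈ range n, (dl (t j) i - dl (t j + k j) i - dl (t' j) i +
      dl (t' j + k j) i) * (i : ℤ) = 0 := by
    intro j hj
    obtain ⟨a1, a2, a3, a4, a5, a6, a7, a8⟩ := h1 j hj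
    have h4 : ∀ i ∈ range n, (dl (t j) i - dl (t j + k j) i - dl (t' j) i +
        dl (t' j + k j) i) * (i : ℤ) = dl (t j) i * (i : ℤ) - dl (t j + k j) i * (i : ℤ) -
        dl (t' j) i * (i : ℤ) + dl (t' j + k j) i * (i : ℤ) := by
      intro i _; ring
    rw [Finset.sum_congr rfl h4, Finset.sum_add_distrib, Finset.sum_sub_distrib,
      Finset.sum_sub_distrib, dl_sum_mul (by omega), dl_sum_mul (by omega), dl_sum_mul (by omega),
      dl_sum_mul (by omega)]
    push_cast
    ring
  have sww : ∀ j < N, ∑ i ∈ range n, (dl (b j + l j) i - dl (b j) i) * (i : ℤ) = l j := by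
    intro j hj
    have hb4 := ((hcand j hj).2 (b j) (hb1 j hj)).1
    have h4 : ∀ i ∈ range n, (dl (b j + l j) i - dl (b j) i) * (i : ℤ) =
        dl (b j + l j) i * (i : ℤ) - dl (b j) i * (i : ℤ) := by
      intro i _; ring
    rw [Finset.sum_congr rfl h4, Finset.sum_sub_distrib, dl_sum_mul (by omega),
      dl_sum_mul (by omega)]
    push_cast
    ring
  refine ⟨A', hA', hAF, ?_, ?_⟩
  · intro i _
    rw [hdeg i]
    have h4 : ∑ j ∈ range N, ((dl (t j) i - dl (t j + k j) i - dl (t' j) i +
        dl (t' j + k j) i) * ∑ i ∈ range n, (dl (b j + l j) i - dl (b j) i) +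
        (dl (b j + l j) i - dl (b j) i) * ∑ i ∈ range n, (dl (t j) i - dl (t j + k j) i -
          dl (t' j) i + dl (t' j + k j) i)) = 0 := by
      apply Finset.sum_eq_zero
      intro j hj
      rw [su j (mem_range.1 hj), sw j (mem_range.1 hj)]
      ring
    rw [h4, add_zero]
  · intro i hi
    rw [hwt i]
    have h4 : ∑ j ∈ range N, ((dl (t j) i - dl (t j + k j) i - dl (t' j) i +
        dl (t' j + k j) i) * ∑ i ∈ range n, (dl (b j + l j) i - dl (b j) i) * (i : ℤ) +
        (dl (b j + l j) i - dl (b j) i) * ∑ i ∈ range n, (dl (t j) i - dl (t j + k j) i -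
          dl (t' j) i + dl (t' j + k j) i) * (i : ℤ)) = g i - wt n A i := by
      have h5 := h2 i hi
      rw [show g i - wt n A i = (fun i => g i - wt n A i) i from rfl, h5]
      apply Finset.sum_congr rfl
      intro j hj
      rw [suw j (mem_range.1 hj), sww j (mem_range.1 hj)]
      ring
    rw [h4]
    ring

end HDT
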