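import Pool.Agent.Helper23.HDT.Decomp
import Pool.Agent.Helper23.HDT.DegFix
import Pool.Agent.Helper23.HDT.QFix
import Pool.Agent.Helper23.HDT.WtFix
import Pool.Agent.Helper23.HDT.Parity

/-! # From an approximate to an exact solution

PLAN. `target hpar` gives `g` with `2 g i = D (2i+1-n) + r (n-1)`. `|g i - wt n A i| ≤ n h^53`.
(1) `degFix` (pattern property with `l = 1`: `Pat.mono`, `1 ≤ n / 8`; `n ≤ β * 20 h ≤ β * 1000 h`;
parity: `∑ (r - deg) = r n - ∑ deg` even: `even_deg`, and `r n` even by `hpar` (`n` odd → `r` even)):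
`A₁`, all degrees `r`, `Chg n (h^61) A A₁`. `Pat n (n/8) (β - 8 h^61) A₁ F`, and
`n ≤ (β - 8 h^61) * 40 h` since `8 h^61 * 40 h ≤ n` (`β * 40 h ≥ 2 n`).
`|g i - wt n A₁ i| ≤ n h^53 + n h^61 ≤ n h^62 / 2` (`Chg.wt_le`), `∑ (g i - wt n A₁ i) = 0` by
`sum_wt` and `target`.
(2) `qFix`: `|∑ i (g i - wt)| ≤ ∑ i * (n h^62) ≤ n^3 h^62`; even by `target` and `even_wt`. `A₂` with
`Chg n (h^68) A₁ A₂`, degrees `r`, `∑ i (g i - wt n A₂ i) = 0`, `∑ (g i - wt n A₂ i) = 0` (`sum_wt`),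
`|g i - wt n A₂ i| ≤ n h^62 + n h^68 ≤ n h^70`; pattern property with
`β₂ = β - 8 h^61 - 8 h^68`, `n ≤ β₂ * 1000 h`.
(3) `decomp` for `f i = g i - wt n A₂ i`, then `wtFix`: `A₃` with degrees `r` and `wt n A₃ i = g i`.
`Exact`: `∑_j A₃ i j (2 j + 1 - n) = 2 g i + (1 - n) r = D (2 i + 1 - n)`.
All steps keep the entries in `F`, so `A₃ i j = A i j = 0` there. -/

namespace HDT

open Finset

theorem core {n h β : ℕ} (hh : 10 ^ 6 ≤ h) (hn : h ^ 100 ≤ n) (hn' : n ≤ h ^ 101)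
    {A : ℕ → ℕ → ℤ} {F : ℕ → ℕ → Prop} (hA : Adj n A) (hF : ∀ i j, F i j → F j i)
    (hAF : ∀ i j, F i j → A i j = 0) (hβ : n ≤ β * (20 * h)) (hP : Pat n (n / 8) β A F)
    {r : ℕ} {D : ℤ} (hpar : ParZ n r D) (hdeg : ∀ i < n, |(r : ℤ) - deg n A i| ≤ (h : ℤ) ^ 53)
    (hwt : ∀ i < n, |2 * wt n A i - (D * (2 * (i : ℤ) + 1 - n) + r * ((n : ℤ) - 1))| ≤
      (n : ℤ) * (h : ℤ) ^ 53) :
    ∃ A' : ℕ → ℕ → ℤ, Adj n A' ∧ (∀ i j, F i j → A' i j = 0) ∧ Exact n A' r D := by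
  have hh0 : 0 < h := by omega
  have hh1 : 1 ≤ h := hh0
  have hhZ : (1 : ℤ) ≤ (h : ℤ) := by exact_mod_cast hh1
  have hn8 : 8 ≤ n := by
    have h1 : h ≤ h ^ 100 := by
      calc h = h ^ 1 := (pow_one h).symm
        _ ≤ h ^ 100 := Nat.pow_le_pow_right hh0 (by norm_num)
    omega
  have hL1 : 1 ≤ n / 8 := by omega
  obtain ⟨g, hg1, hg2, hg3⟩ := target hpar
  have hgw : ∀ i < n, |g i - wt n A i| ≤ (n : ℤ) * (h : ℤ) ^ 53 := by
    intro i hi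
    have h1 := hwt i hi
    rw [← hg1 i, abs_le] at h1
    have h2 : (0 : ℤ) ≤ (n : ℤ) * (h : ℤ) ^ 53 := by positivity
    rw [abs_le]
    constructor <;> linarith
  -- the pattern property after the changes
  have hX : 8 * h ^ 61 + 8 * h ^ 68 ≤ h ^ 70 := by
    have h1 : h ^ 61 ≤ h ^ 68 := Nat.pow_le_pow_right hh0 (by norm_num)
    have h2 : h ^ 70 = h * h * h ^ 68 := by ring
    have h3 : 16 ≤ h * h := by nlinarith
    have h4 : 16 * h ^ 68 ≤ h * h * h ^ 68 := Nat.mul_le_mul_right _ h3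
    omega
  have hXn : h ^ 70 * (1000 * h) ≤ n := by
    have h1 : h ^ 100 = h ^ 70 * (h ^ 28 * h) * h := by ring
    have h2 : 1000 * h ≤ h ^ 28 * h * h := by
      have h3 : 1000 ≤ h := by omega
      have h4 : 1 ≤ h ^ 28 := Nat.one_le_pow _ _ hh0
      calc 1000 * h ≤ h * h := Nat.mul_le_mul_right _ h3
        _ = 1 * (h * h) := (one_mul _).symm
        _ ≤ h ^ 28 * (h * h) := Nat.mul_le_mul_right _ h4
        _ = h ^ 28 * h * h := by ring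
    calc h ^ 70 * (1000 * h) ≤ h ^ 70 * (h ^ 28 * h * h) := Nat.mul_le_mul_left _ h2
      _ = h ^ 100 := by ring
      _ ≤ n := hn
  have hbeta : ∀ x, x ≤ h ^ 70 → n ≤ (β - x) * (1000 * h) := by
    intro x hx
    have h1 : x * (1000 * h) ≤ n := (Nat.mul_le_mul_right _ hx).trans hXn
    have h2 : β * (1000 * h) = 50 * (β * (20 * h)) := by ring
    rw [Nat.sub_mul]
    omega
  have hr0 : Even (∑ i ∈ range n, ((r : ℤ) - deg n A i)) := by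
    rw [Finset.sum_sub_distrib, Finset.sum_const, Finset.card_range, nsmul_eq_mul]
    refine Even.sub ?_ (even_deg hA)
    rcases Nat.even_or_odd n with hne | hno
    · exact ((Int.even_coe_nat n).2 hne).mul_right _
    · exact ((Int.even_coe_nat r).2 (hpar.1 hno)).mul_left _
  -- step 1
  obtain ⟨A₁, hA₁, hF₁, hd₁, hc₁⟩ := degFix hh hn hA hF (hbeta 0 (Nat.zero_le _))
    (hP.mono hL1 (Nat.sub_le _ _)) (r : ℤ) hdeg hr0
  have hP₁ := hP.chg hc₁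
  have hw₁ : ∀ i < n, |g i - wt n A₁ i| ≤ (n : ℤ) * (h : ℤ) ^ 62 := by
    intro i hi
    have h1 := hgw i hi
    have h2 := hc₁.wt_le hA hA₁ hi
    have h3 : (n : ℤ) * (h : ℤ) ^ 53 + (n : ℤ) * ((h ^ 61 : ℕ) : ℤ) ≤ (n : ℤ) * (h : ℤ) ^ 62 := by
      have h4 : h ^ 53 + h ^ 61 ≤ h ^ 62 := by
        have h5 : h ^ 53 ≤ h ^ 61 := Nat.pow_le_pow_right hh0 (by norm_num)
        have h6 : h ^ 62 = h * h ^ 61 := by ring
        have h7 : 2 * h ^ 61 ≤ h * h ^ 61 := Nat.mul_le_mul_right _ (by omega)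
        omega
      have h5 : ((h ^ 53 + h ^ 61 : ℕ) : ℤ) ≤ ((h ^ 62 : ℕ) : ℤ) := by exact_mod_cast h4
      have h6 := mul_le_mul_of_nonneg_left h5 (Nat.cast_nonneg n : (0 : ℤ) ≤ (n : ℤ))
      push_cast at h6 ⊢
      linarith
    rw [abs_le] at h1 h2 ⊢
    constructor <;> linarith
  have hz₁ : ∑ i ∈ range n, (g i - wt n A₁ i) = 0 := by
    rw [Finset.sum_sub_distrib, hg2, sum_wt hA₁ hd₁, sub_self]
  -- step 2
  have hQ : |∑ i ∈ range n, (i : ℤ) * (g i - wt n A₁ i)| ≤ (n : ℤ) ^ 3 * (h : ℤ) ^ 62 := by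
    refine (Finset.abs_sum_le_sum_abs _ _).trans ?_
    have h1 : ∀ i ∈ range n, |(i : ℤ) * (g i - wt n A₁ i)| ≤
        (n : ℤ) * ((n : ℤ) * (h : ℤ) ^ 62) := by
      intro i hi
      have hi' := Finset.mem_range.1 hi
      rw [abs_mul, Nat.abs_cast]
      have h2 : (i : ℤ) ≤ (n : ℤ) := by exact_mod_cast hi'.le
      exact mul_le_mul h2 (hw₁ i hi') (abs_nonneg _) (Nat.cast_nonneg n)
    refine (Finset.sum_le_sum h1).trans ?_
    rw [Finset.sum_const, Finset.card_range, nsmul_eq_mul]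
    apply le_of_eq
    ring
  have hev₂ : Even (∑ i ∈ range n, (i : ℤ) * (g i - wt n A₁ i)) := by
    have h1 : ∑ i ∈ range n, (i : ℤ) * (g i - wt n A₁ i)
        = ∑ i ∈ range n, (i : ℤ) * g i - ∑ i ∈ range n, (i : ℤ) * wt n A₁ i := by
      rw [← Finset.sum_sub_distrib]
      exact Finset.sum_congr rfl (fun i _ => by ring)
    rw [h1]
    exact hg3.sub (even_wt hA₁)
  obtain ⟨A₂, hA₂, hF₂, hd₂, hz₂, hc₂⟩ := qFix hh hn hA₁ hF (hbeta (8 * h ^ 61) (by omega)) hP₁ g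
    hQ hev₂
  have hP₂ := hP₁.chg hc₂
  rw [Nat.sub_sub] at hP₂
  have hd₂' : ∀ i < n, deg n A₂ i = r := fun i hi => (hd₂ i hi).trans (hd₁ i hi)
  have hw₂ : ∀ i < n, |g i - wt n A₂ i| ≤ (n : ℤ) * (h : ℤ) ^ 70 := by
    intro i hi
    have h1 := hw₁ i hi
    have h2 := hc₂.wt_le hA₁ hA₂ hi
    have h3 : (n : ℤ) * (h : ℤ) ^ 62 + (n : ℤ) * ((h ^ 68 : ℕ) : ℤ) ≤ (n : ℤ) * (h : ℤ) ^ 70 := by
      have h4 : h ^ 62 + h ^ 68 ≤ h ^ 70 := by
        have h5 : h ^ 62 ≤ h ^ 68 := Nat.pow_le_pow_right hh0 (by norm_num)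
        omega
      have h5 : ((h ^ 62 + h ^ 68 : ℕ) : ℤ) ≤ ((h ^ 70 : ℕ) : ℤ) := by exact_mod_cast h4
      have h6 := mul_le_mul_of_nonneg_left h5 (Nat.cast_nonneg n : (0 : ℤ) ≤ (n : ℤ))
      push_cast at h6 ⊢
      linarith
    rw [abs_le] at h1 h2 ⊢
    constructor <;> linarith
  have hz₂' : ∑ i ∈ range n, (g i - wt n A₂ i) = 0 := by
    rw [Finset.sum_sub_distrib, hg2, sum_wt hA₂ hd₂', sub_self]
  -- step 3
  obtain ⟨A₃, hA₃, hF₃, hd₃, hw₃⟩ := wtFix hh hn hA₂ hF (hbeta _ hX) hP₂ g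
    (decomp hh hn hn' (fun i => g i - wt n A₂ i) hz₂' hz₂ hw₂)
  refine ⟨A₃, hA₃, ?_, ?_⟩
  · intro i j hij
    rw [hF₃ i j hij, hF₂ i j hij, hF₁ i j hij, hAF i j hij]
  · intro i hi
    have h1 : ∑ j ∈ range n, A₃ i j = r := (hd₃ i hi).trans (hd₂' i hi)
    refine ⟨h1, ?_⟩
    have h2 : ∑ j ∈ range n, A₃ i j * (2 * (j : ℤ) + 1 - n)
        = 2 * wt n A₃ i + (1 - (n : ℤ)) * ∑ j ∈ range n, A₃ i j := by
      unfold wt
      rw [Finset.mul_sum, Finset.mul_sum, ← Finset.sum_add_distrib]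
      exact Finset.sum_congr rfl (fun j _ => by ring)
    rw [h2, h1, hw₃ i hi, hg1 i]
    ring

end HDT
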