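import Pool.Agent.Helper23.HDT.Defs

/-! # Balanced binary digits

PLAN. `halve`: if `∑_{t<n} F t = 0` then the number of `t < n` with `F t` odd is even; give `+1` to
half of them and `-1` to the others (`Finset.exists_subset_card_eq` or `exists_smaller_set`): `φ t ≡
F t mod 2`, `|φ t| ≤ 1`, `∑ φ = 0`, `φ t = 0` for `t ≥ n`; `G t = (F t - φ t) / 2` for `t < n`, `0`
for `t ≥ n`. `2 |G t| ≤ |F t| + 1`.
`digits`: induction on `J` generalizing `F`, `Φ` — easiest with the bound in the form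
`∀ t < n, |F t| ≤ 2^J * B + ...`; or induct from the top: apply `halve` to the last component:
from the statement for `J` (functions `φ 0, …, φ J`) apply `halve` to `F = φ J` and get
`φ J = φ' J + 2 φ' (J+1)`; the bound: `2 |φ' (J+1)| ≤ |φ J| + 1`, so
`|φ' (J+1)| 2^(J+1) ≤ (|φ J| + 1) 2^J ≤ Φ + 2^J + 2^J`. -/

namespace HDT

open Finset

theorem halve (n : ℕ) (F : ℕ → ℤ) (h0 : ∑ t ∈ range n, F t = 0) :
    ∃ φ G : ℕ → ℤ, (∀ t < n, F t = φ t + 2 * G t) ∧ (∀ t, n ≤ t → φ t = 0 ∧ G t = 0) ∧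
      ∑ t ∈ range n, φ t = 0 ∧ ∑ t ∈ range n, G t = 0 ∧ (∀ t, |φ t| ≤ 1) ∧
      (∀ t < n, 2 * |G t| ≤ |F t| + 1) := by
  classical
  set O : Finset ℕ := (range n).filter (fun t => F t % 2 = 1) with hO
  have hmod : ∀ t, F t % 2 = if F t % 2 = 1 then 1 else 0 := by
    intro t
    split_ifs with h
    · exact h
    · omega
  have hsum : ∑ t ∈ range n, F t % 2 = (O.card : ℤ) := by
    rw [Finset.sum_congr rfl fun t _ => hmod t, Finset.sum_boole]
  have heven : (2 : ℤ) ∣ (O.card : ℤ) := by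
    have h1 : (2 : ℤ) ∣ ∑ t ∈ range n, (F t - F t % 2) := by
      refine Finset.dvd_sum fun t _ => ?_
      omega
    rw [Finset.sum_sub_distrib, h0, hsum] at h1
    omega
  have heven' : 2 ∣ O.card := by exact_mod_cast heven
  obtain ⟨A, hAO, hA⟩ := Finset.exists_subset_card_eq (s := O) (n := O.card / 2)
    (Nat.div_le_self _ _)
  have hOn : ∀ t ∈ O, t < n := fun t ht => mem_range.1 (mem_filter.1 ht).1
  set φ : ℕ → ℤ := fun t => (if t ∈ A then 1 else 0) - (if t ∈ O \ A then 1 else 0) with hφ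
  have hφ1 : ∀ t, |φ t| ≤ 1 := by
    intro t
    simp only [hφ]
    by_cases h1 : t ∈ A
    · have h2 : t ∉ O \ A := fun h => (mem_sdiff.1 h).2 h1
      rw [if_pos h1, if_neg h2]
      norm_num
    · rw [if_neg h1]
      split_ifs <;> norm_num
  have hφ2 : ∀ t < n, (F t - φ t) % 2 = 0 := by
    intro t ht
    simp only [hφ]
    by_cases h1 : t ∈ A
    · have h2 : t ∉ O \ A := fun h => (mem_sdiff.1 h).2 h1
      rw [if_pos h1, if_neg h2]
      have h3 := (mem_filter.1 (hAO h1)).2
      omega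
    · rw [if_neg h1]
      by_cases h2 : t ∈ O
      · rw [if_pos (mem_sdiff.2 ⟨h2, h1⟩)]
        have h3 := (mem_filter.1 h2).2
        omega
      · rw [if_neg (fun h => h2 (mem_sdiff.1 h).1)]
        have h3 : ¬ F t % 2 = 1 := fun h => h2 (mem_filter.2 ⟨mem_range.2 ht, h⟩)
        omega
  have hφ3 : ∀ t, n ≤ t → φ t = 0 := by
    intro t ht
    have h2 : t ∉ O := fun h => absurd (hOn t h) (by omega)
    simp only [hφ]
    rw [if_neg (fun h => h2 (hAO h)), if_neg (fun h => h2 (mem_sdiff.1 h).1), sub_zero]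
  have hφ4 : ∑ t ∈ range n, φ t = 0 := by
    simp only [hφ]
    rw [Finset.sum_sub_distrib, Finset.sum_boole, Finset.sum_boole]
    have e1 : (range n).filter (fun t => t ∈ A) = A := by
      ext t
      rw [mem_filter, mem_range]
      exact ⟨fun h => h.2, fun h => ⟨hOn t (hAO h), h⟩⟩
    have e2 : (range n).filter (fun t => t ∈ O \ A) = O \ A := by
      ext t
      rw [mem_filter, mem_range]
      exact ⟨fun h => h.2, fun h => ⟨hOn t (mem_sdiff.1 h).1, h⟩⟩
    rw [e1, e2, card_sdiff_of_subset hAO, hA]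
    omega
  set G : ℕ → ℤ := fun t => if t < n then (F t - φ t) / 2 else 0 with hG
  have hG1 : ∀ t < n, F t = φ t + 2 * G t := by
    intro t ht
    have h1 := hφ2 t ht
    simp only [hG]
    rw [if_pos ht]
    omega
  refine ⟨φ, G, hG1, ?_, hφ4, ?_, hφ1, ?_⟩
  · intro t ht
    refine ⟨hφ3 t ht, ?_⟩
    simp only [hG]
    rw [if_neg (by omega)]
  · have h1 : ∑ t ∈ range n, F t = ∑ t ∈ range n, φ t + 2 * ∑ t ∈ range n, G t := by
      rw [Finset.mul_sum, ← Finset.sum_add_distrib]
      exact Finset.sum_congr rfl fun t ht => hG1 t (mem_range.1 ht)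
    rw [h0, hφ4] at h1
    omega
  · intro t ht
    have h1 := hG1 t ht
    have h2 : 2 * G t = F t - φ t := by omega
    have h3 : 2 * |G t| = |F t - φ t| := by
      rw [← h2, abs_mul]
      norm_num
    rw [h3]
    have h4 := abs_sub (F t) (φ t)
    have h5 := hφ1 t
    omega

theorem digits (n J Φ : ℕ) (F : ℕ → ℤ) (h0 : ∑ t ∈ range n, F t = 0)
    (hΦ : ∀ t < n, |F t| ≤ Φ) :
    ∃ φ : ℕ → ℕ → ℤ, (∀ t < n, F t = ∑ j ∈ range (J + 1), 2 ^ j * φ j t) ∧
      (∀ j, ∀ t, n ≤ t → φ j t = 0) ∧ (∀ j ≤ J, ∑ t ∈ range n, φ j t = 0) ∧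
      (∀ j < J, ∀ t, |φ j t| ≤ 1) ∧ (∀ t, |φ J t| * 2 ^ J ≤ Φ + 2 ^ J) := by
  classical
  induction J with
  | zero =>
    obtain ⟨χ, hχ⟩ : ∃ χ : ℕ → ℤ, ∀ t, χ t = if t < n then F t else 0 := ⟨_, fun t => rfl⟩
    have c1 : ∀ t, t < n → χ t = F t := fun t ht => by rw [hχ, if_pos ht]
    have c2 : ∀ t, n ≤ t → χ t = 0 := fun t ht => by rw [hχ, if_neg (by omega)]
    refine ⟨fun _ => χ, ?_, ?_, ?_, ?_, ?_⟩
    · intro t ht
      rw [zero_add, sum_range_one, pow_zero, one_mul]
      exact (c1 t ht).symm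
    · intro j t ht
      exact c2 t ht
    · intro j _
      rw [Finset.sum_congr rfl fun t ht => c1 t (mem_range.1 ht)]
      exact h0
    · intro j hj
      omega
    · intro t
      rw [pow_zero, mul_one]
      change |χ t| ≤ (Φ : ℤ) + 1
      rcases lt_or_ge t n with ht | ht
      · rw [c1 t ht]
        have := hΦ t ht
        omega
      · rw [c2 t ht, abs_zero]
        positivity
  | succ J ih =>
    obtain ⟨φ, h1, h2, h3, h4, h5⟩ := ih
    obtain ⟨ψ, G, g1, g2, g3, g4, g5, g6⟩ := halve n (φ J) (h3 J le_rfl)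
    obtain ⟨χ, hχ⟩ : ∃ χ : ℕ → ℕ → ℤ, ∀ j, χ j = if j = J then ψ else if j = J + 1 then G else φ j :=
      ⟨_, fun j => rfl⟩
    have c1 : χ J = ψ := by rw [hχ, if_pos rfl]
    have c2 : χ (J + 1) = G := by rw [hχ, if_neg (by omega), if_pos rfl]
    have c3 : ∀ j, j ≠ J → j ≠ J + 1 → χ j = φ j := fun j hj hj' => by
      rw [hχ, if_neg hj, if_neg hj']
    refine ⟨χ, ?_, ?_, ?_, ?_, ?_⟩
    · intro t ht
      rw [sum_range_succ, sum_range_succ, c1, c2, h1 t ht, sum_range_succ]
      have e1 : ∑ j ∈ range J, 2 ^ j * χ j t = ∑ j ∈ range J, 2 ^ j * φ j t := by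
        refine Finset.sum_congr rfl fun j hj => ?_
        have hj' := mem_range.1 hj
        rw [c3 j (by omega) (by omega)]
      rw [e1, g1 t ht, pow_succ]
      ring
    · intro j t ht
      by_cases hj : j = J
      · rw [hj, c1]
        exact (g2 t ht).1
      · by_cases hj2 : j = J + 1
        · rw [hj2, c2]
          exact (g2 t ht).2
        · rw [c3 j hj hj2]
          exact h2 j t ht
    · intro j hj
      by_cases hj1 : j = J
      · rw [hj1, c1]
        exact g3
      · by_cases hj2 : j = J + 1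
        · rw [hj2, c2]
          exact g4
        · rw [c3 j hj1 hj2]
          exact h3 j (by omega)
    · intro j hj t
      by_cases hj1 : j = J
      · rw [hj1, c1]
        exact g5 t
      · rw [c3 j hj1 (by omega)]
        exact h4 j (by omega) t
    · intro t
      rw [c2]
      rcases lt_or_ge t n with ht | ht
      · have e1 := g6 t ht
        have e2 := h5 t
        have e3 : (0 : ℤ) < 2 ^ J := by positivity
        have e4 : |G t| * 2 ^ (J + 1) = (2 * |G t|) * 2 ^ J := by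
          rw [pow_succ]
          ring
        have e5 : (2 * |G t|) * 2 ^ J ≤ (|φ J t| + 1) * 2 ^ J :=
          mul_le_mul_of_nonneg_right e1 e3.le
        have e6 : (2 : ℤ) ^ (J + 1) = 2 ^ J + 2 ^ J := by
          rw [pow_succ]
          ring
        rw [e4, e6]
        linarith
      · rw [(g2 t ht).2, abs_zero, zero_mul]
        positivity

end HDT
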