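import Pool.Agent.Helper23.HDT.Units

/-! # Requests: closure properties, and requests from one scale

PLAN. `Req.add`: concatenate the two lists (`N + N'`, functions `fun j => if j < N then .. j else
..' (j - N)`), `Finset.sum_range_add`-like lemma `Finset.sum_range_add` / `Finset.range_add` and
`card` of a filter over `range (N + N')`.
`Req.zero`: `N = 0`. `Req.congr`: only values at `i < n` matter.

`reqPair`: `units (n - k) c` gives `M, a, b` (`a j, b j < n - k`). `M = ∑_{x<n-k} #{j : a j = x} ≤
(n - k) cm`. Choose by recursion on `j` intermediate positions `m j < n - k` with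
`m j ∉ {a, a + k, a - k, b, b + k, b - k}` (`a = a j`, `b = b j`) such that every value is used at
most `μ = 4 cm + 4` times: among the `n - k ≥ 50` values at most 6 are forbidden and at most
`M / μ ≤ (n - k) / 4` are used `μ` times already (prove: `∀ M' ≤ M, ∃ m, …` by induction on `M'`).
Then `N = 2 M` requests (`2 j`: `(t, t') = (a j, m j)`, `2 j + 1`: `(m j, b j)`; all with the same
`k` and `l`); the sum of the two is `l (e_a - e_{a+k} - e_b + e_{b+k})`. Sum over `j`:
`∑_j (e_{a j} - e_{b j}) i = c i` for `i < n - k` (and `0` for `i ≥ n - k`, since `a j, b j < n - k`),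
`∑_j (e_{a j + k} - e_{b j + k}) i = c (i - k)` if `k ≤ i`, else `0` (here `i < n`).
Usage of `i`: `a j = i`: `≤ cm`, `a j + k = i`: `≤ cm`, the same for `b`; `m j = i` and
`m j + k = i`: `≤ μ` each and each counted for two requests: total `≤ 4 cm + 4 μ = 20 cm + 16`.
(If it is easier: treat the two lists `(a j, m j)` and `(m j, b j)` as two `Req`s with `M` requests
each and use `Req.add`; each has usage `≤ 2 cm + 2 μ`.) -/

namespace HDT

open Finset

theorem Req.zero (n L : ℕ) : Req n L 0 (fun _ => 0) := by
  refine ⟨0, fun _ => 0, fun _ => 0, fun _ => 0, fun _ => 0, ?_, ?_, ?_⟩ <;> simp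

theorem Req.congr {n L U : ℕ} {f g : ℕ → ℤ} (h : Req n L U f) (hfg : ∀ i < n, f i = g i) :
    Req n L U g := by
  obtain ⟨N, t, t', k, l, h1, h2, h3⟩ := h
  exact ⟨N, t, t', k, l, h1, fun i hi => by rw [← hfg i hi]; exact h2 i hi, h3⟩

theorem Req.mono {n L U U' : ℕ} {f : ℕ → ℤ} (h : Req n L U f) (hU : U ≤ U') : Req n L U' f := by
  obtain ⟨N, t, t', k, l, h1, h2, h3⟩ := h
  exact ⟨N, t, t', k, l, h1, h2, fun i hi => (h3 i hi).trans hU⟩

private theorem reqlem_card_add (N N' : ℕ) (P : ℕ → Prop) [DecidablePred P] :
    ((range (N + N')).filter P).card =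
      ((range N).filter P).card + ((range N').filter (fun j => P (N + j))).card := by
  rw [card_filter, card_filter, card_filter, sum_range_add]

theorem Req.add {n L U U' : ℕ} {f f' : ℕ → ℤ} (h : Req n L U f) (h' : Req n L U' f') :
    Req n L (U + U') (fun i => f i + f' i) := by
  obtain ⟨N, t, t', k, l, h1, h2, h3⟩ := h
  obtain ⟨N', s, s', k', l', g1, g2, g3⟩ := h'
  have e1 : ∀ (x y : ℕ → ℕ) (j : ℕ), j < N → (if j < N then x j else y (j - N)) = x j :=
    fun x y j hj => if_pos hj
  have e2 : ∀ (x y : ℕ → ℕ) (j : ℕ), (if N + j < N then x (N + j) else y (N + j - N)) = y j := by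
    intro x y j
    rw [if_neg (by omega), Nat.add_sub_cancel_left]
  refine ⟨N + N', fun j => if j < N then t j else s (j - N),
    fun j => if j < N then t' j else s' (j - N), fun j => if j < N then k j else k' (j - N),
    fun j => if j < N then l j else l' (j - N), ?_, ?_, ?_⟩
  · intro j hj
    by_cases hjN : j < N
    · simp only [if_pos hjN]
      exact h1 j hjN
    · simp only [if_neg hjN]
      exact g1 (j - N) (by omega)
  · intro i hi
    beta_reduce
    rw [sum_range_add, h2 i hi, g2 i hi]
    congr 1
    · refine sum_congr rfl fun j hj => ?_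
      have hj' := mem_range.1 hj
      simp only [if_pos hj']
    · refine sum_congr rfl fun j _ => ?_
      simp only [e2]
  · intro i hi
    rw [reqlem_card_add]
    refine Nat.add_le_add ?_ ?_
    · refine le_trans (le_of_eq ?_) (h3 i hi)
      congr 1
      refine filter_congr fun j hj => ?_
      have hj' := mem_range.1 hj
      simp only [if_pos hj']
    · refine le_trans (le_of_eq ?_) (g3 i hi)
      congr 1
      refine filter_congr fun j _ => ?_
      simp only [e2]

private theorem reqlem_cnt (M x i : ℕ) (a : ℕ → ℕ) :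
    ((range (M + 1)).filter (fun k => (if k < M then a k else x) = i)).card =
      ((range M).filter (fun k => a k = i)).card + (if x = i then 1 else 0) := by
  rw [card_filter, card_filter, sum_range_succ]
  have h1 : ∑ k ∈ range M, (if (if k < M then a k else x) = i then 1 else 0) =
      ∑ k ∈ range M, (if a k = i then 1 else 0) := by
    refine sum_congr rfl fun k hk => ?_
    rw [if_pos (mem_range.1 hk)]
  rw [h1, if_neg (lt_irrefl M)]

/-- intermediate positions -/
private theorem reqlem_mid (p k cm M : ℕ) (hp : 50 ≤ p) (hM : M ≤ p * cm) (a b : ℕ → ℕ) :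
    ∀ M' ≤ M, ∃ m : ℕ → ℕ, (∀ j < M', m j < p ∧ a j ≠ m j ∧ a j ≠ m j + k ∧ m j ≠ a j + k ∧
      m j ≠ b j ∧ m j ≠ b j + k ∧ b j ≠ m j + k) ∧
      ∀ x, ((range M').filter (fun j => m j = x)).card ≤ 4 * cm + 4 := by
  intro M'
  induction M' with
  | zero =>
    intro _
    exact ⟨fun _ => 0, fun j hj => absurd hj (Nat.not_lt_zero j), fun x => by simp⟩
  | succ M' ih =>
    intro hM'
    obtain ⟨m, hm1, hm2⟩ := ih (by omega)
    -- the values which are used too often
    set S := (range p).filter (fun x => 4 * cm + 4 ≤ ((range M').filter (fun j => m j = x)).card)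
      with hS
    have hmaps : ∀ j ∈ range M', m j ∈ range p :=
      fun j hj => mem_range.2 (hm1 j (mem_range.1 hj)).1
    have hcard : M' = ∑ x ∈ range p, ((range M').filter (fun j => m j = x)).card := by
      have := card_eq_sum_card_fiberwise (s := range M') (t := range p) (f := m)
        (fun j hj => hmaps j (by simpa using hj))
      rwa [card_range] at this
    have hScard : S.card * (4 * cm + 4) ≤ M' := by
      calc S.card * (4 * cm + 4) = ∑ _x ∈ S, (4 * cm + 4) := by rw [sum_const, smul_eq_mul]
        _ ≤ ∑ x ∈ S, ((range M').filter (fun j => m j = x)).card :=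
            sum_le_sum fun x hx => (mem_filter.1 hx).2
        _ ≤ ∑ x ∈ range p, ((range M').filter (fun j => m j = x)).card :=
            sum_le_sum_of_subset (filter_subset _ _)
        _ = M' := hcard.symm
    have hS4 : 4 * S.card ≤ p := by
      by_contra hcon
      have h1 : p + 1 ≤ 4 * S.card := by omega
      have h2 : (p + 1) * (cm + 1) ≤ S.card * (4 * cm + 4) := by
        calc (p + 1) * (cm + 1) ≤ 4 * S.card * (cm + 1) := Nat.mul_le_mul_right _ h1
          _ = S.card * (4 * cm + 4) := by ring
      have h3 : p * cm < (p + 1) * (cm + 1) := by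
        have : (p + 1) * (cm + 1) = p * cm + p + cm + 1 := by ring
        omega
      omega
    set F : Finset ℕ := {a M', a M' + k, a M' - k, b M', b M' + k, b M' - k} with hF
    have hFcard : F.card ≤ 6 := Finset.card_le_six
    have hne : ((range p) \ (S ∪ F)).Nonempty := by
      rw [← card_pos]
      have h1 := le_card_sdiff (S ∪ F) (range p)
      rw [card_range] at h1
      have h2 := card_union_le S F
      omega
    obtain ⟨x, hx⟩ := hne
    rw [mem_sdiff, mem_range, mem_union, not_or] at hx
    obtain ⟨hxp, hxS, hxF⟩ := hx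
    have hxS' : ((range M').filter (fun j => m j = x)).card < 4 * cm + 4 := by
      by_contra hcon
      exact hxS (mem_filter.2 ⟨mem_range.2 hxp, not_lt.1 hcon⟩)
    simp only [hF, mem_insert, mem_singleton, not_or] at hxF
    obtain ⟨f1, f2, f3, f4, f5, f6⟩ := hxF
    refine ⟨fun j => if j < M' then m j else x, ?_, ?_⟩
    · intro j hj
      by_cases hj' : j < M'
      · simp only [if_pos hj']
        exact hm1 j hj'
      · have : j = M' := by omega
        subst this
        simp only [if_neg hj']
        refine ⟨hxp, fun h => f1 h.symm, fun h => f3 (by omega), f2, f4, f5, fun h => f6 (by omega)⟩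
    · intro y
      rw [reqlem_cnt]
      by_cases hxy : x = y
      · rw [if_pos hxy, ← hxy]
        omega
      · rw [if_neg hxy]
        exact hm2 y

private theorem reqlem_dl (M : ℕ) (a : ℕ → ℕ) (i : ℕ) :
    ∑ j ∈ range M, dl (a j) i = (((range M).filter (fun j => a j = i)).card : ℤ) := by
  rw [card_filter]
  push_cast
  refine sum_congr rfl fun j _ => ?_
  rfl

private theorem reqlem_dlk (M k : ℕ) (a : ℕ → ℕ) (i : ℕ) :
    ∑ j ∈ range M, dl (a j + k) i =
      if k ≤ i then ∑ j ∈ range M, dl (a j) (i - k) else 0 := by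
  by_cases h : k ≤ i
  · rw [if_pos h]
    refine sum_congr rfl fun j _ => ?_
    unfold dl
    by_cases h2 : a j + k = i
    · rw [if_pos h2, if_pos (by omega)]
    · rw [if_neg h2, if_neg (by omega)]
  · rw [if_neg h]
    refine sum_eq_zero fun j _ => ?_
    unfold dl
    rw [if_neg (by omega)]

/-- usage of an index -/
private theorem reqlem_use (M k c c' : ℕ) (t t' : ℕ → ℕ)
    (h : ∀ x, ((range M).filter (fun j => t j = x)).card ≤ c)
    (h' : ∀ x, ((range M).filter (fun j => t' j = x)).card ≤ c') (i : ℕ) :
    ((range M).filter (fun j => i = t j ∨ i = t j + k ∨ i = t' j ∨ i = t' j + k)).card ≤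
      2 * c + 2 * c' := by
  have hsub : (range M).filter (fun j => i = t j ∨ i = t j + k ∨ i = t' j ∨ i = t' j + k) ⊆
      (((range M).filter (fun j => t j = i)) ∪ ((range M).filter (fun j => t j = i - k))) ∪
      (((range M).filter (fun j => t' j = i)) ∪ ((range M).filter (fun j => t' j = i - k))) := by
    intro j hj
    obtain ⟨hj1, hj2⟩ := mem_filter.1 hj
    simp only [mem_union, mem_filter]
    rcases hj2 with h2 | h2 | h2 | h2
    · exact Or.inl (Or.inl ⟨hj1, h2.symm⟩)
    · exact Or.inl (Or.inr ⟨hj1, by omega⟩)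
    · exact Or.inr (Or.inl ⟨hj1, h2.symm⟩)
    · exact Or.inr (Or.inr ⟨hj1, by omega⟩)
  have h1 := card_le_card hsub
  have h2 := card_union_le (((range M).filter (fun j => t j = i)) ∪
    ((range M).filter (fun j => t j = i - k)))
    (((range M).filter (fun j => t' j = i)) ∪ ((range M).filter (fun j => t' j = i - k)))
  have h3 := card_union_le ((range M).filter (fun j => t j = i))
    ((range M).filter (fun j => t j = i - k))
  have h4 := card_union_le ((range M).filter (fun j => t' j = i))
    ((range M).filter (fun j => t' j = i - k))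
  have h5 := h i
  have h6 := h (i - k)
  have h7 := h' i
  have h8 := h' (i - k)
  omega

theorem reqPair {n L k l cm : ℕ} (hn : 100 ≤ n) (hk : 1 ≤ k) (hkn : 2 * k ≤ n) (hl : 1 ≤ l)
    (hlL : l ≤ L) (c : ℕ → ℤ) (hc : ∀ t, n - k ≤ t → c t = 0)
    (h0 : ∑ t ∈ range (n - k), c t = 0) (hcm : ∀ t, |c t| ≤ cm) :
    Req n L (40 * cm + 40) (fun i => (l : ℤ) * (c i - if k ≤ i then c (i - k) else 0)) := by
  obtain ⟨M, a, b, h1, h2, h3⟩ := units (n - k) c h0
  have ha : ∀ x, ((range M).filter (fun j => a j = x)).card ≤ cm := by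
    intro x
    by_cases hx : x < n - k
    · have h4 := h2 x hx
      have h5 : max (c x) 0 ≤ cm := max_le ((le_abs_self _).trans (hcm x)) (Int.natCast_nonneg _)
      rw [← h4] at h5
      exact_mod_cast h5
    · rw [filter_eq_empty_iff.2, card_empty]
      · exact Nat.zero_le _
      · intro j hj h
        exact hx (h ▸ (h1 j (mem_range.1 hj)).1)
  have hb : ∀ x, ((range M).filter (fun j => b j = x)).card ≤ cm := by
    intro x
    by_cases hx : x < n - k
    · have h4 := h3 x hx
      have h5 : max (-(c x)) 0 ≤ cm :=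
        max_le ((neg_le_abs _).trans (hcm x)) (Int.natCast_nonneg _)
      rw [← h4] at h5
      exact_mod_cast h5
    · rw [filter_eq_empty_iff.2, card_empty]
      · exact Nat.zero_le _
      · intro j hj h
        exact hx (h ▸ (h1 j (mem_range.1 hj)).2.1)
  have hM : M ≤ (n - k) * cm := by
    have h4 : M = ∑ x ∈ range (n - k), ((range M).filter (fun j => a j = x)).card := by
      have := card_eq_sum_card_fiberwise (s := range M) (t := range (n - k)) (f := a)
        (fun j hj => mem_coe.2 (mem_range.2 (h1 j (by simpa using hj)).1))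
      rwa [card_range] at this
    rw [h4]
    calc ∑ x ∈ range (n - k), ((range M).filter (fun j => a j = x)).card
        ≤ ∑ _x ∈ range (n - k), cm := sum_le_sum fun x _ => ha x
      _ = (n - k) * cm := by rw [sum_const, card_range, smul_eq_mul]
  obtain ⟨m, hm1, hm2⟩ := reqlem_mid (n - k) k cm M (by omega) hM a b M le_rfl
  have R1 : Req n L (2 * cm + 2 * (4 * cm + 4)) (fun i => ∑ j ∈ range M,
      (l : ℤ) * (dl (a j) i - dl (a j + k) i - dl (m j) i + dl (m j + k) i)) := by
    refine ⟨M, a, m, fun _ => k, fun _ => l, ?_, fun i _ => rfl, ?_⟩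
    · intro j hj
      obtain ⟨g1, g2, g3, g4, g5, g6, g7⟩ := hm1 j hj
      obtain ⟨q1, q2, _, _⟩ := h1 j hj
      have e1 : a j + k < n := by omega
      have e2 : m j + k < n := by omega
      exact ⟨hk, e1, e2, g2, g3, g4, hl, hlL⟩
    · intro i _
      exact reqlem_use M k cm (4 * cm + 4) a m ha hm2 i
  have R2 : Req n L (2 * (4 * cm + 4) + 2 * cm) (fun i => ∑ j ∈ range M,
      (l : ℤ) * (dl (m j) i - dl (m j + k) i - dl (b j) i + dl (b j + k) i)) := by
    refine ⟨M, m, b, fun _ => k, fun _ => l, ?_, fun i _ => rfl, ?_⟩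
    · intro j hj
      obtain ⟨g1, g2, g3, g4, g5, g6, g7⟩ := hm1 j hj
      obtain ⟨q1, q2, _, _⟩ := h1 j hj
      have e1 : m j + k < n := by omega
      have e2 : b j + k < n := by omega
      exact ⟨hk, e1, e2, g5, g6, g7, hl, hlL⟩
    · intro i _
      exact reqlem_use M k (4 * cm + 4) cm m b hm2 hb i
  have hd : ∀ i, ∑ j ∈ range M, dl (a j) i - ∑ j ∈ range M, dl (b j) i = c i := by
    intro i
    rw [reqlem_dl, reqlem_dl]
    by_cases hi : i < n - k
    · rw [h2 i hi, h3 i hi]
      rcases le_total (c i) 0 with h | h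
      · rw [max_eq_right h, max_eq_left (by omega)]
        ring
      · rw [max_eq_left h, max_eq_right (by omega)]
        ring
    · rw [hc i (by omega)]
      rw [filter_eq_empty_iff.2, filter_eq_empty_iff.2]
      · simp
      · intro j hj h
        exact hi (h ▸ (h1 j (mem_range.1 hj)).2.1)
      · intro j hj h
        exact hi (h ▸ (h1 j (mem_range.1 hj)).1)
  refine ((R1.add R2).congr ?_).mono (by omega)
  intro i _
  rw [← mul_sum, ← mul_sum, ← mul_add]
  congr 1
  rw [← sum_add_distrib]
  have h4 : ∀ j ∈ range M, dl (a j) i - dl (a j + k) i - dl (m j) i + dl (m j + k) i +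
      (dl (m j) i - dl (m j + k) i - dl (b j) i + dl (b j + k) i) =
      (dl (a j) i - dl (b j) i) - (dl (a j + k) i - dl (b j + k) i) := by
    intro j _
    ring
  rw [sum_congr rfl h4, sum_sub_distrib, sum_sub_distrib, sum_sub_distrib, hd, reqlem_dlk,
    reqlem_dlk]
  congr 1
  by_cases hki : k ≤ i
  · rw [if_pos hki, if_pos hki, if_pos hki, hd]
  · rw [if_neg hki, if_neg hki, if_neg hki, sub_zero]

end HDT
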