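import Pool.Agent.Helper23.HDT.Stage
import Pool.Agent.Helper23.HDT.Digits
import Pool.Agent.Helper23.HDT.ReqLem

/-! # Decomposition of the error vector -/

namespace HDT

open Finset

private theorem decomp_abel (f : ℕ → ℤ) (N : ℕ) :
    ∑ s ∈ range N, ∑ i ∈ range (s + 1), f i =
      N * ∑ i ∈ range N, f i - ∑ i ∈ range N, (i : ℤ) * f i := by
  induction N with
  | zero => simp
  | succ N ih =>
    rw [Finset.sum_range_succ, ih, Finset.sum_range_succ (fun i => (i : ℤ) * f i),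
      Finset.sum_range_succ f N]
    push_cast
    ring

private theorem decomp_num {h : ℕ} (hh : 10 ^ 6 ≤ h) :
    (h ^ 11 + 1) * (9 * 6 ^ 10 * h ^ 70) + 1 ≤ h ^ 83 := by
  have h1 : h ^ 83 = h * h * h ^ 81 := by ring
  have h2 : (h ^ 11 + 1) * (9 * 6 ^ 10 * h ^ 70) = 544195584 * h ^ 81 + 544195584 * h ^ 70 := by
    ring
  have h3 : h ^ 70 ≤ h ^ 81 := Nat.pow_le_pow_right (by omega) (by norm_num)
  have h4 : 1 ≤ h ^ 81 := Nat.one_le_pow _ _ (by omega)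
  have h5 : 1088391169 ≤ h * h := by nlinarith
  have h6 : 1088391169 * h ^ 81 ≤ h * h * h ^ 81 := Nat.mul_le_mul_right _ h5
  rw [h1, h2]
  generalize h ^ 81 = A at *
  generalize h ^ 70 = B at *
  omega

/-- one stage with the numbers of this project -/
private theorem decomp_step {n h k L Λ : ℕ} (hh : 10 ^ 6 ≤ h) (hn100 : 100 ≤ n) (hk : 1 ≤ k)
    (hkn : 2 * k ≤ n) (hL : 1 ≤ L) (hLΛ : L ≤ Λ) (hΛL : Λ ≤ 9 * 6 ^ 10 * h ^ 70 * L)
    (g : ℕ → ℤ) (h0 : ∑ i ∈ range n, g i = 0) (h1 : ∑ i ∈ range n, (i : ℤ) * g i = 0)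
    (hΛ : ∀ i < n, |g i| ≤ Λ)
    (hΦ : ∀ s < n, |∑ i ∈ range (s + 1), g i| ≤ ((h ^ 11 * k * Λ : ℕ) : ℤ)) :
    ∃ g' : ℕ → ℤ, ∑ i ∈ range n, g' i = 0 ∧ ∑ i ∈ range n, (i : ℤ) * g' i = 0 ∧
      (∀ i < n, |g' i| ≤ ((6 * Λ : ℕ) : ℤ)) ∧
      (∀ s < n, |∑ i ∈ range (s + 1), g' i| ≤ ((h * k * (6 * Λ) : ℕ) : ℤ)) ∧
      Req n L (h ^ 84) (fun i => g i - g' i) := by
  obtain ⟨c, c1, c2, c3, c4, c5, c6, c7⟩ := stage hk hkn hL g h0 h1 hΛ hΦ
  have hk0 : (0 : ℤ) < k := by exact_mod_cast hk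
  have hL0 : (0 : ℤ) < L := by exact_mod_cast hL
  have hLΛ' : (L : ℤ) ≤ Λ := by exact_mod_cast hLΛ
  refine ⟨fun i => g i - L * (c i - if k ≤ i then c (i - k) else 0), c4, c5, ?_, ?_, ?_⟩
  · intro i hi
    refine (c6 i hi).trans ?_
    push_cast
    linarith
  · intro s hs
    refine (c7 s hs).trans ?_
    have h2 : 4 * k * Λ + L ≤ h * k * (6 * Λ) := by
      have h3 : 1 * Λ ≤ k * Λ := Nat.mul_le_mul_right _ hk
      have h4 : 5 * (k * Λ) ≤ h * (6 * (k * Λ)) := by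
        have h5 : 1 * (6 * (k * Λ)) ≤ h * (6 * (k * Λ)) := Nat.mul_le_mul_right _ (by omega)
        omega
      have h5 : 4 * k * Λ = 4 * (k * Λ) := by ring
      have h6 : h * k * (6 * Λ) = h * (6 * (k * Λ)) := by ring
      omega
    exact_mod_cast h2
  · have hcm : ∀ t, |c t| ≤ ((h ^ 83 : ℕ) : ℤ) := by
      intro t
      have h2 : |c t| * ((k : ℤ) * L) ≤ ((h ^ 83 : ℕ) : ℤ) * ((k : ℤ) * L) := by
        refine (c3 t).trans ?_
        have h3 : h ^ 11 * k * Λ + k * Λ + k * L ≤ h ^ 83 * (k * L) := by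
          calc h ^ 11 * k * Λ + k * Λ + k * L = k * ((h ^ 11 + 1) * Λ + L) := by ring
            _ ≤ k * ((h ^ 11 + 1) * (9 * 6 ^ 10 * h ^ 70 * L) + L) :=
              Nat.mul_le_mul_left _ (Nat.add_le_add_right (Nat.mul_le_mul_left _ hΛL) _)
            _ = ((h ^ 11 + 1) * (9 * 6 ^ 10 * h ^ 70) + 1) * (k * L) := by ring
            _ ≤ h ^ 83 * (k * L) := Nat.mul_le_mul_right _ (decomp_num hh)
        exact_mod_cast h3
      exact le_of_mul_le_mul_right h2 (mul_pos hk0 hL0)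
    have h2 := reqPair (cm := h ^ 83) hn100 hk hkn hL le_rfl c c1 c2 hcm
    have h3 : 40 * h ^ 83 + 40 ≤ h ^ 84 := by
      have h4 : h ^ 84 = h * h ^ 83 := by ring
      have h5 : 1 ≤ h ^ 83 := Nat.one_le_pow _ _ (by omega)
      have h6 : 80 * h ^ 83 ≤ h * h ^ 83 := Nat.mul_le_mul_right _ (by omega)
      omega
    refine (h2.mono h3).congr fun i _ => ?_
    ring

private theorem decomp_ind {n h : ℕ} (hh : 10 ^ 6 ≤ h) (hn : h ^ 100 ≤ n) (f : ℕ → ℤ)
    (h0 : ∑ i ∈ range n, f i = 0) (h1 : ∑ i ∈ range n, (i : ℤ) * f i = 0)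
    (hf : ∀ i < n, |f i| ≤ (n : ℤ) * (h : ℤ) ^ 70) (hn' : n ≤ h ^ 101) (m : ℕ) : m ≤ 10 →
    ∃ g : ℕ → ℤ, ∑ i ∈ range n, g i = 0 ∧ ∑ i ∈ range n, (i : ℤ) * g i = 0 ∧
      (∀ i < n, |g i| ≤ ((n * h ^ 70 * 6 ^ m : ℕ) : ℤ)) ∧
      (∀ s < n, |∑ i ∈ range (s + 1), g i| ≤
        ((h * h ^ (100 - 10 * m) * (n * h ^ 70 * 6 ^ m) : ℕ) : ℤ)) ∧
      Req n (n / 8) (m * h ^ 84) (fun i => f i - g i) := by
  have hn1000 : 1000 ≤ n := by
    have h2 : h ^ 100 = h * h ^ 99 := by ring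
    have h3 : 1 ≤ h ^ 99 := Nat.one_le_pow _ _ (by omega)
    have h4 : 1000 * 1 ≤ h * h ^ 99 := Nat.mul_le_mul (by omega) h3
    omega
  induction m with
  | zero =>
    intro _
    refine ⟨f, h0, h1, ?_, ?_, ?_⟩
    · intro i hi
      refine (hf i hi).trans (le_of_eq ?_)
      push_cast
      ring
    · intro s hs
      refine (abs_sum_le_sum_abs _ _).trans ?_
      have h2 : ∀ i ∈ range (s + 1), |f i| ≤ (n : ℤ) * (h : ℤ) ^ 70 := fun i hi =>
        hf i (by have := mem_range.1 hi; omega)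
      refine (sum_le_sum h2).trans ?_
      rw [sum_const, card_range, nsmul_eq_mul]
      have h3 : (s + 1) * (n * h ^ 70) ≤ h * h ^ (100 - 10 * 0) * (n * h ^ 70 * 6 ^ 0) := by
        rw [pow_zero, mul_one]
        refine Nat.mul_le_mul_right _ ?_
        have h4 : h * h ^ (100 - 10 * 0) = h ^ 101 := by
          rw [mul_zero, Nat.sub_zero]
          ring
        omega
      exact_mod_cast h3
    · rw [zero_mul]
      refine (Req.zero n (n / 8)).congr fun i _ => ?_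
      rw [sub_self]
  | succ m ih =>
    intro hm
    obtain ⟨g, g0, g1, g2, g3, g4⟩ := ih (by omega)
    obtain ⟨a, ha⟩ : ∃ a, 100 - 10 * (m + 1) = a := ⟨_, rfl⟩
    have ha' : 100 - 10 * m = 10 + a := by omega
    have ha90 : a ≤ 90 := by omega
    have h6m : 6 ^ m ≤ 6 ^ 10 := Nat.pow_le_pow_right (by norm_num) (by omega)
    have h6m1 : 1 ≤ 6 ^ m := Nat.one_le_pow _ _ (by norm_num)
    have hh70 : 1 ≤ h ^ 70 := Nat.one_le_pow _ _ (by omega)
    have h1k : 1 ≤ h ^ a := Nat.one_le_pow _ _ (by omega)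
    have hkn : 2 * h ^ a ≤ n := by
      have h2 : h ^ a ≤ h ^ 90 := Nat.pow_le_pow_right (by omega) ha90
      have h3 : h ^ 100 = h ^ 10 * h ^ 90 := by ring
      have h4 : 2 ≤ h ^ 10 := by
        have h5 : h ^ 10 = h * h ^ 9 := by ring
        have h6 : 1 ≤ h ^ 9 := Nat.one_le_pow _ _ (by omega)
        have h7 : 2 * 1 ≤ h * h ^ 9 := Nat.mul_le_mul (by omega) h6
        omega
      have h5 : 2 * h ^ 90 ≤ h ^ 10 * h ^ 90 := Nat.mul_le_mul_right _ h4
      omega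
    have hL1 : 1 ≤ n / 8 := by omega
    have hLΛ : n / 8 ≤ n * h ^ 70 * 6 ^ m := by
      have h2 : n * 1 * 1 ≤ n * h ^ 70 * 6 ^ m :=
        Nat.mul_le_mul (Nat.mul_le_mul_left _ hh70) h6m1
      have h3 : n / 8 ≤ n := Nat.div_le_self _ _
      omega
    have hΛL : n * h ^ 70 * 6 ^ m ≤ 9 * 6 ^ 10 * h ^ 70 * (n / 8) := by
      have h2 : n ≤ 9 * (n / 8) := by omega
      calc n * h ^ 70 * 6 ^ m ≤ (9 * (n / 8)) * h ^ 70 * 6 ^ 10 :=
            Nat.mul_le_mul (Nat.mul_le_mul_right _ h2) h6m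
        _ = 9 * 6 ^ 10 * h ^ 70 * (n / 8) := by ring
    have hΦ : ∀ s < n, |∑ i ∈ range (s + 1), g i| ≤
        ((h ^ 11 * h ^ a * (n * h ^ 70 * 6 ^ m) : ℕ) : ℤ) := by
      intro s hs
      refine (g3 s hs).trans (le_of_eq ?_)
      congr 1
      rw [ha', pow_add]
      ring
    obtain ⟨g', e0, e1, e2, e3, e4⟩ := decomp_step hh (by omega) h1k hkn hL1 hLΛ hΛL g g0 g1 g2 hΦ
    have h6 : 6 * (n * h ^ 70 * 6 ^ m) = n * h ^ 70 * 6 ^ (m + 1) := by ring
    refine ⟨g', e0, e1, ?_, ?_, ?_⟩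
    · intro i hi
      rw [← h6]
      exact e2 i hi
    · intro s hs
      rw [ha, ← h6]
      exact e3 s hs
    · refine ((g4.add e4).mono (le_of_eq (by ring))).congr fun i _ => ?_
      ring

theorem decomp {n h : ℕ} (hh : 10 ^ 6 ≤ h) (hn : h ^ 100 ≤ n) (hn' : n ≤ h ^ 101) (f : ℕ → ℤ)
    (h0 : ∑ i ∈ range n, f i = 0) (h1 : ∑ i ∈ range n, (i : ℤ) * f i = 0)
    (hf : ∀ i < n, |f i| ≤ (n : ℤ) * (h : ℤ) ^ 70) : Req n (n / 8) (h ^ 95) f := by
  obtain ⟨g, g0, g1, -, g3, g4⟩ := decomp_ind hh hn f h0 h1 hf hn' 10 le_rfl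
  have hn1000 : 1000 ≤ n := by
    have h2 : h ^ 100 = h * h ^ 99 := by ring
    have h3 : 1 ≤ h ^ 99 := Nat.one_le_pow _ _ (by omega)
    have h4 : 1000 * 1 ≤ h * h ^ 99 := Nat.mul_le_mul (by omega) h3
    omega
  obtain ⟨Φ, hΦ⟩ : ∃ Φ : ℕ, Φ = 6 ^ 10 * h ^ 71 * n := ⟨_, rfl⟩
  have g3' : ∀ s < n, |∑ i ∈ range (s + 1), g i| ≤ (Φ : ℤ) := by
    intro s hs
    refine (g3 s hs).trans (le_of_eq ?_)
    congr 1
    rw [hΦ]
    have h2 : 100 - 10 * 10 = 0 := by norm_num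
    rw [h2, pow_zero]
    ring
  -- the prefix sums
  obtain ⟨P, hP⟩ : ∃ P : ℕ → ℤ, P = fun s => if s < n - 1 then ∑ i ∈ range (s + 1), g i else 0 :=
    ⟨_, rfl⟩
  have hP1 : ∀ s, s < n - 1 → P s = ∑ i ∈ range (s + 1), g i := by
    intro s hs
    rw [hP]
    exact if_pos hs
  have hP2 : ∀ s, n - 1 ≤ s → P s = 0 := by
    intro s hs
    rw [hP]
    exact if_neg (by omega)
  have hPsum : ∑ s ∈ range (n - 1), P s = 0 := by
    have h2 := decomp_abel g n
    rw [g0, g1, mul_zero, sub_zero] at h2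
    have h3 : range n = range ((n - 1) + 1) := by rw [Nat.sub_add_cancel (by omega)]
    have h4 : n - 1 + 1 = n := by omega
    rw [h3, sum_range_succ, h4, g0, add_zero] at h2
    rw [← h2]
    exact sum_congr rfl fun s hs => hP1 s (mem_range.1 hs)
  have hPb : ∀ t < n - 1, |P t| ≤ Φ := by
    intro t ht
    rw [hP1 t ht]
    exact g3' t (by omega)
  have hgP : ∀ i < n, g i = P i - (if 1 ≤ i then P (i - 1) else 0) := by
    intro i hi
    have h2 : P i = ∑ j ∈ range (i + 1), g j := by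
      by_cases h3 : i < n - 1
      · exact hP1 i h3
      · rw [hP2 i (by omega), show i + 1 = n by omega, g0]
    rw [h2, sum_range_succ]
    by_cases h3 : 1 ≤ i
    · rw [if_pos h3, hP1 (i - 1) (by omega), Nat.sub_add_cancel h3]
      ring
    · rw [if_neg h3]
      have h4 : i = 0 := by omega
      subst h4
      simp
  obtain ⟨J, hJ⟩ : ∃ J, J = Nat.log 2 (n / 8) := ⟨_, rfl⟩
  have hJ1 : 2 ^ J ≤ n / 8 := by
    rw [hJ]
    exact Nat.pow_log_le_self 2 (by omega)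
  have hJ2 : n ≤ 16 * 2 ^ J := by
    have h2 : n / 8 < 2 ^ (J + 1) := by
      rw [hJ]
      exact Nat.lt_pow_succ_log_self (by norm_num) _
    have h3 : 2 ^ (J + 1) = 2 * 2 ^ J := by ring
    omega
  obtain ⟨φ, f1, f2, f3, f4, f5⟩ := digits (n - 1) J Φ P hPsum hPb
  have f1' : ∀ t, P t = ∑ j ∈ range (J + 1), 2 ^ j * φ j t := by
    intro t
    by_cases ht : t < n - 1
    · exact f1 t ht
    · rw [hP2 t (by omega), sum_eq_zero]
      intro j _
      rw [f2 j t (by omega), mul_zero]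
  have hone : ∀ j ≤ J, ∀ cm : ℕ, (∀ t, |φ j t| ≤ cm) → Req n (n / 8) (40 * cm + 40)
      (fun i => (2 : ℤ) ^ j * (φ j i - if 1 ≤ i then φ j (i - 1) else 0)) := by
    intro j hj cm hcm
    have h2 : 2 ^ j ≤ n / 8 := (Nat.pow_le_pow_right (by norm_num) hj).trans hJ1
    have h3 := reqPair (k := 1) (l := 2 ^ j) (cm := cm) (by omega : 100 ≤ n) le_rfl (by omega)
      (Nat.one_le_pow _ _ (by norm_num)) h2 (φ j) (fun t ht => f2 j t ht) (f3 j hj) hcm
    refine h3.congr fun i _ => ?_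
    push_cast
    ring
  have hlow : ∀ j' ≤ J, Req n (n / 8) (80 * j') (fun i => ∑ j ∈ range j',
      (2 : ℤ) ^ j * (φ j i - if 1 ≤ i then φ j (i - 1) else 0)) := by
    intro j'
    induction j' with
    | zero =>
      intro _
      refine (Req.zero n (n / 8)).congr fun i _ => ?_
      simp
    | succ j' ih =>
      intro hj'
      have h2 := ih (by omega)
      have h3 := hone j' (by omega) 1 (fun t => by
        have := f4 j' (by omega) t
        exact_mod_cast this)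
      refine ((h2.add h3).mono (by omega)).congr fun i _ => ?_
      rw [sum_range_succ]
  have hcmJ : ∀ t, |φ J t| ≤ ((h ^ 73 : ℕ) : ℤ) := by
    intro t
    have h2 := f5 t
    have h3 : Φ + 2 ^ J ≤ h ^ 73 * 2 ^ J := by
      have h4 : Φ ≤ 6 ^ 10 * h ^ 71 * (16 * 2 ^ J) := by
        rw [hΦ]
        exact Nat.mul_le_mul_left _ hJ2
      have h5 : 6 ^ 10 * h ^ 71 * (16 * 2 ^ J) + 2 ^ J = (967458816 * h ^ 71 + 1) * 2 ^ J := by
        ring
      have h6 : 967458816 * h ^ 71 + 1 ≤ h ^ 73 := by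
        have h7 : h ^ 73 = h * h * h ^ 71 := by ring
        have h8 : 1 ≤ h ^ 71 := Nat.one_le_pow _ _ (by omega)
        have h9 : 967458817 ≤ h * h := by nlinarith
        have h10 : 967458817 * h ^ 71 ≤ h * h * h ^ 71 := Nat.mul_le_mul_right _ h9
        rw [h7]
        generalize h ^ 71 = B at *
        omega
      have h7 : (967458816 * h ^ 71 + 1) * 2 ^ J ≤ h ^ 73 * 2 ^ J := Nat.mul_le_mul_right _ h6
      omega
    have h4 : |φ J t| * 2 ^ J ≤ ((h ^ 73 : ℕ) : ℤ) * 2 ^ J := by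
      refine h2.trans ?_
      exact_mod_cast h3
    exact le_of_mul_le_mul_right h4 (by positivity)
  have hall := (g4.add ((hlow J le_rfl).add (hone J le_rfl (h ^ 73) hcmJ)))
  have hJle : J ≤ 101 * h := by
    have h2 : 2 ^ J ≤ 2 ^ (101 * h) := by
      have h3 : n / 8 ≤ n := Nat.div_le_self _ _
      have h4 : h ^ 101 ≤ (2 ^ h) ^ 101 := Nat.pow_le_pow_left (Nat.lt_two_pow_self).le _
      rw [← pow_mul, mul_comm h 101] at h4
      omega
    exact (Nat.pow_le_pow_iff_right (by norm_num)).1 h2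
  refine (hall.mono ?_).congr fun i hi => ?_
  · have h2 : h ^ 95 = h ^ 11 * h ^ 84 := by ring
    have h3 : h ≤ h ^ 84 := Nat.le_self_pow (by norm_num) _
    have h4 : h ^ 73 ≤ h ^ 84 := Nat.pow_le_pow_right (by omega) (by norm_num)
    have h5 : 1 ≤ h ^ 84 := Nat.one_le_pow _ _ (by omega)
    have h6 : 10 ^ 6 ≤ h ^ 11 := hh.trans (Nat.le_self_pow (by norm_num) _)
    have h7 : 10 ^ 6 * h ^ 84 ≤ h ^ 11 * h ^ 84 := Nat.mul_le_mul_right _ h6
    rw [h2]
    generalize h ^ 84 = B at *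
    generalize h ^ 73 = D at *
    generalize h ^ 11 * B = E at *
    omega
  · have h2 : ∑ j ∈ range J, (2 : ℤ) ^ j * (φ j i - if 1 ≤ i then φ j (i - 1) else 0) +
        (2 : ℤ) ^ J * (φ J i - if 1 ≤ i then φ J (i - 1) else 0) = g i := by
      rw [← sum_range_succ (fun j => (2 : ℤ) ^ j * (φ j i - if 1 ≤ i then φ j (i - 1) else 0)) J,
        hgP i hi, f1' i]
      by_cases h3 : 1 ≤ i
      · simp only [if_pos h3]
        rw [f1' (i - 1), ← sum_sub_distrib]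
        exact sum_congr rfl fun j _ => by ring
      · simp only [if_neg h3, sub_zero]
    rw [h2]
    ring

end HDT
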