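import Mathlib

/-! Project HDT (regular `d`-handicap graphs, asymptotic threshold): basic definitions.
Vertices are the natural numbers `< n`, matrices are functions `ℕ → ℕ → ℤ`. -/

namespace HDT

open Finset

/-- `A` is the adjacency matrix of a simple graph on `{0, …, n - 1}` -/
def Adj (n : ℕ) (A : ℕ → ℕ → ℤ) : Prop :=
  (∀ i j, A i j = A j i) ∧ (∀ i, A i i = 0) ∧ (∀ i j, A i j = 0 ∨ A i j = 1) ∧
    (∀ i j, n ≤ i → A i j = 0)

/-- row sum (degree) -/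
def deg (n : ℕ) (A : ℕ → ℕ → ℤ) (i : ℕ) : ℤ := ∑ j ∈ range n, A i j

/-- weighted row sum -/
def wt (n : ℕ) (A : ℕ → ℕ → ℤ) (i : ℕ) : ℤ := ∑ j ∈ range n, A i j * (j : ℤ)

/-- symmetric set `F` of forbidden pairs with at most `φ` of them in each row -/
def Forb (n φ : ℕ) (F : ℕ → ℕ → Prop) : Prop :=
  (∀ i j, F i j → F j i) ∧ ∀ i < n, ∃ S : Finset ℕ, S.card ≤ φ ∧ ∀ j < n, F i j → j ∈ S

/-- in each row at most `ξ` entries of `A` are changed -/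
def Chg (n ξ : ℕ) (A A' : ℕ → ℕ → ℤ) : Prop :=
  ∀ i < n, ∃ S : Finset ℕ, S.card ≤ ξ ∧ ∀ j, A' i j ≠ A i j → j ∈ S

/-- the pattern property: for all four different rows, all shifts `l ≤ L` and all 0/1 patterns `e`
there are at least `β` columns `b` where the rows have the pattern `e` at `b` and the opposite
pattern at `b + l`, all these entries being allowed -/
def Pat (n L β : ℕ) (A : ℕ → ℕ → ℤ) (F : ℕ → ℕ → Prop) : Prop :=
  ∀ (i : Fin 4 → ℕ) (e : Fin 4 → ℤ) (l : ℕ), Function.Injective i → (∀ k, i k < n) →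
    (∀ k, e k = 0 ∨ e k = 1) → 1 ≤ l → l ≤ L →
    ∃ B : Finset ℕ, β ≤ B.card ∧ ∀ b ∈ B, b + l < n ∧ ∀ k, i k ≠ b ∧ i k ≠ b + l ∧
      ¬ F (i k) b ∧ ¬ F (i k) (b + l) ∧ A (i k) b = e k ∧ A (i k) (b + l) = 1 - e k

/-- the parity conditions -/
def ParZ (n r : ℕ) (D : ℤ) : Prop :=
  (Odd n → Even r) ∧ (Even n → Even ((r : ℤ) + D)) ∧ (n % 4 = 2 → (4 : ℤ) ∣ (r : ℤ) + D)

/-- `A` is `r`-regular on `{0, …, n - 1}` and the centred labels `2 j + 1 - n` are an eigenvector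
with eigenvalue `D` -/
def Exact (n : ℕ) (A : ℕ → ℕ → ℤ) (r : ℕ) (D : ℤ) : Prop :=
  ∀ i < n, (∑ j ∈ range n, A i j = r) ∧
    ∑ j ∈ range n, A i j * (2 * (j : ℤ) + 1 - n) = D * (2 * (i : ℤ) + 1 - n)

/-- indicator -/
def dl (x i : ℕ) : ℤ := if x = i then 1 else 0

/-- `f` is a sum of `N` multiples `l (e_t - e_{t+k} - e_{t'} + e_{t'+k})` with `1 ≤ l ≤ L`, four
different indices `< n` in each of them, and each index occurs in at most `U` of them -/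
def Req (n L U : ℕ) (f : ℕ → ℤ) : Prop :=
  ∃ (N : ℕ) (t t' k l : ℕ → ℕ),
    (∀ j < N, 1 ≤ k j ∧ t j + k j < n ∧ t' j + k j < n ∧ t j ≠ t' j ∧ t j ≠ t' j + k j ∧
      t' j ≠ t j + k j ∧ 1 ≤ l j ∧ l j ≤ L) ∧
    (∀ i < n, f i = ∑ j ∈ range N,
      (l j : ℤ) * (dl (t j) i - dl (t j + k j) i - dl (t' j) i + dl (t' j + k j) i)) ∧
    (∀ i < n, ((range N).filter (fun j => i = t j ∨ i = t j + k j ∨ i = t' j ∨
      i = t' j + k j)).card ≤ U)

end HDT
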