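import Pool.Agent.Helper23.HDT.DenseLocal

/-! # The dense theorem

PLAN. The set `𝒦 = {(ρ, δ) : κ ≤ ρ ≤ 1 - κ, |δ| ≤ (1 - κ) ρ (1 - ρ)} ⊆ ℝ × ℝ` is compact (closed and
bounded; we may assume `κ < 1`, otherwise it is empty, and then the hypotheses are contradictory for
`n ≥ 1`). Every point satisfies `0 < ρ < 1`, `|δ| < ρ (1 - ρ)`, so `denseLocal` gives `ε, n0`; cover
`𝒦` by the open squares of radius `ε` and take a finite subcover (`IsCompact.elim_nhds_subcover` or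
`IsCompact.induction_on`), `n0` = maximum (and `≥ 1`). For given `n, r, D` the pair `(r/n, D/n)` is in
`𝒦`: divide the hypotheses by `n`, `n²`. -/

namespace HDT

open Topology

private def DenseSet (κ : ℝ) : Set (ℝ × ℝ) :=
  {p | κ ≤ p.1 ∧ p.1 ≤ 1 - κ ∧ |p.2| ≤ (1 - κ) * p.1 * (1 - p.1)}

private theorem DenseSet_compact (κ : ℝ) (hκ : 0 < κ) : IsCompact (DenseSet κ) := by
  have h1 : IsCompact (Set.Icc (0 : ℝ) 1 ×ˢ Set.Icc (-1 : ℝ) 1) := isCompact_Icc.prod isCompact_Icc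
  refine h1.of_isClosed_subset ?_ ?_
  · refine (isClosed_le continuous_const continuous_fst).inter
      ((isClosed_le continuous_fst continuous_const).inter
        (isClosed_le (continuous_snd.abs) ?_))
    fun_prop
  · rintro ⟨a, b⟩ ⟨h2, h3, h4⟩
    have h2' : κ ≤ a := h2
    have h3' : a ≤ 1 - κ := h3
    have h4' : |b| ≤ (1 - κ) * a * (1 - a) := h4
    have h5 : (1 - κ) * a * (1 - a) ≤ 1 := by
      have h6 : (1 - κ) * a ≤ 1 := by nlinarith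
      have h7 : 0 ≤ (1 - κ) * a := by nlinarith
      nlinarith
    have h8 := abs_le.1 (h4'.trans h5)
    exact ⟨⟨by linarith, by linarith⟩, ⟨h8.1, h8.2⟩⟩

theorem dense (κ : ℝ) (hκ : 0 < κ) (φ : ℕ) : ∃ n0 : ℕ, ∀ n : ℕ, n0 ≤ n →
    ∀ (r : ℕ) (D : ℤ) (F : ℕ → ℕ → Prop), κ * n ≤ r → (r : ℝ) ≤ (1 - κ) * n →
      |(D : ℝ)| * n ≤ (1 - κ) * r * (n - r) → ParZ n r D → Forb n φ F →
      ∃ A : ℕ → ℕ → ℤ, Adj n A ∧ (∀ i j, F i j → A i j = 0) ∧ Exact n A r D := by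
  have key : ∃ n0 : ℕ, ∀ n : ℕ, n0 ≤ n →
      ∀ (r : ℕ) (D : ℤ) (F : ℕ → ℕ → Prop), ((r : ℝ) / n, (D : ℝ) / n) ∈ DenseSet κ →
      ParZ n r D → Forb n φ F →
      ∃ A : ℕ → ℕ → ℤ, Adj n A ∧ (∀ i j, F i j → A i j = 0) ∧ Exact n A r D := by
    refine IsCompact.induction_on (p := fun T => ∃ n0 : ℕ, ∀ n : ℕ, n0 ≤ n →
      ∀ (r : ℕ) (D : ℤ) (F : ℕ → ℕ → Prop), ((r : ℝ) / n, (D : ℝ) / n) ∈ T →
      ParZ n r D → Forb n φ F →
      ∃ A : ℕ → ℕ → ℤ, Adj n A ∧ (∀ i j, F i j → A i j = 0) ∧ Exact n A r D)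
      (DenseSet_compact κ hκ) ?_ ?_ ?_ ?_
    · exact ⟨0, fun n _ r D F h => absurd h (Set.notMem_empty _)⟩
    · rintro s t hst ⟨n0, h⟩
      exact ⟨n0, fun n hn r D F h1 => h n hn r D F (hst h1)⟩
    · rintro s t ⟨n0, h⟩ ⟨n1, h'⟩
      refine ⟨max n0 n1, fun n hn r D F h1 => ?_⟩
      rcases h1 with h1 | h1
      · exact h n ((le_max_left _ _).trans hn) r D F h1
      · exact h' n ((le_max_right _ _).trans hn) r D F h1
    · rintro ⟨ρ, δ⟩ ⟨h1, h2, h3⟩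
      have h1' : κ ≤ ρ := h1
      have h2' : ρ ≤ 1 - κ := h2
      have h3' : |δ| ≤ (1 - κ) * ρ * (1 - ρ) := h3
      have h4 : 0 < ρ * (1 - ρ) := mul_pos (by linarith) (by linarith)
      obtain ⟨ε, hε, n0, h⟩ := denseLocal ρ δ (by linarith) (by linarith) (by nlinarith) φ
      refine ⟨{p | |p.1 - ρ| < ε ∧ |p.2 - δ| < ε}, mem_nhdsWithin_of_mem_nhds ?_, n0,
        fun n hn r D F h5 => h n hn r D F h5.1 h5.2⟩
      have hc1 : Continuous fun p : ℝ × ℝ => |p.1 - ρ| := by fun_prop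
      have hc2 : Continuous fun p : ℝ × ℝ => |p.2 - δ| := by fun_prop
      refine ((isOpen_lt hc1 continuous_const).inter (isOpen_lt hc2 continuous_const)).mem_nhds
        ⟨?_, ?_⟩
      · show |ρ - ρ| < ε
        rw [sub_self, abs_zero]
        exact hε
      · show |δ - δ| < ε
        rw [sub_self, abs_zero]
        exact hε
  obtain ⟨n0, h⟩ := key
  refine ⟨max n0 1, fun n hn r D F h1 h2 h3 h4 h5 => h n ((le_max_left _ _).trans hn) r D F ?_ h4 h5⟩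
  have hn1 : (1 : ℝ) ≤ n := by exact_mod_cast (le_max_right n0 1).trans hn
  have hn0 : (0 : ℝ) < n := by linarith
  refine ⟨?_, ?_, ?_⟩
  · show κ ≤ (r : ℝ) / n
    rw [le_div_iff₀ hn0]
    exact h1
  · show (r : ℝ) / n ≤ 1 - κ
    rw [div_le_iff₀ hn0]
    exact h2
  · show |(D : ℝ) / n| ≤ (1 - κ) * ((r : ℝ) / n) * (1 - (r : ℝ) / n)
    rw [abs_div, abs_of_pos hn0, div_le_iff₀ hn0]
    have h6 : (1 - κ) * ((r : ℝ) / n) * (1 - (r : ℝ) / n) * n * n = (1 - κ) * r * (n - r) := by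
      field_simp
    have h7 : |(D : ℝ)| * n ≤ (1 - κ) * ((r : ℝ) / n) * (1 - (r : ℝ) / n) * n * n := by
      rw [h6]
      exact h3
    exact le_of_mul_le_mul_right h7 hn0

end HDT
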