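import Mathlib

/-! # Polynomials close to a step function

PLAN. Let `z₀ = 1 - 2 ρ ∈ (-1, 1)`, `τ > 0` small (`τ ≤ ε / 2`, `τ ≤ ρ`, `τ ≤ 1 - ρ`), and
`c z = max 0 (min 1 ((z - z₀) / τ))` (continuous, values in `[0, 1]`, `0` for `z ≤ z₀`, `1` for
`z ≥ z₀ + τ`). `∫_{-1}^{1} c` differs from `∫_{z₀}^{1} 1 = 2 ρ` by at most `τ`, and
`∫ c z` from `∫_{z₀}^1 z = (1 - z₀²)/2 = 2 ρ (1 - ρ)` by at most `τ` (split the integral at `z₀`
and `z₀ + τ`). By Weierstrass (`exists_polynomial_near_of_continuousOn` or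
`exists_polynomial_near_continuousMap`) there is a polynomial `q` with `|q.eval z - c z| < ε / 4`
on `[-1, 1]`; then `-ε ≤ q ≤ 1 + ε`, `|∫ q / 2 - ρ| ≤ ε/4 + τ/2 ≤ ε`, the same for the first
moment. -/

namespace HDT

private theorem ramp_aux (z₀ τ ε : ℝ) (h0 : -1 ≤ z₀) (hτ : 0 < τ) (h1 : z₀ + τ ≤ 1) (hε : 0 < ε)
    (hτε : τ ≤ ε / 2) (q : Polynomial ℝ)
    (hq : ∀ z ∈ Set.Icc (-1 : ℝ) 1, |q.eval z - max 0 (min 1 ((z - z₀) / τ))| < ε / 4)
    (w : ℝ → ℝ) (hw : Continuous w) (hw1 : ∀ z ∈ Set.Icc (-1 : ℝ) 1, |w z| ≤ 1) :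
    |(∫ z in (-1 : ℝ)..1, q.eval z * w z) - ∫ z in z₀..1, w z| ≤ ε := by
  set c : ℝ → ℝ := fun z => max 0 (min 1 ((z - z₀) / τ)) with hc
  have hcc : Continuous c := by
    simp only [hc]
    fun_prop
  have hqc : Continuous fun z : ℝ => q.eval z := q.continuous
  have hc0 : ∀ z, 0 ≤ c z := fun z => le_max_left _ _
  have hc1 : ∀ z, c z ≤ 1 := fun z => max_le zero_le_one (min_le_left _ _)
  -- first part
  have hA : |(∫ z in (-1 : ℝ)..1, q.eval z * w z) - ∫ z in (-1 : ℝ)..1, c z * w z| ≤ ε / 4 * 2 := by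
    have hi1 : IntervalIntegrable (fun z => q.eval z * w z) MeasureTheory.volume (-1) 1 :=
      (hqc.mul hw).intervalIntegrable _ _
    have hi2 : IntervalIntegrable (fun z => c z * w z) MeasureTheory.volume (-1) 1 :=
      (hcc.mul hw).intervalIntegrable _ _
    rw [← intervalIntegral.integral_sub hi1 hi2]
    have h := intervalIntegral.norm_integral_le_of_norm_le_const (a := (-1 : ℝ)) (b := 1)
      (C := ε / 4) (f := fun z => q.eval z * w z - c z * w z) ?_
    · rw [Real.norm_eq_abs] at h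
      have h2 : |(1 : ℝ) - -1| = 2 := by norm_num
      rw [h2] at h
      exact h
    · intro z hz
      rw [Set.uIoc_of_le (by norm_num : (-1 : ℝ) ≤ 1)] at hz
      have hz' : z ∈ Set.Icc (-1 : ℝ) 1 := ⟨hz.1.le, hz.2⟩
      rw [Real.norm_eq_abs, ← sub_mul, abs_mul]
      calc |q.eval z - c z| * |w z| ≤ (ε / 4) * 1 := by
            apply mul_le_mul (hq z hz').le (hw1 z hz') (abs_nonneg _) (by positivity)
        _ = ε / 4 := mul_one _
  -- second part
  have hB1 : ∫ z in (-1 : ℝ)..z₀, c z * w z = 0 := by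
    have : ∫ z in (-1 : ℝ)..z₀, c z * w z = ∫ z in (-1 : ℝ)..z₀, (0 : ℝ) := by
      apply intervalIntegral.integral_congr
      intro z hz
      rw [Set.uIcc_of_le h0] at hz
      have hcz : c z = 0 := by
        simp only [hc]
        apply max_eq_left
        refine le_trans (min_le_right _ _) ?_
        apply div_nonpos_of_nonpos_of_nonneg _ hτ.le
        linarith [hz.2]
      simp only [hcz, zero_mul]
    rw [this]
    simp
  have hB3 : ∫ z in (z₀ + τ)..1, c z * w z = ∫ z in (z₀ + τ)..1, w z := by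
    apply intervalIntegral.integral_congr
    intro z hz
    rw [Set.uIcc_of_le h1] at hz
    have hcz : c z = 1 := by
      simp only [hc]
      have : 1 ≤ (z - z₀) / τ := by
        rw [le_div_iff₀ hτ]
        linarith [hz.1]
      rw [min_eq_left this]
      exact max_eq_right zero_le_one
    simp only [hcz, one_mul]
  have hcwi : ∀ a b : ℝ, IntervalIntegrable (fun z => c z * w z) MeasureTheory.volume a b :=
    fun a b => (hcc.mul hw).intervalIntegrable _ _
  have hwi : ∀ a b : ℝ, IntervalIntegrable w MeasureTheory.volume a b :=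
    fun a b => hw.intervalIntegrable _ _
  have hS1 : (∫ z in (-1 : ℝ)..1, c z * w z) =
      (∫ z in (-1 : ℝ)..z₀, c z * w z) + (∫ z in z₀..(z₀ + τ), c z * w z) +
        ∫ z in (z₀ + τ)..1, c z * w z := by
    rw [intervalIntegral.integral_add_adjacent_intervals (hcwi _ _) (hcwi _ _),
      intervalIntegral.integral_add_adjacent_intervals (hcwi _ _) (hcwi _ _)]
  have hS2 : (∫ z in z₀..1, w z) = (∫ z in z₀..(z₀ + τ), w z) + ∫ z in (z₀ + τ)..1, w z := by
    rw [intervalIntegral.integral_add_adjacent_intervals (hwi _ _) (hwi _ _)]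
  have hB : |(∫ z in (-1 : ℝ)..1, c z * w z) - ∫ z in z₀..1, w z| ≤ τ := by
    rw [hS1, hS2, hB1, hB3]
    have he : 0 + (∫ z in z₀..(z₀ + τ), c z * w z) + (∫ z in (z₀ + τ)..1, w z) -
        ((∫ z in z₀..(z₀ + τ), w z) + ∫ z in (z₀ + τ)..1, w z) =
        ∫ z in z₀..(z₀ + τ), (c z * w z - w z) := by
      rw [intervalIntegral.integral_sub (hcwi _ _) (hwi _ _)]
      ring
    rw [he]
    have h := intervalIntegral.norm_integral_le_of_norm_le_const (a := z₀) (b := z₀ + τ)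
      (C := 1) (f := fun z => c z * w z - w z) ?_
    · rw [Real.norm_eq_abs] at h
      have h2 : |z₀ + τ - z₀| = τ := by
        rw [add_sub_cancel_left, abs_of_pos hτ]
      rw [h2, one_mul] at h
      exact h
    · intro z hz
      rw [Set.uIoc_of_le (by linarith : z₀ ≤ z₀ + τ)] at hz
      have hz' : z ∈ Set.Icc (-1 : ℝ) 1 := ⟨by linarith [hz.1], by linarith [hz.2]⟩
      have he2 : c z * w z - w z = (c z - 1) * w z := by ring
      rw [Real.norm_eq_abs, he2, abs_mul]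
      have h3 : |c z - 1| ≤ 1 := by
        rw [abs_le]
        constructor
        · linarith [hc0 z]
        · linarith [hc1 z]
      calc |c z - 1| * |w z| ≤ 1 * 1 :=
            mul_le_mul h3 (hw1 z hz') (abs_nonneg _) zero_le_one
        _ = 1 := mul_one _
  have hT := abs_sub_le (∫ z in (-1 : ℝ)..1, q.eval z * w z) (∫ z in (-1 : ℝ)..1, c z * w z)
    (∫ z in z₀..1, w z)
  linarith

theorem polyStep (ρ ε : ℝ) (h0 : 0 < ρ) (h1 : ρ < 1) (hε : 0 < ε) :
    ∃ q : Polynomial ℝ, (∀ z ∈ Set.Icc (-1 : ℝ) 1, -ε ≤ q.eval z ∧ q.eval z ≤ 1 + ε) ∧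
      |(∫ z in (-1 : ℝ)..1, q.eval z) / 2 - ρ| ≤ ε ∧
      |(∫ z in (-1 : ℝ)..1, q.eval z * z) / 2 - ρ * (1 - ρ)| ≤ ε := by
  set z₀ : ℝ := 1 - 2 * ρ with hz₀
  obtain ⟨τ, hτ, hτε, hτρ⟩ : ∃ τ : ℝ, 0 < τ ∧ τ ≤ ε / 2 ∧ τ ≤ ρ := by
    refine ⟨min (ε / 2) ρ, lt_min (by linarith) h0, min_le_left _ _, min_le_right _ _⟩
  have hcc : Continuous fun z : ℝ => max 0 (min 1 ((z - z₀) / τ)) := by fun_prop
  obtain ⟨q, hq⟩ := exists_polynomial_near_of_continuousOn (-1) 1
    (fun z : ℝ => max 0 (min 1 ((z - z₀) / τ))) hcc.continuousOn (ε / 4) (by linarith)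
  have hA := ramp_aux z₀ τ ε (by linarith) hτ (by linarith) hε hτε q hq (fun _ => 1)
    continuous_const (fun z _ => by simp)
  have hB := ramp_aux z₀ τ ε (by linarith) hτ (by linarith) hε hτε q hq (fun z => z)
    continuous_id (fun z hz => abs_le.2 ⟨hz.1, hz.2⟩)
  have hA1 : ∫ z in z₀..1, (fun _ : ℝ => (1 : ℝ)) z = 2 * ρ := by
    simp only [intervalIntegral.integral_const, smul_eq_mul, mul_one]
    linarith
  have hB1 : ∫ z in z₀..1, (fun z : ℝ => z) z = 2 * (ρ * (1 - ρ)) := by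
    have h := integral_id (a := z₀) (b := (1 : ℝ))
    refine h.trans ?_
    rw [hz₀]
    ring
  rw [hA1] at hA
  rw [hB1] at hB
  simp only [mul_one] at hA
  refine ⟨q, ?_, ?_, ?_⟩
  · intro z hz
    have h := hq z hz
    rw [abs_lt] at h
    have h2 : 0 ≤ max 0 (min 1 ((z - z₀) / τ)) := le_max_left _ _
    have h3 : max 0 (min 1 ((z - z₀) / τ)) ≤ 1 := max_le zero_le_one (min_le_left _ _)
    constructor
    · linarith [h.1]
    · linarith [h.2]
  · rw [abs_le] at hA ⊢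
    constructor
    · linarith [hA.1]
    · linarith [hA.2]
  · rw [abs_le] at hB ⊢
    constructor
    · linarith [hB.1]
    · linarith [hB.2]

end HDT
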