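import Pool.Agent.Helper23.HDT.KPoly
import Pool.Agent.Helper23.HDT.KRamp

/-! # Existence of the kernels

PLAN. `lam = |δ| / (ρ (1 - ρ)) ∈ [0, 1)`, `ε = (1 - lam) min(ρ, 1-ρ) / 20 > 0` (then `ε ≤ 1`), `q`
from `polyStep ρ ε`; if `δ < 0` replace `q` by `q.comp (-X)` (so `∫ q z` changes its sign and
`∫ q` does not): let `σ = sign` and `q₁ z = q (σ z)` with `q̄₀ = (∫ q₁)/2`, `q̄₁ = (∫ q₁ z)/2`,
`|q̄₀ - ρ| ≤ ε`, `|lam q̄₁ - δ| ≤ ε`. Put `W s t = ρ + 3 δ s t + lam (WP q₁ s t - q̄₀ - 3 q̄₁ s t)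
= ρ + lam (WP q₁ s t - q̄₀) + 3 s t (δ - lam q̄₁)`.
Bounds: `WP ∈ [-ε, 1 + ε]`, so `W ≥ ρ - lam (ρ + 2 ε) - 3 ε ≥ (1 - lam) ρ - 5 ε`,
`W ≤ ρ + lam (1 - ρ + 2 ε) + 3 ε ≤ 1 - (1 - lam)(1 - ρ) + 5 ε`: `η = ε`.
Integrals: `∫ W s t dt = 2 ρ + 0 + lam (2 q̄₀ - 2 q̄₀) = 2 ρ`;
`∫ W s t t dt = 3 δ s (2/3) + lam (s 2 q̄₁ - 3 q̄₁ s (2/3)) = 2 δ s`. Lipschitz: `WP_lip`. -/

namespace HDT

private theorem Kernel_cont (q : Polynomial ℝ) (s : ℝ) : Continuous (fun t => WP q s t) := by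
  unfold WP Mk
  fun_prop

private theorem Kernel_poly (ρ δ lam ε : ℝ) (h0 : 0 < ρ) (h1 : ρ < 1) (hε : 0 < ε)
    (hl0 : 0 ≤ lam) (hl1 : lam ≤ 1) (hl : lam * (ρ * (1 - ρ)) = |δ|) :
    ∃ q : Polynomial ℝ, (∀ z ∈ Set.Icc (-1 : ℝ) 1, -ε ≤ q.eval z ∧ q.eval z ≤ 1 + ε) ∧
      |(∫ z in (-1 : ℝ)..1, q.eval z) / 2 - ρ| ≤ ε ∧
      |lam * ((∫ z in (-1 : ℝ)..1, q.eval z * z) / 2) - δ| ≤ ε := by
  obtain ⟨q, hq1, hq2, hq3⟩ := polyStep ρ ε h0 h1 hε
  have key : |lam * ((∫ z in (-1 : ℝ)..1, q.eval z * z) / 2) - (|δ|)| ≤ ε := by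
    have e : lam * ((∫ z in (-1 : ℝ)..1, q.eval z * z) / 2) - (|δ|) =
        lam * ((∫ z in (-1 : ℝ)..1, q.eval z * z) / 2 - ρ * (1 - ρ)) := by
      rw [← hl]
      ring
    rw [e, abs_mul, abs_of_nonneg hl0]
    calc lam * |(∫ z in (-1 : ℝ)..1, q.eval z * z) / 2 - ρ * (1 - ρ)| ≤ 1 * ε :=
          mul_le_mul hl1 hq3 (abs_nonneg _) zero_le_one
      _ = ε := one_mul ε
  rcases le_or_gt 0 δ with hδ | hδ
  · refine ⟨q, hq1, hq2, ?_⟩
    rw [abs_of_nonneg hδ] at key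
    exact key
  · refine ⟨q.comp (-Polynomial.X), ?_, ?_, ?_⟩
    · intro z hz
      rw [Polynomial.eval_comp, Polynomial.eval_neg, Polynomial.eval_X]
      exact hq1 (-z) ⟨by linarith [hz.2], by linarith [hz.1]⟩
    · have e : ∫ z in (-1 : ℝ)..1, (q.comp (-Polynomial.X)).eval z =
          ∫ z in (-1 : ℝ)..1, q.eval z := by
        have h := intervalIntegral.integral_comp_neg (a := (-1 : ℝ)) (b := 1)
          (f := fun z : ℝ => q.eval z)
        rw [neg_neg] at h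
        rw [← h]
        refine intervalIntegral.integral_congr fun z _ => ?_
        rw [Polynomial.eval_comp, Polynomial.eval_neg, Polynomial.eval_X]
      rw [e]
      exact hq2
    · have e : ∫ z in (-1 : ℝ)..1, (q.comp (-Polynomial.X)).eval z * z =
          -∫ z in (-1 : ℝ)..1, q.eval z * z := by
        have h := intervalIntegral.integral_comp_neg (a := (-1 : ℝ)) (b := 1)
          (f := fun z : ℝ => q.eval z * z)
        rw [neg_neg] at h
        rw [← h, ← intervalIntegral.integral_neg]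
        refine intervalIntegral.integral_congr fun z _ => ?_
        show (q.comp (-Polynomial.X)).eval z * z = -(q.eval (-z) * -z)
        rw [Polynomial.eval_comp, Polynomial.eval_neg, Polynomial.eval_X]
        ring
      rw [e]
      rw [abs_of_neg hδ] at key
      have e2 : lam * ((-∫ z in (-1 : ℝ)..1, q.eval z * z) / 2) - δ =
          -(lam * ((∫ z in (-1 : ℝ)..1, q.eval z * z) / 2) - -δ) := by ring
      rw [e2, abs_neg]
      exact key

theorem kernel (ρ δ : ℝ) (h0 : 0 < ρ) (h1 : ρ < 1) (hδ : |δ| < ρ * (1 - ρ)) :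
    ∃ (W : ℝ → ℝ → ℝ) (η K : ℝ), 0 < η ∧ 0 ≤ K ∧ (∀ s t, W s t = W t s) ∧
      (∀ s ∈ Set.Icc (-1 : ℝ) 1, ∀ t ∈ Set.Icc (-1 : ℝ) 1, η ≤ W s t ∧ W s t ≤ 1 - η) ∧
      (∀ s ∈ Set.Icc (-1 : ℝ) 1, ∀ t ∈ Set.Icc (-1 : ℝ) 1, ∀ t' ∈ Set.Icc (-1 : ℝ) 1,
        |W s t - W s t'| ≤ K * |t - t'|) ∧
      (∀ s ∈ Set.Icc (-1 : ℝ) 1, ∫ t in (-1 : ℝ)..1, W s t = 2 * ρ) ∧
      (∀ s ∈ Set.Icc (-1 : ℝ) 1, ∫ t in (-1 : ℝ)..1, W s t * t = 2 * δ * s) := by
  have hD : 0 < ρ * (1 - ρ) := mul_pos h0 (by linarith)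
  obtain ⟨lam, hlam⟩ : ∃ lam : ℝ, lam = |δ| / (ρ * (1 - ρ)) := ⟨_, rfl⟩
  have hl0 : 0 ≤ lam := by
    rw [hlam]
    positivity
  have hl1 : lam < 1 := by
    rw [hlam, div_lt_one hD]
    exact hδ
  have hl : lam * (ρ * (1 - ρ)) = |δ| := by
    rw [hlam]
    exact div_mul_cancel₀ _ hD.ne'
  obtain ⟨ε, hε, hε1, hε2⟩ : ∃ ε : ℝ, 0 < ε ∧ 20 * ε ≤ (1 - lam) * ρ ∧
      20 * ε ≤ (1 - lam) * (1 - ρ) := by
    have hm : 0 < 1 - lam := by linarith
    refine ⟨min ((1 - lam) * ρ) ((1 - lam) * (1 - ρ)) / 20, ?_, ?_, ?_⟩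
    · have : 0 < min ((1 - lam) * ρ) ((1 - lam) * (1 - ρ)) :=
        lt_min (mul_pos hm h0) (mul_pos hm (by linarith))
      positivity
    · have := min_le_left ((1 - lam) * ρ) ((1 - lam) * (1 - ρ))
      linarith
    · have := min_le_right ((1 - lam) * ρ) ((1 - lam) * (1 - ρ))
      linarith
  obtain ⟨q, hq1, hq2, hq3⟩ := Kernel_poly ρ δ lam ε h0 h1 hε hl0 hl1.le hl
  obtain ⟨K, hK0, hK⟩ := WP_lip q
  set a := (∫ z in (-1 : ℝ)..1, q.eval z) / 2 with ha
  set b := (∫ z in (-1 : ℝ)..1, q.eval z * z) / 2 with hb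
  have hst : ∀ s ∈ Set.Icc (-1 : ℝ) 1, ∀ t ∈ Set.Icc (-1 : ℝ) 1, |s * t| ≤ 1 := by
    intro s hs t ht
    rw [abs_mul]
    calc |s| * |t| ≤ 1 * 1 := mul_le_mul (abs_le.2 ⟨hs.1, hs.2⟩) (abs_le.2 ⟨ht.1, ht.2⟩)
          (abs_nonneg _) zero_le_one
      _ = 1 := one_mul 1
  have hab := abs_le.1 hq2
  have hcont : ∀ s, Continuous fun t => WP q s t := Kernel_cont q
  have hint : ∀ s, IntervalIntegrable (fun t => WP q s t) MeasureTheory.volume (-1) 1 :=
    fun s => (hcont s).intervalIntegrable _ _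
  have hid : ∫ t in (-1 : ℝ)..1, t = 0 := by
    rw [integral_id]
    norm_num
  have hsq : ∫ t in (-1 : ℝ)..1, t * t = 2 / 3 := by
    have e : ∀ t : ℝ, t * t = t ^ 2 := fun t => (pow_two t).symm
    rw [intervalIntegral.integral_congr (fun t _ => e t), integral_pow]
    norm_num
  refine ⟨fun s t => ρ + lam * (WP q s t - a) + 3 * (δ - lam * b) * (s * t), ε, K + 3 * ε, hε,
    by positivity, ?_, ?_, ?_, ?_, ?_⟩
  · intro s t
    show ρ + lam * (WP q s t - a) + 3 * (δ - lam * b) * (s * t) =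
      ρ + lam * (WP q t s - a) + 3 * (δ - lam * b) * (t * s)
    rw [WP_symm, mul_comm s t]
  · intro s hs t ht
    obtain ⟨w1, w2⟩ := WP_mem q hq1 hs ht
    have hc : |(δ - lam * b) * (s * t)| ≤ ε := by
      rw [abs_mul, abs_sub_comm]
      calc |lam * b - δ| * |s * t| ≤ ε * 1 :=
            mul_le_mul hq3 (hst s hs t ht) (abs_nonneg _) hε.le
        _ = ε := mul_one ε
    have hc' := abs_le.1 hc
    have hle : lam * ε ≤ ε := by nlinarith
    constructor
    · show ε ≤ ρ + lam * (WP q s t - a) + 3 * (δ - lam * b) * (s * t)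
      have h2 : lam * (-ε - (ρ + ε)) ≤ lam * (WP q s t - a) :=
        mul_le_mul_of_nonneg_left (by linarith) hl0
      nlinarith
    · show ρ + lam * (WP q s t - a) + 3 * (δ - lam * b) * (s * t) ≤ 1 - ε
      have h2 : lam * (WP q s t - a) ≤ lam * (1 + ε - (ρ - ε)) :=
        mul_le_mul_of_nonneg_left (by linarith) hl0
      nlinarith
  · intro s hs t ht t' ht'
    have e : (ρ + lam * (WP q s t - a) + 3 * (δ - lam * b) * (s * t)) -
        (ρ + lam * (WP q s t' - a) + 3 * (δ - lam * b) * (s * t')) =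
        lam * (WP q s t - WP q s t') + 3 * ((δ - lam * b) * (s * (t - t'))) := by ring
    show |(ρ + lam * (WP q s t - a) + 3 * (δ - lam * b) * (s * t)) -
        (ρ + lam * (WP q s t' - a) + 3 * (δ - lam * b) * (s * t'))| ≤ (K + 3 * ε) * |t - t'|
    rw [e]
    refine (abs_add_le _ _).trans ?_
    have h2 : |lam * (WP q s t - WP q s t')| ≤ K * |t - t'| := by
      rw [abs_mul, abs_of_nonneg hl0]
      calc lam * |WP q s t - WP q s t'| ≤ 1 * (K * |t - t'|) :=
            mul_le_mul hl1.le (hK s hs t ht t' ht') (abs_nonneg _) zero_le_one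
        _ = K * |t - t'| := one_mul _
    have h3 : |3 * ((δ - lam * b) * (s * (t - t')))| ≤ 3 * ε * |t - t'| := by
      rw [abs_mul, abs_mul, abs_mul, abs_of_pos (by norm_num : (0 : ℝ) < 3), mul_assoc]
      refine mul_le_mul_of_nonneg_left ?_ (by norm_num)
      refine mul_le_mul ?_ ?_ (by positivity) hε.le
      · rw [abs_sub_comm]
        exact hq3
      · calc |s| * |t - t'| ≤ 1 * |t - t'| :=
              mul_le_mul_of_nonneg_right (abs_le.2 ⟨hs.1, hs.2⟩) (abs_nonneg _)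
          _ = |t - t'| := one_mul _
    linarith
  · intro s _
    have e : ∫ t in (-1 : ℝ)..1, (ρ + lam * (WP q s t - a) + 3 * (δ - lam * b) * (s * t)) =
        ∫ t in (-1 : ℝ)..1, ((ρ - lam * a) + (lam * WP q s t + (3 * (δ - lam * b) * s) * t)) := by
      refine intervalIntegral.integral_congr fun t _ => ?_
      show ρ + lam * (WP q s t - a) + 3 * (δ - lam * b) * (s * t) =
        (ρ - lam * a) + (lam * WP q s t + (3 * (δ - lam * b) * s) * t)
      ring
    show ∫ t in (-1 : ℝ)..1, (ρ + lam * (WP q s t - a) + 3 * (δ - lam * b) * (s * t)) = 2 * ρ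
    have c2 : Continuous fun t : ℝ => lam * WP q s t := continuous_const.mul (hcont s)
    have c3 : Continuous fun t : ℝ => (3 * (δ - lam * b) * s) * t :=
      continuous_const.mul continuous_id
    have c4 : Continuous fun t : ℝ => lam * WP q s t + (3 * (δ - lam * b) * s) * t := c2.add c3
    rw [e, intervalIntegral.integral_add (continuous_const.intervalIntegrable _ _)
      (c4.intervalIntegrable _ _), intervalIntegral.integral_add (c2.intervalIntegrable _ _)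
      (c3.intervalIntegrable _ _),
      intervalIntegral.integral_const_mul, intervalIntegral.integral_const_mul, WP_int, hid,
      intervalIntegral.integral_const, smul_eq_mul]
    have : ∫ z in (-1 : ℝ)..1, q.eval z = 2 * a := by
      rw [ha]
      ring
    rw [this]
    ring
  · intro s _
    have e : ∫ t in (-1 : ℝ)..1, (ρ + lam * (WP q s t - a) + 3 * (δ - lam * b) * (s * t)) * t =
        ∫ t in (-1 : ℝ)..1, ((ρ - lam * a) * t + (lam * (WP q s t * t) +
          (3 * (δ - lam * b) * s) * (t * t))) := by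
      refine intervalIntegral.integral_congr fun t _ => ?_
      show (ρ + lam * (WP q s t - a) + 3 * (δ - lam * b) * (s * t)) * t =
        (ρ - lam * a) * t + (lam * (WP q s t * t) + (3 * (δ - lam * b) * s) * (t * t))
      ring
    show ∫ t in (-1 : ℝ)..1, (ρ + lam * (WP q s t - a) + 3 * (δ - lam * b) * (s * t)) * t =
      2 * δ * s
    have c1 : Continuous fun t : ℝ => (ρ - lam * a) * t := continuous_const.mul continuous_id
    have c2 : Continuous fun t : ℝ => lam * (WP q s t * t) :=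
      continuous_const.mul ((hcont s).mul continuous_id)
    have c3 : Continuous fun t : ℝ => (3 * (δ - lam * b) * s) * (t * t) :=
      continuous_const.mul (continuous_id.mul continuous_id)
    have c4 : Continuous fun t : ℝ => lam * (WP q s t * t) + (3 * (δ - lam * b) * s) * (t * t) :=
      c2.add c3
    rw [e, intervalIntegral.integral_add (c1.intervalIntegrable _ _) (c4.intervalIntegrable _ _),
      intervalIntegral.integral_add (c2.intervalIntegrable _ _) (c3.intervalIntegrable _ _),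
      intervalIntegral.integral_const_mul, intervalIntegral.integral_const_mul,
      intervalIntegral.integral_const_mul, WP_int_mul, hid, hsq]
    have : ∫ z in (-1 : ℝ)..1, q.eval z * z = 2 * b := by
      rw [hb]
      ring
    rw [this]
    ring

end HDT
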