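import Pool.Agent.Helper23.HDT.RProb

/-! # Large deviations of a weighted sum

PLAN. For `x ∈ [-1, 1]`: `exp x ≤ 1 + x + x²` (`Real.exp_bound_div_one_sub_of_interval`, or
`Real.abs_exp_sub_one_sub_id_le : |x| ≤ 1 → |exp x - 1 - x| ≤ x²`). So for `0 ≤ w ≤ 1`,
`0 ≤ a ≤ 1`, `|θ| ≤ 1`:
`w exp(θ a (1-w)) + (1-w) exp(-θ a w) ≤ 1 + θ² a² w (1-w) ≤ 1 + θ² ≤ exp(θ²)`, and `= 1` if `a = 0`.
By `pr_prod` with `φ₁ e = exp(θ a e (1 - w e))`, `φ₀ e = exp(-θ a e w e)`: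
`∑_S pr S exp(θ (∑_{e∈S} a e - ∑_{e∈I} w e a e)) ≤ exp(θ² #J)` (factors `e ∉ J` are 1; note
`(∏_S φ₁)(∏_{I\S} φ₀) = exp(θ (∑_S a - ∑_I w a))`). Markov: `Pr (lam ≤ ∑_S a - ∑_I w a) ≤
exp(-θ lam + θ² #J)`; the same with `-θ` for the other sign; add the two. -/

namespace HDT

open Finset

variable {α : Type*} [DecidableEq α]

private lemma exp_le_quad {x : ℝ} (h : |x| ≤ 1) : Real.exp x ≤ 1 + x + x ^ 2 := by
  have h1 := Real.abs_exp_sub_one_sub_id_le h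
  have h2 := (abs_le.1 h1).2
  linarith

private lemma factor_le {w a θ : ℝ} (hw0 : 0 ≤ w) (hw1 : w ≤ 1) (ha0 : 0 ≤ a) (ha1 : a ≤ 1)
    (hθ : |θ| ≤ 1) : w * Real.exp (θ * (a * (1 - w))) + (1 - w) * Real.exp (θ * (-(a * w))) ≤
      Real.exp (θ ^ 2) := by
  have h1w : 0 ≤ 1 - w := by linarith
  have hb1 : |a * (1 - w)| ≤ 1 := by
    rw [abs_of_nonneg (mul_nonneg ha0 h1w)]
    exact mul_le_one₀ ha1 h1w (by linarith)
  have hb2 : |-(a * w)| ≤ 1 := by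
    rw [abs_neg, abs_of_nonneg (mul_nonneg ha0 hw0)]
    exact mul_le_one₀ ha1 hw0 hw1
  have hx1 : |θ * (a * (1 - w))| ≤ 1 := by
    rw [abs_mul]
    exact mul_le_one₀ hθ (abs_nonneg _) hb1
  have hx2 : |θ * (-(a * w))| ≤ 1 := by
    rw [abs_mul]
    exact mul_le_one₀ hθ (abs_nonneg _) hb2
  have e1 := mul_le_mul_of_nonneg_left (exp_le_quad hx1) hw0
  have e2 := mul_le_mul_of_nonneg_left (exp_le_quad hx2) h1w
  have e3 : w * (1 + θ * (a * (1 - w)) + (θ * (a * (1 - w))) ^ 2) +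
      (1 - w) * (1 + θ * (-(a * w)) + (θ * (-(a * w))) ^ 2) = 1 + θ ^ 2 * (a ^ 2 * (w * (1 - w))) := by
    ring
  have e4 : a ^ 2 * (w * (1 - w)) ≤ 1 := by
    have h5 : a ^ 2 ≤ 1 := pow_le_one₀ ha0 ha1
    have h6 : w * (1 - w) ≤ 1 := mul_le_one₀ hw1 h1w (by linarith)
    exact mul_le_one₀ h5 (mul_nonneg hw0 h1w) h6
  have e5 : θ ^ 2 * (a ^ 2 * (w * (1 - w))) ≤ θ ^ 2 * 1 :=
    mul_le_mul_of_nonneg_left e4 (sq_nonneg θ)
  have e6 := Real.add_one_le_exp (θ ^ 2)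
  linarith

private lemma mgf {I J : Finset α} {w : α → ℝ} (hw : ∀ e ∈ I, 0 ≤ w e ∧ w e ≤ 1) (hJ : J ⊆ I)
    (a : α → ℝ) (ha : ∀ e ∈ I, 0 ≤ a e ∧ a e ≤ 1) (haJ : ∀ e ∈ I, e ∉ J → a e = 0)
    {θ : ℝ} (hθ : |θ| ≤ 1) :
    ∑ S ∈ I.powerset, pr I w S * Real.exp (θ * (∑ e ∈ S, a e - ∑ e ∈ I, w e * a e)) ≤
      Real.exp (θ ^ 2 * (J.card : ℝ)) := by
  have h1 : ∀ S ∈ I.powerset, pr I w S * Real.exp (θ * (∑ e ∈ S, a e - ∑ e ∈ I, w e * a e)) =
      pr I w S * ((∏ e ∈ S, Real.exp (θ * (a e * (1 - w e)))) *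
        ∏ e ∈ I \ S, Real.exp (θ * (-(a e * w e)))) := by
    intro S hS
    rw [Finset.mem_powerset] at hS
    congr 1
    rw [← Real.exp_sum, ← Real.exp_sum, ← Real.exp_add, ← Finset.mul_sum, ← Finset.mul_sum,
      ← mul_add]
    congr 2
    have h2 := Finset.sum_sdiff (f := fun e => w e * a e) hS
    rw [← h2, Finset.sum_neg_distrib]
    have h3 : ∑ e ∈ S, a e * (1 - w e) = ∑ e ∈ S, a e - ∑ e ∈ S, w e * a e := by
      rw [← Finset.sum_sub_distrib]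
      exact Finset.sum_congr rfl fun e _ => by ring
    have h4 : ∑ e ∈ I \ S, a e * w e = ∑ e ∈ I \ S, w e * a e :=
      Finset.sum_congr rfl fun e _ => mul_comm _ _
    rw [h3, h4]
    ring
  rw [Finset.sum_congr rfl h1, pr_prod]
  have h2 : ∏ e ∈ I, (w e * Real.exp (θ * (a e * (1 - w e))) +
      (1 - w e) * Real.exp (θ * (-(a e * w e)))) ≤
      ∏ e ∈ I, (if e ∈ J then Real.exp (θ ^ 2) else 1) := by
    apply Finset.prod_le_prod
    · intro e he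
      exact add_nonneg (mul_nonneg (hw e he).1 (Real.exp_pos _).le)
        (mul_nonneg (by linarith [(hw e he).2]) (Real.exp_pos _).le)
    · intro e he
      by_cases hJe : e ∈ J
      · rw [if_pos hJe]
        exact factor_le (hw e he).1 (hw e he).2 (ha e he).1 (ha e he).2 hθ
      · rw [if_neg hJe, haJ e he hJe]
        simp
  refine h2.trans (le_of_eq ?_)
  rw [Finset.prod_ite_mem, Finset.inter_eq_right.2 hJ, Finset.prod_const, ← Real.exp_nat_mul]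
  congr 1
  ring

theorem dev {I J : Finset α} {w : α → ℝ} (hw : ∀ e ∈ I, 0 ≤ w e ∧ w e ≤ 1) (hJ : J ⊆ I)
    (a : α → ℝ) (ha : ∀ e ∈ I, 0 ≤ a e ∧ a e ≤ 1) (haJ : ∀ e ∈ I, e ∉ J → a e = 0)
    {θ lam : ℝ} (hθ : 0 ≤ θ) (hθ1 : θ ≤ 1) :
    Pr I w (fun S => lam ≤ |∑ e ∈ S, a e - ∑ e ∈ I, w e * a e|) ≤
      2 * Real.exp (-(θ * lam) + θ ^ 2 * (J.card : ℝ)) := by
  classical
  set D : Finset α → ℝ := fun S => ∑ e ∈ S, a e - ∑ e ∈ I, w e * a e with hD
  have habs : |θ| ≤ 1 := by rw [abs_of_nonneg hθ]; exact hθ1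
  have m1 := mgf hw hJ a ha haJ (θ := θ) habs
  have m2 := mgf hw hJ a ha haJ (θ := -θ) (by rw [abs_neg]; exact habs)
  rw [neg_sq] at m2
  have hstep : Pr I w (fun S => lam ≤ |D S|) ≤ ∑ S ∈ I.powerset, pr I w S *
      (Real.exp (-(θ * lam)) * (Real.exp (θ * D S) + Real.exp (-θ * D S))) := by
    unfold Pr
    rw [Finset.sum_filter]
    apply Finset.sum_le_sum
    intro S hS
    have hp := pr_nonneg hw hS
    have hpos : 0 ≤ Real.exp (-(θ * lam)) * (Real.exp (θ * D S) + Real.exp (-θ * D S)) :=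
      mul_nonneg (Real.exp_pos _).le (add_nonneg (Real.exp_pos _).le (Real.exp_pos _).le)
    by_cases hE : lam ≤ |D S|
    · rw [if_pos hE]
      have h1 : 1 ≤ Real.exp (-(θ * lam)) * (Real.exp (θ * D S) + Real.exp (-θ * D S)) := by
        rw [mul_add, ← Real.exp_add, ← Real.exp_add]
        rcases le_abs.1 hE with h | h
        · have h2 : 1 ≤ Real.exp (-(θ * lam) + θ * D S) := by
            apply Real.one_le_exp
            nlinarith [mul_nonneg hθ (sub_nonneg.2 h)]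
          have h3 := Real.exp_pos (-(θ * lam) + -θ * D S)
          linarith
        · have h2 : 1 ≤ Real.exp (-(θ * lam) + -θ * D S) := by
            apply Real.one_le_exp
            nlinarith [mul_nonneg hθ (sub_nonneg.2 h)]
          have h3 := Real.exp_pos (-(θ * lam) + θ * D S)
          linarith
      calc pr I w S = pr I w S * 1 := (mul_one _).symm
        _ ≤ _ := mul_le_mul_of_nonneg_left h1 hp
    · rw [if_neg hE]
      exact mul_nonneg hp hpos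
  refine hstep.trans ?_
  have e1 : ∀ S, pr I w S * (Real.exp (-(θ * lam)) * (Real.exp (θ * D S) + Real.exp (-θ * D S))) =
      Real.exp (-(θ * lam)) * (pr I w S * Real.exp (θ * D S)) +
        Real.exp (-(θ * lam)) * (pr I w S * Real.exp (-θ * D S)) := fun S => by ring
  rw [Finset.sum_congr rfl fun S _ => e1 S, Finset.sum_add_distrib, ← Finset.mul_sum,
    ← Finset.mul_sum, ← mul_add, Real.exp_add]
  have hpos := Real.exp_pos (-(θ * lam))
  calc Real.exp (-(θ * lam)) * (∑ S ∈ I.powerset, pr I w S * Real.exp (θ * D S) +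
        ∑ S ∈ I.powerset, pr I w S * Real.exp (-θ * D S))
      ≤ Real.exp (-(θ * lam)) * (Real.exp (θ ^ 2 * (J.card : ℝ)) +
        Real.exp (θ ^ 2 * (J.card : ℝ))) :=
        mul_le_mul_of_nonneg_left (add_le_add m1 m2) hpos.le
    _ = 2 * (Real.exp (-(θ * lam)) * Real.exp (θ ^ 2 * (J.card : ℝ))) := by ring

end HDT
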