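import Pool.Agent.Helper23.HDT.RPatEv
import Pool.Agent.Helper23.HDT.RDev

/-! # The random graph

PLAN. We may assume `η ≤ 1/2` (if `n ≥ 1` then `η ≤ w 0 0 ≤ 1 - η`). `w' = wP w` satisfies
`η ≤ w' ≤ 1 - η` on `prs n F`.
Bad events: (1) for `i < n`: `h^51 ≤ |∑_{e∈S} aD i e - ∑_{e∈prs} w' e aD i e|`;
(2) the same for `aW n i`; (3) for every injective `i : Fin 4 → ℕ` with values `< n`, every
`e : Fin 4 → ℤ` with values in `{0, 1}`, every `1 ≤ l ≤ n / 8`: the event of `patEv`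
(index set e.g. `Fintype.piFinset (fun _ => range n) ×ˢ Fintype.piFinset (fun _ => {0,1}) ×ˢ range n`,
of size `16 n^5`).
`dev` with `J = (prs n F).filter (e.1 = i ∨ e.2 = i)`, `#J ≤ n` (`card_row`), `θ = h^51 / (2 n) ≤ 1`,
`lam = h^51`: `2 exp(-h^102/(2n) + h^102/(4n)) ≤ 2 exp(-h/4)` as `n ≤ h^101`.
Total: `≤ 2 n * 2 exp(-h/4) + 16 n^5 * n (1 - η^8)^h ≤ 4 h^101 exp(-h/4) + 16 h^606 exp(-η^8 h)`,
which is `< 1` for `h ≥ h0(η)` (`Real.tendsto_pow_mul_exp_neg_atTop_nhds_zero`-like). `Pr_union`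
gives `S`; `A = AS S`, `β = n / (20 h) + 1`. Then `|deg - ∑_j w i j| ≤ h^51 + φ + 1 ≤ h^52` by
`AS_deg`, `sumD`, and `|wt - ∑_j w i j j| ≤ n h^51 + (φ + 1) n ≤ n h^52` by `AS_wt`, `sumW`.
`h0` also has to satisfy `1000 (φ + 1) h ≤ h^100`, `φ + 1 ≤ h^51`, etc. -/

namespace HDT

open Finset

private theorem randGraph_or {α : Type*} [DecidableEq α] {I : Finset α} {w : α → ℝ}
    (hw : ∀ e ∈ I, 0 ≤ w e ∧ w e ≤ 1) (E E' : Finset α → Prop) :
    Pr I w (fun S => E S ∨ E' S) ≤ Pr I w E + Pr I w E' := by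
  have h1 := Pr_exists_le hw (Finset.univ : Finset Bool) (fun b S => if b = true then E S else E' S)
  have h2 : Pr I w (fun S => E S ∨ E' S) ≤
      Pr I w (fun S => ∃ k ∈ (Finset.univ : Finset Bool), if k = true then E S else E' S) := by
    refine Pr_mono hw fun S _ h => ?_
    rcases h with h | h
    · exact ⟨true, Finset.mem_univ _, by simpa using h⟩
    · exact ⟨false, Finset.mem_univ _, by simpa using h⟩
  refine h2.trans (h1.trans (le_of_eq ?_))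
  rw [Fintype.sum_bool]
  simp

private theorem randGraph_num {η : ℝ} (hη : 0 < η) (φ : ℕ) : ∃ h0 : ℕ, ∀ h : ℕ, h0 ≤ h →
    1000 * (φ + 1) ≤ h ∧
      4 * (h : ℝ) ^ 101 * Real.exp (-((h : ℝ) / 4)) + 16 * (h : ℝ) ^ 606 *
        Real.exp (-(η ^ 8 * h)) < 1 := by
  have h1 := (isLittleO_pow_exp_pos_mul_atTop (k := 101) (b := 1 / 4) (by norm_num)).def
    (c := 1 / 16) (by norm_num)
  have h2 := (isLittleO_pow_exp_pos_mul_atTop (k := 606) (b := η ^ 8) (by positivity)).def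
    (c := 1 / 64) (by norm_num)
  have h3 := (tendsto_natCast_atTop_atTop (R := ℝ)).eventually (h1.and h2)
  have h4 := h3.and (Filter.eventually_ge_atTop (1000 * (φ + 1)))
  rw [Filter.eventually_atTop] at h4
  obtain ⟨h0, hh0⟩ := h4
  refine ⟨h0, fun h hh => ?_⟩
  obtain ⟨⟨h5, h6⟩, h7⟩ := hh0 h hh
  refine ⟨h7, ?_⟩
  rw [Real.norm_of_nonneg (by positivity), Real.norm_of_nonneg (Real.exp_pos _).le] at h5 h6
  have e1 : Real.exp (1 / 4 * (h : ℝ)) * Real.exp (-((h : ℝ) / 4)) = 1 := by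
    rw [← Real.exp_add]
    have : 1 / 4 * (h : ℝ) + -((h : ℝ) / 4) = 0 := by ring
    rw [this, Real.exp_zero]
  have e2 : Real.exp (η ^ 8 * (h : ℝ)) * Real.exp (-(η ^ 8 * (h : ℝ))) = 1 := by
    rw [← Real.exp_add, add_neg_cancel, Real.exp_zero]
  have g1 := mul_le_mul_of_nonneg_right h5 (Real.exp_pos (-((h : ℝ) / 4))).le
  have g2 := mul_le_mul_of_nonneg_right h6 (Real.exp_pos (-(η ^ 8 * (h : ℝ)))).le
  rw [mul_assoc, e1] at g1
  rw [mul_assoc, e2] at g2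
  nlinarith

theorem randGraph (η : ℝ) (hη : 0 < η) (φ : ℕ) : ∃ h0 : ℕ, ∀ h n : ℕ, h0 ≤ h → h ^ 100 ≤ n →
    n ≤ h ^ 101 → ∀ (w : ℕ → ℕ → ℝ) (F : ℕ → ℕ → Prop), (∀ i j, w i j = w j i) →
      (∀ i < n, ∀ j < n, η ≤ w i j ∧ w i j ≤ 1 - η) → Forb n φ F →
      ∃ (A : ℕ → ℕ → ℤ) (β : ℕ), Adj n A ∧ (∀ i j, F i j → A i j = 0) ∧ n ≤ β * (20 * h) ∧
        Pat n (n / 8) β A F ∧ ∀ i < n,
          |(deg n A i : ℝ) - ∑ j ∈ range n, w i j| ≤ (h : ℝ) ^ 52 ∧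
          |(wt n A i : ℝ) - ∑ j ∈ range n, w i j * (j : ℝ)| ≤ (n : ℝ) * (h : ℝ) ^ 52 := by
  classical
  obtain ⟨h0, hh0⟩ := randGraph_num hη φ
  refine ⟨h0, fun h n hh hn1 hn2 w F hs hw hF => ?_⟩
  obtain ⟨hφ, hnum⟩ := hh0 h hh
  have hh1 : 1000 ≤ h := by omega
  have hn0 : 1 ≤ n := le_trans (Nat.one_le_pow _ _ (by omega)) hn1
  have hη1 : η ≤ 1 / 2 := by
    have := hw 0 (by omega) 0 (by omega)
    linarith [this.1, this.2]
  have hη8 : η ^ 8 ≤ 1 := pow_le_one₀ hη.le (by linarith)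
  have hhR : (1000 : ℝ) ≤ h := by exact_mod_cast hh1
  have hhR0 : (0 : ℝ) < h := by linarith
  have hnR : (1 : ℝ) ≤ n := by exact_mod_cast hn0
  have hnR0 : (0 : ℝ) < n := by linarith
  have hnR1 : (h : ℝ) ^ 100 ≤ n := by exact_mod_cast hn1
  have hnR2 : (n : ℝ) ≤ (h : ℝ) ^ 101 := by exact_mod_cast hn2
  have hw01 : ∀ e ∈ prs n F, 0 ≤ wP w e ∧ wP w e ≤ 1 := by
    intro e he
    obtain ⟨⟨h1, h2⟩, -⟩ := prs_mem.1 he
    have := hw e.1 h1 e.2 h2
    exact ⟨hη.le.trans this.1, this.2.trans (by linarith)⟩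
  have hw01' : ∀ i < n, ∀ j < n, 0 ≤ w i j ∧ w i j ≤ 1 := by
    intro i hi j hj
    have := hw i hi j hj
    exact ⟨hη.le.trans this.1, this.2.trans (by linarith)⟩
  -- deviation bound
  set θ : ℝ := (h : ℝ) ^ 51 / (2 * n) with hθ
  have hθ0 : 0 ≤ θ := by positivity
  have hθ1 : θ ≤ 1 := by
    rw [hθ, div_le_one (by positivity)]
    have : (h : ℝ) ^ 51 ≤ (h : ℝ) ^ 100 := pow_le_pow_right₀ (by linarith) (by norm_num)
    linarith
  have hexp : ∀ J : Finset (ℕ × ℕ), J.card ≤ n →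
      2 * Real.exp (-(θ * (h : ℝ) ^ 51) + θ ^ 2 * (J.card : ℝ)) ≤
        2 * Real.exp (-((h : ℝ) / 4)) := by
    intro J hJ
    have hJR : (J.card : ℝ) ≤ n := by exact_mod_cast hJ
    refine mul_le_mul_of_nonneg_left (Real.exp_le_exp.2 ?_) (by norm_num)
    have h1 : θ ^ 2 * (J.card : ℝ) ≤ θ ^ 2 * n := mul_le_mul_of_nonneg_left hJR (sq_nonneg _)
    have h2 : θ ^ 2 * n = θ * (h : ℝ) ^ 51 / 2 := by
      rw [hθ]
      field_simp
    have h3 : (h : ℝ) / 2 ≤ θ * (h : ℝ) ^ 51 := by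
      rw [hθ, div_mul_eq_mul_div, le_div_iff₀ (by positivity)]
      calc (h : ℝ) / 2 * (2 * n) = h * n := by ring
        _ ≤ h * (h : ℝ) ^ 101 := mul_le_mul_of_nonneg_left hnR2 hhR0.le
        _ = (h : ℝ) ^ 51 * (h : ℝ) ^ 51 := by ring
    linarith
  set B1 : ℕ → Finset (ℕ × ℕ) → Prop := fun i S =>
    (h : ℝ) ^ 51 ≤ |∑ e ∈ S, aD i e - ∑ e ∈ prs n F, wP w e * aD i e| with hB1
  set B2 : ℕ → Finset (ℕ × ℕ) → Prop := fun i S =>
    (h : ℝ) ^ 51 ≤ |∑ e ∈ S, aW n i e - ∑ e ∈ prs n F, wP w e * aW n i e| with hB2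
  set B3 : (Fin 4 → ℕ) × (Fin 4 → ℤ) × ℕ → Finset (ℕ × ℕ) → Prop := fun t S =>
    ¬ ∃ B : Finset ℕ, n / (20 * h) + 1 ≤ B.card ∧
      ∀ b ∈ B, b + t.2.2 < n ∧ ∀ k, t.1 k ≠ b ∧ t.1 k ≠ b + t.2.2 ∧ ¬ F (t.1 k) b ∧
        ¬ F (t.1 k) (b + t.2.2) ∧ AS S (t.1 k) b = t.2.1 k ∧
        AS S (t.1 k) (b + t.2.2) = 1 - t.2.1 k with hB3
  have hP1 : ∀ i ∈ range n, Pr (prs n F) (wP w) (B1 i) ≤ 2 * Real.exp (-((h : ℝ) / 4)) := by
    intro i hi
    refine (dev hw01 (Finset.filter_subset (fun e : ℕ × ℕ => e.1 = i ∨ e.2 = i) (prs n F))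
      (aD i) ?_ ?_ hθ0 hθ1).trans (hexp _ (card_row (mem_range.1 hi)))
    · intro e _
      unfold aD
      split_ifs
      · exact ⟨zero_le_one, le_rfl⟩
      · exact ⟨le_rfl, zero_le_one⟩
    · intro e he hne
      unfold aD
      rw [if_neg]
      intro h1
      exact hne (Finset.mem_filter.2 ⟨he, h1⟩)
  have hP2 : ∀ i ∈ range n, Pr (prs n F) (wP w) (B2 i) ≤ 2 * Real.exp (-((h : ℝ) / 4)) := by
    intro i hi
    refine (dev hw01 (Finset.filter_subset (fun e : ℕ × ℕ => e.1 = i ∨ e.2 = i) (prs n F))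
      (aW n i) ?_ ?_ hθ0 hθ1).trans (hexp _ (card_row (mem_range.1 hi)))
    · intro e he
      obtain ⟨⟨h1, h2⟩, -⟩ := prs_mem.1 he
      have h1' : (e.1 : ℝ) ≤ n := by exact_mod_cast h1.le
      have h2' : (e.2 : ℝ) ≤ n := by exact_mod_cast h2.le
      unfold aW
      split_ifs
      · exact ⟨by positivity, (div_le_one hnR0).2 h2'⟩
      · exact ⟨by positivity, (div_le_one hnR0).2 h1'⟩
      · exact ⟨le_rfl, zero_le_one⟩
    · intro e he hne
      unfold aW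
      rw [if_neg, if_neg]
      · intro h1
        exact hne (Finset.mem_filter.2 ⟨he, Or.inr h1⟩)
      · intro h1
        exact hne (Finset.mem_filter.2 ⟨he, Or.inl h1⟩)
  set K : Finset ((Fin 4 → ℕ) × (Fin 4 → ℤ) × ℕ) :=
    ((Fintype.piFinset (fun _ : Fin 4 => range n)) ×ˢ
      (Fintype.piFinset (fun _ : Fin 4 => ({0, 1} : Finset ℤ))) ×ˢ range n).filter
      (fun t => Function.Injective t.1 ∧ 1 ≤ t.2.2 ∧ t.2.2 ≤ n / 8) with hK
  have hKc : (K.card : ℝ) ≤ 16 * (n : ℝ) ^ 5 := by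
    have h1 : K.card ≤ 16 * n ^ 5 := by
      refine (Finset.card_filter_le _ _).trans (le_of_eq ?_)
      rw [Finset.card_product, Finset.card_product, Fintype.card_piFinset, Fintype.card_piFinset,
        Finset.prod_const, Finset.prod_const, Finset.card_range, Finset.card_univ,
        Fintype.card_fin]
      have : ({0, 1} : Finset ℤ).card = 2 := by decide
      rw [this]
      ring
    exact_mod_cast h1
  have hmemK : ∀ t : (Fin 4 → ℕ) × (Fin 4 → ℤ) × ℕ, t ∈ K ↔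
      ((∀ k, t.1 k < n) ∧ (∀ k, t.2.1 k = 0 ∨ t.2.1 k = 1) ∧ t.2.2 < n) ∧
        Function.Injective t.1 ∧ 1 ≤ t.2.2 ∧ t.2.2 ≤ n / 8 := by
    intro t
    rw [hK, Finset.mem_filter, Finset.mem_product, Finset.mem_product, Fintype.mem_piFinset,
      Fintype.mem_piFinset, Finset.mem_range]
    simp only [Finset.mem_range, Finset.mem_insert, Finset.mem_singleton]
  have hhn : 1000 * (φ + 1) * h ≤ n := by
    calc 1000 * (φ + 1) * h ≤ h * h := Nat.mul_le_mul_right _ hφ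
      _ = h ^ 2 := by ring
      _ ≤ h ^ 100 := Nat.pow_le_pow_right (by omega) (by norm_num)
      _ ≤ n := hn1
  have hP3 : ∀ t ∈ K, Pr (prs n F) (wP w) (B3 t) ≤ n * (1 - η ^ 8) ^ h := by
    intro t ht
    obtain ⟨⟨h1, h2, h3⟩, h4, h5, h6⟩ := (hmemK t).1 ht
    exact patEv hη hη1 (by omega) hhn hF hw t.1 t.2.1 t.2.2 h4 h1 h2 h5 h6
  -- union bound
  have hbad : Pr (prs n F) (wP w) (fun S => (∃ i ∈ range n, B1 i S) ∨
      ((∃ i ∈ range n, B2 i S) ∨ ∃ t ∈ K, B3 t S)) < 1 := by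
    refine (randGraph_or hw01 _ _).trans_lt ?_
    have g1 := (Pr_exists_le hw01 (range n) B1).trans (Finset.sum_le_sum hP1)
    have g2 := (Pr_exists_le hw01 (range n) B2).trans (Finset.sum_le_sum hP2)
    have g3 := (Pr_exists_le hw01 K B3).trans (Finset.sum_le_sum hP3)
    have g4 := randGraph_or hw01 (fun S => ∃ i ∈ range n, B2 i S) (fun S => ∃ t ∈ K, B3 t S)
    rw [Finset.sum_const, Finset.card_range, nsmul_eq_mul] at g1 g2
    rw [Finset.sum_const, nsmul_eq_mul] at g3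
    have k1 : (n : ℝ) * (2 * Real.exp (-((h : ℝ) / 4))) ≤
        (h : ℝ) ^ 101 * (2 * Real.exp (-((h : ℝ) / 4))) :=
      mul_le_mul_of_nonneg_right hnR2 (by positivity)
    have k2 : (1 - η ^ 8) ^ h ≤ Real.exp (-(η ^ 8 * h)) := by
      have h1 : 1 - η ^ 8 ≤ Real.exp (-(η ^ 8)) := by
        have := Real.add_one_le_exp (-(η ^ 8))
        linarith
      calc (1 - η ^ 8) ^ h ≤ (Real.exp (-(η ^ 8))) ^ h :=
            pow_le_pow_left₀ (by linarith) h1 h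
        _ = Real.exp (-(η ^ 8 * h)) := by
            rw [← Real.exp_nat_mul]
            congr 1
            ring
    have k0 : 0 ≤ (1 - η ^ 8) ^ h := pow_nonneg (by linarith) _
    have k3 : (K.card : ℝ) * (n * (1 - η ^ 8) ^ h) ≤
        16 * (h : ℝ) ^ 606 * Real.exp (-(η ^ 8 * h)) := by
      calc (K.card : ℝ) * (n * (1 - η ^ 8) ^ h)
          ≤ 16 * (n : ℝ) ^ 5 * (n * (1 - η ^ 8) ^ h) :=
            mul_le_mul_of_nonneg_right hKc (by positivity)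
        _ = 16 * (n : ℝ) ^ 6 * (1 - η ^ 8) ^ h := by ring
        _ ≤ 16 * ((h : ℝ) ^ 101) ^ 6 * Real.exp (-(η ^ 8 * h)) := by
            refine mul_le_mul ?_ k2 k0 (by positivity)
            exact mul_le_mul_of_nonneg_left (pow_le_pow_left₀ hnR0.le hnR2 6) (by norm_num)
        _ = 16 * (h : ℝ) ^ 606 * Real.exp (-(η ^ 8 * h)) := by ring
    linarith
  obtain ⟨S, hS, hgood⟩ := Pr_union hw01 _ hbad
  rw [not_or, not_or] at hgood
  obtain ⟨hg1, hg2, hg3⟩ := hgood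
  have hφR : ((φ : ℝ) + 1) ≤ h := by
    have : φ + 1 ≤ h := by omega
    exact_mod_cast this
  have hpow : (h : ℝ) ^ 51 + ((φ : ℝ) + 1) ≤ (h : ℝ) ^ 52 := by
    have h1 : (h : ℝ) ≤ (h : ℝ) ^ 51 := le_self_pow₀ (by linarith) (by norm_num)
    have h2 : (h : ℝ) ^ 52 = h * (h : ℝ) ^ 51 := by ring
    have h3 : 2 * (h : ℝ) ^ 51 ≤ h * (h : ℝ) ^ 51 :=
      mul_le_mul_of_nonneg_right (by linarith) (by positivity)
    linarith
  refine ⟨AS S, n / (20 * h) + 1, AS_adj hS, fun i j hij => AS_F hF.1 hS hij, ?_, ?_, ?_⟩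
  · have h1 := Nat.div_add_mod n (20 * h)
    have h2 := Nat.mod_lt n (show 20 * h > 0 by omega)
    have h3 : (n / (20 * h) + 1) * (20 * h) = 20 * h * (n / (20 * h)) + 20 * h := by ring
    omega
  · intro i e l hi hin he hl hln
    by_contra hcon
    apply hg3
    refine ⟨(i, e, l), (hmemK _).2 ⟨⟨hin, he, ?_⟩, hi, hl, hln⟩, hcon⟩
    show l < n
    have : n / 8 < n := Nat.div_lt_self (by omega) (by norm_num)
    omega
  · intro i hi
    have h1 : ¬ B1 i S := fun h => hg1 ⟨i, mem_range.2 hi, h⟩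
    have h2 : ¬ B2 i S := fun h => hg2 ⟨i, mem_range.2 hi, h⟩
    rw [hB1] at h1
    rw [hB2] at h2
    simp only [not_le] at h1 h2
    have d1 := sumD hF hs hw01' hi
    have d2 := sumW hF hs hw01' hi
    constructor
    · rw [AS_deg hS hi]
      have t1 := abs_add_le (∑ e ∈ S, aD i e - ∑ e ∈ prs n F, wP w e * aD i e)
        (∑ e ∈ prs n F, wP w e * aD i e - ∑ j ∈ range n, w i j)
      rw [sub_add_sub_cancel] at t1
      linarith
    · rw [AS_wt hS hi]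
      have t1 := abs_add_le ((n : ℝ) * ∑ e ∈ S, aW n i e -
          (n : ℝ) * ∑ e ∈ prs n F, wP w e * aW n i e)
        ((n : ℝ) * ∑ e ∈ prs n F, wP w e * aW n i e - ∑ j ∈ range n, w i j * (j : ℝ))
      rw [sub_add_sub_cancel, ← mul_sub, abs_mul, abs_of_pos hnR0] at t1
      have t2 := mul_le_mul_of_nonneg_left h2.le hnR0.le
      have t3 := mul_le_mul_of_nonneg_left hpow hnR0.le
      linarith

end HDT
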