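import Mathlib

/-! # Midpoint sums of Lipschitz functions

PLAN. `x j = (2 j + 1 - n) / n`; the interval `[-1, 1]` is the union of the intervals
`I_j = [2 j / n - 1, 2 (j+1) / n - 1]`, `j < n`, with midpoint `x j`
(`intervalIntegral.sum_integral_adjacent_intervals`). `|∫_{I_j} g - (2/n) g (x j)| =
|∫_{I_j} (g - g (x j))| ≤ (2/n) K (1/n)` (`intervalIntegral.norm_integral_le_of_norm_le_const`;
`g` is continuous on `[-1, 1]`, hence interval integrable). Sum over `j < n`: `|∫ g - (2/n) ∑ g (x j)|
≤ 2 K / n`; multiply by `n / 2`. -/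

namespace HDT

open Finset

theorem riemann {n : ℕ} (hn : 1 ≤ n) (g : ℝ → ℝ) {K : ℝ}
    (hg : ∀ t ∈ Set.Icc (-1 : ℝ) 1, ∀ t' ∈ Set.Icc (-1 : ℝ) 1, |g t - g t'| ≤ K * |t - t'|) :
    |∑ j ∈ range n, g ((2 * (j : ℝ) + 1 - n) / n) - (n : ℝ) / 2 * ∫ t in (-1 : ℝ)..1, g t| ≤
      K := by
  have hn0 : (0 : ℝ) < n := by exact_mod_cast hn
  have hK : 0 ≤ K := by
    have h := hg (-1) (by norm_num) 1 (by norm_num)
    have h2 : |(-1 : ℝ) - 1| = 2 := by norm_num
    rw [h2] at h
    have := abs_nonneg (g (-1) - g 1)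
    linarith
  have hcont : ContinuousOn g (Set.Icc (-1 : ℝ) 1) := by
    have hL : LipschitzOnWith ⟨K, hK⟩ g (Set.Icc (-1 : ℝ) 1) := by
      apply LipschitzOnWith.of_dist_le_mul
      intro x hx y hy
      rw [Real.dist_eq, Real.dist_eq]
      exact hg x hx y hy
    exact hL.continuousOn
  set a : ℕ → ℝ := fun j => 2 * (j : ℝ) / n - 1 with ha
  have hamono : ∀ j, a j ≤ a (j + 1) := by
    intro j
    simp only [ha]
    have : 2 * (j : ℝ) / n ≤ 2 * ((j + 1 : ℕ) : ℝ) / n := by
      apply div_le_div_of_nonneg_right _ hn0.le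
      push_cast; linarith
    linarith
  have halow : ∀ j, -1 ≤ a j := by
    intro j
    simp only [ha]
    have : 0 ≤ 2 * (j : ℝ) / n := by positivity
    linarith
  have haup : ∀ j, j ≤ n → a j ≤ 1 := by
    intro j hj
    simp only [ha]
    have hj' : (j : ℝ) ≤ n := by exact_mod_cast hj
    have : 2 * (j : ℝ) / n ≤ 2 := by
      rw [div_le_iff₀ hn0]; linarith
    linarith
  have hint : ∀ j < n, IntervalIntegrable g MeasureTheory.volume (a j) (a (j + 1)) := by
    intro j hj
    apply ContinuousOn.intervalIntegrable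
    apply hcont.mono
    rw [Set.uIcc_of_le (hamono j)]
    exact Set.Icc_subset_Icc (halow j) (haup (j + 1) hj)
  have hsum : ∑ j ∈ range n, ∫ t in (a j)..(a (j + 1)), g t = ∫ t in (-1 : ℝ)..1, g t := by
    rw [intervalIntegral.sum_integral_adjacent_intervals hint]
    have h0 : a 0 = -1 := by simp [ha]
    have h1 : a n = 1 := by
      simp only [ha]
      field_simp
      norm_num
    rw [h0, h1]
  have hstep : ∀ j ∈ range n,
      |g ((2 * (j : ℝ) + 1 - n) / n) - (n : ℝ) / 2 * ∫ t in (a j)..(a (j + 1)), g t| ≤ K / n := by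
    intro j hj
    have hj' : j < n := mem_range.1 hj
    set x : ℝ := (2 * (j : ℝ) + 1 - n) / n with hx
    have hxa : x - a j = 1 / n := by
      simp only [ha, hx]
      field_simp
      ring
    have hxb : a (j + 1) - x = 1 / n := by
      simp only [ha, hx]
      push_cast
      field_simp
      ring
    have hinv : 0 < 1 / (n : ℝ) := by positivity
    have hxmem : x ∈ Set.Icc (-1 : ℝ) 1 := by
      constructor
      · have := halow j; linarith
      · have := haup (j + 1) hj'; linarith
    have hlen : a (j + 1) - a j = 2 / n := by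
      have : (2 : ℝ) / n = 1 / n + 1 / n := by ring
      rw [this]; linarith
    have hconst : ∫ t in (a j)..(a (j + 1)), g x = 2 / n * g x := by
      rw [intervalIntegral.integral_const, hlen, smul_eq_mul]
    have hdiff : (∫ t in (a j)..(a (j + 1)), g t) - 2 / n * g x =
        ∫ t in (a j)..(a (j + 1)), (g t - g x) := by
      rw [intervalIntegral.integral_sub (hint j hj') (by simp), hconst]
    have hbound : ‖∫ t in (a j)..(a (j + 1)), (g t - g x)‖ ≤ (K * (1 / n)) * |a (j + 1) - a j| := by
      apply intervalIntegral.norm_integral_le_of_norm_le_const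
      intro t ht
      rw [Set.uIoc_of_le (hamono j)] at ht
      have htmem : t ∈ Set.Icc (-1 : ℝ) 1 := by
        constructor
        · have := halow j; linarith [ht.1]
        · have := haup (j + 1) hj'; linarith [ht.2]
      rw [Real.norm_eq_abs]
      refine le_trans (hg t htmem x hxmem) ?_
      apply mul_le_mul_of_nonneg_left _ hK
      rw [abs_le]
      constructor
      · linarith [ht.1]
      · linarith [ht.2]
    rw [← hdiff, hlen, Real.norm_eq_abs] at hbound
    have hpos : (0 : ℝ) < 2 / n := by positivity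
    rw [abs_of_pos hpos] at hbound
    have hkey : g x - (n : ℝ) / 2 * ∫ t in (a j)..(a (j + 1)), g t =
        -((n : ℝ) / 2) * ((∫ t in (a j)..(a (j + 1)), g t) - 2 / n * g x) := by
      field_simp
      ring
    rw [hkey, abs_mul, abs_neg, abs_of_pos (by positivity : (0 : ℝ) < (n : ℝ) / 2)]
    calc (n : ℝ) / 2 * |(∫ t in (a j)..(a (j + 1)), g t) - 2 / n * g x|
        ≤ (n : ℝ) / 2 * (K * (1 / n) * (2 / n)) := by
          apply mul_le_mul_of_nonneg_left hbound (by positivity)
      _ = K / n := by field_simp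
  rw [← hsum, mul_sum, ← sum_sub_distrib]
  calc |∑ j ∈ range n, (g ((2 * (j : ℝ) + 1 - n) / n) -
        (n : ℝ) / 2 * ∫ t in (a j)..(a (j + 1)), g t)|
      ≤ ∑ j ∈ range n, |g ((2 * (j : ℝ) + 1 - n) / n) -
        (n : ℝ) / 2 * ∫ t in (a j)..(a (j + 1)), g t| := abs_sum_le_sum_abs _ _
    _ ≤ ∑ j ∈ range n, K / n := sum_le_sum hstep
    _ = K := by
      rw [sum_const, card_range, nsmul_eq_mul]
      field_simp

end HDT
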