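import Pool.Agent.Helper23.HDT.Core
import Pool.Agent.Helper23.HDT.RGraph
import Pool.Agent.Helper23.HDT.Kernel
import Pool.Agent.Helper23.HDT.Riemann

/-! # The dense theorem near a fixed pair of densities

PLAN. `W, η, K` from `kernel ρ₀ δ₀`. `ε = η / 16`. For given `n` choose `h` with `h^100 ≤ n ≤ h^101`:
`h = Nat.nthRoot`-like: the largest `h` with `h^100 ≤ n`; then `n < (h+1)^100 ≤ 2^100 h^100 ≤ h^101`
as soon as `h ≥ 2^100`, which holds if `n ≥ (2^100)^100` (so `n0 ≥ (max h0 (2^100) …)^100`).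
Let `x j = (2 j + 1 - n) / n ∈ [-1, 1]` and
`w i j = W (x i) (x j) + (r / n - ρ₀) + 3 (D / n - δ₀) x i x j ∈ [η/2, 1 - η/2]` (for `i, j < n`; for
the symmetric function on all of `ℕ` the same formula). `randGraph (η/2) φ` gives `A, β`.
Row sums: `∑_{j<n} w i j = ∑ W (x i) (x j) + (r - ρ₀ n) + 0`, (`∑_j x j = 0`), and `riemann` with
`g = W (x i)`: `|∑_j W (x i)(x j) - (n/2) 2 ρ₀| ≤ K`. So `|∑_j w i j - r| ≤ K`.
Weighted: `j = (n x j + n - 1)/2`, so `∑_j w i j j = (n/2) ∑ w i j x j + ((n-1)/2) ∑ w i j`.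
`∑_j W (x i) (x j) x j = (n/2) 2 δ₀ x i + O(K + 1)` (`riemann` for `t ↦ W (x i) t * t`, Lipschitz
constant `K + 1` as `|W| ≤ 1`), `∑_j x j = 0`, `∑_j (x j)² = (n² - 1) / (3 n)`, so
`∑_j w i j x j = δ₀ n x i + (D - δ₀ n)(1 - 1/n²) x i + O(K+1) = D x i + O(K + 3)`.
Hence `|2 ∑_j w i j j - (n D x i + (n - 1) r)| ≤ n (K + 3) + n K`, and `n D x i = D (2 i + 1 - n)`.
With the deviations of `randGraph` (`h^52`, `n h^52`) the hypotheses of `core` (`h^53`, `n h^53`)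
hold when `h ≥ 4 + 2 K + 3`… (`h^52 + K ≤ h^53`, `2 n h^52 + n (2 K + 3) ≤ n h^53`). -/

namespace HDT

open Finset

private theorem dl_sum_x {n : ℕ} (hn : 1 ≤ n) :
    ∑ j ∈ range n, (2 * (j : ℝ) + 1 - n) / n = 0 := by
  have hn0 : (n : ℝ) ≠ 0 := by
    have : (1 : ℝ) ≤ n := by exact_mod_cast hn
    linarith
  rw [← sum_div]
  have h1 : ∀ m : ℕ, ∑ j ∈ range m, (2 * (j : ℝ) + 1) = (m : ℝ) ^ 2 := by
    intro m
    induction m with
    | zero => simp
    | succ m ih =>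
      rw [sum_range_succ, ih]
      push_cast
      ring
  have h2 : ∑ j ∈ range n, (2 * (j : ℝ) + 1 - n) = 0 := by
    rw [sum_sub_distrib, h1 n, sum_const, card_range, nsmul_eq_mul]
    ring
  rw [h2, zero_div]

private theorem dl_sum_x2 {n : ℕ} (hn : 1 ≤ n) :
    ∑ j ∈ range n, ((2 * (j : ℝ) + 1 - n) / n) ^ 2 = ((n : ℝ) ^ 2 - 1) / (3 * n) := by
  have hn0 : (n : ℝ) ≠ 0 := by
    have : (1 : ℝ) ≤ n := by exact_mod_cast hn
    linarith
  have h1 : ∀ (m : ℕ) (c : ℝ), ∑ j ∈ range m, (2 * (j : ℝ) + 1 - c) ^ 2 =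
      (4 * (m : ℝ) ^ 3 - m) / 3 - 2 * c * (m : ℝ) ^ 2 + m * c ^ 2 := by
    intro m c
    induction m with
    | zero => simp
    | succ m ih =>
      rw [sum_range_succ, ih]
      push_cast
      ring
  simp_rw [div_pow]
  rw [← sum_div, h1 n n]
  field_simp
  ring

private theorem dl_exists_h {n H0 : ℕ} (hH0 : 2 ^ 100 ≤ H0) (hn : H0 ^ 100 ≤ n) :
    ∃ h : ℕ, H0 ≤ h ∧ h ^ 100 ≤ n ∧ n ≤ h ^ 101 := by
  obtain ⟨h, hdef⟩ : ∃ h, h = Nat.findGreatest (fun h => h ^ 100 ≤ n) n := ⟨_, rfl⟩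
  have h1 : h ^ 100 ≤ n := by
    rw [hdef]
    exact Nat.findGreatest_spec (P := fun h => h ^ 100 ≤ n) (m := 0) (Nat.zero_le _) (by simp)
  have hle : ∀ m : ℕ, m ≤ m ^ 100 := fun m => Nat.le_self_pow (by norm_num) m
  have h2 : H0 ≤ h := by
    rw [hdef]
    exact Nat.le_findGreatest ((hle H0).trans hn) hn
  have h3 : n < (h + 1) ^ 100 := by
    by_contra hcon
    push Not at hcon
    have h4 : h + 1 ≤ h := by
      nth_rewrite 2 [hdef]
      exact Nat.le_findGreatest ((hle (h + 1)).trans hcon) hcon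
    omega
  refine ⟨h, h2, h1, h3.le.trans ?_⟩
  have h5 : 1 ≤ h := le_trans (Nat.one_le_two_pow) (hH0.trans h2)
  calc (h + 1) ^ 100 ≤ (2 * h) ^ 100 := Nat.pow_le_pow_left (by omega) 100
    _ = 2 ^ 100 * h ^ 100 := by rw [mul_pow]
    _ ≤ h * h ^ 100 := Nat.mul_le_mul_right _ (hH0.trans h2)
    _ = h ^ 101 := by rw [pow_succ' h 100]

theorem denseLocal (ρ₀ δ₀ : ℝ) (h0 : 0 < ρ₀) (h1 : ρ₀ < 1) (hδ : |δ₀| < ρ₀ * (1 - ρ₀)) (φ : ℕ) :
    ∃ ε : ℝ, 0 < ε ∧ ∃ n0 : ℕ, ∀ n : ℕ, n0 ≤ n → ∀ (r : ℕ) (D : ℤ) (F : ℕ → ℕ → Prop),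
      |(r : ℝ) / n - ρ₀| < ε → |(D : ℝ) / n - δ₀| < ε → ParZ n r D → Forb n φ F →
      ∃ A : ℕ → ℕ → ℤ, Adj n A ∧ (∀ i j, F i j → A i j = 0) ∧ Exact n A r D := by
  obtain ⟨W, η, K, hη, hK, hsym, hbd, hLip, hI0, hI1⟩ := kernel ρ₀ δ₀ h0 h1 hδ
  obtain ⟨h0', hR⟩ := randGraph (η / 2) (by linarith) φ
  have hη1 : η ≤ 1 / 2 := by
    have := hbd 0 (by norm_num) 0 (by norm_num)
    linarith [this.1, this.2]
  refine ⟨η / 16, by linarith, (max (max h0' (2 ^ 100)) ⌈4 + 2 * K⌉₊) ^ 100, ?_⟩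
  intro n hn r D F hr hD hpar hF
  obtain ⟨h, hh, hn1, hn2⟩ := dl_exists_h
    ((le_max_right h0' (2 ^ 100)).trans (le_max_left _ ⌈4 + 2 * K⌉₊)) hn
  have hh0 : h0' ≤ h := ((le_max_left _ _).trans (le_max_left _ _)).trans hh
  have hh2 : 2 ^ 100 ≤ h := ((le_max_right _ _).trans (le_max_left _ _)).trans hh
  have hhK : 4 + 2 * K ≤ (h : ℝ) := (Nat.le_ceil _).trans (by
    exact_mod_cast (le_max_right _ _).trans hh)
  have hh6 : 10 ^ 6 ≤ h := le_trans (by norm_num) hh2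
  have hnn : 1 ≤ n := le_trans (Nat.one_le_pow _ _ (by omega)) hn1
  have hnR : (1 : ℝ) ≤ n := by exact_mod_cast hnn
  have hn0 : (0 : ℝ) < n := by linarith
  have hhR : (1 : ℝ) ≤ (h : ℝ) := by linarith
  -- the points
  obtain ⟨x, hx⟩ : ∃ x : ℕ → ℝ, ∀ j, x j = (2 * (j : ℝ) + 1 - n) / n := ⟨_, fun _ => rfl⟩
  have hxm : ∀ j < n, x j ∈ Set.Icc (-1 : ℝ) 1 := by
    intro j hj
    have hj' : (j : ℝ) + 1 ≤ n := by exact_mod_cast hj
    have hj0 : (0 : ℝ) ≤ j := Nat.cast_nonneg j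
    rw [hx j]
    constructor
    · rw [le_div_iff₀ hn0]
      linarith
    · rw [div_le_iff₀ hn0]
      linarith
  have hxa : ∀ j < n, |x j| ≤ 1 := fun j hj => abs_le.2 (hxm j hj)
  have hsx : ∑ j ∈ range n, x j = 0 := by
    simp_rw [hx]
    exact dl_sum_x hnn
  have hsx2 : ∑ j ∈ range n, (x j) ^ 2 = ((n : ℝ) ^ 2 - 1) / (3 * n) := by
    simp_rw [hx]
    exact dl_sum_x2 hnn
  obtain ⟨a, ha⟩ : ∃ a : ℝ, a = (r : ℝ) / n - ρ₀ := ⟨_, rfl⟩
  obtain ⟨b, hb⟩ : ∃ b : ℝ, b = (D : ℝ) / n - δ₀ := ⟨_, rfl⟩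
  rw [← ha] at hr
  rw [← hb] at hD
  have hra : (r : ℝ) = n * a + n * ρ₀ := by
    rw [ha]
    field_simp
    ring
  have hDb : (D : ℝ) = n * b + n * δ₀ := by
    rw [hb]
    field_simp
    ring
  obtain ⟨w, hw⟩ : ∃ w : ℕ → ℕ → ℝ, ∀ i j, w i j = W (x i) (x j) + a + 3 * b * x i * x j :=
    ⟨_, fun _ _ => rfl⟩
  have hwsym : ∀ i j, w i j = w j i := by
    intro i j
    rw [hw, hw, hsym (x i) (x j)]
    ring
  have hwbd : ∀ i < n, ∀ j < n, η / 2 ≤ w i j ∧ w i j ≤ 1 - η / 2 := by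
    intro i hi j hj
    have h1 := hbd (x i) (hxm i hi) (x j) (hxm j hj)
    have h2 : |3 * b * x i * x j| ≤ 3 * (η / 16) := by
      rw [abs_mul, abs_mul, abs_mul, abs_of_pos (by norm_num : (0 : ℝ) < 3)]
      calc 3 * |b| * |x i| * |x j| ≤ 3 * (η / 16) * 1 * 1 := by
            have := hxa i hi
            have := hxa j hj
            have := abs_nonneg b
            gcongr
        _ = _ := by ring
    have h3 := abs_le.1 h2
    have h4 := abs_lt.1 hr
    rw [hw]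
    constructor
    · linarith [h1.1, h3.1, h4.1]
    · linarith [h1.2, h3.2, h4.2]
  obtain ⟨A, β, hA, hAF, hβ, hP, hdw⟩ := hR h n hh0 hn1 hn2 w F hwsym hwbd hF
  -- row sums of the kernel
  have hrow0 : ∀ i < n, |∑ j ∈ range n, w i j - r| ≤ K := by
    intro i hi
    have h1 := riemann hnn (W (x i)) (K := K) (fun t ht t' ht' => hLip (x i) (hxm i hi) t ht t' ht')
    rw [hI0 (x i) (hxm i hi)] at h1
    have h2 : ∑ j ∈ range n, w i j =
        (∑ j ∈ range n, W (x i) ((2 * (j : ℝ) + 1 - n) / n)) + n * a := by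
      have h3 : ∑ j ∈ range n, w i j = (∑ j ∈ range n, W (x i) ((2 * (j : ℝ) + 1 - n) / n)) +
          ∑ j ∈ range n, a + ∑ j ∈ range n, 3 * b * x i * x j := by
        rw [← sum_add_distrib, ← sum_add_distrib]
        refine sum_congr rfl fun j _ => ?_
        rw [hw, hx j]
      rw [h3, ← mul_sum, hsx, sum_const, card_range, nsmul_eq_mul]
      ring
    rw [h2, hra]
    have h4 : (∑ j ∈ range n, W (x i) ((2 * (j : ℝ) + 1 - n) / n)) + n * a - (n * a + n * ρ₀) =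
        (∑ j ∈ range n, W (x i) ((2 * (j : ℝ) + 1 - n) / n)) - (n : ℝ) / 2 * (2 * ρ₀) := by ring
    rw [h4]
    exact h1
  have hrow1 : ∀ i < n, |∑ j ∈ range n, w i j * x j - D * x i| ≤ K + 2 := by
    intro i hi
    have h1 := riemann hnn (fun t => W (x i) t * t) (K := K + 1) (fun t ht t' ht' => by
      have g1 := hLip (x i) (hxm i hi) t ht t' ht'
      have g2 := hbd (x i) (hxm i hi) t' ht'
      have g3 : |W (x i) t'| ≤ 1 := abs_le.2 ⟨by linarith [g2.1], by linarith [g2.2]⟩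
      have g4 : |t| ≤ 1 := abs_le.2 ht
      have g5 : W (x i) t * t - W (x i) t' * t' =
          (W (x i) t - W (x i) t') * t + W (x i) t' * (t - t') := by ring
      calc |W (x i) t * t - W (x i) t' * t'|
          ≤ |(W (x i) t - W (x i) t') * t| + |W (x i) t' * (t - t')| := by
            rw [g5]
            exact abs_add_le _ _
        _ = |W (x i) t - W (x i) t'| * |t| + |W (x i) t'| * |t - t'| := by
            rw [abs_mul, abs_mul]
        _ ≤ (K * |t - t'|) * 1 + 1 * |t - t'| := by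
            have := abs_nonneg (t - t')
            have := abs_nonneg t
            gcongr
        _ = (K + 1) * |t - t'| := by ring)
    rw [hI1 (x i) (hxm i hi)] at h1
    have h2 : ∑ j ∈ range n, w i j * x j =
        (∑ j ∈ range n, W (x i) ((2 * (j : ℝ) + 1 - n) / n) * ((2 * (j : ℝ) + 1 - n) / n)) +
          b * x i * (n - 1 / n) := by
      have h3 : ∑ j ∈ range n, w i j * x j =
          (∑ j ∈ range n, W (x i) ((2 * (j : ℝ) + 1 - n) / n) * ((2 * (j : ℝ) + 1 - n) / n)) +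
          ∑ j ∈ range n, a * x j + ∑ j ∈ range n, 3 * b * x i * (x j) ^ 2 := by
        rw [← sum_add_distrib, ← sum_add_distrib]
        refine sum_congr rfl fun j _ => ?_
        rw [hw, ← hx j]
        ring
      rw [h3, ← mul_sum, ← mul_sum, hsx, hsx2]
      field_simp
      ring
    rw [h2, hDb]
    have h4 : (∑ j ∈ range n, W (x i) ((2 * (j : ℝ) + 1 - n) / n) * ((2 * (j : ℝ) + 1 - n) / n)) +
          b * x i * (n - 1 / n) - (n * b + n * δ₀) * x i =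
        ((∑ j ∈ range n, W (x i) ((2 * (j : ℝ) + 1 - n) / n) * ((2 * (j : ℝ) + 1 - n) / n)) -
          (n : ℝ) / 2 * (2 * δ₀ * x i)) + -(b * x i * (1 / n)) := by ring
    rw [h4]
    refine (abs_add_le _ _).trans ?_
    have h5 : |-(b * x i * (1 / n))| ≤ 1 := by
      rw [abs_neg, abs_mul, abs_mul]
      have g1 : |b| ≤ 1 := by linarith
      have g2 : |1 / (n : ℝ)| ≤ 1 := by
        rw [abs_of_pos (by positivity)]
        rw [div_le_one hn0]
        exact hnR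
      calc |b| * |x i| * |1 / (n : ℝ)| ≤ 1 * 1 * 1 := by
            have := hxa i hi
            have := abs_nonneg b
            gcongr
        _ = 1 := by ring
    linarith
  -- powers of h
  have hp0 : (0 : ℝ) ≤ (h : ℝ) ^ 52 := by positivity
  have hp1 : (1 : ℝ) ≤ (h : ℝ) ^ 52 := one_le_pow₀ hhR
  have hp2 : (4 + 2 * K) * (h : ℝ) ^ 52 ≤ (h : ℝ) ^ 53 := by
    rw [pow_succ' (h : ℝ) 52]
    exact mul_le_mul_of_nonneg_right hhK hp0
  have hp3 : 2 * K ≤ 2 * K * (h : ℝ) ^ 52 := le_mul_of_one_le_right (by linarith) hp1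
  have hp4 : 2 * (h : ℝ) ^ 52 + (2 * K + 2) ≤ (h : ℝ) ^ 53 := by nlinarith
  refine core hh6 hn1 hn2 hA hF.1 hAF hβ hP hpar ?_ ?_
  · intro i hi
    have h1 := (hdw i hi).1
    have h2 := hrow0 i hi
    have h3 : |(r : ℝ) - deg n A i| ≤ (h : ℝ) ^ 53 := by
      have e1 := abs_le.1 h1
      have e2 := abs_le.1 h2
      rw [abs_le]
      constructor
      · linarith [e1.1, e1.2, e2.1, e2.2]
      · linarith [e1.1, e1.2, e2.1, e2.2]
    exact_mod_cast h3
  · intro i hi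
    have h1 := (hdw i hi).2
    have h2 := hrow0 i hi
    have h3 := hrow1 i hi
    have h4 : 2 * ∑ j ∈ range n, w i j * (j : ℝ) =
        n * (∑ j ∈ range n, w i j * x j) + (n - 1) * ∑ j ∈ range n, w i j := by
      rw [mul_sum, mul_sum, mul_sum, ← sum_add_distrib]
      refine sum_congr rfl fun j _ => ?_
      rw [hx j]
      field_simp
      ring
    have h5 : (D : ℝ) * (2 * (i : ℝ) + 1 - n) = n * (D * x i) := by
      rw [hx i]
      field_simp
    have h6 : |2 * (wt n A i : ℝ) - (D * (2 * (i : ℝ) + 1 - n) + r * ((n : ℝ) - 1))| ≤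
        (n : ℝ) * (h : ℝ) ^ 53 := by
      have g1 : 2 * (wt n A i : ℝ) - (D * (2 * (i : ℝ) + 1 - n) + r * ((n : ℝ) - 1)) =
          2 * ((wt n A i : ℝ) - ∑ j ∈ range n, w i j * (j : ℝ)) +
          (n * (∑ j ∈ range n, w i j * x j - D * x i) +
            (n - 1) * (∑ j ∈ range n, w i j - r)) := by
        rw [h5]
        linear_combination h4
      have g2 : |2 * ((wt n A i : ℝ) - ∑ j ∈ range n, w i j * (j : ℝ))| ≤
          2 * ((n : ℝ) * (h : ℝ) ^ 52) := by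
        rw [abs_mul, abs_of_pos (by norm_num : (0 : ℝ) < 2)]
        exact mul_le_mul_of_nonneg_left h1 (by norm_num)
      have g3 : |(n : ℝ) * (∑ j ∈ range n, w i j * x j - D * x i)| ≤ n * (K + 2) := by
        rw [abs_mul, abs_of_pos hn0]
        exact mul_le_mul_of_nonneg_left h3 hn0.le
      have g4 : |((n : ℝ) - 1) * (∑ j ∈ range n, w i j - r)| ≤ n * K := by
        rw [abs_mul, abs_of_nonneg (by linarith : (0 : ℝ) ≤ n - 1)]
        exact mul_le_mul (by linarith) h2 (abs_nonneg _) hn0.le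
      rw [g1]
      refine (abs_add_le _ _).trans ((add_le_add g2 ((abs_add_le _ _).trans
        (add_le_add g3 g4))).trans ?_)
      have g5 := mul_le_mul_of_nonneg_left hp4 hn0.le
      linarith
    exact_mod_cast h6

end HDT
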