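import Pool.Agent.Helper23.HDT.Defs
import Pool.Agent.Helper48.HcNec
import Pool.Agent.Helper48.HcEven

/-! # Link with `ExistsH`

PLAN. (→) `existsH_matrix` gives `A₀ : Fin p → Fin p → ℤ`; put
`A i j = if h : i < p ∧ j < p then A₀ ⟨i, h.1⟩ ⟨j, h.2⟩ else 0` and translate the sums by
`Fin.sum_univ_eq_sum_range` (or `Finset.sum_range`). (←) `existsH_of_matrix (Equiv.refl (Fin p))`
for the restriction `fun x y => A x.val y.val`. -/

namespace HDT

open Finset Pool.Agent.Helper48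

theorem link {p r d : ℕ} (hp : 1 ≤ p) :
    ExistsH p r d ↔ ∃ A : ℕ → ℕ → ℤ, HDT.Adj p A ∧ Exact p A r (d : ℤ) := by
  constructor
  · intro h
    obtain ⟨A₀, hA, hdeg, -, hw⟩ := existsH_matrix h hp
    let A : ℕ → ℕ → ℤ := fun i j => if h : i < p ∧ j < p then A₀ ⟨i, h.1⟩ ⟨j, h.2⟩ else 0
    have hAf : ∀ (i : Fin p) (j : Fin p), A i.val j.val = A₀ i j := by
      intro i j
      show (if h : i.val < p ∧ j.val < p then A₀ ⟨i.val, h.1⟩ ⟨j.val, h.2⟩ else 0) = A₀ i j
      rw [dif_pos ⟨i.2, j.2⟩]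
    refine ⟨A, ⟨?_, ?_, ?_, ?_⟩, ?_⟩
    · intro i j
      show (if h : i < p ∧ j < p then A₀ ⟨i, h.1⟩ ⟨j, h.2⟩ else 0) =
        (if h : j < p ∧ i < p then A₀ ⟨j, h.1⟩ ⟨i, h.2⟩ else 0)
      by_cases hij : i < p ∧ j < p
      · rw [dif_pos hij, dif_pos hij.symm]
        exact hA.symm _ _
      · rw [dif_neg hij, dif_neg (fun h' => hij h'.symm)]
    · intro i
      show (if h : i < p ∧ i < p then A₀ ⟨i, h.1⟩ ⟨i, h.2⟩ else 0) = 0
      by_cases hi : i < p
      · rw [dif_pos ⟨hi, hi⟩]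
        exact hA.diag _
      · rw [dif_neg (fun h' => hi h'.1)]
    · intro i j
      show (if h : i < p ∧ j < p then A₀ ⟨i, h.1⟩ ⟨j, h.2⟩ else 0) = 0 ∨
        (if h : i < p ∧ j < p then A₀ ⟨i, h.1⟩ ⟨j, h.2⟩ else 0) = 1
      by_cases hij : i < p ∧ j < p
      · rw [dif_pos hij]
        exact hA.zo _ _
      · rw [dif_neg hij]
        exact Or.inl rfl
    · intro i j hi
      show (if h : i < p ∧ j < p then A₀ ⟨i, h.1⟩ ⟨j, h.2⟩ else 0) = 0
      rw [dif_neg (fun h' => absurd h'.1 (not_lt.2 hi))]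
    · intro i hi
      constructor
      · rw [Finset.sum_range]
        have h1 := hdeg ⟨i, hi⟩
        unfold Pool.Agent.Helper48.deg at h1
        rw [← h1]
        exact Finset.sum_congr rfl fun j _ => hAf ⟨i, hi⟩ j
      · rw [Finset.sum_range, ← hw ⟨i, hi⟩]
        apply Finset.sum_congr rfl
        intro j _
        rw [← hAf ⟨i, hi⟩ j]
  · rintro ⟨A, ⟨hsym, hdiag, h01, -⟩, hex⟩
    refine existsH_of_matrix (Equiv.refl (Fin p)) (fun x y => A x.val y.val) ?_ ?_ ?_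
    · exact ⟨fun x y => h01 _ _, fun x y => hsym _ _, fun x => hdiag _⟩
    · intro v
      have h1 := (hex v.val v.2).1
      rw [Finset.sum_range] at h1
      exact h1
    · intro v
      have h1 := (hex v.val v.2).2
      rw [Finset.sum_range] at h1
      exact h1

end HDT
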