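import Pool.Agent.Helper23.HDT.Sparse
import Pool.Agent.Helper23.HDT.Link
import Pool.Agent.Helper48.HcMainEven
import Pool.Agent.Helper74.Gp.Final

/-! # Existence for all integers `D` and `r ≤ p / 2`

PLAN. `C, R0'` from `sparse (ε / 2) 8`; `κ = min ε (min (1 / C) (1/2))`, `n0` from `dense κ 0`;
`R0 ≥ R0' + 8`, `ε R0 ≥ 40`; `p0 ≥ n0`, `p0 ≥ 1000 * 25`, `p0 ≥` the two numbers `p₀` of `odd_all 1`,
`odd_all 2`, `p0 ≥ 100`.
Case `p < C r`: `dense κ 0` with `F = fun _ _ => False`: `κ p ≤ p / C ≤ r`, `r ≤ p/2 ≤ (1 - κ) p`,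
`|D| p ≤ (1 - ε) r (p - r) ≤ (1 - κ) r (p - r)`.
Case `C r ≤ p`: a second graph `A₂` for bounded `(r₂, d₂)`, `d₂ ∈ {1, 2}`, `d₂ ≡ D mod 2`:
 - `p` even: `r₂ ∈ {d₂ + 2, …, d₂ + 5}` with `r₂ ≡ r + D - d₂ mod 4`. `r + D` is even, so
   `r₂ + d₂` is even; if `p % 4 = 2` then `4 ∣ r + D`, so `4 ∣ r₂ + d₂`. `even_main d₂`: `ExistsH p r₂ d₂`.
 - `p` odd: `r` is even; `r₂ ∈ {4, 6}` with `r₂ ≡ r + D - d₂ mod 4` (`r + D - d₂` is even).
   `odd_all d₂`: `d₂ + 1 ≤ r₂`, `r₂ + d₂ + 3 ≤ p`, `r₂` even, `(d₂, r₂) ≠ (1, 2)`.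
`link` gives `A₂`; `F i j := A₂ i j = 1` is `Forb p 8` (row sum `r₂ ≤ 7`).
`r₁ = r - r₂`, `D₁ = D - d₂`: `r₁` even: for `p` even `r - r₂ ≡ r - (r + D - d₂) = d₂ - D ≡ 0 mod 2`;
`r₁ + D₁ = r + D - (r₂ + d₂) ≡ 0 mod 4`. `C r₁ ≤ p`, `r₁ ≥ R0'`,
`|D₁| ≤ (1 - ε) r + 2 ≤ (1 - ε/2) (r - 7) ≤ (1 - ε/2) r₁` (from `|D| p ≤ (1-ε) r (p-r) ≤ (1-ε) r p`
if `ε ≤ 1`; if `ε > 1` the hypothesis forces `r (p - r) ≤ 0`, `r = 0`, contradiction to `R0 ≥ 1`).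
`sparse` gives `A₁` with `A₁ i j = 0` where `A₂ i j = 1`; `A = A₁ + A₂` is as wanted. -/

namespace HDT

open Pool.Agent.Helper48

/-- the bounded degree graph -/
private theorem exz_small (p q1 q2 r : ℕ) (D : ℤ) (hp : 25000 ≤ p) (h1 : q1 ≤ p) (h2 : q2 ≤ p)
    (hq1 : ∀ p : ℕ, q1 ≤ p → Odd p → ∀ r : ℕ,
      (ExistsH p r 1 ↔ (1 + 1 ≤ r ∧ r + 1 + 3 ≤ p ∧ Even r ∧ ¬ (1 = 1 ∧ r = 2))))
    (hq2 : ∀ p : ℕ, q2 ≤ p → Odd p → ∀ r : ℕ,
      (ExistsH p r 2 ↔ (2 + 1 ≤ r ∧ r + 2 + 3 ≤ p ∧ Even r ∧ ¬ (2 = 1 ∧ r = 2))))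
    (hpar : ParZ p r D) :
    ∃ d₂ r₂ : ℕ, d₂ ≤ 2 ∧ r₂ ≤ 7 ∧ (4 : ℤ) ∣ (r : ℤ) + D - d₂ - r₂ ∧
      (2 : ℤ) ∣ (r : ℤ) - r₂ ∧ ExistsH p r₂ d₂ := by
  obtain ⟨g1, g2, g3⟩ := hpar
  rw [Nat.odd_iff, Nat.even_iff] at g1
  rw [Nat.even_iff, Int.even_iff] at g2
  rcases Nat.even_or_odd p with hev | hodd
  · have hev' := Nat.even_iff.1 hev
    have g2' := g2 hev'
    obtain ⟨d₂, hd1, hd2, hd3⟩ : ∃ d₂ : ℕ, 1 ≤ d₂ ∧ d₂ ≤ 2 ∧ (D - d₂) % 2 = 0 := by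
      rcases Int.emod_two_eq_zero_or_one D with h | h
      · exact ⟨2, by omega, by omega, by omega⟩
      · exact ⟨1, by omega, by omega, by omega⟩
    obtain ⟨r₂, hr1, hr2, hr3⟩ : ∃ r₂ : ℕ, d₂ + 2 ≤ r₂ ∧ r₂ ≤ d₂ + 5 ∧
        ((r : ℤ) + D - d₂ - r₂) % 4 = 0 := by
      refine ⟨d₂ + 2 + (((r : ℤ) + D - 2 * d₂ - 2) % 4).toNat, by omega, by omega, by omega⟩
    refine ⟨d₂, r₂, hd2, by omega, by omega, by omega, ?_⟩
    have h5 : 1000 * 5 ^ d₂ ≤ p := by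
      have : 5 ^ d₂ ≤ 5 ^ 2 := Nat.pow_le_pow_right (by norm_num) hd2
      omega
    refine (even_main d₂ hd1 p h5 hev r₂).2 ⟨hr1, by omega, ?_, ?_⟩
    · rw [Nat.even_iff]
      omega
    · intro h4
      have g3' := g3 h4
      omega
  · have hodd' := Nat.odd_iff.1 hodd
    have g1' := g1 hodd'
    obtain ⟨d₂, hd1, hd2, hd3⟩ : ∃ d₂ : ℕ, 1 ≤ d₂ ∧ d₂ ≤ 2 ∧ (D - d₂) % 2 = 0 := by
      rcases Int.emod_two_eq_zero_or_one D with h | h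
      · exact ⟨2, by omega, by omega, by omega⟩
      · exact ⟨1, by omega, by omega, by omega⟩
    obtain ⟨r₂, hr1, hr3⟩ : ∃ r₂ : ℕ, (r₂ = 4 ∨ r₂ = 6) ∧
        ((r : ℤ) + D - d₂ - r₂) % 4 = 0 := by
      by_cases h : ((r : ℤ) + D - d₂) % 4 = 0
      · exact ⟨4, Or.inl rfl, by omega⟩
      · exact ⟨6, Or.inr rfl, by omega⟩
    have hev2 : Even r₂ := by
      rw [Nat.even_iff]
      omega
    refine ⟨d₂, r₂, hd2, by omega, by omega, by omega, ?_⟩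
    obtain rfl | rfl : d₂ = 1 ∨ d₂ = 2 := by omega
    · exact (hq1 p h1 hodd r₂).2 ⟨by omega, by omega, hev2, by omega⟩
    · exact (hq2 p h2 hodd r₂).2 ⟨by omega, by omega, hev2, by omega⟩

/-- sum of two graphs -/
private theorem exz_add {p r₁ r₂ : ℕ} {D₁ D₂ : ℤ} {A₁ A₂ : ℕ → ℕ → ℤ} (h1 : Adj p A₁)
    (h2 : Adj p A₂) (h12 : ∀ i j, A₂ i j = 1 → A₁ i j = 0) (e1 : Exact p A₁ r₁ D₁)
    (e2 : Exact p A₂ r₂ D₂) :
    Adj p (fun i j => A₁ i j + A₂ i j) ∧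
      Exact p (fun i j => A₁ i j + A₂ i j) (r₁ + r₂) (D₁ + D₂) := by
  refine ⟨⟨?_, ?_, ?_, ?_⟩, ?_⟩
  · intro i j
    show A₁ i j + A₂ i j = A₁ j i + A₂ j i
    rw [h1.1 i j, h2.1 i j]
  · intro i
    show A₁ i i + A₂ i i = 0
    rw [h1.2.1 i, h2.2.1 i, add_zero]
  · intro i j
    show A₁ i j + A₂ i j = 0 ∨ A₁ i j + A₂ i j = 1
    rcases h2.2.2.1 i j with h | h
    · rw [h, add_zero]
      exact h1.2.2.1 i j
    · rw [h, h12 i j h, zero_add]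
      exact Or.inr rfl
  · intro i j hi
    show A₁ i j + A₂ i j = 0
    rw [h1.2.2.2 i j hi, h2.2.2.2 i j hi, add_zero]
  · intro i hi
    obtain ⟨a1, b1⟩ := e1 i hi
    obtain ⟨a2, b2⟩ := e2 i hi
    constructor
    · rw [Finset.sum_add_distrib, a1, a2]
      push_cast
      ring
    · simp only [add_mul]
      rw [Finset.sum_add_distrib, b1, b2]

private theorem exz_forb {p r₂ : ℕ} {D₂ : ℤ} {A₂ : ℕ → ℕ → ℤ} (h2 : Adj p A₂)
    (e2 : Exact p A₂ r₂ D₂) (hr : r₂ ≤ 7) : Forb p 8 (fun i j => A₂ i j = 1) := by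
  refine ⟨fun i j h => ?_, fun i hi => ?_⟩
  · show A₂ j i = 1
    rw [h2.1 j i]
    exact h
  · refine ⟨(Finset.range p).filter (fun j => A₂ i j = 1), ?_, fun j hj h => ?_⟩
    · have h3 : (((Finset.range p).filter (fun j => A₂ i j = 1)).card : ℤ) = r₂ := by
        rw [← (e2 i hi).1, Finset.card_filter]
        push_cast
        refine Finset.sum_congr rfl fun j _ => ?_
        rcases h2.2.2.1 i j with h | h
        · rw [h, if_neg (by norm_num)]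
        · rw [h, if_pos rfl]
      have h4 : ((Finset.range p).filter (fun j => A₂ i j = 1)).card = r₂ := by
        exact_mod_cast h3
      rw [h4]
      omega
    · rw [Finset.mem_filter, Finset.mem_range]
      exact ⟨hj, h⟩

theorem exZ (ε : ℝ) (hε : 0 < ε) : ∃ R0 p0 : ℕ, ∀ p : ℕ, p0 ≤ p → ∀ (r : ℕ) (D : ℤ),
    R0 ≤ r → 2 * r ≤ p → |(D : ℝ)| * p ≤ (1 - ε) * r * (p - r) → ParZ p r D →
      ∃ A : ℕ → ℕ → ℤ, Adj p A ∧ Exact p A r D := by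
  obtain ⟨C, R0', hC, hsp⟩ := sparse (ε / 2) (by positivity) 8
  have hCR : (1 : ℝ) ≤ C := by exact_mod_cast hC
  have hC0 : (0 : ℝ) < C := by linarith
  set κ : ℝ := min ε (min (1 / (C : ℝ)) (1 / 2)) with hκdef
  have hκ : 0 < κ := lt_min hε (lt_min (by positivity) (by norm_num))
  have hκ1 : κ ≤ ε := min_le_left _ _
  have hκ2 : κ ≤ 1 / (C : ℝ) := le_trans (min_le_right _ _) (min_le_left _ _)
  have hκ3 : κ ≤ 1 / 2 := le_trans (min_le_right _ _) (min_le_right _ _)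
  obtain ⟨n0, hd⟩ := dense κ hκ 0
  obtain ⟨q1, hq1⟩ := Pool.Agent.Helper74.Gp.odd_all 1 le_rfl
  obtain ⟨q2, hq2⟩ := Pool.Agent.Helper74.Gp.odd_all 2 (by norm_num)
  refine ⟨R0' + 8 + ⌈40 / ε⌉₊, n0 + 25000 + q1 + q2, ?_⟩
  intro p hp r D hr hrp hD hpar
  have hr0 : (0 : ℝ) < r := by
    have : 0 < r := by omega
    exact_mod_cast this
  have hp0 : (0 : ℝ) < p := by
    have : 0 < p := by omega
    exact_mod_cast this
  have hrpR : 2 * (r : ℝ) ≤ p := by exact_mod_cast hrp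
  have hrr : 0 < (r : ℝ) * (p - r) := mul_pos hr0 (by linarith)
  have hεr : 40 ≤ ε * r := by
    have h1 : 40 / ε ≤ (r : ℝ) := by
      refine le_trans (Nat.le_ceil _) ?_
      have : ⌈40 / ε⌉₊ ≤ r := by omega
      exact_mod_cast this
    rw [div_le_iff₀ hε] at h1
    linarith
  by_cases hcase : p < C * r
  · -- the dense case
    have hcaseR : (p : ℝ) < C * r := by exact_mod_cast hcase
    obtain ⟨A, hA1, -, hA2⟩ := hd p (by omega) r D (fun _ _ => False) (by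
      have h1 : κ * p ≤ 1 / (C : ℝ) * p := mul_le_mul_of_nonneg_right hκ2 hp0.le
      have h2 : 1 / (C : ℝ) * p ≤ r := by
        rw [one_div, inv_mul_le_iff₀ hC0]
        exact hcaseR.le
      linarith) (by
      have h1 : κ * p ≤ 1 / 2 * p := mul_le_mul_of_nonneg_right hκ3 hp0.le
      linarith) (by
      refine le_trans hD ?_
      have h1 : (1 - ε) * ((r : ℝ) * (p - r)) ≤ (1 - κ) * ((r : ℝ) * (p - r)) :=
        mul_le_mul_of_nonneg_right (by linarith) hrr.le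
      linarith) hpar ⟨fun _ _ h => h, fun i _ => ⟨∅, by simp, fun j _ h => h.elim⟩⟩
    exact ⟨A, hA1, hA2⟩
  · -- the sparse case
    rw [not_lt] at hcase
    have hε1 : ε ≤ 1 := by
      by_contra h
      rw [not_le] at h
      have h1 : (1 - ε) * ((r : ℝ) * (p - r)) < 0 := mul_neg_of_neg_of_pos (by linarith) hrr
      have h2 : 0 ≤ |(D : ℝ)| * p := mul_nonneg (abs_nonneg _) hp0.le
      linarith
    obtain ⟨d₂, r₂, hd2, hr2, k4, k2, hex⟩ := exz_small p q1 q2 r D (by omega) (by omega)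
      (by omega) hq1 hq2 hpar
    obtain ⟨A₂, hA2, hE2⟩ := (link (by omega : 1 ≤ p)).1 hex
    have hDr : |(D : ℝ)| ≤ (1 - ε) * r := by
      have h1 : |(D : ℝ)| * p ≤ ((1 - ε) * r) * p := by
        refine le_trans hD ?_
        exact mul_le_mul_of_nonneg_left (by linarith) (mul_nonneg (by linarith) hr0.le)
      exact le_of_mul_le_mul_right h1 hp0
    have hr₁ : ((r - r₂ : ℕ) : ℝ) = r - r₂ := by
      rw [Nat.cast_sub (by omega)]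
    have hD₁ : |((D - d₂ : ℤ) : ℝ)| ≤ (1 - ε / 2) * ((r - r₂ : ℕ) : ℝ) := by
      rw [hr₁]
      push_cast
      have h1 : |(D : ℝ) - d₂| ≤ |(D : ℝ)| + 2 := by
        refine le_trans (abs_sub _ _) ?_
        have h2 : |(d₂ : ℝ)| ≤ 2 := by
          rw [abs_of_nonneg (Nat.cast_nonneg _)]
          exact_mod_cast hd2
        linarith
      have h2 : (r₂ : ℝ) ≤ 7 := by exact_mod_cast hr2
      have h3 : (1 - ε / 2) * ((r : ℝ) - 7) ≤ (1 - ε / 2) * ((r : ℝ) - r₂) :=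
        mul_le_mul_of_nonneg_left (by linarith) (by linarith)
      have h4 : (1 - ε / 2) * ((r : ℝ) - 7) = (1 - ε) * r + (ε * r) / 2 - 7 + 7 * ε / 2 := by ring
      linarith
    obtain ⟨A₁, hA1, hF, hE1⟩ := hsp p (r - r₂) (D - d₂) (fun i j => A₂ i j = 1) (by omega)
      (le_trans (Nat.mul_le_mul_left C (Nat.sub_le _ _)) hcase) hD₁
      (by rw [Nat.even_iff]; omega) (by
        have h5 : (((r - r₂ : ℕ) : ℤ)) + (D - d₂) = (r : ℤ) + D - d₂ - r₂ := by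
          rw [Nat.cast_sub (by omega)]
          ring
        rw [h5]
        exact k4) (exz_forb hA2 hE2 hr2)
    obtain ⟨u1, u2⟩ := exz_add hA1 hA2 hF hE1 hE2
    rw [Nat.sub_add_cancel (by omega : r₂ ≤ r), sub_add_cancel] at u2
    exact ⟨_, u1, u2⟩

end HDT
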