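import Pool.Agent.Helper23.HDT.Defs

/-! # The necessary condition from the top vertex; complements

PLAN. `necTop`: the row `i = p - 1`: `∑_j A i j (2 j + 1 - p) = D (p - 1)`, `∑_j A i j = r`,
`A i i = 0`. So it is a sum over an `r`-element subset `S` of `{0, …, p - 2}`, and
`∑_{j∈S} j ≤ ∑_{k=1}^{r} (p - 1 - k)`, i.e. `2 ∑_{j ∈ S} j ≤ 2 r (p - 1) - r (r + 1)` (induction on
`r`: remove the largest element, which is `≤ p - 2`; or on `p`). Hence
`D (p - 1) ≤ 2 r (p-1) - r (r+1) + r (1 - p) = r (p - 1) - r (r + 1)`.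
`compl`: `A' i j = 1 - A i j` for `i ≠ j`, `i, j < p`, `0` otherwise. Row sum `p - 1 - r`;
`∑_j (2 j + 1 - p) = 0`, so `∑_j A' i j (2j+1-p) = 0 - (2i+1-p) - D (2i+1-p)`. -/

namespace HDT

open Finset

private theorem top_sum (m : ℕ) : ∀ S : Finset ℕ, S ⊆ range m →
    2 * ∑ j ∈ S, (j : ℤ) + (S.card : ℤ) * (S.card + 1) ≤ 2 * S.card * m := by
  induction m with
  | zero =>
    intro S hS
    have h : S = ∅ := by
      rw [range_zero] at hS
      exact Finset.subset_empty.1 hS
    rw [h]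
    simp
  | succ m ih =>
    intro S hS
    by_cases hm : m ∈ S
    · have h1 : S.erase m ⊆ range m := by
        intro j hj
        have h2 := Finset.mem_erase.1 hj
        have h3 := Finset.mem_range.1 (hS h2.2)
        rw [Finset.mem_range]
        omega
      have h4 := ih _ h1
      have h5 : (S.card : ℤ) = (S.erase m).card + 1 := by
        rw [← Finset.card_erase_add_one hm]
        push_cast
        ring
      have h6 : ∑ j ∈ S, (j : ℤ) = m + ∑ j ∈ S.erase m, (j : ℤ) :=
        (Finset.add_sum_erase S (fun j : ℕ => (j : ℤ)) hm).symm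
      rw [h5, h6]
      push_cast
      nlinarith
    · have h1 : S ⊆ range m := by
        intro j hj
        have h3 := Finset.mem_range.1 (hS hj)
        have h4 : j ≠ m := fun h => hm (h ▸ hj)
        rw [Finset.mem_range]
        omega
      have h4 := ih _ h1
      push_cast
      have h5 : (0 : ℤ) ≤ S.card := Nat.cast_nonneg _
      nlinarith

private theorem sum_lin (n : ℕ) (c : ℤ) :
    ∑ j ∈ range n, (2 * (j : ℤ) + c) = n * (n - 1) + c * n := by
  induction n with
  | zero => simp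
  | succ n ih =>
    rw [Finset.sum_range_succ, ih]
    push_cast
    ring

theorem necTop {p r : ℕ} {D : ℤ} {A : ℕ → ℕ → ℤ} (hp : 1 ≤ p) (hA : Adj p A)
    (hE : Exact p A r D) : D * ((p : ℤ) - 1) + r * (r + 1) ≤ r * ((p : ℤ) - 1) := by
  have hi : p - 1 < p := by omega
  obtain ⟨h1, h2⟩ := hE (p - 1) hi
  obtain ⟨S, hS⟩ : ∃ S, S = (range p).filter fun j => A (p - 1) j = 1 := ⟨_, rfl⟩
  have hSs : S ⊆ range (p - 1) := by
    intro j hj
    rw [hS, Finset.mem_filter, Finset.mem_range] at hj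
    have h3 : j ≠ p - 1 := by
      rintro rfl
      rw [hA.2.1] at hj
      exact absurd hj.2 zero_ne_one
    rw [Finset.mem_range]
    omega
  have hsum : ∀ φ : ℕ → ℤ, ∑ j ∈ range p, A (p - 1) j * φ j = ∑ j ∈ S, φ j := by
    intro φ
    rw [hS, Finset.sum_filter]
    refine Finset.sum_congr rfl fun j _ => ?_
    rcases hA.2.2.1 (p - 1) j with h3 | h3
    · rw [h3, zero_mul, if_neg zero_ne_one]
    · rw [h3, one_mul, if_pos rfl]
  have hcard : (S.card : ℤ) = r := by
    have h3 := hsum fun _ => 1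
    simp only [mul_one, Finset.sum_const, nsmul_eq_mul] at h3
    rw [← h3, h1]
  have hp1 : ((p - 1 : ℕ) : ℤ) = (p : ℤ) - 1 := by
    rw [Nat.cast_sub hp]
    simp
  rw [hsum, hp1] at h2
  have h4 : ∑ j ∈ S, (2 * (j : ℤ) + 1 - p) = 2 * ∑ j ∈ S, (j : ℤ) + S.card * (1 - p) := by
    rw [Finset.mul_sum, ← nsmul_eq_mul, ← Finset.sum_const, ← Finset.sum_add_distrib]
    exact Finset.sum_congr rfl fun j _ => by ring
  have h5 := top_sum (p - 1) S hSs
  rw [h4, hcard] at h2
  rw [hcard, hp1] at h5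
  linarith

theorem compl {p r : ℕ} {D : ℤ} {A : ℕ → ℕ → ℤ} (hr : r + 1 ≤ p) (hA : Adj p A)
    (hE : Exact p A r D) : ∃ A' : ℕ → ℕ → ℤ, Adj p A' ∧ Exact p A' (p - 1 - r) (-(D + 1)) := by
  refine ⟨fun i j => if i < p ∧ j < p ∧ i ≠ j then 1 - A i j else 0, ⟨?_, ?_, ?_, ?_⟩, ?_⟩
  · intro i j
    show (if i < p ∧ j < p ∧ i ≠ j then 1 - A i j else 0) =
      if j < p ∧ i < p ∧ j ≠ i then 1 - A j i else 0
    by_cases h : i < p ∧ j < p ∧ i ≠ j
    · rw [if_pos h, if_pos (show j < p ∧ i < p ∧ j ≠ i from ⟨h.2.1, h.1, h.2.2.symm⟩), hA.1 i j]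
    · rw [if_neg h, if_neg (show ¬ (j < p ∧ i < p ∧ j ≠ i) from
        fun h2 => h ⟨h2.2.1, h2.1, h2.2.2.symm⟩)]
  · intro i
    show (if i < p ∧ i < p ∧ i ≠ i then 1 - A i i else 0) = 0
    rw [if_neg fun h => h.2.2 rfl]
  · intro i j
    show (if i < p ∧ j < p ∧ i ≠ j then 1 - A i j else 0) = 0 ∨
      (if i < p ∧ j < p ∧ i ≠ j then 1 - A i j else 0) = 1
    split_ifs
    · rcases hA.2.2.1 i j with h | h
      · right
        rw [h, sub_zero]
      · left
        rw [h, sub_self]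
    · exact Or.inl rfl
  · intro i j hi
    show (if i < p ∧ j < p ∧ i ≠ j then 1 - A i j else 0) = 0
    rw [if_neg fun h => absurd h.1 (by omega)]
  · intro i hi
    obtain ⟨h1, h2⟩ := hE i hi
    have hsum : ∀ φ : ℕ → ℤ, ∑ j ∈ range p,
        (if i < p ∧ j < p ∧ i ≠ j then 1 - A i j else 0) * φ j =
        ∑ j ∈ range p, φ j - ∑ j ∈ range p, A i j * φ j - φ i := by
      intro φ
      have h3 : φ i = ∑ j ∈ range p, if j = i then φ j else 0 := by
        rw [Finset.sum_ite_eq' (range p) i φ, if_pos (Finset.mem_range.2 hi)]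
      rw [h3, ← Finset.sum_sub_distrib, ← Finset.sum_sub_distrib]
      refine Finset.sum_congr rfl fun j hj => ?_
      rw [Finset.mem_range] at hj
      by_cases h4 : i = j
      · rw [if_neg (fun h => h.2.2 h4), if_pos h4.symm, ← h4, hA.2.1]
        ring
      · rw [if_pos ⟨hi, hj, h4⟩, if_neg fun h => h4 h.symm]
        ring
    constructor
    · have h3 := hsum fun _ => 1
      simp only [mul_one, Finset.sum_const, Finset.card_range, nsmul_eq_mul] at h3
      show ∑ j ∈ range p, (if i < p ∧ j < p ∧ i ≠ j then 1 - A i j else 0) = _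
      rw [h3, h1]
      have h4 : ((p - 1 - r : ℕ) : ℤ) = (p : ℤ) - 1 - r := by
        have h5 : p = (p - 1 - r) + 1 + r := by omega
        have h6 : (p : ℤ) = ((p - 1 - r : ℕ) : ℤ) + 1 + r := by
          exact_mod_cast h5
        linarith
      rw [h4]
      ring
    · show ∑ j ∈ range p, (if i < p ∧ j < p ∧ i ≠ j then 1 - A i j else 0) *
        (2 * (j : ℤ) + 1 - p) = _
      rw [hsum fun j => 2 * (j : ℤ) + 1 - p, h2]
      have h3 : ∑ j ∈ range p, (2 * (j : ℤ) + 1 - p) = 0 := by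
        have h4 := sum_lin p (1 - p)
        have h5 : ∑ j ∈ range p, (2 * (j : ℤ) + 1 - p) = ∑ j ∈ range p, (2 * (j : ℤ) + (1 - p)) :=
          Finset.sum_congr rfl fun j _ => by ring
        rw [h5, h4]
        ring
      rw [h3]
      ring

end HDT
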