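import Pool.Agent.Helper23.HDT.ExZ
import Pool.Agent.Helper23.HDT.NecTop

/-! # The asymptotic threshold theorem -/

namespace HDT

open Pool.Agent.Helper48

theorem necThm {p r d : ℕ} (hp : 1 ≤ p) (h : ExistsH p r d) :
    d * (p - 1) + r * (r + 1) ≤ r * (p - 1) := by
  obtain ⟨A, hA, hE⟩ := (link hp).1 h
  have h1 := necTop hp hA hE
  have h2 : ((p - 1 : ℕ) : ℤ) = (p : ℤ) - 1 := by
    push_cast [Nat.cast_sub hp]; ring
  have h3 : ((d * (p - 1) + r * (r + 1) : ℕ) : ℤ) ≤ ((r * (p - 1) : ℕ) : ℤ) := by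
    push_cast
    rw [h2]
    linarith
  exact_mod_cast h3

theorem mainThm (ε : ℝ) (hε : 0 < ε) : ∃ p0 : ℕ, ∀ p : ℕ, p0 ≤ p → ∀ r d : ℕ, 1 ≤ d →
    (1 + ε) * d * ((p : ℝ) - 1) ≤ r * ((p : ℝ) - 2 - r) →
      (ExistsH p r d ↔ ((Odd p → Even r) ∧ (Even p → Even (r + d)) ∧ (p % 4 = 2 → 4 ∣ r + d) ∧
        ¬ (d = 1 ∧ r = 2))) := by
  classical
  -- reduction to ε ≤ 1
  wlog hε1 : ε ≤ 1 generalizing ε with H
  · obtain ⟨p0, hp0⟩ := H 1 one_pos le_rfl
    refine ⟨p0 + 1, fun p hp r d hd h => hp0 p (by omega) r d hd (le_trans ?_ h)⟩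
    have hp1 : (1 : ℝ) ≤ p := by exact_mod_cast (show 1 ≤ p by omega)
    push Not at hε1
    have hd0 : (0 : ℝ) ≤ d := Nat.cast_nonneg d
    have : (0 : ℝ) ≤ d * ((p : ℝ) - 1) := mul_nonneg hd0 (by linarith)
    nlinarith
  -- constants
  set ε₁ : ℝ := ε / (4 * (1 + ε)) with hε₁
  have hε₁0 : 0 < ε₁ := by positivity
  obtain ⟨R0, q0, hex⟩ := exZ ε₁ hε₁0
  obtain ⟨D0, hD0⟩ : ∃ D0 : ℕ, R0 ≤ D0 ∧ 1 ≤ D0 ∧ 4 / ε ≤ (D0 : ℝ) := by
    obtain ⟨k, hk⟩ := exists_nat_ge (4 / ε)
    refine ⟨R0 + k + 1, by omega, by omega, ?_⟩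
    push_cast
    have : (0 : ℝ) ≤ R0 := Nat.cast_nonneg _
    linarith
  obtain ⟨hDR, hD1, hDε⟩ := hD0
  have hodd : ∃ s0 : ℕ, ∀ d, 1 ≤ d → d ≤ D0 → ∀ p : ℕ, s0 ≤ p → Odd p → ∀ r : ℕ,
      (ExistsH p r d ↔ (d + 1 ≤ r ∧ r + d + 3 ≤ p ∧ Even r ∧ ¬ (d = 1 ∧ r = 2))) := by
    have : ∀ d : ℕ, ∃ s : ℕ, 1 ≤ d → ∀ p : ℕ, s ≤ p → Odd p → ∀ r : ℕ,
        (ExistsH p r d ↔ (d + 1 ≤ r ∧ r + d + 3 ≤ p ∧ Even r ∧ ¬ (d = 1 ∧ r = 2))) := by
      intro d
      by_cases hd : 1 ≤ d
      · obtain ⟨s, hs⟩ := Pool.Agent.Helper74.Gp.odd_all d hd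
        exact ⟨s, fun _ => hs⟩
      · exact ⟨0, fun h => absurd h hd⟩
    choose s hs using this
    refine ⟨(Finset.range (D0 + 1)).sup s, fun d h1 h2 p hp => hs d h1 p (le_trans ?_ hp)⟩
    exact Finset.le_sup (Finset.mem_range.2 (by omega))
  obtain ⟨s0, hs0⟩ := hodd
  obtain ⟨k, hk⟩ := exists_nat_ge (8 / ε)
  refine ⟨q0 + s0 + k + 1000 * 5 ^ D0 + 10, fun p hp r d hd h => ?_⟩
  have hpk : (k : ℝ) + 10 ≤ p := by exact_mod_cast (show k + 10 ≤ p by omega)
  have hp10 : (10 : ℝ) ≤ p := by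
    have : (0 : ℝ) ≤ k := Nat.cast_nonneg k
    linarith
  have hd1 : (1 : ℝ) ≤ d := by exact_mod_cast hd
  have hr0 : (0 : ℝ) ≤ r := Nat.cast_nonneg r
  -- basic consequences
  have hpos : 0 < (1 + ε) * d * ((p : ℝ) - 1) := by
    apply mul_pos (mul_pos (by linarith) (by linarith)) (by linarith)
  have hrpos : (0 : ℝ) < r := by
    rcases hr0.lt_or_eq with h1 | h1
    · exact h1
    · rw [← h1] at h; linarith
  have hprpos : 0 < (p : ℝ) - 2 - r := by
    by_contra hcon
    push Not at hcon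
    have := mul_nonpos_of_nonneg_of_nonpos hr0 hcon
    linarith
  have hrd : (d : ℝ) < r := by
    by_contra hcon
    push Not at hcon
    have h1 : (r : ℝ) * ((p : ℝ) - 2 - r) ≤ d * ((p : ℝ) - 1) := by
      apply mul_le_mul hcon (by linarith) hprpos.le (by linarith)
    have h2 : (d : ℝ) * ((p : ℝ) - 1) < (1 + ε) * d * ((p : ℝ) - 1) := by
      have : 0 < (d : ℝ) * ((p : ℝ) - 1) := mul_pos (by linarith) (by linarith)
      nlinarith
    linarith
  have hprd : (d : ℝ) < (p : ℝ) - 2 - r := by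
    by_contra hcon
    push Not at hcon
    have h1 : (r : ℝ) * ((p : ℝ) - 2 - r) ≤ ((p : ℝ) - 1) * d := by
      apply mul_le_mul (by linarith) hcon hprpos.le (by linarith)
    have h2 : (d : ℝ) * ((p : ℝ) - 1) < (1 + ε) * d * ((p : ℝ) - 1) := by
      have : 0 < (d : ℝ) * ((p : ℝ) - 1) := mul_pos (by linarith) (by linarith)
      nlinarith
    linarith
  have hrdN : d + 1 ≤ r := by
    have : d < r := by exact_mod_cast hrd
    omega
  have hprdN : r + d + 3 ≤ p := by
    have h1 : ((d + r + 2 : ℕ) : ℝ) < (p : ℝ) := by push_cast; linarith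
    have : d + r + 2 < p := by exact_mod_cast h1
    omega
  constructor
  · -- necessity
    intro hH
    refine ⟨fun hpo => ?_, fun hpe => ?_, fun h4 => ?_, ?_⟩
    · rw [Nat.even_iff]; exact nec_odd hH (Nat.odd_iff.1 hpo)
    · have := nec_even hH (Nat.even_iff.1 hpe) (by omega)
      rw [Nat.even_iff]; omega
    · exact Nat.dvd_of_mod_eq_zero (nec_two_mod_four hH h4)
    · rintro ⟨h1, h2⟩
      rcases Nat.even_or_odd p with hpe | hpo
      · have := nec_even hH (Nat.even_iff.1 hpe) (by omega)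
        omega
      · exact ((hs0 d hd (by omega) p (by omega) hpo r).1 hH).2.2.2 ⟨h1, h2⟩
  · rintro ⟨h1, h2, h3, h4⟩
    by_cases hdD : d ≤ D0
    · rcases Nat.even_or_odd p with hpe | hpo
      · have hpow : 1000 * 5 ^ d ≤ p := by
          have : 5 ^ d ≤ 5 ^ D0 := Nat.pow_le_pow_right (by norm_num) hdD
          omega
        rw [even_main d hd p hpow hpe]
        have h5 := h2 hpe
        have h6 := Nat.even_iff.1 h5
        have h7 := Nat.even_iff.1 hpe
        exact ⟨by omega, by omega, h5, h3⟩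
      · rw [hs0 d hd hdD p (by omega) hpo r]
        exact ⟨hrdN, hprdN, h1 hpo, h4⟩
    · push Not at hdD
      have hpar : ParZ p r (d : ℤ) := by
        refine ⟨h1, fun he => ?_, fun he => ?_⟩
        · have := h2 he
          exact_mod_cast this
        · have := h3 he
          exact_mod_cast this
      have hdD' : (D0 : ℝ) + 1 ≤ d := by exact_mod_cast hdD
      -- the numerical inequality
      have hnum : ((d : ℝ) + 1) * p ≤ (1 - ε₁) * (r * ((p : ℝ) - 2 - r)) := by
        have e1 : (d : ℝ) + 1 ≤ d * (1 + ε / 4) := by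
          have : 4 / ε ≤ d := by linarith
          rw [div_le_iff₀ hε] at this
          linarith
        have e2 : (p : ℝ) ≤ ((p : ℝ) - 1) * (1 + ε / 8) := by
          have : 8 / ε ≤ (p : ℝ) - 1 := by linarith
          rw [div_le_iff₀ hε] at this
          linarith
        have e3 : ((d : ℝ) + 1) * p ≤ (d * (1 + ε / 4)) * (((p : ℝ) - 1) * (1 + ε / 8)) := by
          apply mul_le_mul e1 e2 (by linarith) (by positivity)
        have e4 : (1 + ε / 4) * (1 + ε / 8) ≤ (1 - ε₁) * (1 + ε) := by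
          have : ε₁ * (1 + ε) = ε / 4 := by
            rw [hε₁]; field_simp
          nlinarith
        have e5 : (0 : ℝ) ≤ d * ((p : ℝ) - 1) := mul_nonneg (by linarith) (by linarith)
        have e6 : 0 ≤ 1 - ε₁ := by
          have : ε₁ * (1 + ε) = ε / 4 := by
            rw [hε₁]; field_simp
          nlinarith
        calc ((d : ℝ) + 1) * p ≤ (d * (1 + ε / 4)) * (((p : ℝ) - 1) * (1 + ε / 8)) := e3
          _ = ((1 + ε / 4) * (1 + ε / 8)) * (d * ((p : ℝ) - 1)) := by ring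
          _ ≤ ((1 - ε₁) * (1 + ε)) * (d * ((p : ℝ) - 1)) := mul_le_mul_of_nonneg_right e4 e5
          _ = (1 - ε₁) * ((1 + ε) * d * ((p : ℝ) - 1)) := by ring
          _ ≤ (1 - ε₁) * (r * ((p : ℝ) - 2 - r)) := mul_le_mul_of_nonneg_left h e6
      have he6 : 0 ≤ 1 - ε₁ := by
        have : ε₁ * (1 + ε) = ε / 4 := by
          rw [hε₁]; field_simp
        nlinarith
      rw [link (by omega)]
      by_cases hrp : 2 * r ≤ p
      · refine hex p (by omega) r d (by omega) hrp ?_ hpar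
        have e1 : |((d : ℤ) : ℝ)| = d := by
          rw [Int.cast_natCast, abs_of_nonneg (by linarith)]
        rw [e1]
        have e2 : (1 - ε₁) * (r * ((p : ℝ) - 2 - r)) ≤ (1 - ε₁) * (r * (p - r)) := by
          apply mul_le_mul_of_nonneg_left _ he6
          nlinarith
        nlinarith
      · push Not at hrp
        obtain ⟨r', hr'⟩ : ∃ r', p = r + r' + 1 := ⟨p - 1 - r, by omega⟩
        have hpar' : ParZ p r' (-((d : ℤ) + 1)) := by
          refine ⟨fun ho => ?_, fun he => ?_, fun he => ?_⟩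
          · have a1 := Nat.even_iff.1 (h1 ho)
            have a2 := Nat.odd_iff.1 ho
            rw [Nat.even_iff]; omega
          · have a1 := Nat.even_iff.1 (h2 he)
            have a2 := Nat.even_iff.1 he
            rw [Int.even_iff]; omega
          · have a1 := h3 he
            omega
        have hcast : (p : ℝ) = r + r' + 1 := by exact_mod_cast hr'
        obtain ⟨A, hA, hE⟩ := hex p (by omega) r' (-((d : ℤ) + 1)) (by omega) (by omega) (by
          have e1 : |((-((d : ℤ) + 1) : ℤ) : ℝ)| = (d : ℝ) + 1 := by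
            push_cast
            rw [abs_neg, abs_of_nonneg (by linarith)]
          rw [e1]
          have e2 : (1 - ε₁) * (r * ((p : ℝ) - 2 - r)) ≤ (1 - ε₁) * (r' * (p - r')) := by
            apply mul_le_mul_of_nonneg_left _ he6
            have : (0 : ℝ) ≤ r' := Nat.cast_nonneg r'
            rw [hcast]
            nlinarith
          nlinarith) hpar'
        obtain ⟨A', hA', hE'⟩ := compl (by omega) hA hE
        refine ⟨A', hA', ?_⟩
        have a1 : p - 1 - r' = r := by omega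
        have a2 : -(-((d : ℤ) + 1) + 1) = d := by ring
        rw [a1, a2] at hE'
        exact hE'

end HDT
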