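import Pool.Agent.Helper23.HDT.Defs

/-! # Greedy choice of columns with pairwise disjoint sets of used entries

PLAN. Induction on `N` (or: build `b` recursively; prove for every `m ≤ N` the statement with `N`
replaced by `m` in the conclusion, using `Function.update`).
Step: `b 0, …, b (m-1)` are chosen, `m < N`. Let `us x = #{k < m : x ∈ C k (b k)}`; by induction
`us x ≤ γ` for `x < n`. Let `O = {x < n : us x = γ}` (or `≥ γ`). Double counting:
`γ #O ≤ ∑_{x < n} us x = ∑_{k<m} #(C k (b k)) ≤ 2 m ≤ 2 N`.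
Bad candidates `b ∈ cand m`:
 (1) `C m b` meets `O`: at most `2 #O` of them by `hCb`;
 (2) there are `i ∈ R m`, `c ∈ C m b`, `k < m`, `i' ∈ R k`, `c' ∈ C k (b k)` with `i = i', c = c'`:
     for fixed `i` there are at most `n₁` such `k` (`hn`, note `i < n`), each has at most 2
     elements `c'`, each `c'` lies in `C m b` for at most 2 candidates `b`: at most
     `4 * n₁ * 2 * 2 = 16 n₁` bad candidates;
 (3) the same with `i = c', c = i'`: for fixed `i < n` at most `us i ≤ γ` indices `k`, each with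
     at most 4 elements `i' ∈ R k`, each in `C m b` for at most 2 candidates: at most
     `4 * γ * 4 * 2 = 32 γ`.
If all candidates were bad, `β ≤ 2 #O + 16 n₁ + 32 γ`, multiply by `γ`:
`β γ ≤ 4 N + (16 n₁ + 32 γ) γ`, contradiction to `hbig`. So there is a good `b m`. The new usage
is `≤ γ` since `C m (b m)` avoids `O`; disjointness for the pairs `(k, m)` and `(m, k)` holds by
(2), (3) (the condition is symmetric in the two requests). -/

namespace HDT

open Finset

private theorem step {n N n₁ β γ : ℕ} (hγ : 1 ≤ γ) (R : ℕ → Finset ℕ) (C : ℕ → ℕ → Finset ℕ)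
    (cand : ℕ → Finset ℕ) (hRn : ∀ k < N, R k ⊆ range n) (hR : ∀ k < N, (R k).card ≤ 4)
    (hC : ∀ k < N, ∀ b ∈ cand k, C k b ⊆ range n ∧ (C k b).card ≤ 2)
    (hCb : ∀ k < N, ∀ x, ((cand k).filter (fun b => x ∈ C k b)).card ≤ 2)
    (hn : ∀ x < n, ((range N).filter (fun k => x ∈ R k)).card ≤ n₁)
    (hβ : ∀ k < N, β ≤ (cand k).card)
    (hbig : 4 * N + (16 * n₁ + 32 * γ) * γ < β * γ) {m : ℕ} (hmN : m < N) (b : ℕ → ℕ)
    (hb1 : ∀ k < m, b k ∈ cand k)
    (hb2 : ∀ x < n, ((range m).filter (fun k => x ∈ C k (b k))).card ≤ γ) :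
    ∃ b0 ∈ cand m, (∀ x ∈ C m b0, x < n →
        ((range m).filter (fun k => x ∈ C k (b k))).card < γ) ∧
      (∀ i ∈ R m, ∀ c ∈ C m b0, ∀ k < m, ∀ i' ∈ R k, ∀ c' ∈ C k (b k), ¬ (i = i' ∧ c = c')) ∧
      (∀ i ∈ R m, ∀ c ∈ C m b0, ∀ k < m, ∀ i' ∈ R k, ∀ c' ∈ C k (b k), ¬ (i = c' ∧ c = i')) := by
  classical
  let O : Finset ℕ := (range n).filter
    (fun x => γ ≤ ((range m).filter (fun k => x ∈ C k (b k))).card)
  let B1 : Finset ℕ := O.biUnion (fun x => (cand m).filter (fun b' => x ∈ C m b'))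
  let B2 : Finset ℕ := (R m).biUnion (fun i => ((range m).filter (fun k => i ∈ R k)).biUnion
    (fun k => (C k (b k)).biUnion (fun c => (cand m).filter (fun b' => c ∈ C m b'))))
  let B3 : Finset ℕ := (R m).biUnion (fun i => ((range m).filter (fun k => i ∈ C k (b k))).biUnion
    (fun k => (R k).biUnion (fun c => (cand m).filter (fun b' => c ∈ C m b'))))
  have hB1 : B1.card ≤ O.card * 2 :=
    card_biUnion_le_card_mul _ _ _ (fun x _ => hCb m hmN x)
  have hB2 : B2.card ≤ 4 * (n₁ * (2 * 2)) := by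
    refine (card_biUnion_le_card_mul _ _ (n₁ * (2 * 2)) ?_).trans
      (Nat.mul_le_mul_right _ (hR m hmN))
    intro i hi
    have hin : i < n := mem_range.mp (hRn m hmN hi)
    refine (card_biUnion_le_card_mul _ _ (2 * 2) ?_).trans (Nat.mul_le_mul_right _ ?_)
    · intro k hk
      have hkm : k < m := mem_range.mp (mem_filter.mp hk).1
      refine (card_biUnion_le_card_mul _ _ 2 (fun c _ => hCb m hmN c)).trans
        (Nat.mul_le_mul_right _ ?_)
      exact (hC k (by omega) (b k) (hb1 k hkm)).2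
    · refine (card_le_card ?_).trans (hn i hin)
      intro k hk
      rw [mem_filter, mem_range] at hk ⊢
      exact ⟨by omega, hk.2⟩
  have hB3 : B3.card ≤ 4 * (γ * (4 * 2)) := by
    refine (card_biUnion_le_card_mul _ _ (γ * (4 * 2)) ?_).trans
      (Nat.mul_le_mul_right _ (hR m hmN))
    intro i hi
    have hin : i < n := mem_range.mp (hRn m hmN hi)
    refine (card_biUnion_le_card_mul _ _ (4 * 2) ?_).trans
      (Nat.mul_le_mul_right _ (hb2 i hin))
    intro k hk
    have hkm : k < m := mem_range.mp (mem_filter.mp hk).1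
    refine (card_biUnion_le_card_mul _ _ 2 (fun c _ => hCb m hmN c)).trans
      (Nat.mul_le_mul_right _ ?_)
    exact hR k (by omega)
  have hO : O.card * γ ≤ 2 * m := by
    have h1 : O.card * γ ≤ ∑ x ∈ O, ((range m).filter (fun k => x ∈ C k (b k))).card := by
      rw [← smul_eq_mul]
      exact card_nsmul_le_sum _ _ _ (fun x hx => (mem_filter.mp hx).2)
    have h2 : ∑ x ∈ O, ((range m).filter (fun k => x ∈ C k (b k))).card ≤
        ∑ x ∈ range n, ((range m).filter (fun k => x ∈ C k (b k))).card :=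
      sum_le_sum_of_subset (filter_subset _ _)
    have h3 : ∑ x ∈ range n, ((range m).filter (fun k => x ∈ C k (b k))).card =
        ∑ k ∈ range m, ((range n).filter (fun x => x ∈ C k (b k))).card := by
      simp only [card_filter]
      exact sum_comm
    have h4 : ∑ k ∈ range m, ((range n).filter (fun x => x ∈ C k (b k))).card ≤
        ∑ _k ∈ range m, 2 := by
      apply sum_le_sum
      intro k hk
      have hkm : k < m := mem_range.mp hk
      refine (card_le_card ?_).trans (hC k (by omega) (b k) (hb1 k hkm)).2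
      intro x hx
      exact (mem_filter.mp hx).2
    rw [sum_const, card_range, smul_eq_mul] at h4
    omega
  have hex : ∃ b0 ∈ cand m, b0 ∉ B1 ∪ B2 ∪ B3 := by
    by_contra hne
    push Not at hne
    have hsub : (cand m).card ≤ (B1 ∪ B2 ∪ B3).card := card_le_card (fun x hx => hne x hx)
    have h1 : (B1 ∪ B2 ∪ B3).card ≤ B1.card + B2.card + B3.card :=
      (card_union_le _ _).trans (Nat.add_le_add_right (card_union_le _ _) _)
    have h2 := hβ m hmN
    have h3 : β ≤ O.card * 2 + 16 * n₁ + 32 * γ := by omega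
    have h4 : β * γ ≤ (O.card * 2 + 16 * n₁ + 32 * γ) * γ := Nat.mul_le_mul_right _ h3
    have h5 : (O.card * 2 + 16 * n₁ + 32 * γ) * γ =
        2 * (O.card * γ) + (16 * n₁ + 32 * γ) * γ := by ring
    omega
  obtain ⟨b0, hb0, hnot⟩ := hex
  rw [mem_union, mem_union, not_or, not_or] at hnot
  obtain ⟨⟨n1, n2⟩, n3⟩ := hnot
  refine ⟨b0, hb0, ?_, ?_, ?_⟩
  · intro x hx hxn
    by_contra hlt
    apply n1
    refine mem_biUnion.mpr ⟨x, ?_, mem_filter.mpr ⟨hb0, hx⟩⟩
    exact mem_filter.mpr ⟨mem_range.mpr hxn, not_lt.mp hlt⟩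
  · rintro i hi c hc k hk i' hi' c' hc' ⟨rfl, rfl⟩
    apply n2
    refine mem_biUnion.mpr ⟨i, hi, ?_⟩
    refine mem_biUnion.mpr ⟨k, mem_filter.mpr ⟨mem_range.mpr hk, hi'⟩, ?_⟩
    exact mem_biUnion.mpr ⟨c, hc', mem_filter.mpr ⟨hb0, hc⟩⟩
  · rintro i hi c hc k hk i' hi' c' hc' ⟨rfl, rfl⟩
    apply n3
    refine mem_biUnion.mpr ⟨i, hi, ?_⟩
    refine mem_biUnion.mpr ⟨k, mem_filter.mpr ⟨mem_range.mpr hk, hc'⟩, ?_⟩
    exact mem_biUnion.mpr ⟨c, hi', mem_filter.mpr ⟨hb0, hc⟩⟩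

theorem greedy {n N n₁ β γ : ℕ} (hγ : 1 ≤ γ) (R : ℕ → Finset ℕ) (C : ℕ → ℕ → Finset ℕ)
    (cand : ℕ → Finset ℕ) (hRn : ∀ k < N, R k ⊆ range n) (hR : ∀ k < N, (R k).card ≤ 4)
    (hC : ∀ k < N, ∀ b ∈ cand k, C k b ⊆ range n ∧ (C k b).card ≤ 2)
    (hCb : ∀ k < N, ∀ x, ((cand k).filter (fun b => x ∈ C k b)).card ≤ 2)
    (hn : ∀ x < n, ((range N).filter (fun k => x ∈ R k)).card ≤ n₁)
    (hβ : ∀ k < N, β ≤ (cand k).card)
    (hbig : 4 * N + (16 * n₁ + 32 * γ) * γ < β * γ) :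
    ∃ b : ℕ → ℕ, (∀ k < N, b k ∈ cand k) ∧
      (∀ x < n, ((range N).filter (fun k => x ∈ C k (b k))).card ≤ γ) ∧
      (∀ k < N, ∀ k' < N, k ≠ k' → ∀ i ∈ R k, ∀ c ∈ C k (b k), ∀ i' ∈ R k', ∀ c' ∈ C k' (b k'),
        ¬ ((i = i' ∧ c = c') ∨ (i = c' ∧ c = i'))) := by
  have key : ∀ m, m ≤ N → ∃ b : ℕ → ℕ, (∀ k < m, b k ∈ cand k) ∧
      (∀ x < n, ((range m).filter (fun k => x ∈ C k (b k))).card ≤ γ) ∧
      (∀ k < m, ∀ k' < m, k ≠ k' → ∀ i ∈ R k, ∀ c ∈ C k (b k), ∀ i' ∈ R k', ∀ c' ∈ C k' (b k'),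
        ¬ ((i = i' ∧ c = c') ∨ (i = c' ∧ c = i'))) := by
    intro m
    induction m with
    | zero =>
      intro _
      exact ⟨fun _ => 0, by simp, by simp, by simp⟩
    | succ m ih =>
      intro hm
      obtain ⟨b, hb1, hb2, hb3⟩ := ih (by omega)
      have hmN : m < N := by omega
      obtain ⟨b0, hb0, g1, g2, g3⟩ := step hγ R C cand hRn hR hC hCb hn hβ hbig hmN b hb1 hb2
      have hup : ∀ k < m, Function.update b m b0 k = b k := by
        intro k hk
        exact Function.update_of_ne (by omega) _ _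
      have hupm : Function.update b m b0 m = b0 := Function.update_self _ _ _
      refine ⟨Function.update b m b0, ?_, ?_, ?_⟩
      · intro k hk
        rcases Nat.lt_succ_iff_lt_or_eq.mp hk with h | h
        · rw [hup k h]
          exact hb1 k h
        · subst h
          rw [hupm]
          exact hb0
      · intro x hx
        rw [range_add_one, filter_insert]
        have e : (range m).filter (fun k => x ∈ C k (Function.update b m b0 k)) =
            (range m).filter (fun k => x ∈ C k (b k)) := by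
          apply filter_congr
          intro k hk
          rw [hup k (mem_range.mp hk)]
        rw [e, hupm]
        split_ifs with hxc
        · refine (card_insert_le _ _).trans ?_
          have := g1 x hxc hx
          omega
        · exact hb2 x hx
      · intro k hk k' hk' hne i hi c hc i' hi' c' hc'
        rcases Nat.lt_succ_iff_lt_or_eq.mp hk with h | h
        · rw [hup k h] at hc
          rcases Nat.lt_succ_iff_lt_or_eq.mp hk' with h' | h'
          · rw [hup k' h'] at hc'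
            exact hb3 k h k' h' hne i hi c hc i' hi' c' hc'
          · subst h'
            rw [hupm] at hc'
            rintro (⟨e1, e2⟩ | ⟨e1, e2⟩)
            · exact g2 i' hi' c' hc' k h i hi c hc ⟨e1.symm, e2.symm⟩
            · exact g3 i' hi' c' hc' k h i hi c hc ⟨e2.symm, e1.symm⟩
        · subst h
          rw [hupm] at hc
          rcases Nat.lt_succ_iff_lt_or_eq.mp hk' with h' | h'
          · rw [hup k' h'] at hc'
            rintro (⟨e1, e2⟩ | ⟨e1, e2⟩)
            · exact g2 i hi c hc k' h' i' hi' c' hc' ⟨e1, e2⟩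
            · exact g3 i hi c hc k' h' i' hi' c' hc' ⟨e1, e2⟩
          · exact absurd h'.symm hne
  exact key N le_rfl

/-- the same with the numbers of this project: `γ = 32 h² n₁` -/
theorem greedyH {n h N n₁ β : ℕ} (hh : 10 ^ 6 ≤ h) (hhn : h ^ 100 ≤ n) (hβn : n ≤ β * h ^ 2)
    (hN : N ≤ n * n₁) (h1 : 1 ≤ n₁) (hn₁ : n₁ ≤ h ^ 95) (R : ℕ → Finset ℕ)
    (C : ℕ → ℕ → Finset ℕ) (cand : ℕ → Finset ℕ) (hRn : ∀ k < N, R k ⊆ range n)
    (hR : ∀ k < N, (R k).card ≤ 4)
    (hC : ∀ k < N, ∀ b ∈ cand k, C k b ⊆ range n ∧ (C k b).card ≤ 2)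
    (hCb : ∀ k < N, ∀ x, ((cand k).filter (fun b => x ∈ C k b)).card ≤ 2)
    (hn : ∀ x < n, ((range N).filter (fun k => x ∈ R k)).card ≤ n₁)
    (hβ : ∀ k < N, β ≤ (cand k).card) :
    ∃ b : ℕ → ℕ, (∀ k < N, b k ∈ cand k) ∧
      (∀ x < n, ((range N).filter (fun k => x ∈ C k (b k))).card ≤ 32 * h ^ 2 * n₁) ∧
      (∀ k < N, ∀ k' < N, k ≠ k' → ∀ i ∈ R k, ∀ c ∈ C k (b k), ∀ i' ∈ R k', ∀ c' ∈ C k' (b k'),
        ¬ ((i = i' ∧ c = c') ∨ (i = c' ∧ c = i'))) := by
  have hh0 : 0 < h := by omega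
  refine greedy (γ := 32 * h ^ 2 * n₁) ?_ R C cand hRn hR hC hCb hn hβ ?_
  · have : 1 ≤ h ^ 2 := Nat.one_le_pow _ _ hh0
    nlinarith
  · -- 4 N ≤ 4 n n₁, β γ ≥ 32 n n₁, (16 n₁ + 32 γ) γ ≤ 33280 h⁴ n₁² < 28 n n₁
    have e1 : 33280 * h ^ 4 * n₁ < 28 * n := by
      have a1 : h ^ 4 * n₁ ≤ h ^ 99 := by
        calc h ^ 4 * n₁ ≤ h ^ 4 * h ^ 95 := Nat.mul_le_mul_left _ hn₁
          _ = h ^ 99 := by rw [← pow_add]
      have a2 : 1189 * h ^ 99 < h ^ 100 := by
        rw [show h ^ 100 = h * h ^ 99 by ring]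
        exact Nat.mul_lt_mul_of_pos_right (by omega) (by positivity)
      nlinarith
    have e2 : (16 * n₁ + 32 * (32 * h ^ 2 * n₁)) * (32 * h ^ 2 * n₁) ≤ 33280 * h ^ 4 * n₁ * n₁ := by
      have a1 : 1 ≤ h ^ 2 := Nat.one_le_pow _ _ hh0
      have a2 : 16 * n₁ + 32 * (32 * h ^ 2 * n₁) ≤ 1040 * h ^ 2 * n₁ := by nlinarith
      calc (16 * n₁ + 32 * (32 * h ^ 2 * n₁)) * (32 * h ^ 2 * n₁)
          ≤ (1040 * h ^ 2 * n₁) * (32 * h ^ 2 * n₁) := Nat.mul_le_mul_right _ a2
        _ = 33280 * h ^ 4 * n₁ * n₁ := by ring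
    have e3 : 32 * n * n₁ ≤ β * (32 * h ^ 2 * n₁) := by
      calc 32 * n * n₁ ≤ 32 * (β * h ^ 2) * n₁ := by
            apply Nat.mul_le_mul_right
            exact Nat.mul_le_mul_left _ hβn
        _ = β * (32 * h ^ 2 * n₁) := by ring
    have e4 : 33280 * h ^ 4 * n₁ * n₁ < 28 * n * n₁ := Nat.mul_lt_mul_of_pos_right e1 (by omega)
    nlinarith

end HDT
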