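import Mathlib

/-! # The integrals `∫_{-1}^{1} t^{2a} (1 - t²)^j dt` and `∫_0^{2π} cos^m θ dθ`

PLAN. `betaInt`: induction on `j` generalizing `a`. `j = 0`: `∫ t^(2a) = 2 / (2a+1)`
(`integral_pow`), and the right side is `2 (2a)! a! / (a! (2a+1)!) = 2 / (2a+1)`.
Step: `(2a+1) B(a, j+1) = 2 (j+1) B(a+1, j)` by integration by parts, i.e. by
`integral_deriv_eq_sub` (or `intervalIntegral.integral_eq_sub_of_hasDerivAt`) for
`t^(2a+1) (1-t²)^(j+1)` which vanishes at `±1` and has the derivative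
`(2a+1) t^(2a) (1-t²)^(j+1) - 2 (j+1) t^(2a+2) (1-t²)^j`. Then the factorial identity
`(2a+2)! = (2a+2)(2a+1)(2a)!`, `(a+1)! = (a+1) a!`, `4^(j+1) = 4 4^j`, `(j+1)! = (j+1) j!`;
note `a + (j+1) = (a+1) + j`.
`betaInt_odd`: odd integrand, substitution `t ↦ -t` (`intervalIntegral.integral_comp_neg`).
`cosEven`: induction on `j` with the recurrence `integral_cos_pow`
(`∫ cos^(n+2) = (cos^(n+1) b sin b - cos^(n+1) a sin a)/(n+2) + (n+1)/(n+2) ∫ cos^n`), boundary terms
vanish as `sin 0 = sin (2π) = 0`; `choose (2j+2) (j+1) * (j+1) = 2 (2j+1) choose (2j) j`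
(`Nat.succ_mul_centralBinom_succ`). `cosOdd`: the same recurrence from `∫ cos = 0`. -/

namespace HDT

open Real

private theorem kb_step (a j : ℕ) :
    ((2 * a + 1 : ℕ) : ℝ) * (∫ t in (-1 : ℝ)..1, t ^ (2 * a) * (1 - t ^ 2) ^ (j + 1)) =
      2 * ((j + 1 : ℕ) : ℝ) * ∫ t in (-1 : ℝ)..1, t ^ (2 * (a + 1)) * (1 - t ^ 2) ^ j := by
  have hd : ∀ t : ℝ, HasDerivAt (fun t : ℝ => t ^ (2 * a + 1) * (1 - t ^ 2) ^ (j + 1))
      (((2 * a + 1 : ℕ) : ℝ) * (t ^ (2 * a) * (1 - t ^ 2) ^ (j + 1)) -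
        2 * ((j + 1 : ℕ) : ℝ) * (t ^ (2 * (a + 1)) * (1 - t ^ 2) ^ j)) t := by
    intro t
    have h1 : HasDerivAt (fun t : ℝ => t ^ (2 * a + 1)) (((2 * a + 1 : ℕ) : ℝ) * t ^ (2 * a)) t := by
      have := hasDerivAt_pow (2 * a + 1) t
      simpa using this
    have h2 : HasDerivAt (fun t : ℝ => 1 - t ^ 2) (-(2 * t)) t := by
      have := (hasDerivAt_pow 2 t).const_sub 1
      simpa using this
    have h3 : HasDerivAt (fun t : ℝ => (1 - t ^ 2) ^ (j + 1))
        (((j + 1 : ℕ) : ℝ) * (1 - t ^ 2) ^ j * (-(2 * t))) t := by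
      have := h2.fun_pow (j + 1)
      simpa using this
    have h4 := h1.fun_mul h3
    refine h4.congr_deriv ?_
    push_cast
    ring
  have hc1 : Continuous (fun t : ℝ => ((2 * a + 1 : ℕ) : ℝ) * (t ^ (2 * a) * (1 - t ^ 2) ^ (j + 1))) := by
    fun_prop
  have hc2 : Continuous (fun t : ℝ => 2 * ((j + 1 : ℕ) : ℝ) * (t ^ (2 * (a + 1)) * (1 - t ^ 2) ^ j)) := by
    fun_prop
  have hI := intervalIntegral.integral_eq_sub_of_hasDerivAt (a := -1) (b := 1)
    (fun t _ => hd t) ((hc1.sub hc2).intervalIntegrable _ _)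
  rw [intervalIntegral.integral_sub (hc1.intervalIntegrable _ _) (hc2.intervalIntegrable _ _),
    intervalIntegral.integral_const_mul, intervalIntegral.integral_const_mul] at hI
  have h0 : (fun t : ℝ => t ^ (2 * a + 1) * (1 - t ^ 2) ^ (j + 1)) 1 -
      (fun t : ℝ => t ^ (2 * a + 1) * (1 - t ^ 2) ^ (j + 1)) (-1) = 0 := by
    norm_num
  simp only at h0
  rw [h0] at hI
  linarith

theorem betaInt (a j : ℕ) : ∫ t in (-1 : ℝ)..1, t ^ (2 * a) * (1 - t ^ 2) ^ j =
    2 * ((2 * a).factorial * j.factorial * 4 ^ j * (a + j).factorial : ℝ) /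
      (a.factorial * (2 * (a + j) + 1).factorial) := by
  induction j generalizing a with
  | zero =>
    simp only [pow_zero, mul_one, integral_pow, Nat.factorial_zero, Nat.cast_one, add_zero]
    have h1 : ((2 * a + 1).factorial : ℝ) = (2 * a + 1) * (2 * a).factorial := by
      rw [Nat.factorial_succ]; push_cast; ring
    have h2 : ((2 * a).factorial : ℝ) ≠ 0 := by exact_mod_cast Nat.factorial_ne_zero _
    have h3 : (a.factorial : ℝ) ≠ 0 := by exact_mod_cast Nat.factorial_ne_zero _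
    have h4 : (2 * (a : ℝ) + 1) ≠ 0 := by positivity
    have h5 : (-1 : ℝ) ^ (2 * a + 1) = -1 := by
      rw [pow_succ, pow_mul]; norm_num
    rw [h1, h5]
    push_cast
    field_simp
    ring
  | succ j ih =>
    have hs := kb_step a j
    have h4 : ((2 * a + 1 : ℕ) : ℝ) ≠ 0 := by positivity
    have hs' : (∫ t in (-1 : ℝ)..1, t ^ (2 * a) * (1 - t ^ 2) ^ (j + 1)) =
        (2 * ((j + 1 : ℕ) : ℝ) * ∫ t in (-1 : ℝ)..1, t ^ (2 * (a + 1)) * (1 - t ^ 2) ^ j) /
          ((2 * a + 1 : ℕ) : ℝ) := by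
      rw [eq_div_iff h4, mul_comm]
      exact hs
    rw [hs', ih (a + 1)]
    have e1 : a + 1 + j = a + (j + 1) := by ring
    rw [e1]
    have h1 : ((2 * (a + 1)).factorial : ℝ) = (2 * a + 2) * (2 * a + 1) * (2 * a).factorial := by
      have : 2 * (a + 1) = (2 * a + 1) + 1 := by ring
      rw [this, Nat.factorial_succ, Nat.factorial_succ]; push_cast; ring
    have h2 : ((a + 1).factorial : ℝ) = (a + 1) * a.factorial := by
      rw [Nat.factorial_succ]; push_cast; ring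
    have h3 : ((j + 1).factorial : ℝ) = (j + 1) * j.factorial := by
      rw [Nat.factorial_succ]; push_cast; ring
    have h5 : (a.factorial : ℝ) ≠ 0 := by exact_mod_cast Nat.factorial_ne_zero _
    have h6 : ((2 * (a + (j + 1)) + 1).factorial : ℝ) ≠ 0 := by
      exact_mod_cast Nat.factorial_ne_zero _
    have h7 : (2 * (a : ℝ) + 1) ≠ 0 := by positivity
    have h8 : ((a : ℝ) + 1) ≠ 0 := by positivity
    rw [h1, h2, h3]
    push_cast
    field_simp
    ring

theorem betaInt_odd (a j : ℕ) : ∫ t in (-1 : ℝ)..1, t ^ (2 * a + 1) * (1 - t ^ 2) ^ j = 0 := by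
  have h := intervalIntegral.integral_comp_neg (a := -1) (b := 1)
    (fun t : ℝ => t ^ (2 * a + 1) * (1 - t ^ 2) ^ j)
  have h1 : ∀ t : ℝ, (-t) ^ (2 * a + 1) * (1 - (-t) ^ 2) ^ j =
      -(t ^ (2 * a + 1) * (1 - t ^ 2) ^ j) := by
    intro t
    rw [Odd.neg_pow ⟨a, rfl⟩, neg_sq]
    ring
  simp only [h1, intervalIntegral.integral_neg, neg_neg] at h
  linarith

theorem cosEven (j : ℕ) : ∫ θ in (0 : ℝ)..(2 * π), cos θ ^ (2 * j) =
    2 * π * ((2 * j).choose j : ℝ) / 4 ^ j := by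
  induction j with
  | zero => simp
  | succ j ih =>
    have e : 2 * (j + 1) = 2 * j + 2 := by ring
    rw [e, integral_cos_pow, ih]
    simp only [sin_two_pi, sin_zero, mul_zero, sub_zero, zero_div, zero_add]
    have h1 : (((2 * j + 2).choose (j + 1) : ℕ) : ℝ) * (j + 1) =
        2 * (2 * j + 1) * ((2 * j).choose j : ℝ) := by
      have := Nat.succ_mul_centralBinom_succ j
      unfold Nat.centralBinom at this
      have h2 : 2 * (j + 1) = 2 * j + 2 := by ring
      rw [h2] at this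
      have h3 : (((j + 1) * (2 * j + 2).choose (j + 1) : ℕ) : ℝ) =
          ((2 * (2 * j + 1) * (2 * j).choose j : ℕ) : ℝ) := by exact_mod_cast this
      push_cast at h3
      linarith
    have h4 : ((j : ℝ) + 1) ≠ 0 := by positivity
    have h5 : (((2 * j + 2).choose (j + 1) : ℕ) : ℝ) =
        2 * (2 * j + 1) * ((2 * j).choose j : ℝ) / (j + 1) := by
      rw [eq_div_iff h4]; exact h1
    rw [h5]
    push_cast
    field_simp
    ring

theorem cosOdd (j : ℕ) : ∫ θ in (0 : ℝ)..(2 * π), cos θ ^ (2 * j + 1) = 0 := by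
  induction j with
  | zero => simp
  | succ j ih =>
    have e : 2 * (j + 1) + 1 = (2 * j + 1) + 2 := by ring
    rw [e, integral_cos_pow, ih]
    simp

end HDT
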