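import Pool.Agent.Helper23.HDT.KBeta

/-! # The zonal kernels of the monomials

`Mk k s t = (1/2π) ∫ (s t + √(1-s²) √(1-t²) cos θ)^k dθ`, written as a polynomial.

PLAN. `Mk_symm`: clear. `Mk_avg`: expand `(x + y cos θ)^k` by the binomial theorem (`add_pow`),
integrate term by term; the odd powers of `cos` vanish (`cosOdd`), the even ones give
`choose (2j) j / 4^j` (`cosEven`), and `(√(1-s²) √(1-t²))^(2j) = ((1-s²)(1-t²))^j` (`Real.sq_sqrt`).
The sum over `m ∈ range (k+1)` restricted to even `m = 2 j` is the sum over `j ∈ range (k/2+1)`.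
`Mk_int` (weight 1): `k = 2K`: term `j`: `choose (2K) (2j) * (choose (2j) j / 4^j) * s^(2K-2j) *
(1-s²)^j * ∫ t^(2(K-j)) (1-t²)^j` and by `betaInt` with `a = K - j` this is
`choose K j * (2/(2K+1)) * (s²)^(K-j) (1-s²)^j`; the sum over `j ≤ K` is `2/(2K+1)` by the binomial
theorem for `(s² + (1-s²))^K = 1`. Coefficient identity:
`(2K)!/((2j)!(2a)!) * (2j)!/(j! j! 4^j) * 2 (2a)! j! 4^j K!/(a! (2K+1)!) = 2 K!/(j! a! (2K+1))`.
`k` odd: all integrands are odd (`betaInt_odd`), both sides are `0`.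
`Mk_int_mul` (weight `t`): `k = 2K+1`: `t^(2K+1-2j) * t = t^(2(K+1-j))`, `a = K+1-j`, `a + j = K+1`;
coefficient: `(2K+1)!/((2j)!(2K+1-2j)!) * (2j)!/(j!j!4^j) * 2 (2a)! j! 4^j (K+1)!/(a!(2K+3)!)
= 2 choose K j /(2K+3)` [use `(2a)! = (2K+2-2j)(2K+1-2j)!`]; the sum is `s * 2/(2K+3)`.
`k` even: odd integrands, both sides `0`. -/

namespace HDT

open Real Finset

/-- zonal kernel of `z^k` -/
noncomputable def Mk (k : ℕ) (s t : ℝ) : ℝ :=
  ∑ j ∈ range (k / 2 + 1), ((k.choose (2 * j) : ℝ) * (((2 * j).choose j : ℝ) / 4 ^ j)) *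
    ((s * t) ^ (k - 2 * j) * ((1 - s ^ 2) * (1 - t ^ 2)) ^ j)

theorem Mk_symm (k : ℕ) (s t : ℝ) : Mk k s t = Mk k t s := by
  unfold Mk
  refine Finset.sum_congr rfl (fun j _ => ?_)
  rw [mul_comm s t, mul_comm (1 - s ^ 2) (1 - t ^ 2)]

private theorem sum_even (f : ℕ → ℝ) (hf : ∀ j, f (2 * j + 1) = 0) (k : ℕ) :
    ∑ m ∈ range (k + 1), f m = ∑ j ∈ range (k / 2 + 1), f (2 * j) := by
  induction k with
  | zero => simp
  | succ k ih =>
    rw [Finset.sum_range_succ, ih]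
    rcases Nat.even_or_odd' k with ⟨l, hl | hl⟩
    · have h1 : (k + 1) / 2 = k / 2 := by omega
      rw [h1, hl, hf l, add_zero]
    · have h1 : (k + 1) / 2 = k / 2 + 1 := by omega
      have h2 : 2 * (k / 2 + 1) = k + 1 := by omega
      rw [h1, Finset.sum_range_succ _ (k / 2 + 1), h2]

theorem Mk_avg (k : ℕ) {s t : ℝ} (hs : s ∈ Set.Icc (-1 : ℝ) 1) (ht : t ∈ Set.Icc (-1 : ℝ) 1) :
    Mk k s t = (1 / (2 * π)) *
      ∫ θ in (0 : ℝ)..(2 * π), (s * t + √(1 - s ^ 2) * √(1 - t ^ 2) * cos θ) ^ k := by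
  have hs1 : 0 ≤ 1 - s ^ 2 := by nlinarith [hs.1, hs.2]
  have ht1 : 0 ≤ 1 - t ^ 2 := by nlinarith [ht.1, ht.2]
  have e1 : ∀ θ : ℝ, (s * t + √(1 - s ^ 2) * √(1 - t ^ 2) * cos θ) ^ k =
      ∑ m ∈ range (k + 1), ((√(1 - s ^ 2) * √(1 - t ^ 2)) ^ m * (s * t) ^ (k - m) *
        (k.choose m : ℝ)) * cos θ ^ m := by
    intro θ
    rw [add_comm, add_pow]
    apply Finset.sum_congr rfl
    intro m _
    rw [mul_pow]
    ring
  have e2 : ∫ θ in (0 : ℝ)..(2 * π), (s * t + √(1 - s ^ 2) * √(1 - t ^ 2) * cos θ) ^ k =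
      ∑ m ∈ range (k + 1), ((√(1 - s ^ 2) * √(1 - t ^ 2)) ^ m * (s * t) ^ (k - m) *
        (k.choose m : ℝ)) * ∫ θ in (0 : ℝ)..(2 * π), cos θ ^ m := by
    simp only [e1]
    rw [intervalIntegral.integral_finsetSum]
    · apply Finset.sum_congr rfl
      intro m _
      rw [intervalIntegral.integral_const_mul]
    · intro m _
      apply Continuous.intervalIntegrable
      fun_prop
  rw [e2, sum_even _ (fun j => by rw [cosOdd, mul_zero]), Finset.mul_sum]
  unfold Mk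
  apply Finset.sum_congr rfl
  intro j _
  have h1 : (√(1 - s ^ 2) * √(1 - t ^ 2)) ^ (2 * j) = ((1 - s ^ 2) * (1 - t ^ 2)) ^ j := by
    rw [pow_mul, mul_pow, Real.sq_sqrt hs1, Real.sq_sqrt ht1]
  rw [cosEven, h1]
  have hπ : π ≠ 0 := Real.pi_ne_zero
  field_simp

private theorem term_even (a j : ℕ) :
    (((2 * (j + a)).choose (2 * j) : ℕ) : ℝ) * (((2 * j).choose j : ℝ) / 4 ^ j) *
      (∫ t in (-1 : ℝ)..1, t ^ (2 * a) * (1 - t ^ 2) ^ j) =
      2 / (2 * ((j : ℝ) + a) + 1) * (((j + a).choose j : ℕ) : ℝ) := by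
  have h1 : (((2 * (j + a)).choose (2 * j) : ℕ) : ℝ) =
      (2 * (j + a)).factorial / ((2 * j).factorial * (2 * a).factorial) := by
    rw [mul_add, Nat.cast_add_choose]
  have h2 : (((2 * j).choose j : ℕ) : ℝ) = (2 * j).factorial / (j.factorial * j.factorial) := by
    rw [two_mul, Nat.cast_add_choose]
  have h3 : (((j + a).choose j : ℕ) : ℝ) = (j + a).factorial / (j.factorial * a.factorial) := by
    rw [Nat.cast_add_choose]
  have h4 : ((2 * (j + a) + 1).factorial : ℝ) =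
      (2 * ((j : ℝ) + a) + 1) * (2 * (j + a)).factorial := by
    rw [Nat.factorial_succ]
    push_cast
    ring
  rw [betaInt, h1, h2, h3, add_comm a j, h4]
  have p1 : ((2 * (j + a)).factorial : ℝ) ≠ 0 := Nat.cast_ne_zero.2 (Nat.factorial_ne_zero _)
  have p2 : ((2 * j).factorial : ℝ) ≠ 0 := Nat.cast_ne_zero.2 (Nat.factorial_ne_zero _)
  have p3 : ((2 * a).factorial : ℝ) ≠ 0 := Nat.cast_ne_zero.2 (Nat.factorial_ne_zero _)
  have p4 : (j.factorial : ℝ) ≠ 0 := Nat.cast_ne_zero.2 (Nat.factorial_ne_zero _)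
  have p5 : (a.factorial : ℝ) ≠ 0 := Nat.cast_ne_zero.2 (Nat.factorial_ne_zero _)
  have p6 : (2 * ((j : ℝ) + a) + 1) ≠ 0 := by positivity
  field_simp

private theorem term_odd (a j : ℕ) :
    (((2 * (j + a) + 1).choose (2 * j) : ℕ) : ℝ) * (((2 * j).choose j : ℝ) / 4 ^ j) *
      (∫ t in (-1 : ℝ)..1, t ^ (2 * (a + 1)) * (1 - t ^ 2) ^ j) =
      2 / (2 * ((j : ℝ) + a) + 3) * (((j + a).choose j : ℕ) : ℝ) := by
  have h1 : (((2 * (j + a) + 1).choose (2 * j) : ℕ) : ℝ) =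
      (2 * (j + a) + 1).factorial / ((2 * j).factorial * (2 * a + 1).factorial) := by
    rw [mul_add, add_assoc, Nat.cast_add_choose]
  have h2 : (((2 * j).choose j : ℕ) : ℝ) = (2 * j).factorial / (j.factorial * j.factorial) := by
    rw [two_mul, Nat.cast_add_choose]
  have h3 : (((j + a).choose j : ℕ) : ℝ) = (j + a).factorial / (j.factorial * a.factorial) := by
    rw [Nat.cast_add_choose]
  have h4 : ((2 * (a + 1 + j) + 1).factorial : ℝ) =
      (2 * ((j : ℝ) + a) + 3) * ((2 * ((j : ℝ) + a) + 2) * (2 * (j + a) + 1).factorial) := by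
    have e1 : 2 * (a + 1 + j) + 1 = (2 * (j + a) + 1) + 1 + 1 := by ring
    rw [e1, Nat.factorial_succ, Nat.factorial_succ]
    push_cast
    ring
  have h5 : ((2 * (a + 1)).factorial : ℝ) = (2 * ((a : ℝ) + 1)) * (2 * a + 1).factorial := by
    have e1 : 2 * (a + 1) = (2 * a + 1) + 1 := by ring
    rw [e1, Nat.factorial_succ]
    push_cast
    ring
  have h6 : ((a + 1).factorial : ℝ) = ((a : ℝ) + 1) * a.factorial := by
    rw [Nat.factorial_succ]
    push_cast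
    ring
  have h7 : ((a + 1 + j).factorial : ℝ) = ((j : ℝ) + a + 1) * (j + a).factorial := by
    have e1 : a + 1 + j = (j + a) + 1 := by ring
    rw [e1, Nat.factorial_succ]
    push_cast
    ring
  rw [betaInt, h1, h2, h3, h4, h5, h6, h7]
  have p1 : ((2 * (j + a) + 1).factorial : ℝ) ≠ 0 := Nat.cast_ne_zero.2 (Nat.factorial_ne_zero _)
  have p2 : ((2 * j).factorial : ℝ) ≠ 0 := Nat.cast_ne_zero.2 (Nat.factorial_ne_zero _)
  have p3 : ((2 * a + 1).factorial : ℝ) ≠ 0 := Nat.cast_ne_zero.2 (Nat.factorial_ne_zero _)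
  have p4 : (j.factorial : ℝ) ≠ 0 := Nat.cast_ne_zero.2 (Nat.factorial_ne_zero _)
  have p5 : (a.factorial : ℝ) ≠ 0 := Nat.cast_ne_zero.2 (Nat.factorial_ne_zero _)
  have p6 : (2 * ((j : ℝ) + a) + 3) ≠ 0 := by positivity
  have p7 : (2 * ((j : ℝ) + a) + 2) ≠ 0 := by positivity
  have p8 : ((a : ℝ) + 1) ≠ 0 := by positivity
  field_simp

private theorem int_sum (k e : ℕ) (s : ℝ) :
    ∫ t in (-1 : ℝ)..1, Mk k s t * t ^ e =
      ∑ j ∈ range (k / 2 + 1), (s ^ (k - 2 * j) * (1 - s ^ 2) ^ j) *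
        ((k.choose (2 * j) : ℝ) * (((2 * j).choose j : ℝ) / 4 ^ j) *
          ∫ t in (-1 : ℝ)..1, t ^ (k - 2 * j + e) * (1 - t ^ 2) ^ j) := by
  unfold Mk
  simp only [Finset.sum_mul]
  rw [intervalIntegral.integral_finsetSum]
  · apply Finset.sum_congr rfl
    intro j _
    rw [← mul_assoc, ← intervalIntegral.integral_const_mul]
    congr 1
    funext t
    rw [mul_pow, mul_pow, pow_add]
    ring
  · intro j _
    apply Continuous.intervalIntegrable
    fun_prop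

private theorem binom_one (K : ℕ) (s : ℝ) :
    ∑ j ∈ range (K + 1), (s ^ 2) ^ (K - j) * (1 - s ^ 2) ^ j * ((K.choose j : ℕ) : ℝ) = 1 := by
  have h := add_pow (1 - s ^ 2) (s ^ 2) K
  rw [sub_add_cancel, one_pow] at h
  refine Eq.trans ?_ h.symm
  apply Finset.sum_congr rfl
  intro j _
  ring

private theorem int_pow_even (K : ℕ) : ∫ z in (-1 : ℝ)..1, z ^ (2 * K) = 2 / (2 * (K : ℝ) + 1) := by
  have h := term_even K 0
  simp only [Nat.mul_zero, Nat.choose_zero_right, Nat.cast_one, pow_zero, div_one,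
    one_mul, mul_one, Nat.cast_zero, zero_add] at h
  exact h

private theorem int_pow_odd (K : ℕ) : ∫ z in (-1 : ℝ)..1, z ^ (2 * K + 1) = 0 := by
  have h := betaInt_odd K 0
  simp only [pow_zero, mul_one] at h
  exact h

theorem Mk_int (k : ℕ) (s : ℝ) :
    ∫ t in (-1 : ℝ)..1, Mk k s t = ∫ z in (-1 : ℝ)..1, z ^ k := by
  have h0 : ∫ t in (-1 : ℝ)..1, Mk k s t = ∫ t in (-1 : ℝ)..1, Mk k s t * t ^ 0 := by
    simp only [pow_zero, mul_one]
  rw [h0, int_sum]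
  rcases Nat.even_or_odd' k with ⟨K, hK | hK⟩
  · subst hK
    have hK2 : 2 * K / 2 = K := by omega
    rw [hK2, int_pow_even]
    have e1 : ∀ j ∈ range (K + 1), (s ^ (2 * K - 2 * j) * (1 - s ^ 2) ^ j) *
        (((2 * K).choose (2 * j) : ℝ) * (((2 * j).choose j : ℝ) / 4 ^ j) *
          ∫ t in (-1 : ℝ)..1, t ^ (2 * K - 2 * j + 0) * (1 - t ^ 2) ^ j) =
        2 / (2 * (K : ℝ) + 1) * ((s ^ 2) ^ (K - j) * (1 - s ^ 2) ^ j * ((K.choose j : ℕ) : ℝ)) := by
      intro j hj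
      rw [Finset.mem_range] at hj
      obtain ⟨a, rfl⟩ : ∃ a, K = j + a := ⟨K - j, by omega⟩
      have h1 : 2 * (j + a) - 2 * j = 2 * a := by omega
      have h2 : j + a - j = a := by omega
      rw [h1, h2, add_zero, term_even, ← pow_mul]
      push_cast
      ring
    rw [Finset.sum_congr rfl e1, ← Finset.mul_sum, binom_one, mul_one]
  · subst hK
    rw [int_pow_odd]
    apply Finset.sum_eq_zero
    intro j hj
    rw [Finset.mem_range] at hj
    have h1 : 2 * K + 1 - 2 * j + 0 = 2 * (K - j) + 1 := by omega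
    rw [h1, betaInt_odd, mul_zero, mul_zero]

theorem Mk_int_mul (k : ℕ) (s : ℝ) :
    ∫ t in (-1 : ℝ)..1, Mk k s t * t = s * ∫ z in (-1 : ℝ)..1, z ^ k * z := by
  have h0 : ∫ t in (-1 : ℝ)..1, Mk k s t * t = ∫ t in (-1 : ℝ)..1, Mk k s t * t ^ 1 := by
    simp only [pow_one]
  have h00 : ∫ z in (-1 : ℝ)..1, z ^ k * z = ∫ z in (-1 : ℝ)..1, z ^ (k + 1) := by
    simp only [pow_succ]
  rw [h0, h00, int_sum]
  rcases Nat.even_or_odd' k with ⟨K, hK | hK⟩
  · subst hK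
    rw [int_pow_odd, mul_zero]
    apply Finset.sum_eq_zero
    intro j hj
    rw [Finset.mem_range] at hj
    have h1 : 2 * K - 2 * j + 1 = 2 * (K - j) + 1 := by omega
    rw [h1, betaInt_odd, mul_zero, mul_zero]
  · subst hK
    have hK2 : (2 * K + 1) / 2 = K := by omega
    have hK3 : 2 * K + 1 + 1 = 2 * (K + 1) := by ring
    rw [hK2, hK3, int_pow_even]
    have e1 : ∀ j ∈ range (K + 1), (s ^ (2 * K + 1 - 2 * j) * (1 - s ^ 2) ^ j) *
        (((2 * K + 1).choose (2 * j) : ℝ) * (((2 * j).choose j : ℝ) / 4 ^ j) *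
          ∫ t in (-1 : ℝ)..1, t ^ (2 * K + 1 - 2 * j + 1) * (1 - t ^ 2) ^ j) =
        s * (2 / (2 * (K : ℝ) + 3)) *
          ((s ^ 2) ^ (K - j) * (1 - s ^ 2) ^ j * ((K.choose j : ℕ) : ℝ)) := by
      intro j hj
      rw [Finset.mem_range] at hj
      obtain ⟨a, rfl⟩ : ∃ a, K = j + a := ⟨K - j, by omega⟩
      have h1 : 2 * (j + a) + 1 - 2 * j = 2 * a + 1 := by omega
      have h2 : j + a - j = a := by omega
      have h3 : 2 * a + 1 + 1 = 2 * (a + 1) := by ring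
      rw [h1, h2, h3, term_odd, ← pow_mul, pow_succ]
      push_cast
      ring
    rw [Finset.sum_congr rfl e1, ← Finset.mul_sum, binom_one, mul_one]
    push_cast
    ring_nf

end HDT
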