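import Pool.Agent.Helper23.HDT.KMon

/-! # The zonal kernel of a polynomial

PLAN. `WP q s t = ∑_k q_k Mk k s t`. Symmetry, integrals: linearity and `Mk_symm`, `Mk_int`,
`Mk_int_mul`, `Polynomial.eval_eq_sum_range`. `WP_mem`: by `Mk_avg`
`WP q s t = (1/2π) ∫ q(s t + √(1-s²)√(1-t²) cos θ) dθ`, the argument lies in `[-1, 1]`:
`|s t| + √(1-s²)√(1-t²) ≤ 1` (Cauchy–Schwarz: `|s||t| ≤ (s²+t²)/2`,
`√(1-s²)√(1-t²) ≤ (2 - s² - t²)/2`), so the average lies in `[m, M]`
(`intervalIntegral.integral_mono_on`). `WP_lip`: `WP q` is a polynomial function of `(s, t)`, hence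
continuously differentiable; e.g. it suffices to treat `Mk k`, products and sums of Lipschitz bounded
functions: or use that `(s, t) ↦ ∂_t WP q s t` is continuous, so bounded on the compact square by
`K`, and the mean value inequality `Convex.norm_image_sub_le_of_norm_deriv_le` in `t`. -/

namespace HDT

open Real Finset

/-- zonal kernel of a polynomial -/
noncomputable def WP (q : Polynomial ℝ) (s t : ℝ) : ℝ :=
  ∑ k ∈ range (q.natDegree + 1), q.coeff k * Mk k s t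

theorem WP_symm (q : Polynomial ℝ) (s t : ℝ) : WP q s t = WP q t s := by
  unfold WP
  exact Finset.sum_congr rfl (fun k _ => by rw [Mk_symm])

private theorem Mk_cont (k : ℕ) (s : ℝ) : Continuous (fun t => Mk k s t) := by
  unfold Mk
  fun_prop

private theorem WP_avg (q : Polynomial ℝ) {s t : ℝ} (hs : s ∈ Set.Icc (-1 : ℝ) 1)
    (ht : t ∈ Set.Icc (-1 : ℝ) 1) :
    WP q s t = (1 / (2 * π)) *
      ∫ θ in (0 : ℝ)..(2 * π), q.eval (s * t + √(1 - s ^ 2) * √(1 - t ^ 2) * cos θ) := by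
  have h1 : ∀ θ : ℝ, q.eval (s * t + √(1 - s ^ 2) * √(1 - t ^ 2) * cos θ) =
      ∑ k ∈ range (q.natDegree + 1),
        q.coeff k * (s * t + √(1 - s ^ 2) * √(1 - t ^ 2) * cos θ) ^ k := by
    intro θ
    rw [Polynomial.eval_eq_sum_range]
  rw [intervalIntegral.integral_congr (fun θ _ => h1 θ),
    intervalIntegral.integral_finsetSum, mul_sum]
  · unfold WP
    refine sum_congr rfl fun k _ => ?_
    rw [Mk_avg k hs ht, intervalIntegral.integral_const_mul]
    ring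
  · intro k _
    apply Continuous.intervalIntegrable
    fun_prop

private theorem arg_mem {s t : ℝ} (hs : s ∈ Set.Icc (-1 : ℝ) 1) (ht : t ∈ Set.Icc (-1 : ℝ) 1)
    (θ : ℝ) : s * t + √(1 - s ^ 2) * √(1 - t ^ 2) * cos θ ∈ Set.Icc (-1 : ℝ) 1 := by
  have hs2 : 0 ≤ 1 - s ^ 2 := by nlinarith [hs.1, hs.2]
  have ht2 : 0 ≤ 1 - t ^ 2 := by nlinarith [ht.1, ht.2]
  have ha : √(1 - s ^ 2) ^ 2 = 1 - s ^ 2 := Real.sq_sqrt hs2
  have hb : √(1 - t ^ 2) ^ 2 = 1 - t ^ 2 := Real.sq_sqrt ht2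
  have hab : 0 ≤ √(1 - s ^ 2) * √(1 - t ^ 2) := by positivity
  have hc1 : √(1 - s ^ 2) * √(1 - t ^ 2) * cos θ ≤ √(1 - s ^ 2) * √(1 - t ^ 2) :=
    mul_le_of_le_one_right hab (Real.cos_le_one θ)
  have hc2 : -(√(1 - s ^ 2) * √(1 - t ^ 2)) ≤ √(1 - s ^ 2) * √(1 - t ^ 2) * cos θ := by
    nlinarith [Real.neg_one_le_cos θ]
  constructor
  · nlinarith [sq_nonneg (s + t), sq_nonneg (√(1 - s ^ 2) - √(1 - t ^ 2))]
  · nlinarith [sq_nonneg (s - t), sq_nonneg (√(1 - s ^ 2) - √(1 - t ^ 2))]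

theorem WP_mem (q : Polynomial ℝ) {m M : ℝ} (h : ∀ z ∈ Set.Icc (-1 : ℝ) 1, m ≤ q.eval z ∧
    q.eval z ≤ M) {s t : ℝ} (hs : s ∈ Set.Icc (-1 : ℝ) 1) (ht : t ∈ Set.Icc (-1 : ℝ) 1) :
    m ≤ WP q s t ∧ WP q s t ≤ M := by
  have hpi : (0 : ℝ) < 2 * π := by positivity
  have hcont : Continuous (fun θ : ℝ =>
      q.eval (s * t + √(1 - s ^ 2) * √(1 - t ^ 2) * cos θ)) := by fun_prop
  have hcst : ∀ c : ℝ, IntervalIntegrable (fun _ : ℝ => c) MeasureTheory.volume 0 (2 * π) :=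
    fun c => continuous_const.intervalIntegrable _ _
  have h1 : (2 * π) * m ≤
      ∫ θ in (0 : ℝ)..(2 * π), q.eval (s * t + √(1 - s ^ 2) * √(1 - t ^ 2) * cos θ) := by
    have h2 := intervalIntegral.integral_mono_on (a := (0 : ℝ)) (b := 2 * π)
      (f := fun _ => m) (g := fun θ => q.eval (s * t + √(1 - s ^ 2) * √(1 - t ^ 2) * cos θ))
      hpi.le (hcst m) (hcont.intervalIntegrable _ _)
      (fun θ _ => (h _ (arg_mem hs ht θ)).1)
    rw [intervalIntegral.integral_const, sub_zero, smul_eq_mul] at h2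
    exact h2
  have h1' : (∫ θ in (0 : ℝ)..(2 * π), q.eval (s * t + √(1 - s ^ 2) * √(1 - t ^ 2) * cos θ)) ≤
      (2 * π) * M := by
    have h2 := intervalIntegral.integral_mono_on (a := (0 : ℝ)) (b := 2 * π)
      (g := fun _ => M) (f := fun θ => q.eval (s * t + √(1 - s ^ 2) * √(1 - t ^ 2) * cos θ))
      hpi.le (hcont.intervalIntegrable _ _) (hcst M)
      (fun θ _ => (h _ (arg_mem hs ht θ)).2)
    rw [intervalIntegral.integral_const, sub_zero, smul_eq_mul] at h2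
    exact h2
  rw [WP_avg q hs ht, one_div, inv_mul_eq_div]
  constructor
  · rw [le_div_iff₀ hpi, mul_comm m]
    exact h1
  · rw [div_le_iff₀ hpi, mul_comm M]
    exact h1'

theorem WP_int (q : Polynomial ℝ) (s : ℝ) :
    ∫ t in (-1 : ℝ)..1, WP q s t = ∫ z in (-1 : ℝ)..1, q.eval z := by
  unfold WP
  rw [intervalIntegral.integral_finsetSum]
  · have h1 : ∀ z : ℝ, q.eval z = ∑ k ∈ range (q.natDegree + 1), q.coeff k * z ^ k := by
      intro z
      rw [Polynomial.eval_eq_sum_range]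
    rw [intervalIntegral.integral_congr (fun z _ => h1 z), intervalIntegral.integral_finsetSum]
    · refine sum_congr rfl fun k _ => ?_
      rw [intervalIntegral.integral_const_mul, intervalIntegral.integral_const_mul, Mk_int]
    · intro k _
      apply Continuous.intervalIntegrable
      fun_prop
  · intro k _
    exact (continuous_const.mul (Mk_cont k s)).intervalIntegrable _ _

theorem WP_int_mul (q : Polynomial ℝ) (s : ℝ) :
    ∫ t in (-1 : ℝ)..1, WP q s t * t = s * ∫ z in (-1 : ℝ)..1, q.eval z * z := by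
  have h0 : ∀ t : ℝ, WP q s t * t =
      ∑ k ∈ range (q.natDegree + 1), q.coeff k * (Mk k s t * t) := by
    intro t
    unfold WP
    rw [sum_mul]
    exact sum_congr rfl fun k _ => mul_assoc _ _ _
  have h1 : ∀ z : ℝ, q.eval z * z =
      ∑ k ∈ range (q.natDegree + 1), q.coeff k * (z ^ k * z) := by
    intro z
    rw [Polynomial.eval_eq_sum_range, sum_mul]
    exact sum_congr rfl fun k _ => mul_assoc _ _ _
  rw [intervalIntegral.integral_congr (fun t _ => h0 t),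
    intervalIntegral.integral_congr (fun z _ => h1 z), intervalIntegral.integral_finsetSum,
    intervalIntegral.integral_finsetSum, mul_sum]
  · refine sum_congr rfl fun k _ => ?_
    rw [intervalIntegral.integral_const_mul, intervalIntegral.integral_const_mul, Mk_int_mul]
    ring
  · intro k _
    apply Continuous.intervalIntegrable
    fun_prop
  · intro k _
    exact (continuous_const.mul ((Mk_cont k s).mul continuous_id)).intervalIntegrable _ _

theorem WP_lip (q : Polynomial ℝ) : ∃ K : ℝ, 0 ≤ K ∧ ∀ s ∈ Set.Icc (-1 : ℝ) 1,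
    ∀ t ∈ Set.Icc (-1 : ℝ) 1, ∀ t' ∈ Set.Icc (-1 : ℝ) 1,
      |WP q s t - WP q s t'| ≤ K * |t - t'| := by
  have hF : ContDiff ℝ 1 (fun p : ℝ × ℝ => WP q p.1 p.2) := by
    unfold WP Mk
    fun_prop
  have hcomp : IsCompact (Set.Icc (-1 : ℝ) 1 ×ˢ Set.Icc (-1 : ℝ) 1) :=
    isCompact_Icc.prod isCompact_Icc
  have hfd : Continuous (fderiv ℝ (fun p : ℝ × ℝ => WP q p.1 p.2)) :=
    hF.continuous_fderiv one_ne_zero
  obtain ⟨C, hC⟩ := hcomp.exists_bound_of_continuousOn hfd.continuousOn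
  have hC0 : 0 ≤ C := by
    have h0 : ((0 : ℝ), (0 : ℝ)) ∈ Set.Icc (-1 : ℝ) 1 ×ˢ Set.Icc (-1 : ℝ) 1 := by
      refine ⟨⟨?_, ?_⟩, ⟨?_, ?_⟩⟩ <;> norm_num
    exact (norm_nonneg _).trans (hC _ h0)
  refine ⟨C, hC0, ?_⟩
  intro s hs t ht t' ht'
  have hconv : Convex ℝ (Set.Icc (-1 : ℝ) 1 ×ˢ Set.Icc (-1 : ℝ) 1) :=
    (convex_Icc _ _).prod (convex_Icc _ _)
  have h := hconv.norm_image_sub_le_of_norm_fderiv_le (𝕜 := ℝ)
    (f := fun p : ℝ × ℝ => WP q p.1 p.2) (x := (s, t')) (y := (s, t))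
    (fun x _ => (hF.differentiable one_ne_zero).differentiableAt) hC ⟨hs, ht'⟩ ⟨hs, ht⟩
  have h2 : ‖((s, t) : ℝ × ℝ) - (s, t')‖ = |t - t'| := by
    rw [Prod.mk_sub_mk, sub_self, Prod.norm_mk, norm_zero, Real.norm_eq_abs]
    exact max_eq_right (abs_nonneg _)
  rw [h2, Real.norm_eq_abs] at h
  exact h

end HDT
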