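import Pool.Agent.Helper23.HDT.Defs

/-! # Graphs as sets of allowed pairs

PLAN. Everything is a translation between sums over `S ⊆ prs n F` and sums over a row.
`AS_deg`: `∑_{j<n} (if (min i j, max i j) ∈ S then 1 else 0) = #{e ∈ S : e.1 = i ∨ e.2 = i}` by the
bijection `j ↦ (min i j, max i j)` from `{j < n : (min i j, max i j) ∈ S}` (inverse: the other
endpoint; `e.1 < e.2` for `e ∈ S`). The same for `AS_wt` (with the value of the other endpoint) and
for the sums of `w` over `prs n F`: exactly the `j < n` with `j ≠ i`, `¬ F i j` occur, so the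
difference to the full row sum is a sum over at most `φ + 1` indices of numbers in `[0, 1]`
(resp. `[0, n]`). -/

namespace HDT

open Finset

open Classical in
/-- the allowed pairs -/
noncomputable def prs (n : ℕ) (F : ℕ → ℕ → Prop) : Finset (ℕ × ℕ) :=
  (range n ×ˢ range n).filter (fun e => e.1 < e.2 ∧ ¬ F e.1 e.2)

/-- the adjacency matrix of a set of pairs -/
def AS (S : Finset (ℕ × ℕ)) (i j : ℕ) : ℤ := if (min i j, max i j) ∈ S then 1 else 0

noncomputable def aD (i : ℕ) (e : ℕ × ℕ) : ℝ := if e.1 = i ∨ e.2 = i then 1 else 0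

noncomputable def aW (n i : ℕ) (e : ℕ × ℕ) : ℝ :=
  if e.1 = i then (e.2 : ℝ) / n else if e.2 = i then (e.1 : ℝ) / n else 0

def wP (w : ℕ → ℕ → ℝ) (e : ℕ × ℕ) : ℝ := w e.1 e.2

theorem prs_mem {n : ℕ} {F : ℕ → ℕ → Prop} {e : ℕ × ℕ} :
    e ∈ prs n F ↔ (e.1 < n ∧ e.2 < n) ∧ e.1 < e.2 ∧ ¬ F e.1 e.2 := by
  simp [prs]

private theorem key {n : ℕ} {S : Finset (ℕ × ℕ)} (hS : ∀ e ∈ S, e.1 < e.2 ∧ e.2 < n) (i : ℕ)
    (g : ℕ → ℝ) :
    ∑ e ∈ S, (if e.1 = i then g e.2 else if e.2 = i then g e.1 else 0) =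
      ∑ j ∈ range n, if (min i j, max i j) ∈ S then g j else 0 := by
  classical
  have h1 : ∀ e ∈ S, (if e.1 = i then g e.2 else if e.2 = i then g e.1 else 0) =
      ∑ j ∈ range n, if (min i j, max i j) = e then g j else 0 := by
    rintro ⟨a, b⟩ he
    obtain ⟨h1, h2⟩ := hS _ he
    simp only at h1 h2 ⊢
    by_cases hai : a = i
    · subst hai
      rw [if_pos rfl, Finset.sum_eq_single b]
      · rw [if_pos]
        simp [min_eq_left h1.le, max_eq_right h1.le]
      · intro j _ hj
        rw [if_neg]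
        intro h
        simp only [Prod.mk.injEq] at h
        omega
      · intro h
        exact absurd (mem_range.2 h2) h
    · rw [if_neg hai]
      by_cases hbi : b = i
      · subst hbi
        rw [if_pos rfl, Finset.sum_eq_single a]
        · rw [if_pos]
          simp [min_eq_right h1.le, max_eq_left h1.le]
        · intro j _ hj
          rw [if_neg]
          intro h
          simp only [Prod.mk.injEq] at h
          omega
        · intro h
          exact absurd (mem_range.2 (h1.trans h2)) h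
      · rw [if_neg hbi]
        symm
        apply Finset.sum_eq_zero
        intro j _
        rw [if_neg]
        intro h
        simp only [Prod.mk.injEq] at h
        omega
  rw [Finset.sum_congr rfl h1, Finset.sum_comm]
  apply Finset.sum_congr rfl
  intro j _
  rw [Finset.sum_ite_eq]

private theorem sub_prs {n : ℕ} {F : ℕ → ℕ → Prop} {S : Finset (ℕ × ℕ)} (hS : S ⊆ prs n F) :
    ∀ e ∈ S, e.1 < e.2 ∧ e.2 < n := fun e he => by
  obtain ⟨h1, h2, -⟩ := prs_mem.1 (hS he)
  exact ⟨h2, h1.2⟩

theorem AS_adj {n : ℕ} {F : ℕ → ℕ → Prop} {S : Finset (ℕ × ℕ)} (hS : S ⊆ prs n F) :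
    Adj n (AS S) := by
  refine ⟨fun i j => ?_, fun i => ?_, fun i j => ?_, fun i j hi => ?_⟩
  · unfold AS
    rw [min_comm, max_comm]
  · unfold AS
    rw [if_neg]
    intro h
    have := (sub_prs hS _ h).1
    simp at this
  · unfold AS
    split_ifs
    · exact Or.inr rfl
    · exact Or.inl rfl
  · unfold AS
    rw [if_neg]
    intro h
    have := (sub_prs hS _ h).2
    simp only at this
    omega

theorem AS_F {n : ℕ} {F : ℕ → ℕ → Prop} (hF : ∀ i j, F i j → F j i) {S : Finset (ℕ × ℕ)}
    (hS : S ⊆ prs n F) {i j : ℕ} (h : F i j) : AS S i j = 0 := by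
  unfold AS
  rw [if_neg]
  intro hm
  have h1 := (prs_mem.1 (hS hm)).2.2
  simp only at h1
  rcases le_total i j with hij | hij
  · rw [min_eq_left hij, max_eq_right hij] at h1
    exact h1 h
  · rw [min_eq_right hij, max_eq_left hij] at h1
    exact h1 (hF _ _ h)

theorem AS_deg {n : ℕ} {F : ℕ → ℕ → Prop} {S : Finset (ℕ × ℕ)} (hS : S ⊆ prs n F) {i : ℕ}
    (hi : i < n) : (deg n (AS S) i : ℝ) = ∑ e ∈ S, aD i e := by
  have h1 : ∑ e ∈ S, aD i e = ∑ e ∈ S,
      (if e.1 = i then (fun _ => (1 : ℝ)) e.2 else if e.2 = i then (fun _ => (1 : ℝ)) e.1 else 0) := by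
    apply Finset.sum_congr rfl
    intro e _
    unfold aD
    by_cases h : e.1 = i <;> by_cases h' : e.2 = i <;> simp [h, h']
  rw [h1.trans (key (sub_prs hS) i (fun _ => (1 : ℝ)))]
  unfold deg AS
  push_cast
  rfl

theorem AS_wt {n : ℕ} {F : ℕ → ℕ → Prop} {S : Finset (ℕ × ℕ)} (hS : S ⊆ prs n F) {i : ℕ}
    (hi : i < n) : (wt n (AS S) i : ℝ) = n * ∑ e ∈ S, aW n i e := by
  have hn : (n : ℝ) ≠ 0 := by
    have : n ≠ 0 := by omega
    exact_mod_cast this
  have h1 : ∑ e ∈ S, aW n i e = ∑ e ∈ S,
      (if e.1 = i then (fun j : ℕ => (j : ℝ) / n) e.2 else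
        if e.2 = i then (fun j : ℕ => (j : ℝ) / n) e.1 else 0) := by
    apply Finset.sum_congr rfl
    intro e _
    rfl
  rw [h1.trans (key (sub_prs hS) i (fun j : ℕ => (j : ℝ) / n)), Finset.mul_sum]
  unfold wt AS
  push_cast
  apply Finset.sum_congr rfl
  intro j _
  split_ifs
  · field_simp
  · simp

private theorem dev {n φ : ℕ} {F : ℕ → ℕ → Prop} (hF : Forb n φ F) {i : ℕ} (hi : i < n)
    {g : ℕ → ℝ} {M : ℝ} (hM : 0 ≤ M) (hg : ∀ j < n, |g j| ≤ M) :
    |(∑ j ∈ range n, if (min i j, max i j) ∈ prs n F then g j else 0) -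
      ∑ j ∈ range n, g j| ≤ ((φ : ℝ) + 1) * M := by
  classical
  obtain ⟨hs, hf⟩ := hF
  obtain ⟨T, hT, hTj⟩ := hf i hi
  rw [← Finset.sum_sub_distrib]
  have h1 : ∀ j ∈ range n, |(if (min i j, max i j) ∈ prs n F then g j else 0) - g j| ≤
      if j ∈ insert i T then M else 0 := by
    intro j hj
    have hjn := mem_range.1 hj
    by_cases hm : (min i j, max i j) ∈ prs n F
    · rw [if_pos hm]
      simp only [sub_self, abs_zero]
      split_ifs
      · exact hM
      · exact le_rfl
    · rw [if_neg hm, if_pos]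
      · simpa using hg j hjn
      · by_contra hjT
        apply hm
        rw [mem_insert, not_or] at hjT
        rw [prs_mem]
        have hF' : ¬ F i j := fun h => hjT.2 (hTj j hjn h)
        have hF'' : ¬ F j i := fun h => hF' (hs _ _ h)
        refine ⟨⟨?_, ?_⟩, ?_, ?_⟩
        · simp only
          omega
        · simp only
          omega
        · simp only
          omega
        · simp only
          rcases le_total i j with hij | hij
          · rw [min_eq_left hij, max_eq_right hij]
            exact hF'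
          · rw [min_eq_right hij, max_eq_left hij]
            exact hF''
  calc |∑ j ∈ range n, ((if (min i j, max i j) ∈ prs n F then g j else 0) - g j)|
      ≤ ∑ j ∈ range n, |(if (min i j, max i j) ∈ prs n F then g j else 0) - g j| :=
        Finset.abs_sum_le_sum_abs _ _
    _ ≤ ∑ j ∈ range n, (if j ∈ insert i T then M else 0) := Finset.sum_le_sum h1
    _ = (((range n).filter (fun j => j ∈ insert i T)).card : ℝ) * M := by
        rw [← Finset.sum_filter, Finset.sum_const, nsmul_eq_mul]
    _ ≤ ((φ : ℝ) + 1) * M := by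
        apply mul_le_mul_of_nonneg_right _ hM
        have h2 : ((range n).filter (fun j => j ∈ insert i T)).card ≤ φ + 1 := by
          calc ((range n).filter (fun j => j ∈ insert i T)).card ≤ (insert i T).card := by
                apply Finset.card_le_card
                intro j hj
                exact (mem_filter.1 hj).2
            _ ≤ T.card + 1 := Finset.card_insert_le _ _
            _ ≤ φ + 1 := by omega
        exact_mod_cast h2

theorem sumD {n φ : ℕ} {F : ℕ → ℕ → Prop} (hF : Forb n φ F) {w : ℕ → ℕ → ℝ}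
    (hs : ∀ i j, w i j = w j i) (hw : ∀ i < n, ∀ j < n, 0 ≤ w i j ∧ w i j ≤ 1) {i : ℕ}
    (hi : i < n) :
    |∑ e ∈ prs n F, wP w e * aD i e - ∑ j ∈ range n, w i j| ≤ (φ : ℝ) + 1 := by
  have h1 : ∑ e ∈ prs n F, wP w e * aD i e = ∑ e ∈ prs n F,
      (if e.1 = i then (fun j => w i j) e.2 else if e.2 = i then (fun j => w i j) e.1 else 0) := by
    apply Finset.sum_congr rfl
    intro e _
    unfold aD wP
    by_cases h : e.1 = i
    · subst h
      simp
    · by_cases h' : e.2 = i
      · subst h'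
        simp [h, hs e.1 e.2]
      · simp [h, h']
  rw [h1.trans (key (sub_prs (Finset.Subset.refl _)) i (fun j => w i j))]
  have h2 := dev hF hi (g := fun j => w i j) (M := 1) zero_le_one (fun j hj => by
    rw [abs_le]
    constructor <;> linarith [(hw i hi j hj).1, (hw i hi j hj).2])
  simpa using h2

theorem sumW {n φ : ℕ} {F : ℕ → ℕ → Prop} (hF : Forb n φ F) {w : ℕ → ℕ → ℝ}
    (hs : ∀ i j, w i j = w j i) (hw : ∀ i < n, ∀ j < n, 0 ≤ w i j ∧ w i j ≤ 1) {i : ℕ}
    (hi : i < n) :
    |(n : ℝ) * ∑ e ∈ prs n F, wP w e * aW n i e - ∑ j ∈ range n, w i j * (j : ℝ)| ≤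
      ((φ : ℝ) + 1) * n := by
  have hn : (n : ℝ) ≠ 0 := by
    have : n ≠ 0 := by omega
    exact_mod_cast this
  have h1 : (n : ℝ) * ∑ e ∈ prs n F, wP w e * aW n i e = ∑ e ∈ prs n F,
      (if e.1 = i then (fun j : ℕ => w i j * (j : ℝ)) e.2 else
        if e.2 = i then (fun j : ℕ => w i j * (j : ℝ)) e.1 else 0) := by
    rw [Finset.mul_sum]
    apply Finset.sum_congr rfl
    intro e _
    unfold aW wP
    by_cases h : e.1 = i
    · subst h
      simp only [if_true]
      field_simp
    · by_cases h' : e.2 = i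
      · subst h'
        simp only [if_true, if_neg h]
        rw [hs e.1 e.2]
        field_simp
      · simp [h, h']
  rw [h1.trans (key (sub_prs (Finset.Subset.refl _)) i (fun j : ℕ => w i j * (j : ℝ)))]
  exact dev hF hi (g := fun j : ℕ => w i j * (j : ℝ)) (M := (n : ℝ)) (Nat.cast_nonneg _)
    (fun j hj => by
      have h3 := hw i hi j hj
      have h4 : (j : ℝ) ≤ n := by exact_mod_cast hj.le
      have h5 : (0 : ℝ) ≤ j := Nat.cast_nonneg _
      show |w i j * (j : ℝ)| ≤ n
      rw [abs_of_nonneg (mul_nonneg h3.1 h5)]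
      nlinarith [h3.1, h3.2])

theorem card_row {n : ℕ} {F : ℕ → ℕ → Prop} {i : ℕ} (hi : i < n) :
    ((prs n F).filter (fun e => e.1 = i ∨ e.2 = i)).card ≤ n := by
  classical
  have h1 : (((prs n F).filter (fun e => e.1 = i ∨ e.2 = i)).card : ℝ) =
      ∑ e ∈ prs n F, (if e.1 = i then (fun _ => (1 : ℝ)) e.2 else
        if e.2 = i then (fun _ => (1 : ℝ)) e.1 else 0) := by
    rw [Finset.card_filter]
    push_cast
    apply Finset.sum_congr rfl
    intro e _
    by_cases h : e.1 = i <;> by_cases h' : e.2 = i <;> simp [h, h']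
  replace h1 := h1.trans (key (sub_prs (Finset.Subset.refl _)) i (fun _ => (1 : ℝ)))
  have h2 : (((prs n F).filter (fun e => e.1 = i ∨ e.2 = i)).card : ℝ) ≤ n := by
    rw [h1]
    calc (∑ j ∈ range n, if (min i j, max i j) ∈ prs n F then (fun _ => (1 : ℝ)) j else 0)
        ≤ ∑ _j ∈ range n, (1 : ℝ) := by
          apply Finset.sum_le_sum
          intro j _
          split_ifs
          · exact le_rfl
          · exact zero_le_one
      _ = n := by simp
  exact_mod_cast h2

end HDT
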