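import Pool.Agent.Helper23.HDT.RProb

/-! # Probability that no block has the wanted pattern

PLAN. Let `s b S = ∏_{e ∈ E b} (indicator of (e ∈ S ↔ τ e))` (0 or 1). The probability is
`∑_S pr S ∏_{b∈G} (1 - s b S)`, expand `∏_{b∈G} (1 - s b S) = ∑_{T ⊆ G} (-1)^#T ∏_{b∈T} s b S`
(`Finset.prod_one_sub`-type: `Finset.prod_add` or `Finset.prod_sub`), and for `T ⊆ G`
`∑_S pr S ∏_{b∈T} s b S = ∏_{b∈T} ∏_{e∈E b} v e`, where `v e = w e` if `τ e`, `1 - w e` otherwise:
this is `pr_prod` with `φ₁ e = 1` if `τ e` or `e ∉ ⋃_{b∈T} E b`, else `0`, and `φ₀ e = 1` if `¬ τ e`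
or `e ∉ ⋃ E b`, else `0` (disjointness: `∏_{e ∈ ⋃ E b} = ∏_b ∏_{e∈E b}`). Summing back:
`= ∏_{b∈G} (1 - ∏_{e∈E b} v e) ≤ (1 - η^8)^#G`, since `v e ≥ η`, `#(E b) ≤ 8`, `0 < η ≤ 1`.
(Alternative: induction on `G`, splitting `I` into `E b` and the rest.) -/

namespace HDT

open Finset

variable {α β : Type*} [DecidableEq α] [DecidableEq β]

open Classical in
private noncomputable def rPat_c (τ : α → Prop) (S : Finset α) (e : α) : ℝ :=
  if (e ∈ S ↔ τ e) then 1 else 0

open Classical in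
private noncomputable def rPat_v (τ : α → Prop) (w : α → ℝ) (e : α) : ℝ :=
  if τ e then w e else 1 - w e

/-- product over a union of blocks -/
private theorem rPat_core (I : Finset α) (w : α → ℝ) (τ : α → Prop) {U : Finset α} (hU : U ⊆ I) :
    ∑ S ∈ I.powerset, pr I w S * ∏ e ∈ U, rPat_c τ S e = ∏ e ∈ U, rPat_v τ w e := by
  classical
  have h1 : ∀ S ∈ I.powerset, pr I w S * ∏ e ∈ U, rPat_c τ S e =
      pr I w S * ((∏ e ∈ S, (if e ∈ U then (if τ e then (1 : ℝ) else 0) else 1)) *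
        ∏ e ∈ I \ S, (if e ∈ U then (if τ e then (0 : ℝ) else 1) else 1)) := by
    intro S hS
    have hSI : S ⊆ I := mem_powerset.1 hS
    congr 1
    have h2 : ∏ e ∈ I, (if e ∈ U then rPat_c τ S e else 1) = ∏ e ∈ U, rPat_c τ S e := by
      rw [← prod_filter]
      congr 1
      ext e
      rw [mem_filter]
      exact ⟨fun h => h.2, fun h => ⟨hU h, h⟩⟩
    rw [← h2, ← prod_sdiff hSI, mul_comm]
    congr 1
    · refine prod_congr rfl ?_
      intro e he
      by_cases heU : e ∈ U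
      · rw [if_pos heU, if_pos heU]
        unfold rPat_c
        by_cases ht : τ e
        · rw [if_pos ht, if_pos ⟨fun _ => ht, fun _ => he⟩]
        · rw [if_neg ht, if_neg (fun h => ht (h.1 he))]
      · rw [if_neg heU, if_neg heU]
    · refine prod_congr rfl ?_
      intro e he
      have heS : e ∉ S := (mem_sdiff.1 he).2
      by_cases heU : e ∈ U
      · rw [if_pos heU, if_pos heU]
        unfold rPat_c
        by_cases ht : τ e
        · rw [if_pos ht, if_neg (fun h => heS (h.2 ht))]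
        · rw [if_neg ht, if_pos ⟨fun h => absurd h heS, fun h => absurd h ht⟩]
      · rw [if_neg heU, if_neg heU]
  rw [sum_congr rfl h1, pr_prod]
  have h3 : ∏ e ∈ I, (if e ∈ U then rPat_v τ w e else 1) = ∏ e ∈ U, rPat_v τ w e := by
    rw [← prod_filter]
    congr 1
    ext e
    rw [mem_filter]
    exact ⟨fun h => h.2, fun h => ⟨hU h, h⟩⟩
  rw [← h3]
  refine prod_congr rfl ?_
  intro e _
  by_cases heU : e ∈ U
  · rw [if_pos heU, if_pos heU, if_pos heU]
    unfold rPat_v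
    by_cases ht : τ e
    · rw [if_pos ht, if_pos ht, if_pos ht]
      ring
    · rw [if_neg ht, if_neg ht, if_neg ht]
      ring
  · rw [if_neg heU, if_neg heU, if_neg heU]
    ring

/-- the indicator of the event that a block has its pattern -/
private theorem rPat_ind (τ : α → Prop) (S F : Finset α) :
    ∏ e ∈ F, rPat_c τ S e = by classical exact if ∀ e ∈ F, (e ∈ S ↔ τ e) then (1 : ℝ) else 0 := by
  classical
  by_cases h : ∀ e ∈ F, (e ∈ S ↔ τ e)
  · have h1 : ∏ e ∈ F, rPat_c τ S e = 1 := by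
      refine prod_eq_one ?_
      intro e he
      unfold rPat_c
      rw [if_pos (h e he)]
    rw [h1]
    simp only [if_pos h]
  · have h1 : ∏ e ∈ F, rPat_c τ S e = 0 := by
      obtain ⟨e, he⟩ := not_forall.1 h
      obtain ⟨heF, he'⟩ := Classical.not_imp.1 he
      refine prod_eq_zero heF ?_
      unfold rPat_c
      rw [if_neg he']
    rw [h1]
    simp only [if_neg h]

theorem patFail {I : Finset α} {w : α → ℝ} {η : ℝ} (hη : 0 < η) (hη1 : η ≤ 1)
    (hw : ∀ e ∈ I, η ≤ w e ∧ w e ≤ 1 - η) (G : Finset β) (E : β → Finset α)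
    (hE : ∀ b ∈ G, E b ⊆ I) (hE8 : ∀ b ∈ G, (E b).card ≤ 8)
    (hd : ∀ b ∈ G, ∀ b' ∈ G, b ≠ b' → Disjoint (E b) (E b')) (τ : α → Prop) :
    Pr I w (fun S => ∀ b ∈ G, ¬ ∀ e ∈ E b, (e ∈ S ↔ τ e)) ≤ (1 - η ^ 8) ^ G.card := by
  classical
  have h1 : Pr I w (fun S => ∀ b ∈ G, ¬ ∀ e ∈ E b, (e ∈ S ↔ τ e)) =
      ∑ S ∈ I.powerset, pr I w S * ∏ b ∈ G, (-(∏ e ∈ E b, rPat_c τ S e) + 1) := by
    unfold Pr
    rw [sum_filter]
    refine sum_congr rfl ?_
    intro S _
    by_cases h : ∀ b ∈ G, ¬ ∀ e ∈ E b, (e ∈ S ↔ τ e)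
    · rw [if_pos h]
      have h2 : ∏ b ∈ G, (-(∏ e ∈ E b, rPat_c τ S e) + 1) = 1 := by
        refine prod_eq_one ?_
        intro b hb
        rw [rPat_ind]
        simp only [if_neg (h b hb)]
        ring
      rw [h2, mul_one]
    · rw [if_neg h]
      have h2 : ∏ b ∈ G, (-(∏ e ∈ E b, rPat_c τ S e) + 1) = 0 := by
        obtain ⟨b, hb⟩ := not_forall.1 h
        obtain ⟨hbG, hb'⟩ := Classical.not_imp.1 hb
        refine prod_eq_zero hbG ?_
        rw [rPat_ind]
        simp only [if_pos (not_not.1 hb')]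
        ring
      rw [h2, mul_zero]
  have h2 : ∀ T ∈ G.powerset, ∑ S ∈ I.powerset, pr I w S * ∏ b ∈ T, (-(∏ e ∈ E b, rPat_c τ S e)) =
      ∏ b ∈ T, (-(∏ e ∈ E b, rPat_v τ w e)) := by
    intro T hT
    have hTG : T ⊆ G := mem_powerset.1 hT
    have hdT : Set.PairwiseDisjoint (T : Set β) E := by
      intro b hb b' hb' hbb
      exact hd b (hTG hb) b' (hTG hb') hbb
    have h3 : ∀ S ∈ I.powerset, pr I w S * ∏ b ∈ T, (-(∏ e ∈ E b, rPat_c τ S e)) =
        (∏ _b ∈ T, (-1 : ℝ)) * (pr I w S * ∏ e ∈ T.biUnion E, rPat_c τ S e) := by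
      intro S _
      rw [prod_biUnion hdT]
      have h4 : ∏ b ∈ T, (-(∏ e ∈ E b, rPat_c τ S e)) =
          (∏ _b ∈ T, (-1 : ℝ)) * ∏ b ∈ T, ∏ e ∈ E b, rPat_c τ S e := by
        rw [← prod_mul_distrib]
        refine prod_congr rfl ?_
        intro b _
        ring
      rw [h4]
      ring
    rw [sum_congr rfl h3, ← mul_sum, rPat_core I w τ (biUnion_subset.2 fun b hb => hE b (hTG hb)),
      prod_biUnion hdT, ← prod_mul_distrib]
    refine prod_congr rfl ?_
    intro b _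
    ring
  have h3 : ∑ S ∈ I.powerset, pr I w S * ∏ b ∈ G, (-(∏ e ∈ E b, rPat_c τ S e) + 1) =
      ∏ b ∈ G, (-(∏ e ∈ E b, rPat_v τ w e) + 1) := by
    rw [prod_add]
    have h4 : ∀ S ∈ I.powerset, pr I w S * ∏ b ∈ G, (-(∏ e ∈ E b, rPat_c τ S e) + 1) =
        ∑ T ∈ G.powerset, pr I w S * (∏ b ∈ T, (-(∏ e ∈ E b, rPat_c τ S e))) * ∏ _b ∈ G \ T, (1 : ℝ) := by
      intro S _
      rw [prod_add, mul_sum]
      refine sum_congr rfl ?_
      intro T _
      ring
    rw [sum_congr rfl h4, sum_comm]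
    refine sum_congr rfl ?_
    intro T hT
    rw [← h2 T hT, sum_mul]
  rw [h1, h3, ← prod_const]
  refine prod_le_prod ?_ ?_
  · intro b hb
    have h4 : ∏ e ∈ E b, rPat_v τ w e ≤ 1 := by
      refine prod_le_one ?_ ?_
      · intro e he
        have h5 := hw e (hE b hb he)
        unfold rPat_v
        by_cases ht : τ e
        · rw [if_pos ht]; linarith [h5.1]
        · rw [if_neg ht]; linarith [h5.2]
      · intro e he
        have h5 := hw e (hE b hb he)
        unfold rPat_v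
        by_cases ht : τ e
        · rw [if_pos ht]; linarith [h5.2]
        · rw [if_neg ht]; linarith [h5.1]
    linarith
  · intro b hb
    have h4 : η ^ (E b).card ≤ ∏ e ∈ E b, rPat_v τ w e := by
      rw [← prod_const]
      refine prod_le_prod (fun _ _ => hη.le) ?_
      intro e he
      have h5 := hw e (hE b hb he)
      unfold rPat_v
      by_cases ht : τ e
      · rw [if_pos ht]; exact h5.1
      · rw [if_neg ht]; linarith [h5.2]
    have h6 : η ^ 8 ≤ η ^ (E b).card := pow_le_pow_of_le_one hη.le hη1 (hE8 b hb)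
    linarith

end HDT
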