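import Pool.Agent.Helper23.HDT.RModel
import Pool.Agent.Helper23.HDT.RPat

/-! # Probability that a pattern is rare -/

namespace HDT

open Finset

/-- the pair `{x, y}` -/
private def pPr (x y : ℕ) : ℕ × ℕ := (min x y, max x y)

private theorem pPr_eq {x y x' y' : ℕ} (h : pPr x y = pPr x' y') :
    (x = x' ∧ y = y') ∨ (x = y' ∧ y = x') := by
  unfold pPr at h
  rw [Prod.mk.injEq] at h
  obtain ⟨h1, h2⟩ := h
  rcases le_total x y with h3 | h3 <;> rcases le_total x' y' with h4 | h4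
  · rw [min_eq_left h3, min_eq_left h4] at h1
    rw [max_eq_right h3, max_eq_right h4] at h2
    exact Or.inl ⟨h1, h2⟩
  · rw [min_eq_left h3, min_eq_right h4] at h1
    rw [max_eq_right h3, max_eq_left h4] at h2
    exact Or.inr ⟨h1, h2⟩
  · rw [min_eq_right h3, min_eq_left h4] at h1
    rw [max_eq_left h3, max_eq_right h4] at h2
    exact Or.inr ⟨h2, h1⟩
  · rw [min_eq_right h3, min_eq_right h4] at h1
    rw [max_eq_left h3, max_eq_left h4] at h2
    exact Or.inl ⟨h2, h1⟩

private theorem pPr_mem {n : ℕ} {F : ℕ → ℕ → Prop} (hF : ∀ i j, F i j → F j i) {x y : ℕ}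
    (hx : x < n) (hy : y < n) (hxy : x ≠ y) (h : ¬ F x y) : pPr x y ∈ prs n F := by
  classical
  unfold prs pPr
  rw [mem_filter, mem_product, mem_range, mem_range]
  refine ⟨⟨lt_of_le_of_lt (min_le_left _ _) hx, max_lt hx hy⟩, min_lt_max.2 hxy, ?_⟩
  rcases le_total x y with h3 | h3
  · rwa [min_eq_left h3, max_eq_right h3]
  · rw [min_eq_right h3, max_eq_left h3]
    exact fun h4 => h (hF _ _ h4)

/-- disjoint groups of `h` elements -/
private theorem patEv_groups (B : Finset ℕ) (h m : ℕ) (hm : m * h ≤ B.card) :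
    ∃ G : ℕ → Finset ℕ, (∀ g < m, G g ⊆ B ∧ (G g).card = h) ∧
      ∀ g < m, ∀ g' < m, g ≠ g' → Disjoint (G g) (G g') := by
  induction m with
  | zero => exact ⟨fun _ => ∅, fun g hg => absurd hg (Nat.not_lt_zero g),
      fun g hg => absurd hg (Nat.not_lt_zero g)⟩
  | succ m ih =>
    have h0 : (m + 1) * h = m * h + h := by ring
    obtain ⟨G, hG1, hG2⟩ := ih (by omega)
    have hU : ((range m).biUnion G).card ≤ m * h := by
      refine card_biUnion_le.trans ?_
      have h1 : ∑ g ∈ range m, (G g).card ≤ ∑ g ∈ range m, h :=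
        sum_le_sum fun g hg => (hG1 g (mem_range.1 hg)).2.le
      rwa [sum_const, card_range, smul_eq_mul] at h1
    have h2 : h ≤ (B \ (range m).biUnion G).card := by
      have h3 := Finset.le_card_sdiff ((range m).biUnion G) B
      omega
    obtain ⟨H, hH1, hH2⟩ := Finset.exists_subset_card_eq h2
    have hHd : ∀ g < m, Disjoint (G g) H := by
      intro g hg
      rw [Finset.disjoint_left]
      intro x hx hx'
      exact (mem_sdiff.1 (hH1 hx')).2 (mem_biUnion.2 ⟨g, mem_range.2 hg, hx⟩)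
    refine ⟨fun g => if g < m then G g else H, ?_, ?_⟩
    · intro g hg
      by_cases h4 : g < m
      · simp only [if_pos h4]
        exact hG1 g h4
      · simp only [if_neg h4]
        exact ⟨hH1.trans sdiff_subset, hH2⟩
    · intro g hg g' hg' hne
      by_cases h4 : g < m <;> by_cases h5 : g' < m
      · simp only [if_pos h4, if_pos h5]
        exact hG2 g h4 g' h5 hne
      · simp only [if_pos h4, if_neg h5]
        exact hHd g h4
      · simp only [if_neg h4, if_pos h5]
        exact (hHd g' h5).symm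
      · omega

/-- half of the columns have an even block number -/
private theorem patEv_half (N l : ℕ) (hl : 1 ≤ l) :
    N ≤ 2 * ((range N).filter (fun b => (b / l) % 2 = 0)).card := by
  have h1 : ((range N).filter (fun b => ¬ (b / l) % 2 = 0)).card ≤
      ((range N).filter (fun b => (b / l) % 2 = 0)).card := by
    have key : ∀ b, ¬ (b / l) % 2 = 0 → l ≤ b ∧ ((b - l) / l) % 2 = 0 := by
      intro b hb
      have h2 : 1 ≤ b / l := by
        by_contra h3
        have h4 : b / l = 0 := Nat.lt_one_iff.1 (not_le.1 h3)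
        rw [h4] at hb
        exact hb rfl
      have h3 : l ≤ b := by
        rw [Nat.one_le_div_iff (by omega)] at h2
        exact h2
      refine ⟨h3, ?_⟩
      have h4 : (b - l) / l = b / l - 1 := by
        have h5 := Nat.sub_mul_div b l 1
        rwa [mul_one] at h5
      rw [h4]
      generalize b / l = q at hb h2
      omega
    refine card_le_card_of_injOn (fun b => b - l) ?_ ?_
    · intro b hb
      have h2 := mem_filter.1 (mem_coe.1 hb)
      have h3 := mem_range.1 h2.1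
      obtain ⟨h4, h5⟩ := key b h2.2
      refine mem_coe.2 (mem_filter.2 ⟨mem_range.2 ?_, h5⟩)
      exact lt_of_le_of_lt (Nat.sub_le _ _) h3
    · intro b hb b' hb' he
      have h2 := key b (mem_filter.1 (mem_coe.1 hb)).2
      have h3 := key b' (mem_filter.1 (mem_coe.1 hb')).2
      have h4 : b - l = b' - l := he
      omega
  have h2 := card_filter_add_card_filter_not (s := range N) (fun b => (b / l) % 2 = 0)
  rw [card_range] at h2
  omega

theorem patEv {n h φ : ℕ} {η : ℝ} (hη : 0 < η) (hη1 : η ≤ 1 / 2) (hh : 1 ≤ h)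
    (hn : 1000 * (φ + 1) * h ≤ n) {F : ℕ → ℕ → Prop} (hF : Forb n φ F) {w : ℕ → ℕ → ℝ}
    (hw : ∀ i < n, ∀ j < n, η ≤ w i j ∧ w i j ≤ 1 - η) (i : Fin 4 → ℕ) (e : Fin 4 → ℤ) (l : ℕ)
    (hi : Function.Injective i) (hin : ∀ k, i k < n) (he : ∀ k, e k = 0 ∨ e k = 1) (hl : 1 ≤ l)
    (hln : l ≤ n / 8) :
    Pr (prs n F) (wP w) (fun S => ¬ ∃ B : Finset ℕ, n / (20 * h) + 1 ≤ B.card ∧
      ∀ b ∈ B, b + l < n ∧ ∀ k, i k ≠ b ∧ i k ≠ b + l ∧ ¬ F (i k) b ∧ ¬ F (i k) (b + l) ∧
        AS S (i k) b = e k ∧ AS S (i k) (b + l) = 1 - e k) ≤ n * (1 - η ^ 8) ^ h := by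
  classical
  obtain ⟨hFs, hFr⟩ := hF
  set X := (range (n - l)).filter (fun b => (b / l) % 2 = 0) with hX
  set B' := X.filter (fun b => ∀ k, i k ≠ b ∧ i k ≠ b + l ∧ ¬ F (i k) b ∧ ¬ F (i k) (b + l))
    with hB'
  have hmem : ∀ b ∈ B', b + l < n ∧ (b / l) % 2 = 0 ∧
      ∀ k, i k ≠ b ∧ i k ≠ b + l ∧ ¬ F (i k) b ∧ ¬ F (i k) (b + l) := by
    intro b hb
    rw [hB', mem_filter, hX, mem_filter, mem_range] at hb
    exact ⟨by omega, hb.1.2, hb.2⟩
  -- (a) the size of `B'`
  have hcard : n ≤ 4 * B'.card := by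
    have h1 : ∀ k : Fin 4, ∃ S : Finset ℕ, S.card ≤ φ ∧ ∀ j < n, F (i k) j → j ∈ S :=
      fun k => hFr (i k) (hin k)
    choose S hS1 hS2 using h1
    have h2 : X ⊆ B' ∪ (univ : Finset (Fin 4)).biUnion
        (fun k => ({i k, i k - l} : Finset ℕ) ∪ (S k ∪ (S k).image (fun x => x - l))) := by
      intro b hb
      by_cases h3 : b ∈ B'
      · exact mem_union_left _ h3
      · apply mem_union_right
        have h4 : ¬ ∀ k, i k ≠ b ∧ i k ≠ b + l ∧ ¬ F (i k) b ∧ ¬ F (i k) (b + l) := by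
          intro h5
          exact h3 (by rw [hB', mem_filter]; exact ⟨hb, h5⟩)
        obtain ⟨k, hk⟩ := not_forall.1 h4
        rw [hX, mem_filter, mem_range] at hb
        rw [mem_biUnion]
        refine ⟨k, mem_univ _, ?_⟩
        rw [mem_union, mem_insert, mem_singleton, mem_union, mem_image]
        by_cases h5 : i k = b
        · exact Or.inl (Or.inl h5.symm)
        by_cases h6 : i k = b + l
        · exact Or.inl (Or.inr (by omega))
        by_cases h7 : F (i k) b
        · exact Or.inr (Or.inl (hS2 k b (by omega) h7))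
        by_cases h8 : F (i k) (b + l)
        · exact Or.inr (Or.inr ⟨b + l, hS2 k (b + l) (by omega) h8, by omega⟩)
        · exact absurd ⟨h5, h6, h7, h8⟩ hk
    have h3 : ((univ : Finset (Fin 4)).biUnion
        (fun k => ({i k, i k - l} : Finset ℕ) ∪ (S k ∪ (S k).image (fun x => x - l)))).card ≤
        4 * (2 + 2 * φ) := by
      refine card_biUnion_le.trans ?_
      have h4 : ∀ k ∈ (univ : Finset (Fin 4)), (({i k, i k - l} : Finset ℕ) ∪
          (S k ∪ (S k).image (fun x => x - l))).card ≤ 2 + 2 * φ := by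
        intro k _
        have h5 := card_union_le ({i k, i k - l} : Finset ℕ) (S k ∪ (S k).image (fun x => x - l))
        have h6 := card_union_le (S k) ((S k).image (fun x => x - l))
        have h7 : ((S k).image (fun x => x - l)).card ≤ (S k).card := card_image_le
        have h8 : ({i k, i k - l} : Finset ℕ).card ≤ 2 := card_le_two
        have h9 := hS1 k
        omega
      refine (sum_le_sum h4).trans ?_
      rw [sum_const, card_univ, Fintype.card_fin, smul_eq_mul]
    have h4 := (card_le_card h2).trans (card_union_le _ _)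
    have h5 : n - l ≤ 2 * X.card := patEv_half (n - l) l hl
    have h6 : 1000 * (φ + 1) ≤ n := by
      refine le_trans ?_ hn
      exact Nat.le_mul_of_pos_right _ (by omega)
    omega
  -- (b) the sets of pairs
  let E : ℕ → Finset (ℕ × ℕ) := fun b => (univ : Finset (Fin 4)).biUnion
    (fun k => {pPr (i k) b, pPr (i k) (b + l)})
  have hEmem : ∀ b p, p ∈ E b ↔ ∃ k, p = pPr (i k) b ∨ p = pPr (i k) (b + l) := by
    intro b p
    simp only [E, mem_biUnion, mem_univ, true_and, mem_insert, mem_singleton]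
  have hE8 : ∀ b, (E b).card ≤ 8 := by
    intro b
    refine card_biUnion_le.trans ?_
    have h1 : ∀ k ∈ (univ : Finset (Fin 4)),
        ({pPr (i k) b, pPr (i k) (b + l)} : Finset (ℕ × ℕ)).card ≤ 2 := fun k _ => card_le_two
    refine (sum_le_sum h1).trans ?_
    rw [sum_const, card_univ, Fintype.card_fin, smul_eq_mul]
  have hEI : ∀ b ∈ B', E b ⊆ prs n F := by
    intro b hb p hp
    obtain ⟨h1, -, h2⟩ := hmem b hb
    obtain ⟨k, hk | hk⟩ := (hEmem b p).1 hp <;> rw [hk]
    · exact pPr_mem hFs (hin k) (by omega) (h2 k).1 (h2 k).2.2.1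
    · exact pPr_mem hFs (hin k) (by omega) (h2 k).2.1 (h2 k).2.2.2
  have hpar : ∀ b ∈ B', ∀ b' ∈ B', b ≠ b' + l := by
    intro b hb b' hb' h1
    have h2 := (hmem b hb).2.1
    have h3 := (hmem b' hb').2.1
    rw [h1, Nat.add_div_right _ (by omega)] at h2
    omega
  -- the possible coincidences
  have hcoin : ∀ b ∈ B', ∀ b' ∈ B', ∀ k k' : Fin 4,
      (pPr (i k) b = pPr (i k') b' → k = k' ∧ b = b') ∧
      (pPr (i k) (b + l) = pPr (i k') (b' + l) → k = k' ∧ b = b') ∧
      pPr (i k) b ≠ pPr (i k') (b' + l) ∧ pPr (i k) (b + l) ≠ pPr (i k') b' := by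
    intro b hb b' hb' k k'
    have h1 := (hmem b hb).2.2
    have h2 := (hmem b' hb').2.2
    refine ⟨fun h3 => ?_, fun h3 => ?_, fun h3 => ?_, fun h3 => ?_⟩
    · rcases pPr_eq h3 with h4 | h4
      · exact ⟨hi h4.1, h4.2⟩
      · exact absurd h4.1 (h2 k).1
    · rcases pPr_eq h3 with h4 | h4
      · exact ⟨hi h4.1, by omega⟩
      · exact absurd h4.1 (h2 k).2.1
    · rcases pPr_eq h3 with h4 | h4
      · exact hpar b hb b' hb' h4.2
      · exact absurd h4.1 (h2 k).2.1
    · rcases pPr_eq h3 with h4 | h4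
      · exact hpar b' hb' b hb h4.2.symm
      · exact absurd h4.1 (h2 k).1
  have hEd : ∀ b ∈ B', ∀ b' ∈ B', b ≠ b' → Disjoint (E b) (E b') := by
    intro b hb b' hb' hne
    rw [Finset.disjoint_left]
    intro p hp hp'
    obtain ⟨k, hk⟩ := (hEmem b p).1 hp
    obtain ⟨k', hk'⟩ := (hEmem b' p).1 hp'
    obtain ⟨h1, h2, h3, h4⟩ := hcoin b hb b' hb' k k'
    rcases hk with hk | hk <;> rcases hk' with hk' | hk'
    · exact hne (h1 (hk.symm.trans hk')).2
    · exact h3 (hk.symm.trans hk')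
    · exact h4 (hk.symm.trans hk')
    · exact hne (h2 (hk.symm.trans hk')).2
  -- (c) the wanted pattern
  let τ : ℕ × ℕ → Prop := fun p => ∃ b ∈ B', ∃ k,
    (p = pPr (i k) b ∧ e k = 1) ∨ (p = pPr (i k) (b + l) ∧ e k = 0)
  have hτ1 : ∀ b ∈ B', ∀ k, τ (pPr (i k) b) ↔ e k = 1 := by
    intro b hb k
    constructor
    · rintro ⟨b', hb', k', ⟨h1, h2⟩ | ⟨h1, h2⟩⟩
      · rw [((hcoin b hb b' hb' k k').1 h1).1]
        exact h2
      · exact absurd h1 (hcoin b hb b' hb' k k').2.2.1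
    · intro h1
      exact ⟨b, hb, k, Or.inl ⟨rfl, h1⟩⟩
  have hτ0 : ∀ b ∈ B', ∀ k, τ (pPr (i k) (b + l)) ↔ e k = 0 := by
    intro b hb k
    constructor
    · rintro ⟨b', hb', k', ⟨h1, h2⟩ | ⟨h1, h2⟩⟩
      · exact absurd h1 (hcoin b hb b' hb' k k').2.2.2
      · rw [((hcoin b hb b' hb' k k').2.1 h1).1]
        exact h2
    · intro h1
      exact ⟨b, hb, k, Or.inr ⟨rfl, h1⟩⟩
  have hgood : ∀ S : Finset (ℕ × ℕ), ∀ b ∈ B', (∀ p ∈ E b, (p ∈ S ↔ τ p)) → ∀ k,
      AS S (i k) b = e k ∧ AS S (i k) (b + l) = 1 - e k := by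
    intro S b hb h1 k
    have h2 : pPr (i k) b ∈ S ↔ e k = 1 :=
      (h1 _ ((hEmem b _).2 ⟨k, Or.inl rfl⟩)).trans (hτ1 b hb k)
    have h3 : pPr (i k) (b + l) ∈ S ↔ e k = 0 :=
      (h1 _ ((hEmem b _).2 ⟨k, Or.inr rfl⟩)).trans (hτ0 b hb k)
    have h4 : AS S (i k) b = if pPr (i k) b ∈ S then 1 else 0 := rfl
    have h5 : AS S (i k) (b + l) = if pPr (i k) (b + l) ∈ S then 1 else 0 := rfl
    rcases he k with h6 | h6
    · rw [h4, h5, if_neg (fun h7 => by rw [h2, h6] at h7; exact absurd h7 (by norm_num)),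
        if_pos (h3.2 h6), h6]
      exact ⟨rfl, by norm_num⟩
    · rw [h4, h5, if_pos (h2.2 h6),
        if_neg (fun h7 => by rw [h3, h6] at h7; exact absurd h7 (by norm_num)), h6]
      exact ⟨rfl, by norm_num⟩
  -- (d) the groups
  set m := B'.card / h with hm
  have hm1 : m * h ≤ B'.card := Nat.div_mul_le_self _ _
  obtain ⟨G, hG1, hG2⟩ := patEv_groups B' h m hm1
  have hmn : n / (20 * h) + 1 ≤ m := by
    rw [hm, Nat.le_div_iff_mul_le (by omega)]
    have h1 : n / (20 * h) * (20 * h) ≤ n := Nat.div_mul_le_self _ _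
    have h2 : n / (20 * h) * (20 * h) = 20 * (n / (20 * h) * h) := by ring
    have h3 : (n / (20 * h) + 1) * h = n / (20 * h) * h + h := by ring
    have h4 : 1000 * h ≤ n := by
      refine le_trans ?_ hn
      exact Nat.mul_le_mul_right _ (by omega)
    rw [h3]
    rw [h2] at h1
    omega
  have hmle : m ≤ n := by
    have h1 : m ≤ B'.card := Nat.div_le_self _ _
    have h2 : B'.card ≤ n := by
      have h3 : B' ⊆ range n := fun b hb => mem_range.2 (by have := (hmem b hb).1; omega)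
      have h4 := card_le_card h3
      rwa [card_range] at h4
    omega
  have hwI : ∀ p ∈ prs n F, η ≤ wP w p ∧ wP w p ≤ 1 - η := by
    intro p hp
    unfold prs at hp
    rw [mem_filter, mem_product, mem_range, mem_range] at hp
    exact hw p.1 hp.1.1 p.2 hp.1.2
  have hwI' : ∀ p ∈ prs n F, 0 ≤ wP w p ∧ wP w p ≤ 1 := by
    intro p hp
    have h1 := hwI p hp
    constructor <;> linarith
  have hstep : Pr (prs n F) (wP w) (fun S => ¬ ∃ B : Finset ℕ, n / (20 * h) + 1 ≤ B.card ∧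
      ∀ b ∈ B, b + l < n ∧ ∀ k, i k ≠ b ∧ i k ≠ b + l ∧ ¬ F (i k) b ∧ ¬ F (i k) (b + l) ∧
        AS S (i k) b = e k ∧ AS S (i k) (b + l) = 1 - e k) ≤
      Pr (prs n F) (wP w) (fun S => ∃ g ∈ range m, ∀ b ∈ G g, ¬ ∀ p ∈ E b, (p ∈ S ↔ τ p)) := by
    refine Pr_mono hwI' ?_
    intro S _ h1
    by_contra h2
    apply h1
    have h3 : ∀ g, ∃ b, g < m → b ∈ G g ∧ ∀ p ∈ E b, (p ∈ S ↔ τ p) := by
      intro g
      by_cases h4 : g < m
      · by_contra h5
        apply h2
        refine ⟨g, mem_range.2 h4, fun b hb h6 => h5 ⟨b, fun _ => ⟨hb, h6⟩⟩⟩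
      · exact ⟨0, fun h5 => absurd h5 h4⟩
    choose b hb using h3
    refine ⟨(range m).image b, ?_, ?_⟩
    · rw [card_image_of_injOn, card_range]
      · exact hmn
      · intro g hg g' hg' h4
        have h5 := (hb g (mem_range.1 (mem_coe.1 hg))).1
        have h6 := (hb g' (mem_range.1 (mem_coe.1 hg'))).1
        by_contra h7
        have h8 := hG2 g (mem_range.1 (mem_coe.1 hg)) g' (mem_range.1 (mem_coe.1 hg')) h7
        have h9 : b g = b g' := h4
        rw [← h9] at h6
        exact Finset.disjoint_left.1 h8 h5 h6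
    · intro x hx
      obtain ⟨g, hg, rfl⟩ := mem_image.1 hx
      have h4 := hb g (mem_range.1 hg)
      have h5 := (hG1 g (mem_range.1 hg)).1 h4.1
      obtain ⟨h6, -, h7⟩ := hmem _ h5
      refine ⟨h6, fun k => ?_⟩
      obtain ⟨h8, h9, h10, h11⟩ := h7 k
      obtain ⟨h12, h13⟩ := hgood S _ h5 h4.2 k
      exact ⟨h8, h9, h10, h11, h12, h13⟩
  refine hstep.trans ((Pr_exists_le hwI' (range m) _).trans ?_)
  have hq : (0 : ℝ) ≤ 1 - η ^ 8 := by
    have h1 : η ^ 8 ≤ 1 := pow_le_one₀ hη.le (by linarith)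
    linarith
  have h1 : ∀ g ∈ range m, Pr (prs n F) (wP w)
      (fun S => ∀ b ∈ G g, ¬ ∀ p ∈ E b, (p ∈ S ↔ τ p)) ≤ (1 - η ^ 8) ^ h := by
    intro g hg
    obtain ⟨h2, h3⟩ := hG1 g (mem_range.1 hg)
    have h4 := patFail (I := prs n F) (w := wP w) hη (by linarith) hwI (G g) E (fun b hb => hEI b (h2 hb))
      (fun b _ => hE8 b) (fun b hb b' hb' hne => hEd b (h2 hb) b' (h2 hb') hne) τ
    rwa [h3] at h4
  refine (sum_le_sum h1).trans ?_
  rw [sum_const, card_range, nsmul_eq_mul]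
  exact mul_le_mul_of_nonneg_right (by exact_mod_cast hmle) (pow_nonneg hq h)

end HDT
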