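import Mathlib

/-! # Independent random subsets of a finite set

PLAN. `pr_prod`: `Finset.prod_add` (`∏ (f i + g i) = ∑_{t ∈ powerset} (∏_{t} f) (∏_{s \ t} g)`) with
`f = w φ₁`, `g = (1 - w) φ₀` and `Finset.prod_mul_distrib`. `pr_one`: `φ₁ = φ₀ = 1`.
`Pr_mono`: subset of the filter, nonnegative terms. `Pr_union`: if every `S ⊆ I` satisfied some
`Bad k`, then `1 = ∑_S pr S ≤ ∑_k Pr (Bad k) < 1`. `Pr_exists_le`: sum over the union. -/

namespace HDT

open Finset

variable {α : Type*} [DecidableEq α]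

/-- probability of the subset `S` of `I` -/
noncomputable def pr (I : Finset α) (w : α → ℝ) (S : Finset α) : ℝ :=
  (∏ e ∈ S, w e) * ∏ e ∈ I \ S, (1 - w e)

open Classical in
/-- probability of an event -/
noncomputable def Pr (I : Finset α) (w : α → ℝ) (E : Finset α → Prop) : ℝ :=
  ∑ S ∈ I.powerset.filter (fun S => E S), pr I w S

theorem pr_prod (I : Finset α) (w φ₁ φ₀ : α → ℝ) :
    ∑ S ∈ I.powerset, pr I w S * ((∏ e ∈ S, φ₁ e) * ∏ e ∈ I \ S, φ₀ e) =
      ∏ e ∈ I, (w e * φ₁ e + (1 - w e) * φ₀ e) := by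
  rw [Finset.prod_add]
  refine sum_congr rfl fun S _ => ?_
  unfold pr
  rw [prod_mul_distrib, prod_mul_distrib]
  ring

theorem pr_one (I : Finset α) (w : α → ℝ) : ∑ S ∈ I.powerset, pr I w S = 1 := by
  have h := pr_prod I w (fun _ => 1) (fun _ => 1)
  have h1 : ∏ e ∈ I, (w e * 1 + (1 - w e) * 1) = 1 := by
    refine prod_eq_one fun e _ => ?_
    ring
  rw [h1] at h
  rw [← h]
  refine sum_congr rfl fun S _ => ?_
  rw [prod_const_one, prod_const_one, mul_one, mul_one]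

theorem pr_nonneg {I : Finset α} {w : α → ℝ} (hw : ∀ e ∈ I, 0 ≤ w e ∧ w e ≤ 1) {S : Finset α}
    (hS : S ∈ I.powerset) : 0 ≤ pr I w S := by
  unfold pr
  refine mul_nonneg (prod_nonneg fun e he => ?_) (prod_nonneg fun e he => ?_)
  · exact (hw e (mem_powerset.1 hS he)).1
  · exact sub_nonneg.2 (hw e (mem_sdiff.1 he).1).2

theorem Pr_mono {I : Finset α} {w : α → ℝ} (hw : ∀ e ∈ I, 0 ≤ w e ∧ w e ≤ 1)
    {E E' : Finset α → Prop} (h : ∀ S ⊆ I, E S → E' S) : Pr I w E ≤ Pr I w E' := by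
  classical
  unfold Pr
  refine sum_le_sum_of_subset_of_nonneg ?_ ?_
  · intro S hS
    rw [mem_filter] at hS ⊢
    exact ⟨hS.1, h S (mem_powerset.1 hS.1) hS.2⟩
  · intro S hS _
    exact pr_nonneg hw (mem_filter.1 hS).1

theorem Pr_exists_le {I : Finset α} {w : α → ℝ} (hw : ∀ e ∈ I, 0 ≤ w e ∧ w e ≤ 1) {κ : Type*}
    (K : Finset κ) (Bad : κ → Finset α → Prop) :
    Pr I w (fun S => ∃ k ∈ K, Bad k S) ≤ ∑ k ∈ K, Pr I w (Bad k) := by
  classical
  unfold Pr
  have h1 : ∀ k ∈ K, ∑ S ∈ I.powerset.filter (fun S => Bad k S), pr I w S =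
      ∑ S ∈ I.powerset, if Bad k S then pr I w S else 0 := fun k _ => sum_filter _ _
  rw [sum_congr rfl h1, sum_comm, sum_filter]
  refine sum_le_sum fun S hS => ?_
  have h0 := pr_nonneg hw hS
  have hnn : ∀ k ∈ K, 0 ≤ if Bad k S then pr I w S else 0 := by
    intro k _
    by_cases hb : Bad k S
    · rw [if_pos hb]
      exact h0
    · rw [if_neg hb]
  by_cases hex : ∃ k ∈ K, Bad k S
  · rw [if_pos hex]
    obtain ⟨k, hk, hb⟩ := hex
    have h2 := single_le_sum hnn hk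
    rw [if_pos hb] at h2
    exact h2
  · rw [if_neg hex]
    exact sum_nonneg hnn

/-- the union bound -/
theorem Pr_union {I : Finset α} {w : α → ℝ} (hw : ∀ e ∈ I, 0 ≤ w e ∧ w e ≤ 1)
    (Bad : Finset α → Prop) (h : Pr I w Bad < 1) : ∃ S ⊆ I, ¬ Bad S := by
  by_contra hcon
  have hall : ∀ S ⊆ I, Bad S := fun S hS => by_contra fun hb => hcon ⟨S, hS, hb⟩
  have h2 : Pr I w Bad = 1 := by
    classical
    unfold Pr
    rw [← pr_one I w]
    refine sum_congr ?_ fun _ _ => rfl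
    exact filter_true_of_mem fun S hS => hall S (mem_powerset.1 hS)
  exact absurd h (not_lt.2 h2.ge)

end HDT
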