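import Pool.Agent.Helper23.HDT.ClassRed
import Pool.Agent.Helper23.HDT.Dense

/-! # The sparse case with good parities

PLAN. We may assume `ε ≤ 1` (replace `ε` by `min ε 1`). Let `C : ℕ` with `C ≥ 8 / ε`, `C ≥ 2`,
`κ = ε / (8 C)` (so `κ ≤ ε/16`), `n0` from `dense κ (2 * φ)`, and `R0` with `R0 ≥ n0`,
`ε R0 ≥ 64`. Given `p, r, D`: `s = p / (C r) ≥ 1`; for `ρ < s` the class size
`q = (p-1-ρ)/s+1` satisfies `C r ≤ q ≤ 2 C r + 1 ≤ 3 C r` (`p / s ≥ C r`, `q ≥ p/s` rounded down...: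
`q s ≥ p - s + 1 + …`: precisely `q = ⌈(p - ρ)/s⌉ ≥ ⌊p/s⌋ ≥ C r`, and `p < (s+1) C r ≤ 2 s C r`
gives `q ≤ p/s + 1 ≤ 2 C r + 1`), so `q ≥ n0`.
Let `rP = (r + D)/2`, `rN = (r - D)/2` (natural numbers as `|D| ≤ r`), both even because `r` even,
`4 ∣ r + D` (so `D` even and `4 ∣ r - D`). `rP, rN ≥ ε r / 2`.
Choose `dP : ℤ` with `4 ∣ rP + dP` and `|dP - D rP / r| ≤ 4` (real number), `dN = D - dP`; then
`4 ∣ rN + dN` (as `4 ∣ r + D`) and `|dN - D rN / r| ≤ 4`. So `|dP| ≤ (1-ε) rP + 4 ≤ (1 - ε/2) rP`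
(because `ε rP / 2 ≥ ε² r/4`… take `R0` with `ε² R0 ≥ 16`), the same for `N`.
Hypotheses of `dense κ (2 φ)` for `(q, rP, dP)`: `κ q ≤ κ 3 C r ≤ ε r / 2 ≤ rP`;
`rP ≤ r ≤ q / C ≤ (1 - κ) q`; `|dP| q ≤ (1 - ε/2) rP q ≤ (1 - κ) rP (q - rP)` because
`q - rP ≥ (1 - 1/C) q ≥ (1 - ε/8) q` and `(1 - κ)(1 - ε/8) ≥ 1 - ε/2`. `ParZ q rP dP`: `rP` even
for odd `q`; `rP + dP` is divisible by `4`. The same for `N`, and for `(q, r, D)` (`r` even,
`4 ∣ r + D`, `|D| ≤ (1 - ε) r`).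
Classes: `ρ' = (p - 1 - ρ) % s`; for the representative `ρ₀ = min ρ ρ'` choose
 - if `ρ' = ρ`: `P ρ` from `dense` for `(q, r, D)`, `N ρ = 0`;
 - if `ρ' ≠ ρ`: `P` from `dense` for `(q, rP, dP)` and `N` for `(q, rN, dN)`,
with the forbidden relations `FP a a' := F (ρ + s a) (ρ + s a') ∨ F (ρ' + s a) (ρ' + s a')` and
`FN a a' := F (ρ + s a) (ρ' + s a') ∨ F (ρ' + s a) (ρ + s a')` (symmetric, at most `2 φ` per row;
both are unchanged when `ρ` and `ρ'` are exchanged), and put `P ρ = P ρ' = P ρ₀`, the same for `N`.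
`Exact` for `P, N` gives `hsum` (`rP + rN = r`), `hmom` (`dP + dN = D`), `hdiff` (`rP - rN = D`).
`classRed` finishes; `F i j → glue … i j = 0` by construction (write `i = ρ + s a`, `j = σ + s a'`;
for pairs with an index `≥ p` the matrix is 0). -/

namespace HDT

open Finset

/-- `dense` in the form needed here -/
private lemma dense_use {ε κ : ℝ} {C n0 φ : ℕ} (hε : 0 < ε) (hε1 : ε ≤ 1) (hC : 8 / ε ≤ (C : ℝ))
    (hκ : κ = ε / (8 * C))
    (hd : ∀ n : ℕ, n0 ≤ n → ∀ (r : ℕ) (D : ℤ) (F : ℕ → ℕ → Prop), κ * n ≤ r →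
      (r : ℝ) ≤ (1 - κ) * n → |(D : ℝ)| * n ≤ (1 - κ) * r * (n - r) → ParZ n r D → Forb n φ F →
      ∃ A : ℕ → ℕ → ℤ, Adj n A ∧ (∀ i j, F i j → A i j = 0) ∧ Exact n A r D)
    {q r r1 : ℕ} {d1 : ℤ} (hn : n0 ≤ q) (hq1 : C * r ≤ q) (hq2 : q ≤ 2 * (C * r))
    (hr1 : ε * r / 2 ≤ (r1 : ℝ)) (hr2 : r1 ≤ r) (hd1 : |(d1 : ℝ)| ≤ (1 - ε / 2) * r1)
    (he : Even r1) (h4 : (4 : ℤ) ∣ (r1 : ℤ) + d1) {F : ℕ → ℕ → Prop} (hF : Forb q φ F) :
    ∃ A : ℕ → ℕ → ℤ, Adj q A ∧ (∀ i j, F i j → A i j = 0) ∧ Exact q A r1 d1 := by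
  have hC8 : (8 : ℝ) ≤ (C : ℝ) := by
    have h1 : (8 : ℝ) ≤ 8 / ε := by
      rw [le_div_iff₀ hε]; linarith
    linarith
  have hC0 : (0 : ℝ) < (C : ℝ) := by linarith
  have hr0 : (0 : ℝ) ≤ (r : ℝ) := Nat.cast_nonneg _
  have hr10 : (0 : ℝ) ≤ (r1 : ℝ) := Nat.cast_nonneg _
  have hq0 : (0 : ℝ) ≤ (q : ℝ) := Nat.cast_nonneg _
  have hq1' : (C : ℝ) * r ≤ q := by exact_mod_cast hq1
  have hq2' : (q : ℝ) ≤ 2 * (C * r) := by exact_mod_cast hq2
  have hr2' : (r1 : ℝ) ≤ r := by exact_mod_cast hr2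
  have hκ0 : 0 < κ := by rw [hκ]; positivity
  have hκ1 : κ ≤ ε / 64 := by
    rw [hκ]
    apply div_le_div_of_nonneg_left hε.le (by norm_num) (by linarith)
  have hrq : (r : ℝ) ≤ ε * q / 8 := by
    have h1 : 8 / ε * (r : ℝ) ≤ q := (mul_le_mul_of_nonneg_right hC hr0).trans hq1'
    have h2 : 8 / ε * (r : ℝ) = 8 * r / ε := by ring
    rw [h2, div_le_iff₀ hε] at h1
    linarith
  refine hd q hn r1 d1 F ?_ ?_ ?_ ?_ hF
  · have h1 : κ * q ≤ κ * (2 * (C * r)) := mul_le_mul_of_nonneg_left hq2' hκ0.le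
    have h2 : κ * (2 * ((C : ℝ) * r)) = ε * r / 4 := by
      rw [hκ]
      field_simp
      ring
    rw [h2] at h1
    have h3 : 0 ≤ ε * (r : ℝ) := mul_nonneg hε.le hr0
    linarith
  · have h1 : ε * (q : ℝ) ≤ q := by nlinarith
    have h2 : κ * (q : ℝ) ≤ q / 2 := by nlinarith
    linarith
  · have h1 : |(d1 : ℝ)| * q ≤ (1 - ε / 2) * r1 * q := mul_le_mul_of_nonneg_right hd1 hq0
    have h2 : (1 - ε / 2) * q ≤ (1 - κ) * (q - r1) := by
      have h3 : (r1 : ℝ) ≤ ε * q / 8 := hr2'.trans hrq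
      have h4 : κ * q ≤ ε / 64 * q := mul_le_mul_of_nonneg_right hκ1 hq0
      have h5 : 0 ≤ κ * r1 := mul_nonneg hκ0.le hr10
      have h6 : 0 ≤ ε * (q : ℝ) := mul_nonneg hε.le hq0
      nlinarith
    have h3 := mul_le_mul_of_nonneg_left h2 hr10
    nlinarith
  · refine ⟨fun _ => he, fun _ => ?_, fun _ => h4⟩
    exact (even_iff_two_dvd.mpr (dvd_trans (by norm_num) h4))

/-- mirror classes -/
private lemma mirror {p s ρ : ℕ} (hs : 1 ≤ s) (hsp : s ≤ p) (hρ : ρ < s) :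
    (p - 1 - ρ) % s < s ∧ (p - 1 - (p - 1 - ρ) % s) % s = ρ ∧
      (p - 1 - (p - 1 - ρ) % s) / s = (p - 1 - ρ) / s ∧
      (∀ a < (p - 1 - ρ) / s + 1, ρ + s * a < p) ∧
      ∀ a < (p - 1 - ρ) / s + 1, (p - 1 - ρ) % s + s * a < p := by
  have h1 : (p - 1 - ρ) % s < s := Nat.mod_lt _ hs
  have h2 : s * ((p - 1 - ρ) / s) + (p - 1 - ρ) % s = p - 1 - ρ := Nat.div_add_mod _ _
  have h3 : p - 1 - (p - 1 - ρ) % s = ρ + s * ((p - 1 - ρ) / s) := by omega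
  have h4 : ∀ a < (p - 1 - ρ) / s + 1, s * a ≤ s * ((p - 1 - ρ) / s) := fun a ha =>
    Nat.mul_le_mul_left s (by omega)
  refine ⟨h1, ?_, ?_, ?_, ?_⟩
  · rw [h3, Nat.add_mul_mod_self_left, Nat.mod_eq_of_lt hρ]
  · rw [h3, Nat.add_mul_div_left _ _ (by omega), Nat.div_eq_of_lt hρ, zero_add]
  · intro a ha
    have := h4 a ha
    omega
  · intro a ha
    have := h4 a ha
    omega

/-- forbidden pairs of a pair of classes -/
private lemma forb_pair {p s φ : ℕ} (hs : 1 ≤ s) {F : ℕ → ℕ → Prop} (hF : Forb p φ F)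
    {q ρ σ : ℕ} (hρ : ρ < s) (hσ : σ < s) (h1 : ∀ a < q, ρ + s * a < p)
    (h2 : ∀ a < q, σ + s * a < p) :
    Forb q (2 * φ) (fun a a' => F (ρ + s * a) (ρ + s * a') ∨ F (σ + s * a) (σ + s * a')) ∧
    Forb q (2 * φ) (fun a a' => F (ρ + s * a) (σ + s * a') ∨ F (σ + s * a) (ρ + s * a')) := by
  classical
  have hdiv : ∀ (t a : ℕ), t < s → (t + s * a) / s = a := by
    intro t a ht
    rw [Nat.add_mul_div_left _ _ (by omega), Nat.div_eq_of_lt ht, zero_add]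
  have hcard : ∀ S S' : Finset ℕ, S.card ≤ φ → S'.card ≤ φ →
      (S.image (fun j => j / s) ∪ S'.image (fun j => j / s)).card ≤ 2 * φ := by
    intro S S' hS hS'
    have e1 := Finset.card_union_le (S.image (fun j => j / s)) (S'.image (fun j => j / s))
    have e2 := Finset.card_image_le (s := S) (f := fun j => j / s)
    have e3 := Finset.card_image_le (s := S') (f := fun j => j / s)
    omega
  constructor
  · refine ⟨?_, ?_⟩
    · rintro i j (h | h)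
      · exact Or.inl (hF.1 _ _ h)
      · exact Or.inr (hF.1 _ _ h)
    · intro a ha
      obtain ⟨S, hS, hS'⟩ := hF.2 _ (h1 a ha)
      obtain ⟨T, hT, hT'⟩ := hF.2 _ (h2 a ha)
      refine ⟨_, hcard S T hS hT, ?_⟩
      rintro a' ha' (h | h)
      · exact Finset.mem_union_left _ (Finset.mem_image.mpr
          ⟨_, hS' _ (h1 a' ha') h, hdiv ρ a' hρ⟩)
      · exact Finset.mem_union_right _ (Finset.mem_image.mpr
          ⟨_, hT' _ (h2 a' ha') h, hdiv σ a' hσ⟩)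
  · refine ⟨?_, ?_⟩
    · rintro i j (h | h)
      · exact Or.inr (hF.1 _ _ h)
      · exact Or.inl (hF.1 _ _ h)
    · intro a ha
      obtain ⟨S, hS, hS'⟩ := hF.2 _ (h1 a ha)
      obtain ⟨T, hT, hT'⟩ := hF.2 _ (h2 a ha)
      refine ⟨_, hcard S T hS hT, ?_⟩
      rintro a' ha' (h | h)
      · exact Finset.mem_union_left _ (Finset.mem_image.mpr
          ⟨_, hS' _ (h2 a' ha') h, hdiv σ a' hσ⟩)
      · exact Finset.mem_union_right _ (Finset.mem_image.mpr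
          ⟨_, hT' _ (h1 a' ha') h, hdiv ρ a' hρ⟩)

/-- splitting of the parameters -/
private lemma split_par {ε : ℝ} (hε : 0 < ε) {r : ℕ} {D : ℤ} (hr : 16 ≤ ε ^ 2 * r)
    (hD : |(D : ℝ)| ≤ (1 - ε) * r) (hr2 : Even r) (h4 : (4 : ℤ) ∣ (r : ℤ) + D) :
    ∃ (rP rN : ℕ) (dP dN : ℤ), rP + rN = r ∧ (rP : ℤ) - rN = D ∧ dP + dN = D ∧
      Even rP ∧ Even rN ∧ (4 : ℤ) ∣ (rP : ℤ) + dP ∧ (4 : ℤ) ∣ (rN : ℤ) + dN ∧
      ε * r / 2 ≤ (rP : ℝ) ∧ ε * r / 2 ≤ (rN : ℝ) ∧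
      |(dP : ℝ)| ≤ (1 - ε / 2) * rP ∧ |(dN : ℝ)| ≤ (1 - ε / 2) * rN := by
  have hr0 : (0 : ℝ) < (r : ℝ) := by
    rcases Nat.eq_zero_or_pos r with h | h
    · subst h; norm_num at hr
    · exact_mod_cast h
  have hrpos : 0 < (r : ℤ) := by exact_mod_cast hr0
  obtain ⟨k, hk⟩ := h4
  obtain ⟨l, hl⟩ := hr2
  have hDa := abs_le.1 hD
  have hDr : -(r : ℤ) ≤ D ∧ D ≤ r := by
    have h1 : -(r : ℝ) ≤ D := by nlinarith [hDa.1]
    have h2 : (D : ℝ) ≤ r := by nlinarith [hDa.2]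
    exact ⟨by exact_mod_cast h1, by exact_mod_cast h2⟩
  obtain ⟨rP, hrP⟩ : ∃ rP : ℕ, (rP : ℤ) = 2 * k := ⟨(2 * k).toNat, by omega⟩
  obtain ⟨rN, hrN⟩ : ∃ rN : ℕ, (rN : ℤ) = r - 2 * k := ⟨(r - 2 * k).toNat, by omega⟩
  have hsum : rP + rN = r := by omega
  have hdiff : (rP : ℤ) - rN = D := by omega
  have hrPR : (rP : ℝ) = (r + D) / 2 := by
    have h1 : (2 : ℤ) * rP = r + D := by omega
    have h2 : (2 : ℝ) * rP = r + D := by exact_mod_cast h1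
    linarith
  have hrNR : (rN : ℝ) = (r - D) / 2 := by
    have h1 : (2 : ℤ) * rN = r - D := by omega
    have h2 : (2 : ℝ) * rN = r - D := by exact_mod_cast h1
    linarith
  have hP1 : ε * r / 2 ≤ (rP : ℝ) := by rw [hrPR]; nlinarith [hDa.1]
  have hN1 : ε * r / 2 ≤ (rN : ℝ) := by rw [hrNR]; nlinarith [hDa.2]
  have h4P : 4 ≤ ε / 2 * rP := by nlinarith
  have h4N : 4 ≤ ε / 2 * rN := by nlinarith
  set y : ℤ := (D * rP) / r with hy
  set m : ℤ := (D * rP) % r with hm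
  have hm0 : 0 ≤ m := Int.emod_nonneg _ hrpos.ne'
  have hm1 : m < r := Int.emod_lt_of_pos _ hrpos
  have hym : (r : ℤ) * y + m = D * rP := Int.mul_ediv_add_emod _ _
  set dP : ℤ := y - (rP + y) % 4 with hdP
  have h5 : 0 ≤ (rP + y) % 4 := Int.emod_nonneg _ (by norm_num)
  have h6 : (rP + y) % 4 < 4 := Int.emod_lt_of_pos _ (by norm_num)
  have h7 : (4 : ℤ) ∣ (rP : ℤ) + dP := by omega
  -- real estimates
  have hymR : (r : ℝ) * y + m = D * rP := by exact_mod_cast hym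
  have hm0R : (0 : ℝ) ≤ m := by exact_mod_cast hm0
  have hm1R : (m : ℝ) ≤ r := by exact_mod_cast hm1.le
  set t : ℝ := (D : ℝ) * rP / r with ht
  have ht1 : t = y + m / r := by
    rw [ht, ← hymR]
    field_simp
  have hmr0 : 0 ≤ (m : ℝ) / r := div_nonneg hm0R hr0.le
  have hmr1 : (m : ℝ) / r ≤ 1 := by rw [div_le_one hr0]; exact hm1R
  have hdPR : (dP : ℝ) = y - (((rP + y) % 4 : ℤ) : ℝ) := by rw [hdP]; push_cast; ring
  have h5R : (0 : ℝ) ≤ (((rP + y) % 4 : ℤ) : ℝ) := by exact_mod_cast h5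
  have h6R : (((rP + y) % 4 : ℤ) : ℝ) ≤ 3 := by exact_mod_cast (by omega : (rP + y) % 4 ≤ (3 : ℤ))
  have htd0 : 0 ≤ t - dP := by rw [ht1, hdPR]; linarith
  have htd4 : t - dP ≤ 4 := by rw [ht1, hdPR]; linarith
  have hrP0 : (0 : ℝ) ≤ rP := Nat.cast_nonneg _
  have hrN0 : (0 : ℝ) ≤ rN := Nat.cast_nonneg _
  have htabs : |t| ≤ (1 - ε) * rP := by
    rw [ht, abs_div, abs_mul, abs_of_nonneg hrP0, abs_of_pos hr0, div_le_iff₀ hr0]
    nlinarith [mul_le_mul_of_nonneg_right hD hrP0]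
  have htabs' : |(D : ℝ) - t| ≤ (1 - ε) * rN := by
    have h8 : (D : ℝ) - t = D * rN / r := by
      rw [ht]
      have h9 : (r : ℝ) = rP + rN := by exact_mod_cast hsum.symm
      field_simp
      rw [h9]; ring
    rw [h8, abs_div, abs_mul, abs_of_nonneg hrN0, abs_of_pos hr0, div_le_iff₀ hr0]
    nlinarith [mul_le_mul_of_nonneg_right hD hrN0]
  refine ⟨rP, rN, dP, D - dP, hsum, hdiff, by ring, ?_, ?_, h7, ?_, hP1, hN1, ?_, ?_⟩
  · exact ⟨k.toNat, by omega⟩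
  · rw [Nat.even_iff]; omega
  · omega
  · have h10 := abs_le.1 htabs
    rw [abs_le]
    constructor
    · linarith [h10.1]
    · linarith [h10.2]
  · have h10 := abs_le.1 htabs'
    push_cast
    rw [abs_le]
    constructor
    · linarith [h10.1]
    · linarith [h10.2]

theorem sparse (ε : ℝ) (hε : 0 < ε) (φ : ℕ) : ∃ C R0 : ℕ, 1 ≤ C ∧ ∀ (p r : ℕ) (D : ℤ)
    (F : ℕ → ℕ → Prop), R0 ≤ r → C * r ≤ p → |(D : ℝ)| ≤ (1 - ε) * r → Even r →
      (4 : ℤ) ∣ (r : ℤ) + D → Forb p φ F →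
      ∃ A : ℕ → ℕ → ℤ, Adj p A ∧ (∀ i j, F i j → A i j = 0) ∧ Exact p A r D := by
  wlog hε1 : ε ≤ 1 generalizing ε with H
  · obtain ⟨C, R0, hC, h⟩ := H 1 one_pos le_rfl
    refine ⟨C, R0, hC, fun p r D F h1 h2 h3 => h p r D F h1 h2 (h3.trans ?_)⟩
    have : (0 : ℝ) ≤ (r : ℝ) := Nat.cast_nonneg _
    nlinarith
  obtain ⟨C, hC⟩ : ∃ C : ℕ, 8 / ε ≤ (C : ℝ) := exists_nat_ge _
  have hC8 : (8 : ℝ) ≤ (C : ℝ) := by
    have h1 : (8 : ℝ) ≤ 8 / ε := by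
      rw [le_div_iff₀ hε]; linarith
    linarith
  have hC8' : 8 ≤ C := by exact_mod_cast hC8
  obtain ⟨κ, hκ⟩ : ∃ κ : ℝ, κ = ε / (8 * C) := ⟨_, rfl⟩
  have hκ0 : 0 < κ := by rw [hκ]; positivity
  obtain ⟨n0, hd⟩ := dense κ hκ0 (2 * φ)
  obtain ⟨R1, hR1⟩ : ∃ R1 : ℕ, 16 / ε ^ 2 ≤ (R1 : ℝ) := exists_nat_ge _
  refine ⟨C, max (max n0 R1) 1, by omega, ?_⟩
  intro p r D F hr hp hD he h4 hF
  have hrn0 : n0 ≤ r := le_trans (le_trans (le_max_left _ _) (le_max_left _ _)) hr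
  have hrR1 : R1 ≤ r := le_trans (le_trans (le_max_right _ _) (le_max_left _ _)) hr
  have hr1 : 1 ≤ r := le_trans (le_max_right _ _) hr
  have hr16 : 16 ≤ ε ^ 2 * r := by
    have h1 : 16 / ε ^ 2 ≤ (r : ℝ) := hR1.trans (by exact_mod_cast hrR1)
    rw [div_le_iff₀ (by positivity)] at h1
    linarith
  have hCr : 0 < C * r := Nat.mul_pos (by omega) hr1
  have hrCr : r ≤ C * r := Nat.le_mul_of_pos_left r (by omega)
  obtain ⟨s, hsdef⟩ : ∃ s : ℕ, s = p / (C * r) := ⟨_, rfl⟩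
  have hs : 1 ≤ s := by rw [hsdef]; exact (Nat.one_le_div_iff hCr).2 hp
  have hsp1 : s * (C * r) ≤ p := by rw [hsdef]; exact Nat.div_mul_le_self _ _
  have hsp2 : p < (s + 1) * (C * r) := by
    have h1 := Nat.lt_div_mul_add hCr (a := p)
    rw [← hsdef] at h1
    rw [add_mul, one_mul]
    exact h1
  have hsp : s ≤ p := le_trans (Nat.le_mul_of_pos_right s hCr) hsp1
  have hsp3 : p < s * (2 * (C * r)) := by
    have h1 : (s + 1) * (C * r) ≤ (s + s) * (C * r) := Nat.mul_le_mul_right _ (by omega)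
    have h2 : (s + s) * (C * r) = s * (2 * (C * r)) := by ring
    omega
  -- sizes of the classes
  have hq1 : ∀ ρ < s, C * r ≤ (p - 1 - ρ) / s + 1 := by
    intro ρ hρ
    have h1 : s * (C * r - 1) ≤ p - 1 - ρ := by
      have h2 : s * (C * r - 1) = s * (C * r) - s := by rw [Nat.mul_sub, mul_one]
      omega
    have h2 : C * r - 1 ≤ (p - 1 - ρ) / s := by
      rw [Nat.le_div_iff_mul_le (by omega)]
      rw [mul_comm]; exact h1
    omega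
  have hq2 : ∀ ρ < s, (p - 1 - ρ) / s + 1 ≤ 2 * (C * r) := by
    intro ρ hρ
    have h1 : (p - 1 - ρ) / s < 2 * (C * r) := by
      rw [Nat.div_lt_iff_lt_mul (by omega)]
      have : 2 * (C * r) * s = s * (2 * (C * r)) := by ring
      omega
    omega
  have hqn : ∀ ρ < s, n0 ≤ (p - 1 - ρ) / s + 1 := fun ρ hρ =>
    le_trans hrn0 (le_trans hrCr (hq1 ρ hρ))
  obtain ⟨rP, rN, dP, dN, e1, e2, e3, e4, e5, e6, e7, e8, e9, e10, e11⟩ :=
    split_par hε hr16 hD he h4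
  have hrr : ε * r / 2 ≤ (r : ℝ) := by
    have : (0 : ℝ) ≤ (r : ℝ) := Nat.cast_nonneg _
    nlinarith
  have hDD : |(D : ℝ)| ≤ (1 - ε / 2) * r := by
    have : (0 : ℝ) ≤ (r : ℝ) := Nat.cast_nonneg _
    nlinarith
  -- the matrices of the classes
  have key : ∀ ρ, ρ < s → ∃ P N : ℕ → ℕ → ℤ, Adj ((p - 1 - ρ) / s + 1) P ∧
      Adj ((p - 1 - ρ) / s + 1) N ∧ ((p - 1 - ρ) % s = ρ → N = fun _ _ => 0) ∧
      (∀ a < (p - 1 - ρ) / s + 1,
        ∑ a' ∈ range ((p - 1 - ρ) / s + 1), (P a a' + N a a') = r) ∧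
      (∀ a < (p - 1 - ρ) / s + 1,
        ∑ a' ∈ range ((p - 1 - ρ) / s + 1), (P a a' + N a a') *
          (2 * (a' : ℤ) + 1 - ((p - 1 - ρ) / s + 1 : ℕ)) =
          D * (2 * (a : ℤ) + 1 - ((p - 1 - ρ) / s + 1 : ℕ))) ∧
      ((p - 1 - ρ) % s ≠ ρ → ∀ a < (p - 1 - ρ) / s + 1,
        ∑ a' ∈ range ((p - 1 - ρ) / s + 1), (P a a' - N a a') = D) ∧
      (∀ a a', F (ρ + s * a) (ρ + s * a') ∨ F ((p - 1 - ρ) % s + s * a) ((p - 1 - ρ) % s + s * a') →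
        P a a' = 0) ∧
      ((p - 1 - ρ) % s ≠ ρ → ∀ a a', F (ρ + s * a) ((p - 1 - ρ) % s + s * a') ∨
        F ((p - 1 - ρ) % s + s * a) (ρ + s * a') → N a a' = 0) := by
    intro ρ hρ
    obtain ⟨m1, m2, m3, m4, m5⟩ := mirror hs hsp hρ
    obtain ⟨f1, f2⟩ := forb_pair hs hF hρ m1 m4 m5
    by_cases hself : (p - 1 - ρ) % s = ρ
    · obtain ⟨P, hP1, hP2, hP3⟩ := dense_use hε hε1 hC hκ hd (hqn ρ hρ) (hq1 ρ hρ) (hq2 ρ hρ)
        hrr le_rfl hDD he h4 f1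
      refine ⟨P, fun _ _ => 0, hP1, ⟨fun _ _ => rfl, fun _ => rfl, fun _ _ => Or.inl rfl,
        fun _ _ _ => rfl⟩, fun _ => rfl, ?_, ?_, fun h => absurd hself h, hP2,
        fun h => absurd hself h⟩
      · intro a ha
        simp only [add_zero]
        exact (hP3 a ha).1
      · intro a ha
        simp only [add_zero]
        exact (hP3 a ha).2
    · obtain ⟨P, hP1, hP2, hP3⟩ := dense_use hε hε1 hC hκ hd (hqn ρ hρ) (hq1 ρ hρ) (hq2 ρ hρ)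
        e8 (by omega : rP ≤ r) e10 e4 e6 f1
      obtain ⟨N, hN1, hN2, hN3⟩ := dense_use hε hε1 hC hκ hd (hqn ρ hρ) (hq1 ρ hρ) (hq2 ρ hρ)
        e9 (by omega : rN ≤ r) e11 e5 e7 f2
      refine ⟨P, N, hP1, hN1, fun h => absurd h hself, ?_, ?_, ?_, hP2, fun _ => hN2⟩
      · intro a ha
        rw [Finset.sum_add_distrib, (hP3 a ha).1, (hN3 a ha).1]
        exact_mod_cast e1
      · intro a ha
        have h1 : ∀ a' ∈ range ((p - 1 - ρ) / s + 1), (P a a' + N a a') *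
            (2 * (a' : ℤ) + 1 - ((p - 1 - ρ) / s + 1 : ℕ)) =
            P a a' * (2 * (a' : ℤ) + 1 - ((p - 1 - ρ) / s + 1 : ℕ)) +
            N a a' * (2 * (a' : ℤ) + 1 - ((p - 1 - ρ) / s + 1 : ℕ)) := fun a' _ => by ring
        rw [Finset.sum_congr rfl h1, Finset.sum_add_distrib, (hP3 a ha).2, (hN3 a ha).2, ← e3]
        ring
      · intro _ a ha
        rw [Finset.sum_sub_distrib, (hP3 a ha).1, (hN3 a ha).1]
        exact e2
  choose! P0 N0 k1 k2 k3 k4 k5 k6 k7 k8 using key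
  obtain ⟨rep, hrep⟩ : ∃ rep : ℕ → ℕ, ∀ ρ, rep ρ = min ρ ((p - 1 - ρ) % s) := ⟨_, fun _ => rfl⟩
  have hrep1 : ∀ ρ < s, rep ρ = ρ ∨ rep ρ = (p - 1 - ρ) % s := by
    intro ρ _
    rw [hrep]
    exact min_choice _ _
  have hrep2 : ∀ ρ < s, rep ρ < s := by
    intro ρ hρ
    rw [hrep]
    exact lt_of_le_of_lt (min_le_left _ _) hρ
  have hrepq : ∀ ρ < s, (p - 1 - rep ρ) / s = (p - 1 - ρ) / s := by
    intro ρ hρ
    rcases hrep1 ρ hρ with h | h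
    · rw [h]
    · rw [h]; exact (mirror hs hsp hρ).2.2.1
  have hrepm : ∀ ρ < s, rep ((p - 1 - ρ) % s) = rep ρ := by
    intro ρ hρ
    rw [hrep, hrep, (mirror hs hsp hρ).2.1, min_comm]
  have hrepself : ∀ ρ < s, ((p - 1 - rep ρ) % s = rep ρ ↔ (p - 1 - ρ) % s = ρ) := by
    intro ρ hρ
    rcases hrep1 ρ hρ with h | h
    · rw [h]
    · rw [h, (mirror hs hsp hρ).2.1]
      exact eq_comm
  obtain ⟨g1, g2⟩ := classRed hs hsp r D (fun ρ => P0 (rep ρ)) (fun ρ => N0 (rep ρ))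
    (fun ρ hρ => by
      have := k1 (rep ρ) (hrep2 ρ hρ)
      rw [hrepq ρ hρ] at this
      exact this)
    (fun ρ hρ => by
      have := k2 (rep ρ) (hrep2 ρ hρ)
      rw [hrepq ρ hρ] at this
      exact this)
    (fun ρ hρ => by
      show P0 (rep ((p - 1 - ρ) % s)) = P0 (rep ρ)
      rw [hrepm ρ hρ])
    (fun ρ hρ => by
      show N0 (rep ((p - 1 - ρ) % s)) = N0 (rep ρ)
      rw [hrepm ρ hρ])
    (fun ρ hρ h => k3 (rep ρ) (hrep2 ρ hρ) ((hrepself ρ hρ).2 h))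
    (fun ρ hρ => by
      have := k4 (rep ρ) (hrep2 ρ hρ)
      rw [hrepq ρ hρ] at this
      exact this)
    (fun ρ hρ => by
      have := k5 (rep ρ) (hrep2 ρ hρ)
      rw [hrepq ρ hρ] at this
      exact this)
    (fun ρ hρ h => by
      have := k6 (rep ρ) (hrep2 ρ hρ) (fun h' => h ((hrepself ρ hρ).1 h'))
      rw [hrepq ρ hρ] at this
      exact this)
  refine ⟨_, g1, ?_, g2⟩
  intro i j hij
  unfold glue
  by_cases hb : i < p ∧ j < p
  · rw [if_pos hb]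
    obtain ⟨ρ, hρdef⟩ : ∃ ρ, ρ = i % s := ⟨_, rfl⟩
    have hρ : ρ < s := by rw [hρdef]; exact Nat.mod_lt _ hs
    have hi : ρ + s * (i / s) = i := by rw [hρdef]; exact Nat.mod_add_div _ _
    have hj : j % s + s * (j / s) = j := Nat.mod_add_div _ _
    have hmm := (mirror hs hsp hρ).2.1
    rw [← hρdef]
    have t1 : (if ρ = j % s then P0 (rep ρ) (i / s) (j / s) else 0) = 0 := by
      by_cases h : ρ = j % s
      · rw [if_pos h]
        rw [← h] at hj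
        apply k7 (rep ρ) (hrep2 ρ hρ)
        rcases hrep1 ρ hρ with h' | h'
        · left
          rw [h', hi, hj]; exact hij
        · right
          rw [h', hmm, hi, hj]; exact hij
      · rw [if_neg h]
    have t2 : (if j % s = (p - 1 - ρ) % s then N0 (rep ρ) (i / s) (j / s) else 0) = 0 := by
      by_cases h : j % s = (p - 1 - ρ) % s
      · rw [if_pos h]
        by_cases hself : (p - 1 - ρ) % s = ρ
        · rw [k3 (rep ρ) (hrep2 ρ hρ) ((hrepself ρ hρ).2 hself)]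
        · apply k8 (rep ρ) (hrep2 ρ hρ) (fun h' => hself ((hrepself ρ hρ).1 h'))
          rw [h] at hj
          rcases hrep1 ρ hρ with h' | h'
          · left
            rw [h', hi, hj]; exact hij
          · right
            rw [h', hmm, hi, hj]; exact hij
      · rw [if_neg h]
    rw [t1, t2, add_zero]
  · rw [if_neg hb]

end HDT
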