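import Pool.Agent.Helper23.HDT.Defs

/-! # One smoothing step

PLAN. Let `m = n - k` (`≥ n / 2`, `≥ k`), `P s = ∑_{i ≤ s} f i` for `s < n`; `P (n-1) = 0` and
`∑_{s<n} P s = ∑_{i<n} (n - i) f i = 0` (from `h0`, `h1`). `|P s - P s'| ≤ |s - s'| Λ`,
`|P s| ≤ (s + 1) Λ` and `|P s| ≤ (n - 1 - s) Λ`.
Let `S = ∑_{t<m} P t`; `S = - ∑_{m ≤ t < n} P t`, so `|S| ≤ k * (k Λ)`.
`Y t = ∑_{t' ≤ t} (m P t' - S)` for `t < m` (`Y (m-1) = 0`), `q = k L m`,
`c t = Y t / q - Y (t-1) / q` (integer floor division, `Y (-1) = 0`), `c t = 0` for `t ≥ m`.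
Then `∑_{t<m} c t = Y (m-1) / q = 0`, and for `a ≤ b < m`:
`|∑_{a≤t≤b} c t - (Y b - Y (a-1)) / q| < 1` (real quotient), i.e.
`|q ∑_{a≤t≤b} c t - ∑_{a≤t≤b} (m P t - S)| < q`.
Put `μ`-bound: `|S| / m ≤ k Λ` because `|S| ≤ k² Λ` and `m ≥ k`.
(i) `|c t| k L ≤ |P t| + |S|/m + k L ≤ Φ + k Λ + k L`.
(ii) prefix sums of `f'`: `∑_{i≤s} f' i = P s - L ∑_{t ∈ window} c t` where `window` is
`(s - k, s] ∩ [0, m)`. `k L ∑_window c = ∑_window (P t - S/m) + error`, `|error| ≤ k L`.
 - `k - 1 ≤ s < m`: the window has `k` elements, `|P t - P s| ≤ k Λ`; so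
   `|P s - L ∑ c| ≤ k Λ + k Λ + L`.
 - `s < k - 1`: `|P t| ≤ k Λ` in the window and at `s`: `|..| ≤ k Λ + (k Λ + k Λ) + L`.
 - `s ≥ m`: `|P s| ≤ k Λ`, and `|P t| ≤ 2 k Λ` for `t > s - k ≥ n - 2k`:
   `|..| ≤ k Λ + 2 k Λ + k Λ + L`.
 All are `≤ 4 k Λ + L`.
(iii) `f' i = f i - L (c i - c (i - k))`:
 - `k ≤ i < m`: `k L |c i - c (i-k)| ≤ |P i - P (i-k)| + 2 k L ≤ k Λ + 2 k L` → `|f' i| ≤ 2 Λ + 2 L`;
 - `i < k` (then `i < m`): `k L |c i| ≤ |P i| + k Λ + k L ≤ 2 k Λ + k L` → `≤ 3 Λ + L`;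
 - `i ≥ m` (then `i ≥ k`): `k L |c (i-k)| ≤ |P (i-k)| + k Λ + k L ≤ 3 k Λ + k L` → `≤ 4 Λ + L`.
(if `i < k` and `i ≥ m` both hold then both terms vanish, which cannot happen as `k ≤ m` anyway.)
(iv) `∑_{i<n} (c i - [k ≤ i] c (i-k)) = 0` and `∑ i * (...) = -k ∑ c = 0`. -/

namespace HDT

open Finset

private lemma st_diff {N Λ : ℕ} (f : ℕ → ℤ) (hΛ : ∀ i < N, |f i| ≤ Λ) (v : ℕ) :
    ∀ u, v ≤ u → u ≤ N →
      |∑ i ∈ range u, f i - ∑ i ∈ range v, f i| ≤ ((u : ℤ) - v) * Λ := by
  intro u hu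
  induction u, hu using Nat.le_induction with
  | base =>
    intro _
    simp
  | succ u hu ih =>
    intro hN
    have h1 := ih (by omega)
    have h2 := hΛ u (by omega)
    rw [Finset.sum_range_succ]
    have h3 : |∑ i ∈ range u, f i + f u - ∑ i ∈ range v, f i| ≤
        |∑ i ∈ range u, f i - ∑ i ∈ range v, f i| + |f u| := by
      have : ∑ i ∈ range u, f i + f u - ∑ i ∈ range v, f i =
          (∑ i ∈ range u, f i - ∑ i ∈ range v, f i) + f u := by ring
      rw [this]
      exact abs_add_le _ _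
    push_cast
    nlinarith

private lemma st_abel (f : ℕ → ℤ) (N : ℕ) :
    ∑ s ∈ range N, ∑ i ∈ range (s + 1), f i =
      N * ∑ i ∈ range N, f i - ∑ i ∈ range N, (i : ℤ) * f i := by
  induction N with
  | zero => simp
  | succ N ih =>
    rw [Finset.sum_range_succ, ih, Finset.sum_range_succ (fun i => (i : ℤ) * f i),
      Finset.sum_range_succ f N]
    push_cast
    ring

private lemma st_shift (c : ℕ → ℤ) (k s : ℕ) :
    ∑ i ∈ range s, (if k ≤ i then c (i - k) else 0) = ∑ i ∈ range (s - k), c i := by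
  induction s with
  | zero => simp
  | succ s ih =>
    rw [Finset.sum_range_succ, ih]
    by_cases h : k ≤ s
    · have h1 : s + 1 - k = (s - k) + 1 := by omega
      rw [if_pos h, h1, Finset.sum_range_succ]
    · have h1 : s + 1 - k = s - k := by omega
      rw [if_neg h, h1, add_zero]

private lemma st_shift_mul (c : ℕ → ℤ) (k s : ℕ) :
    ∑ i ∈ range s, (i : ℤ) * (if k ≤ i then c (i - k) else 0) =
      ∑ i ∈ range (s - k), ((i : ℤ) + k) * c i := by
  induction s with
  | zero => simp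
  | succ s ih =>
    rw [Finset.sum_range_succ, ih]
    by_cases h : k ≤ s
    · have h1 : s + 1 - k = (s - k) + 1 := by omega
      have h2 : ((s - k : ℕ) : ℤ) + k = s := by
        have : s - k + k = s := by omega
        exact_mod_cast this
      rw [if_pos h, h1, Finset.sum_range_succ, h2]
    · have h1 : s + 1 - k = s - k := by omega
      rw [if_neg h, h1, mul_zero, add_zero]

private lemma st_div {q : ℤ} (hq : 0 < q) (x y : ℤ) : |q * (y / q - x / q) - (y - x)| ≤ q := by
  have h1 := Int.emod_add_mul_ediv x q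
  have h2 := Int.emod_add_mul_ediv y q
  have h3 := Int.emod_nonneg x hq.ne'
  have h4 := Int.emod_nonneg y hq.ne'
  have h5 := Int.emod_lt_of_pos x hq
  have h6 := Int.emod_lt_of_pos y hq
  rw [abs_le]
  constructor <;> nlinarith

theorem stage {n k L Λ Φ : ℕ} (hk : 1 ≤ k) (hkn : 2 * k ≤ n) (hL : 1 ≤ L) (f : ℕ → ℤ)
    (h0 : ∑ i ∈ range n, f i = 0) (h1 : ∑ i ∈ range n, (i : ℤ) * f i = 0)
    (hΛ : ∀ i < n, |f i| ≤ Λ) (hΦ : ∀ s < n, |∑ i ∈ range (s + 1), f i| ≤ Φ) :
    ∃ c : ℕ → ℤ, (∀ t, n - k ≤ t → c t = 0) ∧ ∑ t ∈ range (n - k), c t = 0 ∧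
      (∀ t, |c t| * ((k : ℤ) * L) ≤ Φ + k * Λ + k * L) ∧
      (∑ i ∈ range n, (f i - L * (c i - if k ≤ i then c (i - k) else 0)) = 0) ∧
      (∑ i ∈ range n, (i : ℤ) * (f i - L * (c i - if k ≤ i then c (i - k) else 0)) = 0) ∧
      (∀ i < n, |f i - L * (c i - if k ≤ i then c (i - k) else 0)| ≤ 4 * Λ + 2 * L) ∧
      (∀ s < n, |∑ i ∈ range (s + 1), (f i - L * (c i - if k ≤ i then c (i - k) else 0))| ≤
        4 * k * Λ + L) := by
  obtain ⟨m, rfl⟩ : ∃ m, n = m + k := ⟨n - k, by omega⟩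
  have hkm : k ≤ m := by omega
  rw [Nat.add_sub_cancel]
  have hk0 : (1 : ℤ) ≤ k := by exact_mod_cast hk
  have hm1 : (1 : ℤ) ≤ m := by
    have : 1 ≤ m := by omega
    exact_mod_cast this
  have hL0 : (1 : ℤ) ≤ L := by exact_mod_cast hL
  have hkmZ : (k : ℤ) ≤ m := by exact_mod_cast hkm
  have hΛ0 : (0 : ℤ) ≤ Λ := by positivity
  obtain ⟨PP, hPP⟩ : ∃ PP : ℕ → ℤ, PP = fun s => ∑ i ∈ range s, f i := ⟨_, rfl⟩
  have hP0 : PP 0 = 0 := by rw [hPP]; simp
  have hPn : PP (m + k) = 0 := by rw [hPP]; exact h0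
  have hdiff : ∀ v u, v ≤ u → u ≤ m + k → |PP u - PP v| ≤ ((u : ℤ) - v) * Λ := by
    intro v u hvu hu
    rw [hPP]
    exact st_diff f hΛ v u hvu hu
  have hPlow : ∀ u, u ≤ m + k → |PP u| ≤ (u : ℤ) * Λ := by
    intro u hu
    have := hdiff 0 u (Nat.zero_le _) hu
    rw [hP0] at this
    simpa using this
  have hPhigh : ∀ u, u ≤ m + k → |PP u| ≤ ((m : ℤ) + k - u) * Λ := by
    intro u hu
    have := hdiff u (m + k) hu le_rfl
    rw [hPn, zero_sub, abs_neg] at this
    push_cast at this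
    exact this
  obtain ⟨S, hS⟩ : ∃ S : ℤ, S = ∑ t ∈ range m, PP (t + 1) := ⟨_, rfl⟩
  have hS2 : S + ∑ j ∈ range k, PP (m + j + 1) = 0 := by
    rw [hS, ← Finset.sum_range_add (fun t => PP (t + 1)) m k, hPP]
    rw [st_abel f (m + k), h0, h1]
    ring
  have hSb : |S| ≤ (k : ℤ) * (k * Λ) := by
    have e1 : S = - ∑ j ∈ range k, PP (m + j + 1) := by linarith
    rw [e1, abs_neg]
    refine (Finset.abs_sum_le_sum_abs _ _).trans ?_
    have e2 : ∀ j ∈ range k, |PP (m + j + 1)| ≤ (k : ℤ) * Λ := by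
      intro j hj
      have hj' := Finset.mem_range.1 hj
      refine (hPhigh (m + j + 1) (by omega)).trans ?_
      push_cast
      have : (0 : ℤ) ≤ j := by positivity
      nlinarith
    refine (Finset.sum_le_sum e2).trans ?_
    rw [Finset.sum_const, Finset.card_range, nsmul_eq_mul]
  have hSm : |S| ≤ (m : ℤ) * (k * Λ) := hSb.trans (by
    have : (0 : ℤ) ≤ (k : ℤ) * Λ := by positivity
    nlinarith)
  obtain ⟨Y, hY⟩ : ∃ Y : ℕ → ℤ, Y = fun a => ∑ t ∈ range a, ((m : ℤ) * PP (t + 1) - S) :=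
    ⟨_, rfl⟩
  have hY0 : Y 0 = 0 := by rw [hY]; simp
  have hYs : ∀ a, Y (a + 1) = Y a + ((m : ℤ) * PP (a + 1) - S) := by
    intro a
    rw [hY]
    exact Finset.sum_range_succ _ _
  have hYm : Y m = 0 := by
    rw [hY]
    simp only
    rw [Finset.sum_sub_distrib, ← Finset.mul_sum, ← hS, Finset.sum_const, Finset.card_range,
      nsmul_eq_mul, sub_self]
  obtain ⟨q, hq⟩ : ∃ q : ℤ, q = k * L * m := ⟨_, rfl⟩
  have hq0 : 0 < q := by rw [hq]; positivity
  obtain ⟨Z, hZ⟩ : ∃ Z : ℕ → ℤ, Z = fun a => Y (min a m) / q := ⟨_, rfl⟩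
  have hZ0 : Z 0 = 0 := by
    rw [hZ]
    simp only [Nat.zero_min]
    rw [hY0, Int.zero_ediv]
  have hZm : ∀ a, m ≤ a → Z a = 0 := by
    intro a ha
    rw [hZ]
    simp only
    rw [min_eq_right ha, hYm, Int.zero_ediv]
  have herr : ∀ a b, a ≤ m → b ≤ m → |q * (Z b - Z a) - (Y b - Y a)| ≤ q := by
    intro a b ha hb
    rw [hZ]
    simp only
    rw [min_eq_left ha, min_eq_left hb]
    exact st_div hq0 _ _
  obtain ⟨c, hc⟩ : ∃ c : ℕ → ℤ, c = fun t => Z (t + 1) - Z t := ⟨_, rfl⟩
  have hcZ : ∀ a, ∑ t ∈ range a, c t = Z a := by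
    intro a
    rw [hc, Finset.sum_range_sub, hZ0, sub_zero]
  have hc0 : ∀ t, m ≤ t → c t = 0 := by
    intro t ht
    rw [hc]
    simp only
    rw [hZm t ht, hZm (t + 1) (by omega), sub_zero]
  -- the basic bound
  have hcb : ∀ t, t < m → |q * c t - ((m : ℤ) * PP (t + 1) - S)| ≤ q := by
    intro t ht
    have e1 := herr t (t + 1) (by omega) (by omega)
    rw [hYs t, add_sub_cancel_left] at e1
    rw [hc]
    exact e1
  have hcb2 : ∀ t, t < m → |c t| * ((k : ℤ) * L) ≤ |PP (t + 1)| + k * Λ + k * L := by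
    intro t ht
    have e1 := hcb t ht
    have e2 : |q * c t| ≤ q + (m * |PP (t + 1)| + |S|) := by
      have e3 : q * c t = (q * c t - ((m : ℤ) * PP (t + 1) - S)) + ((m : ℤ) * PP (t + 1) - S) := by
        ring
      rw [e3]
      refine (abs_add_le _ _).trans (add_le_add e1 ?_)
      refine (abs_sub _ _).trans ?_
      rw [abs_mul, abs_of_pos (by linarith : (0 : ℤ) < m)]
    rw [abs_mul, abs_of_pos hq0, hq] at e2
    have e4 : (m : ℤ) * (|c t| * ((k : ℤ) * L)) ≤ m * (|PP (t + 1)| + k * Λ + k * L) := by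
      nlinarith
    exact le_of_mul_le_mul_left e4 (by linarith)
  have hpre : ∀ s, ∑ i ∈ range s, (f i - L * (c i - if k ≤ i then c (i - k) else 0)) =
      PP s - L * (Z s - Z (s - k)) := by
    intro s
    rw [Finset.sum_sub_distrib, ← Finset.mul_sum, Finset.sum_sub_distrib, hcZ,
      st_shift, hcZ, hPP]
  refine ⟨c, hc0, ?_, ?_, ?_, ?_, ?_, ?_⟩
  · rw [hcZ, hZm m le_rfl]
  · intro t
    by_cases ht : t < m
    · refine (hcb2 t ht).trans ?_
      have e1 : |PP (t + 1)| ≤ Φ := by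
        have := hΦ t (by omega)
        rw [hPP]
        exact this
      linarith
    · rw [hc0 t (by omega), abs_zero, zero_mul]
      positivity
  · rw [hpre, hPn, hZm (m + k) (by omega), Nat.add_sub_cancel, hZm m le_rfl]
    ring
  · have e1 : ∑ i ∈ range (m + k), (i : ℤ) * (f i - L * (c i - if k ≤ i then c (i - k) else 0)) =
        ∑ i ∈ range (m + k), (i : ℤ) * f i - L * (∑ i ∈ range (m + k), (i : ℤ) * c i -
          ∑ i ∈ range (m + k), (i : ℤ) * (if k ≤ i then c (i - k) else 0)) := by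
      rw [← Finset.sum_sub_distrib, Finset.mul_sum, ← Finset.sum_sub_distrib]
      refine Finset.sum_congr rfl fun i _ => ?_
      ring
    have e2 : ∑ i ∈ range (m + k), (i : ℤ) * c i = ∑ i ∈ range m, (i : ℤ) * c i := by
      rw [Finset.sum_range_add, Finset.sum_eq_zero (s := range k), add_zero]
      intro j _
      rw [hc0 (m + j) (by omega), mul_zero]
    have e3 : ∑ i ∈ range m, ((i : ℤ) + k) * c i = ∑ i ∈ range m, (i : ℤ) * c i := by
      have e4 : ∑ i ∈ range m, ((i : ℤ) + k) * c i =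
          ∑ i ∈ range m, (i : ℤ) * c i + k * ∑ i ∈ range m, c i := by
        rw [Finset.mul_sum, ← Finset.sum_add_distrib]
        refine Finset.sum_congr rfl fun i _ => ?_
        ring
      rw [e4, hcZ, hZm m le_rfl]
      ring
    rw [e1, e2, st_shift_mul, Nat.add_sub_cancel, e3, h1]
    ring
  · intro i hi
    have hfi := hΛ i hi
    have hkL : (0 : ℤ) < k := by linarith
    by_cases hik : k ≤ i
    · rw [if_pos hik]
      by_cases him : i < m
      · -- both terms
        have e1 := hcb i him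
        have e2 := hcb (i - k) (by omega)
        have e3 := hdiff (i - k + 1) (i + 1) (by omega) (by omega)
        have e4 : ((i + 1 : ℕ) : ℤ) - ((i - k + 1 : ℕ) : ℤ) = k := by
          have : i + 1 = (i - k + 1) + k := by omega
          have h : ((i + 1 : ℕ) : ℤ) = (((i - k + 1) + k : ℕ) : ℤ) := by exact_mod_cast this
          rw [h]
          push_cast
          ring
        rw [e4] at e3
        have e5 : |q * (c i - c (i - k))| ≤ q + q + m * (k * Λ) := by
          have e6 : q * (c i - c (i - k)) = (q * c i - ((m : ℤ) * PP (i + 1) - S)) -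
              (q * c (i - k) - ((m : ℤ) * PP (i - k + 1) - S)) +
              m * (PP (i + 1) - PP (i - k + 1)) := by ring
          rw [e6]
          refine (abs_add_le _ _).trans (add_le_add ((abs_sub _ _).trans (add_le_add e1 e2)) ?_)
          rw [abs_mul, abs_of_pos (by linarith : (0 : ℤ) < m)]
          exact mul_le_mul_of_nonneg_left e3 (by linarith)
        rw [abs_mul, abs_of_pos hq0, hq] at e5
        have e7 : (k * m : ℤ) * (L * |c i - c (i - k)|) ≤ (k * m) * (Λ + 2 * L) := by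
          nlinarith
        have e8 : L * |c i - c (i - k)| ≤ Λ + 2 * L :=
          le_of_mul_le_mul_left e7 (by positivity)
        have e9 : |f i - L * (c i - c (i - k))| ≤ |f i| + L * |c i - c (i - k)| := by
          refine (abs_sub _ _).trans ?_
          rw [abs_mul, abs_of_pos (by linarith : (0 : ℤ) < L)]
        linarith
      · have e1 := hcb2 (i - k) (by omega)
        have e2 := hPhigh (i - k + 1) (by omega)
        have e4 : (m : ℤ) + k - ((i - k + 1 : ℕ) : ℤ) ≤ 2 * k := by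
          have : m + k ≤ (i - k + 1) + 2 * k := by omega
          have h : ((m + k : ℕ) : ℤ) ≤ (((i - k + 1) + 2 * k : ℕ) : ℤ) := by exact_mod_cast this
          push_cast at h ⊢
          linarith
        have e5 : |PP (i - k + 1)| ≤ 2 * k * Λ := e2.trans (by nlinarith)
        rw [hc0 i (by omega), zero_sub]
        have e7 : (k : ℤ) * (L * |c (i - k)|) ≤ k * (3 * Λ + L) := by nlinarith
        have e8 : L * |c (i - k)| ≤ 3 * Λ + L := le_of_mul_le_mul_left e7 hkL
        have e9 : |f i - L * (-c (i - k))| ≤ |f i| + L * |c (i - k)| := by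
          refine (abs_sub _ _).trans ?_
          rw [abs_mul, abs_neg, abs_of_pos (by linarith : (0 : ℤ) < L)]
        linarith
    · rw [if_neg hik, sub_zero]
      have e1 := hcb2 i (by omega)
      have e2 := hPlow (i + 1) (by omega)
      have e4 : ((i + 1 : ℕ) : ℤ) ≤ k := by
        have : i + 1 ≤ k := by omega
        exact_mod_cast this
      have e5 : |PP (i + 1)| ≤ k * Λ := e2.trans (by nlinarith)
      have e7 : (k : ℤ) * (L * |c i|) ≤ k * (2 * Λ + L) := by nlinarith
      have e8 : L * |c i| ≤ 2 * Λ + L := le_of_mul_le_mul_left e7 hkL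
      have e9 : |f i - L * c i| ≤ |f i| + L * |c i| := by
        refine (abs_sub _ _).trans ?_
        rw [abs_mul, abs_of_pos (by linarith : (0 : ℤ) < L)]
      linarith
  · intro s hs
    rw [hpre]
    -- the window
    obtain ⟨b, hb⟩ : ∃ b, b = min (s + 1) m := ⟨_, rfl⟩
    obtain ⟨a, ha⟩ : ∃ a, a = s + 1 - k := ⟨_, rfl⟩
    have hZb : Z (s + 1) = Z b := by
      rcases le_or_gt (s + 1) m with h | h
      · rw [hb, min_eq_left h]
      · rw [hb, min_eq_right h.le, hZm (s + 1) h.le, hZm m le_rfl]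
    have hbm : b ≤ m := by rw [hb]; exact min_le_right _ _
    have hbs : b ≤ s + 1 := by rw [hb]; exact min_le_left _ _
    have ham : a ≤ m := by omega
    have hab : a ≤ b := by
      rw [hb, ha]
      exact le_min (by omega) (by omega)
    have hbak : b ≤ a + k := by omega
    rw [hZb, ← ha]
    have e1 := herr a b ham hbm
    -- the sum over the window
    obtain ⟨d, hd⟩ : ∃ d, b = a + d := ⟨b - a, by omega⟩
    have hdk : d ≤ k := by omega
    have hYd : Y b - Y a = ∑ j ∈ range d, ((m : ℤ) * PP (a + j + 1) - S) := by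
      rw [hd, hY]
      simp only
      rw [Finset.sum_range_add, add_sub_cancel_left]
    have e2 : |(k : ℤ) * PP (s + 1) - ∑ j ∈ range d, PP (a + j + 1)| ≤ 2 * (k * (k * Λ)) := by
      have e3 : (k : ℤ) * PP (s + 1) - ∑ j ∈ range d, PP (a + j + 1) =
          ∑ j ∈ range d, (PP (s + 1) - PP (a + j + 1)) + ((k : ℤ) - d) * PP (s + 1) := by
        rw [Finset.sum_sub_distrib, Finset.sum_const, Finset.card_range, nsmul_eq_mul]
        ring
      rw [e3]
      have e4 : |∑ j ∈ range d, (PP (s + 1) - PP (a + j + 1))| ≤ k * (k * Λ) := by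
        refine (Finset.abs_sum_le_sum_abs _ _).trans ?_
        have e5 : ∀ j ∈ range d, |PP (s + 1) - PP (a + j + 1)| ≤ (k : ℤ) * Λ := by
          intro j hj
          have hj' := Finset.mem_range.1 hj
          refine (hdiff (a + j + 1) (s + 1) (by omega) (by omega)).trans ?_
          have e6 : ((s + 1 : ℕ) : ℤ) - ((a + j + 1 : ℕ) : ℤ) ≤ k := by
            have : s + 1 ≤ (a + j + 1) + k := by omega
            have h : ((s + 1 : ℕ) : ℤ) ≤ (((a + j + 1) + k : ℕ) : ℤ) := by exact_mod_cast this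
            push_cast at h ⊢
            linarith
          nlinarith
        refine (Finset.sum_le_sum e5).trans ?_
        rw [Finset.sum_const, Finset.card_range, nsmul_eq_mul]
        have : (d : ℤ) ≤ k := by exact_mod_cast hdk
        have h0 : (0 : ℤ) ≤ k * Λ := by positivity
        nlinarith
      have e5 : |((k : ℤ) - d) * PP (s + 1)| ≤ k * (k * Λ) := by
        have hd0 : (0 : ℤ) ≤ (k : ℤ) - d := by
          have : (d : ℤ) ≤ k := by exact_mod_cast hdk
          linarith
        have hd1 : (k : ℤ) - d ≤ k := by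
          have : (0 : ℤ) ≤ d := by positivity
          linarith
        rw [abs_mul, abs_of_nonneg hd0]
        rcases Nat.lt_or_ge d k with hlt | hge
        · have e6 : |PP (s + 1)| ≤ k * Λ := by
            by_cases hsm : s + 1 ≤ m
            · -- then `b = s + 1`, so `s + 1 < k`
              have hb' : b = s + 1 := by rw [hb, min_eq_left hsm]
              have : s + 1 ≤ k := by omega
              refine (hPlow (s + 1) (by omega)).trans ?_
              have h : ((s + 1 : ℕ) : ℤ) ≤ k := by exact_mod_cast this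
              nlinarith
            · refine (hPhigh (s + 1) (by omega)).trans ?_
              have : m ≤ s + 1 := by omega
              have h : (m : ℤ) ≤ ((s + 1 : ℕ) : ℤ) := by exact_mod_cast this
              nlinarith
          have h0 : (0 : ℤ) ≤ |PP (s + 1)| := abs_nonneg _
          nlinarith
        · have : (k : ℤ) - d = 0 := by
            have : d = k := by omega
            rw [this, sub_self]
          rw [this, zero_mul]
          positivity
      refine (abs_add_le _ _).trans ?_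
      linarith
    have e3 : (k * m : ℤ) * (PP (s + 1) - L * (Z b - Z a)) =
        m * ((k : ℤ) * PP (s + 1) - ∑ j ∈ range d, PP (a + j + 1)) + d * S -
          (q * (Z b - Z a) - (Y b - Y a)) := by
      rw [hYd, Finset.sum_sub_distrib, ← Finset.mul_sum, Finset.sum_const, Finset.card_range,
        nsmul_eq_mul, hq]
      ring
    have e4 : |(k * m : ℤ) * (PP (s + 1) - L * (Z b - Z a))| ≤
        m * (2 * (k * (k * Λ))) + k * (m * (k * Λ)) + q := by
      rw [e3]
      refine (abs_sub _ _).trans (add_le_add ((abs_add_le _ _).trans (add_le_add ?_ ?_)) e1)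
      · rw [abs_mul, abs_of_pos (by linarith : (0 : ℤ) < m)]
        exact mul_le_mul_of_nonneg_left e2 (by linarith)
      · rw [abs_mul, abs_of_nonneg (by positivity : (0 : ℤ) ≤ d)]
        have : (d : ℤ) ≤ k := by exact_mod_cast hdk
        exact mul_le_mul this hSm (abs_nonneg _) (by positivity)
    have hkm0 : (0 : ℤ) < k * m := by positivity
    rw [abs_mul, abs_of_pos hkm0, hq] at e4
    have e5 : (k * m : ℤ) * |PP (s + 1) - L * (Z b - Z a)| ≤ (k * m) * (4 * k * Λ + L) := by
      refine e4.trans ?_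
      have : (0 : ℤ) ≤ k * m * (k * Λ) := by positivity
      nlinarith
    exact le_of_mul_le_mul_left e5 hkm0

end HDT
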